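import Pool.Agent.H74.PA.Stm
import Pool.Agent.H74.G.R_seed8.W782.SC.PSI

/-!
# PA-AFF: a smooth family of diffeomorphisms which are affine near a point
-/
set_option autoImplicit false

open scoped Manifold ContDiff Topology NNReal
open Set Filter

universe u

namespace Pool.Agent.H74.PA.Aff

open Pool.Agent.H718R2.G Pool.Agent.W564.SC Pool.Agent.H74.PA
open Pool.Agent.W782.SC (perturb)

/-- The family in `ℝⁿ`, parameters in `E`. -/
theorem local_family (n : ℕ) {E : Type} [NormedAddCommGroup E] [NormedSpace ℝ E]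
    [FiniteDimensional ℝ E] (W : V n → (E →L[ℝ] V n)) (hWs : ContDiff ℝ ∞ W)
    (hW0 : ∀ v, v ∉ Metric.closedBall (0 : V n) (1 / 2) → W v = 0) :
    ∃ (F F' : E × V n → V n) (κ : ℝ), 0 < κ ∧
    ContDiff ℝ ∞ F ∧ ContDiff ℝ ∞ F' ∧ (∀ x v, F' (x, F (x, v)) = v) ∧
    (∀ x v, F (x, F' (x, v)) = v) ∧
    (∀ x v, v ∉ Metric.closedBall (0 : V n) (1 / 2) → F (x, v) = v) ∧
    (∀ x v, v ∉ Metric.closedBall (0 : V n) (1 / 2) → F' (x, v) = v) ∧
    (∀ v, F (0, v) = v) ∧
    ∀ x v, ‖x‖ < κ → F (x, v) = v + W v x := by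
  have hWc : HasCompactSupport W :=
    HasCompactSupport.intro (isCompact_closedBall (0 : V n) (1 / 2)) fun v hv => hW0 v hv
  obtain ⟨C, hC⟩ := ContDiff.lipschitzWith_of_hasCompactSupport (𝕂 := ℝ) (n := ∞)
    hWc hWs (by simp)
  obtain ⟨B₀, hB₀⟩ := hWc.exists_bound_of_continuous hWs.continuous
  obtain ⟨B, hB0, hB⟩ : ∃ B : ℝ, 0 ≤ B ∧ ∀ v, ‖W v‖ ≤ B :=
    ⟨max B₀ 0, le_max_right _ _, fun v => (hB₀ v).trans (le_max_left _ _)⟩
  have hC0 : (0 : ℝ) ≤ C := C.coe_nonneg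
  obtain ⟨c, hc0, hcC⟩ : ∃ c : ℝ, 0 < c ∧ 2 * c * C ≤ 1 / 4 := by
    refine ⟨1 / (8 * (C + 1)), by positivity, ?_⟩
    have : 2 * (1 / (8 * ((C : ℝ) + 1))) * C = C / (4 * (C + 1)) := by
      field_simp
      ring
    rw [this, div_le_div_iff₀ (by positivity) (by norm_num)]
    nlinarith
  obtain ⟨η, hηs, L, hL, hηb, hηx⟩ : ∃ η : E → E, ContDiff ℝ ∞ η ∧ ∃ L : ℝ≥0,
      LipschitzWith L η ∧ (∀ x, ‖η x‖ ≤ 2 * c) ∧ ∀ x, ‖x‖ < c → η x = x := by
    let γ : ContDiffBump (0 : E) := ⟨c, 2 * c, hc0, by linarith⟩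
    have hγs : ContDiff ℝ ∞ (γ : E → ℝ) := γ.contDiff
    have hηs : ContDiff ℝ ∞ (fun x : E => γ x • x) := hγs.smul contDiff_id
    have hηc : HasCompactSupport (fun x : E => γ x • x) := γ.hasCompactSupport.smul_right
    obtain ⟨L, hL⟩ := ContDiff.lipschitzWith_of_hasCompactSupport (𝕂 := ℝ) (n := ∞)
      hηc hηs (by simp)
    refine ⟨fun x => γ x • x, hηs, L, hL, ?_, ?_⟩
    · intro x
      by_cases hx : 2 * c ≤ ‖x‖
      · have h0 : γ x = 0 := by
          apply γ.zero_of_le_dist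
          rw [dist_zero_right]
          exact hx
        simp only
        rw [h0, zero_smul, norm_zero]
        positivity
      · simp only
        rw [norm_smul, Real.norm_eq_abs, abs_of_nonneg γ.nonneg]
        calc γ x * ‖x‖ ≤ 1 * (2 * c) := mul_le_mul γ.le_one (not_le.1 hx).le (norm_nonneg _)
              zero_le_one
          _ = 2 * c := one_mul _
    · intro x hx
      simp only
      rw [γ.one_of_mem_closedBall, one_smul]
      rw [Metric.mem_closedBall, dist_zero_right]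
      exact hx.le
  have hη0 : η 0 = 0 := hηx 0 (by rw [norm_zero]; exact hc0)
  have hL0 : (0 : ℝ) ≤ L := L.coe_nonneg
  obtain ⟨t, ht0, htL⟩ : ∃ t : ℝ, 0 < t ∧ B * L * t ≤ 1 / 4 := by
    refine ⟨1 / (4 * (B * L + 1)), by positivity, ?_⟩
    have : B * (L : ℝ) * (1 / (4 * (B * (L : ℝ) + 1))) = (B * L) / (4 * (B * L + 1)) := by
      field_simp
    rw [this, div_le_div_iff₀ (by positivity) (by norm_num)]
    nlinarith [mul_nonneg hB0 hL0]
  have hDs : ContDiff ℝ ∞ (fun p : E × V n => W p.2 p.1) :=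
    (hWs.comp contDiff_snd).clm_apply contDiff_fst
  have hgs : ContDiff ℝ ∞ (fun p : E × V n => ((0 : E), W p.2 (η (t • p.1)))) := by
    refine contDiff_const.prodMk ?_
    exact hDs.comp ((hηs.comp (contDiff_fst.const_smul t)).prodMk contDiff_snd)
  have hgl : LipschitzWith (1 / 2) (fun p : E × V n => ((0 : E), W p.2 (η (t • p.1)))) := by
    refine LipschitzWith.of_dist_le_mul fun p p' => ?_
    have h1 : dist ((0 : E), W p.2 (η (t • p.1))) ((0 : E), W p'.2 (η (t • p'.1))) =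
        ‖W p.2 (η (t • p.1)) - W p'.2 (η (t • p'.1))‖ := by
      rw [Prod.dist_eq]
      simp only [dist_self]
      rw [max_eq_right dist_nonneg, dist_eq_norm]
    have h2 : W p.2 (η (t • p.1)) - W p'.2 (η (t • p'.1)) =
        (W p.2 - W p'.2) (η (t • p.1)) + W p'.2 (η (t • p.1) - η (t • p'.1)) := by
      rw [sub_apply, map_sub]
      abel
    have h3 : ‖(W p.2 - W p'.2) (η (t • p.1))‖ ≤ 1 / 4 * dist p p' := by
      have h4 := hC.norm_sub_le p.2 p'.2
      have h5 : ‖p.2 - p'.2‖ ≤ dist p p' := by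
        rw [← dist_eq_norm, Prod.dist_eq]
        exact le_max_right _ _
      calc ‖(W p.2 - W p'.2) (η (t • p.1))‖ ≤ ‖W p.2 - W p'.2‖ * ‖η (t • p.1)‖ :=
            ContinuousLinearMap.le_opNorm _ _
        _ ≤ (C * ‖p.2 - p'.2‖) * (2 * c) :=
            mul_le_mul h4 (hηb _) (norm_nonneg _) (by positivity)
        _ = (2 * c * C) * ‖p.2 - p'.2‖ := by ring
        _ ≤ 1 / 4 * dist p p' := mul_le_mul hcC h5 (norm_nonneg _) (by norm_num)
    have h6 : ‖W p'.2 (η (t • p.1) - η (t • p'.1))‖ ≤ 1 / 4 * dist p p' := by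
      have h4 := hL.norm_sub_le (t • p.1) (t • p'.1)
      have h5 : ‖p.1 - p'.1‖ ≤ dist p p' := by
        rw [← dist_eq_norm, Prod.dist_eq]
        exact le_max_left _ _
      have h7 : ‖t • p.1 - t • p'.1‖ = t * ‖p.1 - p'.1‖ := by
        rw [← smul_sub, norm_smul, Real.norm_eq_abs, abs_of_pos ht0]
      rw [h7] at h4
      calc ‖W p'.2 (η (t • p.1) - η (t • p'.1))‖
          ≤ ‖W p'.2‖ * ‖η (t • p.1) - η (t • p'.1)‖ := ContinuousLinearMap.le_opNorm _ _
        _ ≤ B * (L * (t * ‖p.1 - p'.1‖)) := mul_le_mul (hB _) h4 (norm_nonneg _) hB0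
        _ = (B * L * t) * ‖p.1 - p'.1‖ := by ring
        _ ≤ 1 / 4 * dist p p' := mul_le_mul htL h5 (norm_nonneg _) (by norm_num)
    rw [h1, h2]
    have h8 : (((1 / 2 : ℝ≥0)) : ℝ) = 1 / 2 := by simp
    rw [h8]
    refine (norm_add_le _ _).trans ?_
    linarith
  obtain ⟨H, hH1, hH2, hH3⟩ := perturb _ hgs le_rfl hgl
  have hH : ∀ a v, H (a, v) = (a, v + W v (η (t • a))) := by
    intro a v
    rw [hH3]
    simp
  have hHs1 : ∀ a v, (H.symm (a, v)).1 = a := by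
    intro a v
    have h1 := H.apply_symm_apply (a, v)
    have h2 : H (H.symm (a, v)) = H ((H.symm (a, v)).1, (H.symm (a, v)).2) := rfl
    rw [h2, hH] at h1
    exact congrArg Prod.fst h1
  obtain ⟨F, hF⟩ : ∃ F : E × V n → V n, F = fun q => q.2 + W q.2 (η q.1) := ⟨_, rfl⟩
  obtain ⟨F', hF'⟩ : ∃ F' : E × V n → V n, F' = fun q => (H.symm (t⁻¹ • q.1, q.2)).2 :=
    ⟨_, rfl⟩
  have hFx : ∀ x v, F (x, v) = v + W v (η x) := fun x v => by rw [hF]
  have hFx' : ∀ x v, F' (x, v) = (H.symm (t⁻¹ • x, v)).2 := fun x v => by rw [hF']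
  have hHF : ∀ x v, H (t⁻¹ • x, v) = (t⁻¹ • x, F (x, v)) := by
    intro x v
    have e : t • t⁻¹ • x = x := smul_inv_smul₀ ht0.ne' x
    rw [hH, e, hFx]
  have hinv1 : ∀ x v, F' (x, F (x, v)) = v := by
    intro x v
    rw [hFx', ← hHF, H.symm_apply_apply]
  have hinv2 : ∀ x v, F (x, F' (x, v)) = v := by
    intro x v
    have h1 := H.apply_symm_apply (t⁻¹ • x, v)
    have h2 : H.symm (t⁻¹ • x, v) = (t⁻¹ • x, F' (x, v)) := Prod.ext (hHs1 _ _) (hFx' x v).symm
    rw [h2, hHF] at h1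
    exact congrArg Prod.snd h1
  have hout : ∀ x v, v ∉ Metric.closedBall (0 : V n) (1 / 2) → F (x, v) = v := by
    intro x v hv
    rw [hFx, hW0 v hv, zero_apply, add_zero]
  refine ⟨F, F', c, hc0, ?_, ?_, hinv1, hinv2, hout, ?_, ?_, ?_⟩
  · rw [hF]
    exact contDiff_snd.add (hDs.comp ((hηs.comp contDiff_fst).prodMk contDiff_snd))
  · rw [hF']
    exact contDiff_snd.comp (hH2.comp ((contDiff_fst.const_smul t⁻¹).prodMk contDiff_snd))
  · intro x v hv
    have h1 := hinv1 x v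
    rw [hout x v hv] at h1
    exact h1
  · intro v
    rw [hFx, hη0, map_zero, add_zero]
  · intro x v hx
    rw [hFx, hηx x hx]

/-- the field -/
theorem field (n : ℕ) {X : Type} [NormedAddCommGroup X] [NormedSpace ℝ X]
    (ev : X →L[ℝ] V n →L[ℝ] V n) : ∃ W : V n → (V n × X →L[ℝ] V n), ContDiff ℝ ∞ W ∧
    (∀ v, v ∉ Metric.closedBall (0 : V n) (1 / 2) → W v = 0) ∧
    ∀ v, ‖v‖ < 1 / 4 → ∀ x, W v x = x.1 + ev x.2 v := by
  let β : ContDiffBump (0 : V n) := ⟨1 / 4, 1 / 2, by norm_num, by norm_num⟩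
  have hβs : ContDiff ℝ ∞ (β : V n → ℝ) := β.contDiff
  refine ⟨fun v => β v • (ContinuousLinearMap.fst ℝ (V n) X +
    (ev.flip v).comp (ContinuousLinearMap.snd ℝ (V n) X)), ?_, ?_, ?_⟩
  · refine hβs.smul (contDiff_const.add ?_)
    exact ContDiff.clm_comp (ContinuousLinearMap.contDiff _) contDiff_const
  · intro v hv
    have h0 : β v = 0 := by
      apply β.zero_of_le_dist
      have : 1 / 2 < dist v 0 := by
        by_contra h
        exact hv (Metric.mem_closedBall.mpr (not_lt.mp h))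
      exact this.le
    refine ContinuousLinearMap.ext fun x => ?_
    change β v • (x.1 + ev x.2 v) = 0
    rw [h0, zero_smul]
  · intro v hv x
    have h1 : β v = 1 := by
      rw [β.one_of_mem_closedBall]
      rw [Metric.mem_closedBall, dist_zero_right]
      exact hv.le
    change β v • (x.1 + ev x.2 v) = _
    rw [h1, one_smul]

section transplant

set_option linter.unusedSectionVars false
variable {n : ℕ} {E : Type} [NormedAddCommGroup E] [NormedSpace ℝ E]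

open Classical in
/-- The transplanted family. -/
noncomputable def tr {N : Type*} [TopologicalSpace N]
    (χ : OpenPartialHomeomorph N (V n)) (F : E × V n → V n) (x : E) (y : N) : N :=
  if y ∈ χ.source then χ.symm (F (x, χ y)) else y

theorem tr_source {N : Type*} [TopologicalSpace N]
    {χ : OpenPartialHomeomorph N (V n)} {F : E × V n → V n} {x : E} {y : N}
    (hy : y ∈ χ.source) : tr χ F x y = χ.symm (F (x, χ y)) := by
  unfold tr; rw [if_pos hy]

theorem tr_not_source {N : Type*} [TopologicalSpace N]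
    {χ : OpenPartialHomeomorph N (V n)} {F : E × V n → V n} {x : E} {y : N}
    (hy : y ∉ χ.source) : tr χ F x y = y := by
  unfold tr; rw [if_neg hy]

theorem tr_id {N : Type*} [TopologicalSpace N]
    {χ : OpenPartialHomeomorph N (V n)} {A : Set (V n)} {F : E × V n → V n}
    (hid : ∀ x, ∀ v ∉ A, F (x, v) = v) {x : E} {y : N} (hy : y ∉ χ.symm '' A) :
    tr χ F x y = y := by
  by_cases hs : y ∈ χ.source
  · rw [tr_source hs]
    have h1 : χ y ∉ A := fun h => hy ⟨χ y, h, χ.left_inv hs⟩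
    rw [hid _ _ h1, χ.left_inv hs]
  · exact tr_not_source hs

theorem maps_target {N : Type*} [TopologicalSpace N]
    {χ : OpenPartialHomeomorph N (V n)} {A : Set (V n)} (hA : A ⊆ χ.target)
    {F F' : E × V n → V n} (hinv : ∀ x v, F' (x, F (x, v)) = v)
    (hid : ∀ x, ∀ v ∉ A, F (x, v) = v) {x : E} {v : V n} (hv : v ∈ χ.target) :
    F (x, v) ∈ χ.target := by
  by_cases h : v ∈ A
  · apply hA
    by_contra hcon
    have h1 := hid x _ hcon
    have h2 := hinv x (F (x, v))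
    rw [h1, hinv] at h2
    exact hcon (by rw [← h2]; exact h)
  · rw [hid x v h]; exact hv

theorem tr_smooth {N : Type*} [TopologicalSpace N] [ChartedSpace (V n) N]
    [IsManifold (𝓡 n) ∞ N] {χ : OpenPartialHomeomorph N (V n)}
    (hχ : χ ∈ IsManifold.maximalAtlas (𝓡 n) ∞ N) {A : Set (V n)} (hA : A ⊆ χ.target)
    (hcl : IsClosed (χ.symm '' A)) {F F' : E × V n → V n}
    (hinv : ∀ x v, F' (x, F (x, v)) = v)
    (hF : ContDiff ℝ ∞ F) (hid : ∀ x, ∀ v ∉ A, F (x, v) = v) :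
    ContMDiff (𝓘(ℝ, E).prod (𝓡 n)) (𝓡 n) ∞ (fun q : E × N => tr χ F q.1 q.2) := by
  intro q
  by_cases hy : q.2 ∈ χ.source
  · have h1 : ContMDiffAt (𝓡 n) (𝓡 n) ∞ χ q.2 :=
      (contMDiffOn_of_mem_maximalAtlas hχ _ hy).contMDiffAt (χ.open_source.mem_nhds hy)
    have ht : F (q.1, χ q.2) ∈ χ.target := maps_target hA hinv hid (χ.map_source hy)
    have h2 : ContMDiffAt (𝓡 n) (𝓡 n) ∞ χ.symm (F (q.1, χ q.2)) :=
      (contMDiffOn_symm_of_mem_maximalAtlas hχ _ ht).contMDiffAt (χ.open_target.mem_nhds ht)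
    have h3 : ContMDiffAt (𝓘(ℝ, E).prod (𝓡 n)) (𝓡 n) ∞ (fun q : E × N => χ q.2) q :=
      h1.comp q contMDiffAt_snd
    have h4 : ContMDiffAt (𝓘(ℝ, E).prod (𝓡 n)) 𝓘(ℝ, E × V n) ∞
        (fun q : E × N => (q.1, χ q.2)) q :=
      (contMDiffAt_fst).prodMk_space h3
    have h5 : ContMDiffAt (𝓘(ℝ, E).prod (𝓡 n)) (𝓡 n) ∞ (fun q : E × N => F (q.1, χ q.2)) q :=
      (hF.contMDiff.contMDiffAt).comp q h4
    have h6 : ContMDiffAt (𝓘(ℝ, E).prod (𝓡 n)) (𝓡 n) ∞
        (fun q : E × N => χ.symm (F (q.1, χ q.2))) q := h2.comp q h5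
    refine h6.congr_of_eventuallyEq ?_
    filter_upwards [continuous_snd.continuousAt.preimage_mem_nhds (χ.open_source.mem_nhds hy)]
      with p hp
    exact tr_source hp
  · have hy' : q.2 ∈ (χ.symm '' A)ᶜ := by
      rintro ⟨v, hv, h⟩
      exact hy (by rw [← h]; exact χ.map_target (hA hv))
    have h5 : ContMDiffAt (𝓘(ℝ, E).prod (𝓡 n)) (𝓡 n) ∞ (fun q : E × N => q.2) q :=
      contMDiffAt_snd
    refine h5.congr_of_eventuallyEq ?_
    filter_upwards [continuous_snd.continuousAt.preimage_mem_nhds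
      (hcl.isOpen_compl.mem_nhds hy')] with p hp
    exact tr_id hid hp

theorem tr_inv {N : Type*} [TopologicalSpace N]
    {χ : OpenPartialHomeomorph N (V n)} {A : Set (V n)} (hA : A ⊆ χ.target)
    {F F' : E × V n → V n} (hinv : ∀ x v, F' (x, F (x, v)) = v)
    (hid : ∀ x, ∀ v ∉ A, F (x, v) = v) (x : E) (y : N) :
    tr χ F' x (tr χ F x y) = y := by
  by_cases hy : y ∈ χ.source
  · have h1 : F (x, χ y) ∈ χ.target := maps_target hA hinv hid (χ.map_source hy)
    rw [tr_source hy, tr_source (χ.map_target h1), χ.right_inv h1, hinv, χ.left_inv hy]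
  · rw [tr_not_source (F := F) hy, tr_not_source hy]

end transplant

theorem main' (n : ℕ) {X : Type} [NormedAddCommGroup X] [NormedSpace ℝ X] [FiniteDimensional ℝ X]
    (ev : X →L[ℝ] V n →L[ℝ] V n) (N : Type u) [TopologicalSpace N] [T2Space N]
    [ChartedSpace (V n) N] [IsManifold (𝓡 n) ∞ N] (r : ℕ∞)
    (χ : OpenPartialHomeomorph N (V n)) (z : N) (hg : GoodChart n N χ z) :
    ∃ (Ψ : V n × X → DiffM n N r) (κ : ℝ), 0 < κ ∧ (∀ y, Ψ 0 y = y) ∧
      ContMDiff (𝓘(ℝ, V n × X).prod (𝓡 n)) (𝓡 n) r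
        (fun q : (V n × X) × N => Ψ q.1 q.2) ∧
      ContMDiff (𝓘(ℝ, V n × X).prod (𝓡 n)) (𝓡 n) r
        (fun q : (V n × X) × N => (Ψ q.1).symm q.2) ∧
      ∀ x : V n × X, ‖x‖ < κ → ∀ y ∈ χ.source, ‖χ y‖ < 1 / 4 →
        Ψ x y ∈ χ.source ∧ χ (Ψ x y) = χ y + (x.1 + ev x.2 (χ y)) := by
  obtain ⟨W, hW, hW0, hW1⟩ := field n ev
  obtain ⟨F, F', κ, hκ0, hF, hF', hi, hi', ho, ho', h0, hm⟩ := local_family n W hW hW0
  have hA : Metric.closedBall (0 : V n) (1 / 2) ⊆ χ.target :=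
    (Metric.closedBall_subset_closedBall (by norm_num)).trans hg.ball
  have hcl : IsClosed (χ.symm '' Metric.closedBall (0 : V n) (1 / 2)) :=
    ((isCompact_closedBall _ _).image_of_continuousOn
      (χ.continuousOn_symm.mono hA)).isClosed
  have hs := tr_smooth hg.mem hA hcl hi hF ho
  have hs' := tr_smooth hg.mem hA hcl hi' hF' ho'
  have hr : ((r : ℕ∞) : WithTop ℕ∞) ≤ ∞ := by exact_mod_cast le_top
  have hs1 : ∀ x : V n × X, ContMDiff (𝓡 n) (𝓡 n) ∞ (tr χ F x) := by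
    intro x
    exact hs.comp (contMDiff_const.prodMk contMDiff_id)
  have hs1' : ∀ x : V n × X, ContMDiff (𝓡 n) (𝓡 n) ∞ (tr χ F' x) := by
    intro x
    exact hs'.comp (contMDiff_const.prodMk contMDiff_id)
  refine ⟨fun x => ⟨⟨tr χ F x, tr χ F' x, tr_inv hA hi ho x, tr_inv hA hi' ho' x⟩,
    (hs1 x).of_le hr, (hs1' x).of_le hr⟩, κ, hκ0, ?_, hs.of_le hr, hs'.of_le hr, ?_⟩
  · intro y
    change tr χ F (0 : V n × X) y = y
    by_cases hy : y ∈ χ.source
    · rw [tr_source hy, h0, χ.left_inv hy]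
    · exact tr_not_source hy
  · intro x hx y hy hy4
    have h1 : tr χ F x y = χ.symm (χ y + (x.1 + ev x.2 (χ y))) := by
      rw [tr_source hy, hm x _ hx, hW1 _ hy4]
    have h2 : χ y + (x.1 + ev x.2 (χ y)) ∈ χ.target := by
      rw [← hW1 _ hy4 x, ← hm x _ hx]
      exact maps_target hA hi ho (χ.map_source hy)
    change tr χ F x y ∈ χ.source ∧ χ (tr χ F x y) = χ y + (x.1 + ev x.2 (χ y))
    rw [h1]
    exact ⟨χ.map_target h2, χ.right_inv h2⟩

theorem main : S_AFF.{u} := by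
  intro n N _ _ _ _ r χ z hg
  exact main' n (ContinuousLinearMap.id ℝ (V n →L[ℝ] V n)) N r χ z hg

end Pool.Agent.H74.PA.Aff
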