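import Pool.Agent.H74.PA.Nl

/-!
# The network: algebra
-/

set_option autoImplicit false
set_option linter.unusedSectionVars false

open scoped Topology
open Filter Set Metric

namespace Pool.Agent.H74.PA.Alg

open Pool.Agent.H718R2.G Pool.Agent.H74.PA
open Pool.Agent.Y504.CO (NoBdd)

variable {m : ℕ}

lemma hyp_of_noBdd {X : V m →L[ℝ] V m} (h : NoBdd (fun _ => X)) : Hyp X := by
  intro μ hμ hμ1
  exact (Pool.Agent.Y504.CO.Plug.hEIG m X).2 ⟨μ, hμ1, hμ⟩ h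

lemma noBdd_comm {X Y : V m →L[ℝ] V m} (h : NoBdd (fun _ => X * Y)) :
    NoBdd (fun _ => Y * X) := by
  intro v ⟨C, hC⟩ hv i
  have h1 : ∀ i, X (v i) = 0 := h (fun i => X (v i)) ⟨‖X‖ * C, fun i => (X.le_opNorm _).trans
    (mul_le_mul_of_nonneg_left (hC i) (norm_nonneg _))⟩ (fun i => by
      show X (v (i + 1)) = (X * Y) (X (v i))
      rw [hv i]
      rfl)
  have h2 := hv (i - 1)
  rw [sub_add_cancel] at h2
  rw [h2]
  show Y (X (v (i - 1))) = 0
  rw [h1, map_zero]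

lemma exists_equiv {E : V m →L[ℝ] V m} (h : ‖E - 1‖ < 1) :
    ∃ E' : V m ≃L[ℝ] V m, (E' : V m →L[ℝ] V m) = E := by
  have h1 : ‖1 - E‖ < 1 := by rwa [← norm_neg, neg_sub]
  refine ⟨ContinuousLinearEquiv.unitsEquiv ℝ (V m) (Units.oneSub (1 - E) h1), ?_⟩
  have h2 : ((Units.oneSub (1 - E) h1 : (V m →L[ℝ] V m)ˣ) : V m →L[ℝ] V m) = E := by
    rw [Units.val_oneSub]
    abel
  exact h2

lemma prodL_const {B : ℕ → V m →L[ℝ] V m} {X : V m →L[ℝ] V m} (n : ℕ)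
    (h : ∀ j < n, B j = X) : prodL B n = X ^ n := by
  induction n with
  | zero => rfl
  | succ n ih =>
    show B n * prodL B n = X ^ (n + 1)
    rw [h n (Nat.lt_succ_self n), ih fun j hj => h j (by omega), pow_succ']

lemma prodL_add (B : ℕ → V m →L[ℝ] V m) (a b : ℕ) :
    prodL B (a + b) = prodL (fun j => B (a + j)) b * prodL B a := by
  induction b with
  | zero =>
    show prodL B a = 1 * prodL B a
    rw [one_mul]
  | succ b ih =>
    show B (a + b) * prodL B (a + b) = B (a + b) * prodL (fun j => B (a + j)) b * prodL B a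
    rw [ih, mul_assoc]

lemma mul_pow_mul (D E : V m →L[ℝ] V m) (n : ℕ) : D * (E * D) ^ n * E = (D * E) ^ (n + 1) := by
  induction n with
  | zero => simp
  | succ n ih =>
    rw [pow_succ' (D * E) (n + 1), ← ih, pow_succ' (E * D) n]
    simp only [mul_assoc]

/-- the allowed edges -/
def ok : Fin 6 → Fin 6 → Bool :=
  ![![true, true, true, true, true, false], ![true, true, true, true, true, false],
    ![false, false, true, true, true, false], ![false, false, true, true, true, false],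
    ![false, false, false, false, false, true], ![true, true, true, true, true, false]]

/-- the matrices of the edges -/
def AA (D1 DW D3 D4 : V m →L[ℝ] V m) : Fin 6 → Fin 6 → V m →L[ℝ] V m :=
  ![![D1, D1, DW, DW, DW, 1], ![D1, D1, DW, DW, DW, 1], ![1, 1, D3, D3, D3, 1],
    ![1, 1, D3, D3, D3, 1], ![1, 1, 1, 1, 1, D4], ![D1, D1, DW, DW, DW, 1]]

/-- the network is hyperbolic -/
def NetH (η : ℝ) (D1 DW D3 D4 : V m →L[ℝ] V m) : Prop :=
  ∀ E : Fin 6 → V m →L[ℝ] V m, (∀ s, ‖E s - 1‖ ≤ η) → ∀ (w : ℕ → Fin 6) (q : ℕ), 1 ≤ q →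
    w q = w 0 → (∀ j < q, ok (w j) (w (j + 1)) = true) →
    NoBdd (fun _ => prodL (fun j => E (w (j + 1)) * AA D1 DW D3 D4 (w j) (w (j + 1))) q)

variable {η : ℝ} {D1 DW D3 D4 : V m →L[ℝ] V m}

lemma norm_one_le' : ‖(1 : V m →L[ℝ] V m)‖ ≤ 1 := ContinuousLinearMap.norm_id_le

lemma small_smul {δ t : ℝ} (hδ : δ ≤ 1 / 8) (ht : |t| ≤ δ) {E : V m →L[ℝ] V m}
    (hE : ‖E - 1‖ ≤ δ) : ‖(1 + t) • E - 1‖ ≤ 17 / 8 * δ := by
  have hδ0 : 0 ≤ δ := (abs_nonneg t).trans ht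
  have h1 : (1 + t) • E - 1 = (1 + t) • (E - 1) + t • (1 : V m →L[ℝ] V m) := by
    rw [smul_sub, add_smul 1 t (1 : V m →L[ℝ] V m), one_smul]
    abel
  rw [h1]
  refine (norm_add_le _ _).trans ?_
  rw [norm_smul, norm_smul, Real.norm_eq_abs, Real.norm_eq_abs]
  have h2 : |1 + t| ≤ 1 + δ := by
    refine (abs_add_le _ _).trans ?_
    rw [abs_one]
    linarith
  have h3 : |1 + t| * ‖E - 1‖ ≤ (1 + δ) * δ := mul_le_mul h2 hE (norm_nonneg _) (by linarith)
  have h4 : |t| * ‖(1 : V m →L[ℝ] V m)‖ ≤ δ * 1 :=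
    mul_le_mul ht norm_one_le' (norm_nonneg _) hδ0
  nlinarith

lemma small_mul {δ t : ℝ} (hδ : δ ≤ 1 / 8) (ht : |t| ≤ δ) {E R : V m →L[ℝ] V m}
    (hE : ‖E - 1‖ ≤ δ) (hR : ‖R - 1‖ ≤ δ) : ‖R * ((1 + t) • E) - 1‖ ≤ 4 * δ := by
  have hδ0 : 0 ≤ δ := (abs_nonneg t).trans ht
  have h1 := small_smul hδ ht hE
  have h2 : R * ((1 + t) • E) - 1 = (R - 1) * ((1 + t) • E) + ((1 + t) • E - 1) := by
    rw [sub_mul, one_mul]
    abel
  have h3 : ‖(1 + t) • E‖ ≤ 1 + 17 / 8 * δ := by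
    have h4 : (1 + t) • E = ((1 + t) • E - 1) + 1 := by abel
    rw [h4]
    refine (norm_add_le _ _).trans ?_
    have := norm_one_le' (m := m)
    linarith
  rw [h2]
  refine (norm_add_le _ _).trans ?_
  have h5 : ‖(R - 1) * ((1 + t) • E)‖ ≤ δ * (1 + 17 / 8 * δ) :=
    (norm_mul_le _ _).trans (mul_le_mul hR h3 (norm_nonneg _) hδ0)
  nlinarith

lemma small_mul' {δ t : ℝ} (hδ : δ ≤ 1 / 8) (ht : |t| ≤ δ) {E R : V m →L[ℝ] V m}
    (hE : ‖E - 1‖ ≤ δ) (hR : ‖R - 1‖ ≤ δ) : ‖((1 + t) • E) * R - 1‖ ≤ 4 * δ := by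
  have hδ0 : 0 ≤ δ := (abs_nonneg t).trans ht
  have h1 := small_smul hδ ht hE
  have h2 : ((1 + t) • E) * R - 1 = ((1 + t) • E) * (R - 1) + ((1 + t) • E - 1) := by
    rw [mul_sub, mul_one]
    abel
  have h3 : ‖(1 + t) • E‖ ≤ 1 + 17 / 8 * δ := by
    have h4 : (1 + t) • E = ((1 + t) • E - 1) + 1 := by abel
    rw [h4]
    refine (norm_add_le _ _).trans ?_
    have := norm_one_le' (m := m)
    linarith
  rw [h2]
  refine (norm_add_le _ _).trans ?_
  have h5 : ‖((1 + t) • E) * (R - 1)‖ ≤ (1 + 17 / 8 * δ) * δ :=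
    (norm_mul_le _ _).trans (mul_le_mul h3 hR (norm_nonneg _) (by linarith))
  nlinarith

lemma smul_mul' (c : ℝ) (X Y : V m →L[ℝ] V m) : (c • X) * Y = c • (X * Y) := by
  ext v
  rfl

/-- the first loop -/
lemma loopP (H : NetH η D1 DW D3 D4) {δ t : ℝ} (hδ : δ ≤ 1 / 8) (hη : 4 * δ ≤ η) (ht : |t| ≤ δ)
    {E₁ R : V m →L[ℝ] V m} (hE : ‖E₁ - 1‖ ≤ δ) (hR : ‖R - 1‖ ≤ δ) {α : ℕ} (hα : 1 ≤ α) :
    Hyp (R * ((1 + t) • (E₁ * D1)) ^ α) := by
  have hδ0 : 0 ≤ δ := (abs_nonneg t).trans ht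
  obtain ⟨a, rfl⟩ := Nat.exists_eq_add_of_le' hα
  refine hyp_of_noBdd ?_
  obtain ⟨w, hw0, hw1, hw⟩ : ∃ w : ℕ → Fin 6, w 0 = 1 ∧ w (a + 1) = 1 ∧
      ∀ j, 0 < j → j ≤ a → w j = 0 := by
    refine ⟨fun j => if j = 0 ∨ j = a + 1 then 1 else 0, by simp, by simp, fun j h1 h2 => ?_⟩
    dsimp only
    rw [if_neg (by omega)]
  obtain ⟨E, hEd⟩ : ∃ E : Fin 6 → V m →L[ℝ] V m,
      E = ![(1 + t) • E₁, R * ((1 + t) • E₁), 1, 1, 1, 1] := ⟨_, rfl⟩
  have hE0 : E 0 = (1 + t) • E₁ := by rw [hEd]; rfl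
  have hE1 : E 1 = R * ((1 + t) • E₁) := by rw [hEd]; rfl
  have h1 := H E (by
    intro s
    rw [hEd]
    fin_cases s
    · show ‖(1 + t) • E₁ - 1‖ ≤ η
      linarith [small_smul hδ ht hE]
    · show ‖R * ((1 + t) • E₁) - 1‖ ≤ η
      linarith [small_mul hδ ht hE hR]
    all_goals
      show ‖(1 : V m →L[ℝ] V m) - 1‖ ≤ η
      rw [sub_self, norm_zero]
      linarith) w (a + 1) (by omega) (by rw [hw0, hw1]) (by
      intro j hj
      have h2 : w j = 0 ∨ w j = 1 := by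
        rcases Nat.eq_zero_or_pos j with rfl | h3
        · exact Or.inr hw0
        · exact Or.inl (hw j h3 (by omega))
      have h3 : w (j + 1) = 0 ∨ w (j + 1) = 1 := by
        rcases (show j ≤ a by omega).lt_or_eq with h4 | rfl
        · exact Or.inl (hw (j + 1) (by omega) (by omega))
        · exact Or.inr hw1
      rcases h2 with h2 | h2 <;> rcases h3 with h3 | h3 <;> rw [h2, h3] <;> rfl)
  have hsrc : ∀ j ≤ a, w j = 0 ∨ w j = 1 := by
    intro j hj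
    rcases Nat.eq_zero_or_pos j with rfl | h3
    · exact Or.inr hw0
    · exact Or.inl (hw j h3 hj)
  have h2 : prodL (fun j => E (w (j + 1)) * AA D1 DW D3 D4 (w j) (w (j + 1))) (a + 1) =
      R * ((1 + t) • (E₁ * D1)) ^ (a + 1) := by
    show E (w (a + 1)) * AA D1 DW D3 D4 (w a) (w (a + 1)) * prodL _ a = _
    rw [prodL_const (X := (1 + t) • (E₁ * D1)) a]
    · have h3 : AA D1 DW D3 D4 (w a) (w (a + 1)) = D1 := by
        rw [hw1]
        rcases hsrc a le_rfl with h4 | h4 <;> rw [h4] <;> rfl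
      rw [h3, hw1, hE1, pow_succ', ← mul_assoc, mul_assoc R, smul_mul', mul_assoc]
    · intro j hj
      have h4 : w (j + 1) = 0 := hw (j + 1) (by omega) (by omega)
      have h3 : AA D1 DW D3 D4 (w j) (w (j + 1)) = D1 := by
        rw [h4]
        rcases hsrc j (by omega) with h5 | h5 <;> rw [h5] <;> rfl
      rw [h3, h4, hE0, smul_mul']
  rw [← h2]
  exact h1

/-- the second loop -/
lemma loopQ (H : NetH η D1 DW D3 D4) {δ t : ℝ} (hδ : δ ≤ 1 / 8) (hη : 4 * δ ≤ η) (ht : |t| ≤ δ)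
    {E₂ R : V m →L[ℝ] V m} (hE : ‖E₂ - 1‖ ≤ δ) (hR : ‖R - 1‖ ≤ δ) {β : ℕ} (hβ : 1 ≤ β) :
    Hyp (((1 + t) • (D3 * E₂)) ^ β * R) := by
  have hδ0 : 0 ≤ δ := (abs_nonneg t).trans ht
  obtain ⟨a, rfl⟩ := Nat.exists_eq_add_of_le' hβ
  refine hyp_of_noBdd (noBdd_comm ?_)
  obtain ⟨w, hw0, hw1, hw⟩ : ∃ w : ℕ → Fin 6, w 0 = 3 ∧ w (a + 1) = 3 ∧
      ∀ j, 0 < j → j ≤ a → w j = 2 := by
    refine ⟨fun j => if j = 0 ∨ j = a + 1 then 3 else 2, by simp, by simp, fun j h1 h2 => ?_⟩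
    dsimp only
    rw [if_neg (by omega)]
  obtain ⟨E, hEd⟩ : ∃ E : Fin 6 → V m →L[ℝ] V m,
      E = ![1, 1, (1 + t) • E₂, ((1 + t) • E₂) * R, 1, 1] := ⟨_, rfl⟩
  have hE2 : E 2 = (1 + t) • E₂ := by rw [hEd]; rfl
  have hE3 : E 3 = ((1 + t) • E₂) * R := by rw [hEd]; rfl
  have hsrc : ∀ j ≤ a, w j = 2 ∨ w j = 3 := by
    intro j hj
    rcases Nat.eq_zero_or_pos j with rfl | h3
    · exact Or.inr hw0
    · exact Or.inl (hw j h3 hj)
  have h1 := H E (by
    intro s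
    rw [hEd]
    fin_cases s
    on_goal 3 =>
      show ‖(1 + t) • E₂ - 1‖ ≤ η
      linarith [small_smul hδ ht hE]
    on_goal 3 =>
      show ‖((1 + t) • E₂) * R - 1‖ ≤ η
      linarith [small_mul' hδ ht hE hR]
    all_goals
      show ‖(1 : V m →L[ℝ] V m) - 1‖ ≤ η
      rw [sub_self, norm_zero]
      linarith) w (a + 1) (by omega) (by rw [hw0, hw1]) (by
      intro j hj
      have h3 : w (j + 1) = 2 ∨ w (j + 1) = 3 := by
        rcases (show j ≤ a by omega).lt_or_eq with h4 | rfl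
        · exact Or.inl (hw (j + 1) (by omega) (by omega))
        · exact Or.inr hw1
      rcases hsrc j (by omega) with h2 | h2 <;> rcases h3 with h3 | h3 <;> rw [h2, h3] <;> rfl)
  have h2 : prodL (fun j => E (w (j + 1)) * AA D1 DW D3 D4 (w j) (w (j + 1))) (a + 1) =
      ((1 + t) • E₂) * (R * D3 * (((1 + t) • E₂) * D3) ^ a) := by
    show E (w (a + 1)) * AA D1 DW D3 D4 (w a) (w (a + 1)) * prodL _ a = _
    rw [prodL_const (X := ((1 + t) • E₂) * D3) a]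
    · have h3 : AA D1 DW D3 D4 (w a) (w (a + 1)) = D3 := by
        rw [hw1]
        rcases hsrc a le_rfl with h4 | h4 <;> rw [h4] <;> rfl
      rw [h3, hw1, hE3]
      simp only [mul_assoc]
    · intro j hj
      have h4 : w (j + 1) = 2 := hw (j + 1) (by omega) (by omega)
      have h3 : AA D1 DW D3 D4 (w j) (w (j + 1)) = D3 := by
        rw [h4]
        rcases hsrc j (by omega) with h5 | h5 <;> rw [h5] <;> rfl
      rw [h3, h4, hE2]
  rw [h2] at h1
  have h3 := noBdd_comm h1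
  have h4 : R * D3 * (((1 + t) • E₂) * D3) ^ a * ((1 + t) • E₂) =
      R * ((1 + t) • (D3 * E₂)) ^ (a + 1) := by
    rw [mul_assoc, mul_assoc R, ← mul_assoc D3, mul_pow_mul]
    congr 2
    ext v
    simp
  rw [h4] at h3
  exact h3

/-- the long cycle -/
lemma loopZ (H : NetH η D1 DW D3 D4) {δ t t' : ℝ} (hδ : δ ≤ 1 / 8) (hη : 4 * δ ≤ η)
    (ht : |t| ≤ δ) (ht' : |t'| ≤ δ) {E₁ E₂ R R' : V m →L[ℝ] V m} (hE₁ : ‖E₁ - 1‖ ≤ δ)
    (hE₂ : ‖E₂ - 1‖ ≤ δ) (hR : ‖R - 1‖ ≤ δ) (hR' : ‖R' - 1‖ ≤ δ) {α β : ℕ} (hα : 1 ≤ α) :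
    Hyp (D4 * R * ((1 + t') • (D3 * E₂)) ^ β * DW * R' * ((1 + t) • (E₁ * D1)) ^ α) := by
  have hδ0 : 0 ≤ δ := (abs_nonneg t).trans ht
  obtain ⟨a, rfl⟩ := Nat.exists_eq_add_of_le' hα
  refine hyp_of_noBdd ?_
  -- the word `5, 0^a, 1, 2^β, 4, 5`
  obtain ⟨w, hw5, hw0, hw1, hw2, hw4, hw5'⟩ : ∃ w : ℕ → Fin 6, w 0 = 5 ∧
      (∀ j, 0 < j → j ≤ a → w j = 0) ∧ w (a + 1) = 1 ∧ (∀ j, a + 1 < j → j ≤ a + 1 + β → w j = 2) ∧
      w (a + 1 + β + 1) = 4 ∧ w (a + 1 + β + 2) = 5 := by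
    refine ⟨fun j => if j = 0 then 5 else if j ≤ a then 0 else if j = a + 1 then 1 else
      if j ≤ a + 1 + β then 2 else if j = a + 1 + β + 1 then 4 else 5, by simp, fun j h1 h2 => ?_,
      by simp, fun j h1 h2 => ?_, ?_, ?_⟩
    · dsimp only
      rw [if_neg (by omega), if_pos h2]
    · dsimp only
      rw [if_neg (by omega), if_neg (by omega), if_neg (by omega), if_pos h2]
    · dsimp only
      rw [if_neg (by omega), if_neg (by omega), if_neg (by omega), if_neg (by omega), if_pos rfl]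
    · dsimp only
      rw [if_neg (by omega), if_neg (by omega), if_neg (by omega), if_neg (by omega),
        if_neg (by omega)]
  obtain ⟨E, hEd⟩ : ∃ E : Fin 6 → V m →L[ℝ] V m,
      E = ![(1 + t) • E₁, R' * ((1 + t) • E₁), (1 + t') • E₂, 1, R, 1] := ⟨_, rfl⟩
  have hE0 : E 0 = (1 + t) • E₁ := by rw [hEd]; rfl
  have hE1 : E 1 = R' * ((1 + t) • E₁) := by rw [hEd]; rfl
  have hE2 : E 2 = (1 + t') • E₂ := by rw [hEd]; rfl
  have hE4 : E 4 = R := by rw [hEd]; rfl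
  have hE5 : E 5 = 1 := by rw [hEd]; rfl
  have hsrc : ∀ j ≤ a, w j = 0 ∨ w j = 5 := by
    intro j hj
    rcases Nat.eq_zero_or_pos j with rfl | h3
    · exact Or.inr hw5
    · exact Or.inl (hw0 j h3 hj)
  have hok : ∀ j < a + 1 + β + 2, ok (w j) (w (j + 1)) = true := by
    intro j hj
    by_cases h1 : j ≤ a
    · have h3 : w (j + 1) = 0 ∨ w (j + 1) = 1 := by
        rcases h1.lt_or_eq with h4 | rfl
        · exact Or.inl (hw0 (j + 1) (by omega) (by omega))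
        · exact Or.inr hw1
      rcases hsrc j h1 with h2 | h2 <;> rcases h3 with h3 | h3 <;> rw [h2, h3] <;> rfl
    · by_cases h2 : j ≤ a + 1 + β
      · have h3 : w j = 1 ∨ w j = 2 := by
          by_cases h4 : j = a + 1
          · rw [h4]; exact Or.inl hw1
          · exact Or.inr (hw2 j (by omega) h2)
        have h5 : w (j + 1) = 2 ∨ w (j + 1) = 4 := by
          rcases h2.lt_or_eq with h4 | rfl
          · exact Or.inl (hw2 (j + 1) (by omega) (by omega))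
          · exact Or.inr hw4
        rcases h3 with h3 | h3 <;> rcases h5 with h5 | h5 <;> rw [h3, h5] <;> rfl
      · have h3 : j = a + 1 + β + 1 := by omega
        rw [h3, hw4, hw5']
        rfl
  have h1 := H E (by
    intro s
    rw [hEd]
    fin_cases s
    · show ‖(1 + t) • E₁ - 1‖ ≤ η
      linarith [small_smul hδ ht hE₁]
    · show ‖R' * ((1 + t) • E₁) - 1‖ ≤ η
      linarith [small_mul hδ ht hE₁ hR']
    · show ‖(1 + t') • E₂ - 1‖ ≤ η
      linarith [small_smul hδ ht' hE₂]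
    · show ‖(1 : V m →L[ℝ] V m) - 1‖ ≤ η
      rw [sub_self, norm_zero]
      linarith
    · show ‖R - 1‖ ≤ η
      linarith
    · show ‖(1 : V m →L[ℝ] V m) - 1‖ ≤ η
      rw [sub_self, norm_zero]
      linarith) w (a + 1 + β + 2) (by omega) (by rw [hw5, hw5']) hok
  set B : ℕ → V m →L[ℝ] V m := fun j => E (w (j + 1)) * AA D1 DW D3 D4 (w j) (w (j + 1)) with hB
  have hp1 : prodL B (a + 1) = R' * ((1 + t) • (E₁ * D1)) ^ (a + 1) := by
    show E (w (a + 1)) * AA D1 DW D3 D4 (w a) (w (a + 1)) * prodL B a = _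
    rw [prodL_const (X := (1 + t) • (E₁ * D1)) a]
    · have h3 : AA D1 DW D3 D4 (w a) (w (a + 1)) = D1 := by
        rw [hw1]
        rcases hsrc a le_rfl with h4 | h4 <;> rw [h4] <;> rfl
      rw [h3, hw1, hE1, pow_succ', ← mul_assoc, mul_assoc R', smul_mul', mul_assoc]
    · intro j hj
      have h4 : w (j + 1) = 0 := hw0 (j + 1) (by omega) (by omega)
      have h3 : AA D1 DW D3 D4 (w j) (w (j + 1)) = D1 := by
        rw [h4]
        rcases hsrc j (by omega) with h5 | h5 <;> rw [h5] <;> rfl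
      rw [hB]
      dsimp only
      rw [h3, h4, hE0, smul_mul']
  have hlast : B (a + 1 + β + 1) = D4 := by
    show E (w (a + 1 + β + 2)) * AA D1 DW D3 D4 (w (a + 1 + β + 1)) (w (a + 1 + β + 2)) = D4
    rw [hw4, hw5', hE5, one_mul]
    rfl
  have hmid : prodL B (a + 1 + β + 1) = R * ((1 + t') • (D3 * E₂)) ^ β * DW *
      prodL B (a + 1) := by
    rcases β.eq_zero_or_pos with rfl | hβ
    · show B (a + 1) * prodL B (a + 1) = _
      have h3 : B (a + 1) = R * DW := by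
        show E (w (a + 1 + 1)) * AA D1 DW D3 D4 (w (a + 1)) (w (a + 1 + 1)) = _
        have h5 : w (a + 1 + 1) = 4 := hw4
        rw [h5, hw1, hE4]
        rfl
      rw [h3, pow_zero, mul_one]
    · obtain ⟨b, rfl⟩ := Nat.exists_eq_add_of_le' hβ
      have h4 : prodL (fun j => B (a + 1 + j)) (b + 1 + 1) =
          R * ((1 + t') • (D3 * E₂)) ^ (b + 1) * DW := by
        have h5 : ∀ j, B (a + 1 + (1 + j)) = (fun j => B (a + 1 + j)) (1 + j) := fun j => rfl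
        have h6 : prodL (fun j => B (a + 1 + j)) (1 + b) =
            (((1 + t') • E₂) * D3) ^ b * (((1 + t') • E₂) * DW) := by
          rw [prodL_add]
          congr 1
          · refine prodL_const b fun j hj => ?_
            show E (w (a + 1 + (1 + j) + 1)) * AA D1 DW D3 D4 (w (a + 1 + (1 + j)))
              (w (a + 1 + (1 + j) + 1)) = _
            rw [hw2 (a + 1 + (1 + j)) (by omega) (by omega),
              hw2 (a + 1 + (1 + j) + 1) (by omega) (by omega), hE2]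
            rfl
          · show E (w (a + 1 + 0 + 1)) * AA D1 DW D3 D4 (w (a + 1 + 0)) (w (a + 1 + 0 + 1)) * 1 = _
            rw [mul_one, hw2 (a + 1 + 0 + 1) (by omega) (by omega)]
            have h7 : w (a + 1 + 0) = 1 := hw1
            rw [h7, hE2]
            rfl
        have h8 : prodL (fun j => B (a + 1 + j)) (b + 1 + 1) =
            B (a + 1 + (b + 1)) * prodL (fun j => B (a + 1 + j)) (1 + b) := by
          rw [Nat.add_comm 1 b]
          rfl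
        have h9 : B (a + 1 + (b + 1)) = R * D3 := by
          show E (w (a + 1 + (b + 1) + 1)) * AA D1 DW D3 D4 (w (a + 1 + (b + 1)))
            (w (a + 1 + (b + 1) + 1)) = _
          rw [hw4, hw2 (a + 1 + (b + 1)) (by omega) (by omega), hE4]
          rfl
        rw [h8, h9, h6]
        have h10 : ((1 + t') • (D3 * E₂)) ^ (b + 1) = D3 * (((1 + t') • E₂) * D3) ^ b *
            ((1 + t') • E₂) := by
          rw [mul_pow_mul]
          congr 1
          ext v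
          simp
        rw [h10]
        simp only [mul_assoc]
      have h5 : a + 1 + (b + 1) + 1 = (a + 1) + (b + 1 + 1) := by ring
      rw [h5, prodL_add, h4]
  have hall : prodL B (a + 1 + β + 2) = D4 * R * ((1 + t') • (D3 * E₂)) ^ β * DW * R' *
      ((1 + t) • (E₁ * D1)) ^ (a + 1) := by
    show B (a + 1 + β + 1) * prodL B (a + 1 + β + 1) = _
    rw [hlast, hmid, hp1]
    simp only [mul_assoc]
  rw [← hall]
  exact h1

/-- there is no such network -/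
theorem alg (hIDX : S_IDX) (hCLO : S_CLO) {δ : ℝ} (hδ0 : 0 < δ) (hδ : δ ≤ 1 / 8)
    (hη : 4 * δ ≤ η) {D1 DW D3 D4 : V m ≃L[ℝ] V m}
    (H : NetH η (D1 : V m →L[ℝ] V m) (DW : V m →L[ℝ] V m) (D3 : V m →L[ℝ] V m)
      (D4 : V m →L[ℝ] V m)) {E₁ E₂ : V m →L[ℝ] V m} (hE₁ : ‖E₁ - 1‖ ≤ δ) (hE₂ : ‖E₂ - 1‖ ≤ δ)
    {a b : V m} (ha : a ≠ 0) {g g' c : ℝ} (hg : 1 < g) (hg' : 0 < g') (hg'1 : g' < 1)
    (h1 : E₁ (D1 a) = g • a) (h2 : DW a = c • b) (h3 : D3 (E₂ b) = g' • b) : False := by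
  have hlt : δ < 1 := by linarith
  obtain ⟨F₁, hF₁⟩ := exists_equiv (hE₁.trans_lt hlt)
  obtain ⟨F₂, hF₂⟩ := exists_equiv (hE₂.trans_lt hlt)
  obtain ⟨P, hP⟩ : ∃ P : V m ≃L[ℝ] V m, P = D1.trans F₁ := ⟨_, rfl⟩
  obtain ⟨Q, hQ⟩ : ∃ Q : V m ≃L[ℝ] V m, Q = F₂.trans D3 := ⟨_, rfl⟩
  have hPe : (P : V m →L[ℝ] V m) = E₁ * (D1 : V m →L[ℝ] V m) := by
    rw [← hF₁, hP]
    rfl
  have hQe : (Q : V m →L[ℝ] V m) = (D3 : V m →L[ℝ] V m) * E₂ := by
    rw [← hF₂, hQ]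
    rfl
  have h11 : ‖(1 : V m →L[ℝ] V m) - 1‖ ≤ δ := by
    rw [sub_self, norm_zero]
    exact hδ0.le
  have h00 : |(0 : ℝ)| ≤ δ := by
    rw [abs_zero]
    exact hδ0.le
  have hidx := hIDX m P Q DW D4 δ hδ0 (fun t ht R hR α hα => by
      rw [hPe]
      exact loopP H hδ hη ht hE₁ hR hα) (fun t ht R hR β hβ => by
      rw [hQe]
      exact loopQ H hδ hη ht hE₂ hR hβ) (fun t t' ht ht' R hR α β hα => by
      have h := loopZ H hδ hη ht ht' hE₁ hE₂ h11 hR (β := β) hα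
      rw [hPe, hQe]
      rwa [mul_one] at h)
  have hHP : Hyp (P : V m →L[ℝ] V m) := by
    have h := loopP H hδ hη h00 hE₁ h11 le_rfl
    rw [add_zero, one_smul, pow_one, one_mul, ← hPe] at h
    exact h
  have hHQ : Hyp (Q : V m →L[ℝ] V m) := by
    have h := loopQ H hδ hη h00 hE₂ h11 le_rfl
    rw [add_zero, one_smul, pow_one, mul_one, ← hQe] at h
    exact h
  have hPa : P a = g • a := by
    rw [← h1]
    show (P : V m →L[ℝ] V m) a = _
    rw [hPe]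
    rfl
  have hQa : Q (DW a) = g' • DW a := by
    show (Q : V m →L[ℝ] V m) (DW a) = _
    rw [hQe, h2]
    show D3 (E₂ (c • b)) = _
    rw [map_smul, map_smul, h3, smul_comm]
  obtain ⟨α, β, R, R', hα, hR, hR', hn⟩ := hCLO m P Q DW D4 a g g' δ hδ0 ha hg hg' hg'1 hPa hQa
    hHP hHQ hidx
  refine hn ?_
  have h := loopZ H hδ hη h00 h00 hE₁ hE₂ hR hR' (β := β) hα
  rw [add_zero, one_smul, one_smul, ← hPe, ← hQe] at h
  exact h

end Pool.Agent.H74.PA.Alg
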