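import Mathlib
import Pool.Agent.H74.G.R_seed8.R775.HL.LinDef
import Pool.Agent.H74.G.R_seed8.W564.SC.Defs
import Pool.Agent.H74.G.R_seed8.Y271.CP.Defs
import Pool.Agent.H74.G.R_pool_sql_team_seeded_9f66d723.W5h63.AX.Defs

/-!
# `Ω`-stable products: definitions and statements of the parts (project PROD, helper74)
-/

set_option autoImplicit false

open scoped Manifold ContDiff Topology
open Filter Set Metric

universe u v w

namespace Pool.Agent.H74.PA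

open Pool.Agent.H718R2.G Pool.Agent.TH80.OMS Pool.Agent.W564.SC Pool.Agent.Y271.CP
  Pool.Agent.R775.HL

/-! ### linear algebra -/

/-- no complex eigenvalue of `X` has modulus one -/
def Hyp {m : ℕ} (X : V m →L[ℝ] V m) : Prop := HypLin (X : V m →ₗ[ℝ] V m)

/-- the stable subspace of `X` -/
def Es {m : ℕ} (X : V m →L[ℝ] V m) : Submodule ℝ (V m) where
  carrier := {v | Tendsto (fun k : ℕ => (X ^ k) v) atTop (𝓝 0)}
  add_mem' := by
    intro a b ha hb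
    have h := Tendsto.add ha hb
    simpa only [mem_setOf_eq, map_add, add_zero] using h
  zero_mem' := by
    simp only [mem_setOf_eq, map_zero]
    exact tendsto_const_nhds
  smul_mem' := by
    intro c x hx
    have h := Tendsto.const_smul hx c
    simpa only [mem_setOf_eq, map_smul, smul_zero] using h

/-- IDX: two hyperbolic matrices which are connected robustly have the same index. -/
def S_IDX : Prop :=
  ∀ (m : ℕ) (P Q W Z : V m ≃L[ℝ] V m) (η : ℝ), 0 < η →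
    (∀ t : ℝ, |t| ≤ η → ∀ R : V m →L[ℝ] V m, ‖R - 1‖ ≤ η → ∀ α : ℕ, 1 ≤ α →
      Hyp (R * ((1 + t) • (P : V m →L[ℝ] V m)) ^ α)) →
    (∀ t : ℝ, |t| ≤ η → ∀ R : V m →L[ℝ] V m, ‖R - 1‖ ≤ η → ∀ β : ℕ, 1 ≤ β →
      Hyp (((1 + t) • (Q : V m →L[ℝ] V m)) ^ β * R)) →
    (∀ t t' : ℝ, |t| ≤ η → |t'| ≤ η → ∀ R : V m →L[ℝ] V m, ‖R - 1‖ ≤ η → ∀ α β : ℕ, 1 ≤ α →
      Hyp ((Z : V m →L[ℝ] V m) * ((1 + t') • (Q : V m →L[ℝ] V m)) ^ β * (W : V m →L[ℝ] V m) * R *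
        ((1 + t) • (P : V m →L[ℝ] V m)) ^ α)) →
    Module.finrank ℝ (Es (P : V m →L[ℝ] V m)) = Module.finrank ℝ (Es (Q : V m →L[ℝ] V m))

/-- CLO: a vector which leaves `P` along an unstable eigenvector and enters `Q` along a stable one
gives an eigenvalue one. -/
def S_CLO : Prop :=
  ∀ (m : ℕ) (P Q W Z : V m ≃L[ℝ] V m) (a : V m) (g g' η : ℝ), 0 < η → a ≠ 0 → 1 < g → 0 < g' →
    g' < 1 → P a = g • a → Q (W a) = g' • W a → Hyp (P : V m →L[ℝ] V m) →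
    Hyp (Q : V m →L[ℝ] V m) →
    Module.finrank ℝ (Es (P : V m →L[ℝ] V m)) = Module.finrank ℝ (Es (Q : V m →L[ℝ] V m)) →
    ∃ (α β : ℕ) (R R' : V m →L[ℝ] V m), 1 ≤ α ∧ ‖R - 1‖ ≤ η ∧ ‖R' - 1‖ ≤ η ∧
      ¬ Hyp ((Z : V m →L[ℝ] V m) * R * (Q : V m →L[ℝ] V m) ^ β * (W : V m →L[ℝ] V m) * R' *
        (P : V m →L[ℝ] V m) ^ α)

/-! ### topological dynamics -/

/-- `h` is expansive. -/
def Expans {Y : Type*} [MetricSpace Y] (h : Y ≃ₜ Y) : Prop :=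
  ∃ c : ℝ, 0 < c ∧ ∀ x y : Y, (∀ i : ℕ, dist (h^[i] x) (h^[i] y) ≤ c ∧
    dist (h.symm^[i] x) (h.symm^[i] y) ≤ c) → x = y

/-- the sum of the first `j` lengths -/
def tim (l : ℕ → ℕ) (j : ℕ) : ℕ := ∑ i ∈ Finset.range j, l i

/-- COD: coded periodic orbits: there are sets `C s ⊆ B s` (`C s` closed, `B s` open and disjoint) such
that for all words `w 0, ..., w (q-1)` and all sufficiently large lengths `l j` there is a point of
period `l 0 + ... + l (q-1)` whose orbit is in `C (w j)` at the time `l 0 + ... + l (j-1)` and outside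
of all `B s` at the other times. -/
def S_COD : Prop :=
  ∀ (Y : Type w) [MetricSpace Y] [CompactSpace Y] [Nontrivial Y] (h : Y ≃ₜ Y), PerShadow h →
    ChainMix h → Expans h → ∀ k : ℕ, ∃ (C B : Fin k → Set Y) (N₀ : ℕ), 1 ≤ N₀ ∧
    (∀ s, IsClosed (C s)) ∧ (∀ s, IsOpen (B s)) ∧ (∀ s, C s ⊆ B s) ∧
    (∀ s s', s ≠ s' → Disjoint (B s) (B s')) ∧
    ∀ (q : ℕ) (w : ℕ → Fin k) (l : ℕ → ℕ), 1 ≤ q → (∀ j < q, N₀ ≤ l j) →
      ∃ y : Y, h^[tim l q] y = y ∧ (∀ j < q, h^[tim l j] y ∈ C (w j)) ∧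
        ∀ j < q, ∀ i, 0 < i → i < l j → ∀ s, h^[tim l j + i] y ∉ B s

/-- TOR: hyperbolic automorphisms of tori `W / Λ` are expansive. -/
def S_TOR : Prop :=
  ∀ (W : Type) [NormedAddCommGroup W] [NormedSpace ℝ W] [FiniteDimensional ℝ W]
    (Λ : AddSubgroup W) [DiscreteTopology Λ] [IsClosed (Λ : Set W)],
    (∃ C : ℝ, ∀ z : W, ∃ u ∈ Λ, ‖z - u‖ ≤ C) →
    ∀ L : W ≃L[ℝ] W, Pool.Agent.H922R3.CL.IsHypLin L → (∀ u, u ∈ Λ ↔ L u ∈ Λ) →
    ∀ h : (W ⧸ Λ) ≃ₜ (W ⧸ Λ), (∀ z : W, h (QuotientAddGroup.mk z) = QuotientAddGroup.mk (L z)) →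
    Expans h

/-! ### hyperbolic sets -/

/-- there are no nonzero bounded orbits of tangent vectors over `K` -/
def NoBddT (n : ℕ) {m : ℕ} {N : Type u} [TopologicalSpace N] [ChartedSpace (V n) N] (F : N → N)
    (e : N → V m) (K : Set N) : Prop :=
  ∀ (x : ℤ → N) (v : ℤ → V n), (∀ i, x i ∈ K) → (∀ i, F (x i) = x (i + 1)) →
    (∀ i, Pool.Agent.W5h63.AX.df n F (x i) (v i) = v (i + 1)) →
    (∃ C : ℝ, ∀ i, ‖Pool.Agent.W5h63.AX.dv n e (x i) (v i)‖ ≤ C) → ∀ i, v i = 0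

/-- HYP: a closed invariant set with dense periodic points and without nonzero bounded orbits of
tangent vectors is hyperbolic. -/
def S_HYP : Prop :=
  ∀ (n : ℕ) (N : Type u) [TopologicalSpace N] [T2Space N] [CompactSpace N] [ChartedSpace (V n) N]
    [IsManifold (𝓡 n) ∞ N] (r : ℕ∞), 1 ≤ r → ∀ (F : DiffM n N r) (m : ℕ) (e : N → V m),
    Pool.Agent.W5h63.AX.C1 n e → (∀ x v, Pool.Agent.W5h63.AX.dv n e x v = 0 → v = 0) →
    ∀ K : Set N, IsClosed K → (∀ x ∈ K, F x ∈ K) → (∀ x ∈ K, F.symm x ∈ K) →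
    K ⊆ closure {p | p ∈ K ∧ p ∈ Per F} → NoBddT n F e K →
    Pool.Agent.W5h63.AX.IsHyperbolic n F F.symm K

/-! ### perturbations -/

/-- AFF: a smooth family of diffeomorphisms, affine near `z` in the chart `χ`. -/
def S_AFF : Prop :=
  ∀ (n : ℕ) (N : Type u) [TopologicalSpace N] [T2Space N]
    [ChartedSpace (V n) N] [IsManifold (𝓡 n) ∞ N] (r : ℕ∞)
    (χ : OpenPartialHomeomorph N (V n)) (z : N), GoodChart n N χ z →
    ∃ (Ψ : V n × (V n →L[ℝ] V n) → DiffM n N r) (κ : ℝ), 0 < κ ∧ (∀ y, Ψ 0 y = y) ∧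
      ContMDiff (𝓘(ℝ, V n × (V n →L[ℝ] V n)).prod (𝓡 n)) (𝓡 n) r
        (fun q : (V n × (V n →L[ℝ] V n)) × N => Ψ q.1 q.2) ∧
      ContMDiff (𝓘(ℝ, V n × (V n →L[ℝ] V n)).prod (𝓡 n)) (𝓡 n) r
        (fun q : (V n × (V n →L[ℝ] V n)) × N => (Ψ q.1).symm q.2) ∧
      ∀ x : V n × (V n →L[ℝ] V n), ‖x‖ < κ → ∀ y ∈ χ.source, ‖χ y‖ < 1 / 4 →
        Ψ x y ∈ χ.source ∧ χ (Ψ x y) = χ y + (x.1 + x.2 (χ y))

end Pool.Agent.H74.PA
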