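import Mathlib
import Pool.Agent.H74.PA.Stm
import Pool.Agent.H74.G.R_pool_sql_team_seeded_9f66d723.W5h63.AX.Hyp
import Pool.Agent.H74.G.R_seed8.Y38.CO.EIG

/-!
# HYP: a closed invariant set with dense periodic points and without nonzero bounded orbits of tangent
vectors is hyperbolic (project PROD)
-/

set_option autoImplicit false
set_option linter.unusedSectionVars false
set_option maxSynthPendingDepth 3

open Filter Topology Set Metric
open scoped ContDiff Manifold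

noncomputable section

universe u

namespace Pool.Agent.H74.PA.Hyp

open Pool.Agent.R774.Cl Pool.Agent.R774.ClStmt Pool.Agent.H718R2.G Pool.Agent.R775.HL
  Pool.Agent.TH80.OMS Pool.Agent.W5h63.AX

/-! ### sequences -/

lemma sup_half {a : ℕ → ℝ} {m : ℕ} {B C : ℝ} (hB : 0 ≤ B) (hC : ∀ k, a k ≤ C)
    (h : ∀ k, m ≤ k → a k ≤ B ∨ ∃ i, m ≤ i ∧ 2 * a k ≤ a i) (k : ℕ) (hk : m ≤ k) : a k ≤ B := by
  by_contra hcon
  push Not at hcon
  have hbdd : BddAbove (range fun i : ℕ => a (m + i)) := ⟨C, by rintro _ ⟨i, rfl⟩; exact hC _⟩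
  set S := ⨆ i : ℕ, a (m + i) with hS
  have h1 : ∀ i, m ≤ i → a i ≤ S := by
    intro i hi
    obtain ⟨j, rfl⟩ := Nat.exists_eq_add_of_le hi
    exact le_ciSup hbdd j
  have h2 : B < S := hcon.trans_le (h1 k hk)
  have h3 : max B (S / 2) < S := max_lt h2 (by linarith)
  obtain ⟨j, hj⟩ := exists_lt_of_lt_ciSup h3
  have h4 := (max_lt_iff.1 hj)
  rcases h (m + j) (Nat.le_add_right _ _) with h5 | ⟨i, hi, h5⟩
  · linarith [h4.1]
  · have := h1 i hi
    linarith [h4.2]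

lemma seq_dec {a : ℕ → ℝ} {M : ℕ} {L C : ℝ} (h0 : ∀ k, 0 ≤ a k) (hL1 : 1 ≤ L)
    (hL : ∀ k, a (k + 1) ≤ L * a k) (hC : ∀ k, a k ≤ C)
    (hu : ∀ k, M ≤ k → 0 < a k → ∃ i, k ≤ i + M ∧ 2 * a k < a i) (q : ℕ) :
    ∀ k, q * M ≤ k → a k ≤ (1 / 2) ^ q * (L ^ M * a 0) := by
  have hB : 0 ≤ L ^ M * a 0 := mul_nonneg (pow_nonneg (zero_le_one.trans hL1) _) (h0 0)
  induction q with
  | zero =>
    intro k hk
    rw [pow_zero, one_mul]
    refine sup_half hB hC (fun k hk => ?_) k hk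
    rcases lt_or_ge k M with h1 | h1
    · left
      have h2 : a k ≤ L ^ k * a 0 := by
        clear hk h1
        induction k with
        | zero => rw [pow_zero, one_mul]
        | succ k ih =>
          rw [pow_succ']
          calc a (k + 1) ≤ L * a k := hL k
            _ ≤ L * (L ^ k * a 0) := mul_le_mul_of_nonneg_left ih (zero_le_one.trans hL1)
            _ = _ := by ring
      exact h2.trans (mul_le_mul_of_nonneg_right (pow_le_pow_right₀ hL1 h1.le) (h0 0))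
    · rcases (h0 k).eq_or_lt with h2 | h2
      · left
        rw [← h2]
        exact hB
      · obtain ⟨i, -, hi⟩ := hu k h1 h2
        exact Or.inr ⟨i, by omega, hi.le⟩
  | succ q ih =>
    intro k hk
    refine sup_half (by positivity) hC (fun k hk => ?_) k hk
    rcases (h0 k).eq_or_lt with h2 | h2
    · left
      rw [← h2]
      positivity
    · have hkM : M ≤ k := (Nat.le_mul_of_pos_left M (Nat.succ_pos q)).trans hk
      obtain ⟨i, hi1, hi⟩ := hu k hkM h2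
      rcases lt_or_ge i ((q + 1) * M) with h3 | h3
      · left
        have h4 : q * M ≤ i := by
          rw [Nat.succ_mul] at hk
          omega
        have h5 := ih i h4
        rw [pow_succ]
        linarith
      · exact Or.inr ⟨i, h3, hi.le⟩

/-- exponential decay -/
lemma seq_exp (M : ℕ) (hM : 1 ≤ M) (L : ℝ) (hL1 : 1 ≤ L) : ∃ μ : ℝ, 0 < μ ∧ μ < 1 ∧
    ∀ (a : ℕ → ℝ) (C : ℝ), (∀ k, 0 ≤ a k) → (∀ k, a (k + 1) ≤ L * a k) → (∀ k, a k ≤ C) →
      (∀ k, M ≤ k → 0 < a k → ∃ i, k ≤ i + M ∧ 2 * a k < a i) →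
      ∀ k, a k ≤ 2 * L ^ M * μ ^ k * a 0 := by
  have hM0 : M ≠ 0 := by omega
  have hμM : ((1 / 2 : ℝ) ^ ((M : ℝ)⁻¹)) ^ M = 1 / 2 :=
    Real.rpow_inv_natCast_pow (by norm_num) hM0
  have hμ0 : 0 < (1 / 2 : ℝ) ^ ((M : ℝ)⁻¹) := Real.rpow_pos_of_pos (by norm_num) _
  have hμ1 : (1 / 2 : ℝ) ^ ((M : ℝ)⁻¹) < 1 :=
    Real.rpow_lt_one (by norm_num) (by norm_num) (by positivity)
  refine ⟨(1 / 2 : ℝ) ^ ((M : ℝ)⁻¹), hμ0, hμ1, fun a C h0 hL hC hu k => ?_⟩
  set μ := (1 / 2 : ℝ) ^ ((M : ℝ)⁻¹) with hμ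
  have h1 := seq_dec h0 hL1 hL hC hu (k / M) k (Nat.div_mul_le_self k M)
  have h2 : (1 / 2 : ℝ) ^ (k / M) ≤ 2 * μ ^ k := by
    have h3 : k ≤ M * (k / M + 1) := by
      have := Nat.lt_mul_div_succ k (b := M) (by omega)
      exact this.le
    have h4 : μ ^ (M * (k / M + 1)) ≤ μ ^ k := pow_le_pow_of_le_one hμ0.le hμ1.le h3
    rw [pow_mul, hμM, pow_succ] at h4
    linarith
  calc a k ≤ (1 / 2) ^ (k / M) * (L ^ M * a 0) := h1
    _ ≤ (2 * μ ^ k) * (L ^ M * a 0) :=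
      mul_le_mul_of_nonneg_right h2 (mul_nonneg (pow_nonneg (zero_le_one.trans hL1) _) (h0 0))
    _ = _ := by ring

/-! ### no bounded orbits -/

variable {n m : ℕ} {N : Type u} [TopologicalSpace N] [ChartedSpace (V n) N]

/-- There are no nonzero bounded orbits of tangent vectors over the closed invariant set `K`. -/
structure NB (n : ℕ) {m : ℕ} {N : Type u} [TopologicalSpace N] [ChartedSpace (V n) N]
    (F F' : N → N) (K : Set N) (e : N → V m) : Prop where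
  smooth : ContMDiff (𝓡 n) (𝓡 n) 1 F
  smooth' : ContMDiff (𝓡 n) (𝓡 n) 1 F'
  hl : ∀ x, F' (F x) = x
  hr : ∀ x, F (F' x) = x
  imm : Imm n e
  closed : IsClosed K
  inv : ∀ x ∈ K, F x ∈ K
  inv' : ∀ x ∈ K, F' x ∈ K
  nb : ∀ x ∈ K, ∀ t : V n, (∃ C : ℝ, ∀ i : ℕ,
    ‖dr (V n) (V m) (fun y => e (F^[i] y)) x t‖ ≤ C ∧
    ‖dr (V n) (V m) (fun y => e (F'^[i] y)) x t‖ ≤ C) → t = 0

variable {F F' : N → N} {K : Set N} {e : N → V m}

lemma NB.symm (h : NB n F F' K e) : NB n F' F K e where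
  smooth := h.smooth'
  smooth' := h.smooth
  hl := h.hr
  hr := h.hl
  imm := h.imm
  closed := h.closed
  inv := h.inv'
  inv' := h.inv
  nb := by
    rintro x hx t ⟨C, hC⟩
    exact h.nb x hx t ⟨C, fun i => ⟨(hC i).2, (hC i).1⟩⟩

variable [IsManifold (𝓡 n) ∞ N]

lemma iter_iter (hl : ∀ x, F' (F x) = x) (i k : ℕ) (x : N) : F'^[i] (F^[i + k] x) = F^[k] x := by
  rw [Function.iterate_add_apply]
  exact Function.LeftInverse.iterate hl i _

section

variable [CompactSpace N]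

lemma lip (he : Imm n e) {g : N → V m} (hg : ContMDiff (𝓡 n) (𝓡 m) 1 g) : ∃ L : ℝ, 1 ≤ L ∧
    ∀ x (v : V n), ‖dr (V n) (V m) g x v‖ ≤ L * ‖dr (V n) (V m) e x v‖ := by
  obtain ⟨B, hB⟩ := isCompact_univ.exists_bound_of_continuousOn (tr_cont (n := n) he hg).continuousOn
  refine ⟨max 1 B, le_max_left _ _, fun x v => ?_⟩
  rw [← tr_apply he g x v]
  refine ((tr (n := n) e g x).le_opNorm _).trans ?_
  exact mul_le_mul_of_nonneg_right ((hB x (mem_univ x)).trans (le_max_right _ _)) (norm_nonneg _)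

/-- limits of unit vectors with bounded orbits -/
lemma NB.lim (h : NB n F F' K e) {ι : Type*} (l : Ultrafilter ι) (p : ι → N) (s : ι → V n) {C : ℝ}
    (hp : ∀ᶠ j in (l : Filter ι), p j ∈ K)
    (hs : ∀ᶠ j in (l : Filter ι), ‖dr (V n) (V m) e (p j) (s j)‖ = 1)
    (hb : ∀ i : ℕ, ∀ᶠ j in (l : Filter ι),
      ‖dr (V n) (V m) (fun y => e (F^[i] y)) (p j) (s j)‖ ≤ C ∧
      ‖dr (V n) (V m) (fun y => e (F'^[i] y)) (p j) (s j)‖ ≤ C) : False := by
  obtain ⟨⟨x, w⟩, ⟨hx, hw1, hw⟩, hlim⟩ := (sph_compact h.imm h.closed).ultrafilter_le_nhds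
    (l.map fun j => (p j, dr (V n) (V m) e (p j) (s j))) (by
      rw [le_principal_iff]
      show ∀ᶠ j in (l : Filter ι), (p j, dr (V n) (V m) e (p j) (s j)) ∈
        {p : N × V m | p.1 ∈ K ∧ ‖p.2‖ = 1 ∧ tr (n := n) e e p.1 p.2 = p.2}
      filter_upwards [hp, hs] with j h1 h2
      exact ⟨h1, h2, tr_apply h.imm e _ _⟩)
  have hlim' : Tendsto (fun j => (p j, dr (V n) (V m) e (p j) (s j))) (l : Filter ι)
    (𝓝 (x, w)) := hlim
  have hpx : Tendsto p (l : Filter ι) (𝓝 x) := (continuous_fst.tendsto (x, w)).comp hlim'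
  have hsw : Tendsto (fun j => dr (V n) (V m) e (p j) (s j)) (l : Filter ι) (𝓝 w) :=
    (continuous_snd.tendsto (x, w)).comp hlim'
  obtain ⟨t, ht⟩ := (tr_self h.imm).1 hw
  have ht' : dr (V n) (V m) e x t = w := ht
  have key : ∀ g : N → V m, ContMDiff (𝓡 n) (𝓡 m) 1 g →
      (∀ᶠ j in (l : Filter ι), ‖dr (V n) (V m) g (p j) (s j)‖ ≤ C) →
      ‖dr (V n) (V m) g x t‖ ≤ C := by
    intro g hg hgC
    rw [← tr_apply h.imm g x t, ht']
    have h1 : Tendsto (fun j => tr (n := n) e g (p j) (dr (V n) (V m) e (p j) (s j)))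
        (l : Filter ι) (𝓝 (tr (n := n) e g x w)) :=
      tendsto_clm (((tr_cont h.imm hg).tendsto x).comp hpx) hsw
    refine le_of_tendsto h1.norm (hgC.mono fun j hj => ?_)
    rw [tr_apply h.imm]
    exact hj
  have h2 : t = 0 := h.nb x hx t ⟨C, fun i =>
    ⟨key _ (h.imm.smooth.comp (cmd_iter h.smooth i)) ((hb i).mono fun j hj => hj.1),
      key _ (h.imm.smooth.comp (cmd_iter h.smooth' i)) ((hb i).mono fun j hj => hj.2)⟩⟩
  have hw1' : ‖w‖ = 1 := hw1
  rw [h2, map_zero] at ht'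
  rw [← ht', norm_zero] at hw1'
  exact zero_ne_one hw1'

/-- every vector is doubled in a bounded time, in the future or in the past -/
lemma NB.unif (h : NB n F F' K e) : ∃ M : ℕ, 1 ≤ M ∧ ∀ x ∈ K, ∀ v : V n,
    0 < ‖dr (V n) (V m) e x v‖ → ∃ i ≤ M,
      2 * ‖dr (V n) (V m) e x v‖ < ‖dr (V n) (V m) (fun y => e (F^[i] y)) x v‖ ∨
      2 * ‖dr (V n) (V m) e x v‖ < ‖dr (V n) (V m) (fun y => e (F'^[i] y)) x v‖ := by
  by_contra hcon
  push Not at hcon
  have h1 : ∀ M : ℕ, ∃ x ∈ K, ∃ v : V n, 0 < ‖dr (V n) (V m) e x v‖ ∧ ∀ i ≤ M + 1,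
      ‖dr (V n) (V m) (fun y => e (F^[i] y)) x v‖ ≤ 2 * ‖dr (V n) (V m) e x v‖ ∧
      ‖dr (V n) (V m) (fun y => e (F'^[i] y)) x v‖ ≤ 2 * ‖dr (V n) (V m) e x v‖ :=
    fun M => hcon (M + 1) (by omega)
  choose p hp s hs0 hs using h1
  have hpos : ∀ j, ‖dr (V n) (V m) e (p j) (s j)‖ ≠ 0 := fun j => (hs0 j).ne'
  refine h.lim (hyperfilter ℕ) p (fun j => ‖dr (V n) (V m) e (p j) (s j)‖⁻¹ • s j) (C := 2)
    (Eventually.of_forall hp) (Eventually.of_forall fun j => ?_) (fun i => ?_)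
  · rw [map_smul, norm_smul, norm_inv, norm_norm, inv_mul_cancel₀ (hpos j)]
  · have h2 : ∀ᶠ j in ((hyperfilter ℕ : Ultrafilter ℕ) : Filter ℕ), i ≤ j := by
      have h3 : ((hyperfilter ℕ : Ultrafilter ℕ) : Filter ℕ) ≤ atTop := by
        rw [← Nat.cofinite_eq_atTop]
        exact hyperfilter_le_cofinite
      exact h3 (eventually_ge_atTop i)
    refine h2.mono fun j hj => ?_
    have h3 := hs j i (by omega)
    rw [map_smul, map_smul, norm_smul, norm_smul, norm_inv, norm_norm]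
    constructor
    · rw [inv_mul_le_iff₀ (hs0 j), mul_comm]
      exact h3.1
    · rw [inv_mul_le_iff₀ (hs0 j), mul_comm]
      exact h3.2

/-- exponential decay of bounded forward orbits -/
lemma NB.decay (h : NB n F F' K e) : ∃ A μ : ℝ, 0 < A ∧ 0 < μ ∧ μ < 1 ∧ ∀ x ∈ K, ∀ v : V n,
    (∃ C : ℝ, ∀ k : ℕ, ‖dr (V n) (V m) (fun y => e (F^[k] y)) x v‖ ≤ C) → ∀ k : ℕ,
      ‖dr (V n) (V m) (fun y => e (F^[k] y)) x v‖ ≤ A * μ ^ k * ‖dr (V n) (V m) e x v‖ := by
  obtain ⟨M, hM, hunif⟩ := h.unif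
  obtain ⟨L, hL1, hL⟩ := lip h.imm (g := fun y => e (F y)) (h.imm.smooth.comp h.smooth)
  obtain ⟨μ, hμ0, hμ1, hexp⟩ := seq_exp M hM L hL1
  refine ⟨2 * L ^ M, μ, by positivity, hμ0, hμ1, ?_⟩
  rintro x hx v ⟨C, hC⟩ k
  have h1 := hexp (fun k => ‖dr (V n) (V m) (fun y => e (F^[k] y)) x v‖) C
    (fun k => norm_nonneg _) (fun k => ?_) hC (fun k hk hk0 => ?_) k
  · exact h1
  · have h2 := hL (F^[k] x) (dr (V n) (V n) F^[k] x v)
    have h3 := dr_iter_e h.smooth (e := fun y => e (F y)) (h.imm.smooth.comp h.smooth) k x v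
    have h4 : (fun y => (fun y => e (F y)) (F^[k] y)) = fun y => e (F^[k + 1] y) := by
      funext y
      rw [Function.iterate_succ_apply']
    rw [h4] at h3
    rw [← h3, ← dr_iter_e h.smooth h.imm.smooth] at h2
    exact h2
  · have e0 := dr_iter_e h.smooth h.imm.smooth k x v
    have hk0' : 0 < ‖dr (V n) (V m) (fun y => e (F^[k] y)) x v‖ := hk0
    rw [e0] at hk0'
    obtain ⟨i, hi, h2⟩ := hunif (F^[k] x) (iter_mem h.inv hx k) (dr (V n) (V n) F^[k] x v) hk0'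
    rw [← e0] at h2
    rcases h2 with h2 | h2
    · refine ⟨i + k, by omega, ?_⟩
      have h3 := dr_iter_e h.smooth (e := fun y => e (F^[i] y))
        (h.imm.smooth.comp (cmd_iter h.smooth i)) k x v
      have h4 : (fun y => (fun y => e (F^[i] y)) (F^[k] y)) = fun y => e (F^[i + k] y) := by
        funext y
        rw [Function.iterate_add_apply]
      rw [h4] at h3
      rw [← h3] at h2
      exact h2
    · obtain ⟨j, rfl⟩ := Nat.exists_eq_add_of_le (hi.trans hk)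
      refine ⟨j, by omega, ?_⟩
      have h3 := dr_iter_e h.smooth (e := fun y => e (F'^[i] y))
        (h.imm.smooth.comp (cmd_iter h.smooth' i)) (i + j) x v
      have h4 : (fun y => (fun y => e (F'^[i] y)) (F^[i + j] y)) = fun y => e (F^[j] y) := by
        funext y
        show e (F'^[i] (F^[i + j] y)) = _
        rw [iter_iter h.hl]
      rw [h4] at h3
      rw [← h3] at h2
      exact h2

lemma bdd_of_mem {x : N} {v : V n} (hv : v ∈ Est (n := n) e F x) :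
    ∃ C : ℝ, ∀ k : ℕ, ‖dr (V n) (V m) (fun y => e (F^[k] y)) x v‖ ≤ C := by
  have h1 : Tendsto (fun k : ℕ => dr (V n) (V m) (fun y => e (F^[k] y)) x v) atTop (𝓝 0) := hv
  obtain ⟨C, hC⟩ := h1.norm.bddAbove_range
  exact ⟨C, fun k => hC ⟨k, rfl⟩⟩

lemma NB.mem_of_bdd (h : NB n F F' K e) {x : N} (hx : x ∈ K) {v : V n}
    (hv : ∃ C : ℝ, ∀ k : ℕ, ‖dr (V n) (V m) (fun y => e (F^[k] y)) x v‖ ≤ C) :
    v ∈ Est (n := n) e F x := by
  obtain ⟨A, μ, hA, hμ0, hμ1, hdec⟩ := h.decay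
  show Tendsto (fun k : ℕ => dr (V n) (V m) (fun y => e (F^[k] y)) x v) atTop (𝓝 0)
  have h1 : Tendsto (fun k : ℕ => A * μ ^ k * ‖dr (V n) (V m) e x v‖) atTop (𝓝 0) := by
    have := ((tendsto_pow_atTop_nhds_zero_of_lt_one hμ0.le hμ1).const_mul A).mul_const
      ‖dr (V n) (V m) e x v‖
    rwa [mul_zero, zero_mul] at this
  exact squeeze_zero_norm (fun k => hdec x hx v hv k) h1

/-- the contracted vectors form a closed set -/
lemma NB.closed_Est (h : NB n F F' K e) {ι : Type*} {l : Filter ι} [l.NeBot]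
    {p : ι → N} {s : ι → V n} {x : N} {w : V m} (hx : x ∈ K) (hp : ∀ᶠ j in l, p j ∈ K)
    (hs : ∀ᶠ j in l, s j ∈ Est (n := n) e F (p j)) (hpx : Tendsto p l (𝓝 x))
    (hw : Tendsto (fun j => dr (V n) (V m) e (p j) (s j)) l (𝓝 w)) :
    ∃ t ∈ Est (n := n) e F x, dr (V n) (V m) e x t = w := by
  obtain ⟨A, μ, hA, hμ0, hμ1, hdec⟩ := h.decay
  have h1 : Tendsto (fun j => tr (n := n) e e (p j) (dr (V n) (V m) e (p j) (s j))) l
      (𝓝 (tr (n := n) e e x w)) :=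
    tendsto_clm (((tr_cont h.imm h.imm.smooth).tendsto x).comp hpx) hw
  have h2 : tr (n := n) e e x w = w := by
    refine tendsto_nhds_unique h1 (hw.congr fun j => ?_)
    rw [tr_apply h.imm]
  obtain ⟨t, ht⟩ := (tr_self h.imm).1 h2
  have ht' : dr (V n) (V m) e x t = w := ht
  refine ⟨t, h.mem_of_bdd hx ⟨A * ‖w‖, fun k => ?_⟩, ht'⟩
  have hg := h.imm.smooth.comp (cmd_iter h.smooth k)
  have h3 : Tendsto (fun j => tr (n := n) e (fun y => e (F^[k] y)) (p j)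
      (dr (V n) (V m) e (p j) (s j))) l
      (𝓝 (tr (n := n) e (fun y => e (F^[k] y)) x w)) :=
    tendsto_clm (((tr_cont h.imm hg).tendsto x).comp hpx) hw
  rw [← tr_apply h.imm (fun y => e (F^[k] y)) x t, ht']
  refine le_of_tendsto_of_tendsto h3.norm (hw.norm.const_mul A) ?_
  filter_upwards [hp, hs] with j hj hsj
  rw [tr_apply h.imm]
  refine (hdec (p j) hj (s j) (bdd_of_mem hsj) k).trans ?_
  refine mul_le_mul_of_nonneg_right ?_ (norm_nonneg _)
  exact mul_le_of_le_one_right hA.le (pow_le_one₀ hμ0.le hμ1.le)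

lemma NB.isClosed_Est (h : NB n F F' K e) :
    IsClosed {p : N × V m | p.1 ∈ K ∧ ∃ v ∈ Est (n := n) e F p.1, dr (V n) (V m) e p.1 v = p.2} := by
  classical
  rw [isClosed_iff_ultrafilter]
  rintro ⟨x, w⟩ l hl hS
  have h1 : ∀ p : N × V m, p ∈ {p : N × V m | p.1 ∈ K ∧ ∃ v ∈ Est (n := n) e F p.1,
      dr (V n) (V m) e p.1 v = p.2} → ∃ v, v ∈ Est (n := n) e F p.1 ∧
        dr (V n) (V m) e p.1 v = p.2 := fun p hp => hp.2
  choose! s hs1 hs2 using h1
  have hlS : ∀ᶠ p in (l : Filter (N × V m)), p ∈ {p : N × V m | p.1 ∈ K ∧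
      ∃ v ∈ Est (n := n) e F p.1, dr (V n) (V m) e p.1 v = p.2} := hS
  have hl1 : Tendsto (fun p : N × V m => p.1) (l : Filter (N × V m)) (𝓝 x) :=
    (continuous_fst.tendsto (x, w)).mono_left hl
  have hl2 : Tendsto (fun p : N × V m => p.2) (l : Filter (N × V m)) (𝓝 w) :=
    (continuous_snd.tendsto (x, w)).mono_left hl
  have hxK : x ∈ K := h.closed.mem_of_tendsto hl1 (hlS.mono fun p hp => hp.1)
  obtain ⟨t, ht1, ht2⟩ := h.closed_Est (l := (l : Filter (N × V m))) (p := fun p => p.1)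
    (s := s) hxK (hlS.mono fun p hp => hp.1) (hlS.mono fun p hp => hs1 p hp) hl1
    (hl2.congr' (hlS.mono fun p hp => (hs2 p hp).symm))
  exact ⟨hxK, t, ht1, ht2⟩

/-- the contracted vectors of the inverse map, shifted by the iterates of `F` -/
lemma NB.shift (h : NB n F F' K e) (x : N) {u : V n} (hu : u ∈ Est (n := n) e F' x) (k : ℕ) :
    dr (V n) (V n) F^[k] x u ∈ Est (n := n) e F' (F^[k] x) := by
  induction k with
  | zero =>
    have h1 : dr (V n) (V n) F^[0] x u = u := dr_id x u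
    rw [h1]
    exact hu
  | succ k ih =>
    rw [dr_iter h.smooth, Function.iterate_succ_apply']
    rw [est_shift h.smooth' h.imm.smooth]
    have h1 := dr_inv h.smooth' h.smooth h.hl (F^[k] x) (dr (V n) (V n) F^[k] x u)
    rw [h1, h.hl]
    exact ih

/-- the angle between the contracted and the expanded vectors is bounded from below -/
lemma NB.angle (h : NB n F F' K e) :
    ∃ R : ℝ, 0 < R ∧ ∀ x ∈ K, ∀ s ∈ Est (n := n) e F x, ∀ u ∈ Est (n := n) e F' x,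
      ‖dr (V n) (V m) e x s‖ + ‖dr (V n) (V m) e x u‖ ≤
        R * ‖dr (V n) (V m) e x (s + u)‖ := by
  obtain ⟨A, μ, hA, hμ0, hμ1, hdec⟩ := h.decay
  obtain ⟨A', μ', hA', hμ0', hμ1', hdec'⟩ := h.symm.decay
  obtain ⟨k, hk⟩ : ∃ k : ℕ, A * μ ^ k ≤ 1 / 2 ∧ A' * μ' ^ k ≤ 1 / 2 := by
    have h1 : Tendsto (fun k : ℕ => A * μ ^ k) atTop (𝓝 (A * 0)) :=
      (tendsto_pow_atTop_nhds_zero_of_lt_one hμ0.le hμ1).const_mul A
    have h2 : Tendsto (fun k : ℕ => A' * μ' ^ k) atTop (𝓝 (A' * 0)) :=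
      (tendsto_pow_atTop_nhds_zero_of_lt_one hμ0'.le hμ1').const_mul A'
    rw [mul_zero] at h1 h2
    exact ((h1.eventually (ge_mem_nhds (by norm_num))).and
      (h2.eventually (ge_mem_nhds (by norm_num)))).exists
  have hgk := h.imm.smooth.comp (cmd_iter h.smooth k)
  obtain ⟨L, hL1, hL⟩ := lip h.imm (g := fun y => e (F^[k] y)) hgk
  refine ⟨2 * L + 2, by linarith, fun x hx s hs u hu => ?_⟩
  set ws := dr (V n) (V m) e x s with hws
  set wu := dr (V n) (V m) e x u with hwu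
  have e1 : dr (V n) (V m) e x (s + u) = ws + wu := map_add _ _ _
  rw [e1]
  have h1 : ‖dr (V n) (V m) (fun y => e (F^[k] y)) x s‖ ≤ 1 / 2 * ‖ws‖ :=
    (hdec x hx s (bdd_of_mem hs) k).trans (mul_le_mul_of_nonneg_right hk.1 (norm_nonneg _))
  have h2 : ‖wu‖ ≤ 1 / 2 * ‖dr (V n) (V m) (fun y => e (F^[k] y)) x u‖ := by
    have h3 := hdec' (F^[k] x) (iter_mem h.inv hx k) _ (bdd_of_mem (h.shift x hu k)) k
    have h4 := dr_iter_e h.smooth (e := fun y => e (F'^[k] y))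
      (h.imm.smooth.comp (cmd_iter h.smooth' k)) k x u
    have h5 : (fun y => (fun y => e (F'^[k] y)) (F^[k] y)) = e := by
      funext y
      exact congrArg e (Function.LeftInverse.iterate h.hl k y)
    rw [h5] at h4
    rw [← h4, ← dr_iter_e h.smooth h.imm.smooth] at h3
    exact h3.trans (mul_le_mul_of_nonneg_right hk.2 (norm_nonneg _))
  have h3 : ‖dr (V n) (V m) (fun y => e (F^[k] y)) x u‖ ≤ L * ‖ws + wu‖ +
      ‖dr (V n) (V m) (fun y => e (F^[k] y)) x s‖ := by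
    have h4 := hL x (s + u)
    rw [e1, map_add] at h4
    have h5 : ‖dr (V n) (V m) (fun y => e (F^[k] y)) x u‖ ≤
        ‖dr (V n) (V m) (fun y => e (F^[k] y)) x s + dr (V n) (V m) (fun y => e (F^[k] y)) x u‖ +
          ‖dr (V n) (V m) (fun y => e (F^[k] y)) x s‖ := by
      have h6 := norm_sub_le (dr (V n) (V m) (fun y => e (F^[k] y)) x s +
        dr (V n) (V m) (fun y => e (F^[k] y)) x u) (dr (V n) (V m) (fun y => e (F^[k] y)) x s)
      rwa [add_sub_cancel_left] at h6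
    linarith
  have h4 : ‖ws‖ ≤ ‖ws + wu‖ + ‖wu‖ := by
    have h6 := norm_sub_le (ws + wu) wu
    rwa [add_sub_cancel_right] at h6
  have h5 := norm_nonneg (ws + wu)
  nlinarith

/-- **The splitting in the limit.** -/
theorem NB.split_closure (h : NB n F F' K e) {P : Set N} (hP : P ⊆ K)
    (hs : ∀ p ∈ P, ∀ v : V n, ∃ s ∈ Est (n := n) e F p, ∃ u ∈ Est (n := n) e F' p, s + u = v)
    {x : N} (hx : x ∈ closure P) (v : V n) :
    ∃ s ∈ Est (n := n) e F x, ∃ u ∈ Est (n := n) e F' x, s + u = v := by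
  classical
  obtain ⟨R, hR, hang⟩ := h.angle
  have hxK : x ∈ K := h.closed.closure_subset_iff.2 hP hx
  choose! s hs1 u hu1 hsu using hs
  have hne : (𝓝[P] x).NeBot := mem_closure_iff_nhdsWithin_neBot.1 hx
  let l : Ultrafilter N := @Ultrafilter.of N (𝓝[P] x) hne
  have hl : (l : Filter N) ≤ 𝓝[P] x := @Ultrafilter.of_le N (𝓝[P] x) hne
  have hlx : Tendsto (fun p : N => p) (l : Filter N) (𝓝 x) := hl.trans nhdsWithin_le_nhds
  have hlP : ∀ᶠ p in (l : Filter N), p ∈ P := hl self_mem_nhdsWithin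
  set w := dr (V n) (V m) e x v with hw
  let vv : N → V n := fun p => pinv (dr (V n) (V m) e p) w
  have hvv : Tendsto (fun p => dr (V n) (V m) e p (vv p)) (l : Filter N) (𝓝 w) := by
    have h1 : Tendsto (fun p => tr (n := n) e e p w) (l : Filter N) (𝓝 (tr (n := n) e e x w)) :=
      tendsto_clm (((tr_cont h.imm h.imm.smooth).tendsto x).comp hlx) tendsto_const_nhds
    rw [(tr_self h.imm).2 ⟨v, rfl⟩] at h1
    exact h1
  have hbd : ∀ᶠ p in (l : Filter N), ‖dr (V n) (V m) e p (vv p)‖ ≤ ‖w‖ + 1 := by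
    have h1 := hvv.norm.eventually (gt_mem_nhds (lt_add_one ‖w‖))
    exact h1.mono fun p hp => hp.le
  have hsum : ∀ᶠ p in (l : Filter N), ‖dr (V n) (V m) e p (s p (vv p))‖ +
      ‖dr (V n) (V m) e p (u p (vv p))‖ ≤ R * (‖w‖ + 1) := by
    filter_upwards [hbd, hlP] with p hp1 hp2
    have h1 := hang p (hP hp2) _ (hs1 p hp2 (vv p)) _ (hu1 p hp2 (vv p))
    rw [hsu p hp2] at h1
    exact h1.trans (mul_le_mul_of_nonneg_left hp1 hR.le)
  have lim : ∀ f : N → V m, (∀ᶠ p in (l : Filter N), ‖f p‖ ≤ R * (‖w‖ + 1)) →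
      ∃ z, Tendsto f (l : Filter N) (𝓝 z) := by
    intro f hf
    obtain ⟨z, -, hz⟩ := (isCompact_closedBall (0 : V m) (R * (‖w‖ + 1))).ultrafilter_le_nhds
      (l.map f) (by
        rw [le_principal_iff]
        show ∀ᶠ p in (l : Filter N), f p ∈ closedBall (0 : V m) (R * (‖w‖ + 1))
        exact hf.mono fun p hp => by simpa using hp)
    exact ⟨z, hz⟩
  obtain ⟨zs, hzs⟩ := lim (fun p => dr (V n) (V m) e p (s p (vv p)))
    (hsum.mono fun p hp => le_trans (le_add_of_nonneg_right (norm_nonneg _)) hp)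
  obtain ⟨zu, hzu⟩ := lim (fun p => dr (V n) (V m) e p (u p (vv p)))
    (hsum.mono fun p hp => le_trans (le_add_of_nonneg_left (norm_nonneg _)) hp)
  obtain ⟨s', hs', hs2⟩ := h.closed_Est (l := (l : Filter N)) (p := fun p => p)
    (s := fun p => s p (vv p)) hxK (hlP.mono fun p hp => hP hp)
    (hlP.mono fun p hp => hs1 p hp (vv p)) hlx hzs
  obtain ⟨u', hu', hu2⟩ := h.symm.closed_Est (l := (l : Filter N)) (p := fun p => p)
    (s := fun p => u p (vv p)) hxK (hlP.mono fun p hp => hP hp)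
    (hlP.mono fun p hp => hu1 p hp (vv p)) hlx hzu
  refine ⟨s', hs', u', hu', ?_⟩
  have h1 : zs + zu = w := by
    refine tendsto_nhds_unique (hzs.add hzu) (hvv.congr' ?_)
    filter_upwards [hlP] with p hp
    rw [← map_add, hsu p hp]
  have h2 : dr (V n) (V m) e x (s' + u' - v) = 0 := by
    rw [map_sub, map_add, hs2, hu2, h1, ← hw, sub_self]
  exact sub_eq_zero.1 (h.imm.inj x _ h2)

/-! ### periodic points -/

/-- the whole orbit is bounded if the orbit is bounded along the multiples of the period -/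
lemma NB.bdd_per (h : NB n F F' K e) {p : N} {j : ℕ} (hj : 1 ≤ j) (hp : F^[j] p = p) {v : V n}
    (hv : ∃ C : ℝ, ∀ k : ℕ, ‖((dr (V n) (V n) F^[j] p : V n →ₗ[ℝ] V n) ^ k) v‖ ≤ C) :
    ∃ C : ℝ, ∀ k : ℕ, ‖dr (V n) (V m) (fun y => e (F^[k] y)) p v‖ ≤ C := by
  obtain ⟨C, hC⟩ := hv
  obtain ⟨L, hL1, hL⟩ := lip h.imm (g := fun y => e (F y)) (h.imm.smooth.comp h.smooth)
  have hL0 : 0 ≤ L := zero_le_one.trans hL1
  have hstep : ∀ k : ℕ, ‖dr (V n) (V m) (fun y => e (F^[k + 1] y)) p v‖ ≤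
      L * ‖dr (V n) (V m) (fun y => e (F^[k] y)) p v‖ := by
    intro k
    have h2 := hL (F^[k] p) (dr (V n) (V n) F^[k] p v)
    have h3 := dr_iter_e h.smooth (e := fun y => e (F y)) (h.imm.smooth.comp h.smooth) k p v
    have h4 : (fun y => (fun y => e (F y)) (F^[k] y)) = fun y => e (F^[k + 1] y) := by
      funext y
      rw [Function.iterate_succ_apply']
    rw [h4] at h3
    rw [← h3, ← dr_iter_e h.smooth h.imm.smooth] at h2
    exact h2
  have hC0 : 0 ≤ C := (norm_nonneg _).trans (hC 0)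
  have hmul : ∀ k : ℕ, ‖dr (V n) (V m) (fun y => e (F^[j * k] y)) p v‖ ≤
      ‖dr (V n) (V m) e p‖ * C := by
    intro k
    obtain ⟨h5, h6⟩ := dr_per h.smooth hp k v
    rw [dr_iter_e h.smooth h.imm.smooth, h6, h5]
    exact ((dr (V n) (V m) e p).le_opNorm _).trans
      (mul_le_mul_of_nonneg_left (hC k) (norm_nonneg _))
  have hB0 : 0 ≤ ‖dr (V n) (V m) e p‖ * C := mul_nonneg (norm_nonneg _) hC0
  have hadd : ∀ k i : ℕ, ‖dr (V n) (V m) (fun y => e (F^[j * k + i] y)) p v‖ ≤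
      L ^ i * (‖dr (V n) (V m) e p‖ * C) := by
    intro k i
    induction i with
    | zero =>
      rw [pow_zero, one_mul]
      exact hmul k
    | succ i ih =>
      refine (hstep (j * k + i)).trans ?_
      rw [pow_succ', mul_assoc]
      exact mul_le_mul_of_nonneg_left ih hL0
  refine ⟨L ^ j * (‖dr (V n) (V m) e p‖ * C), fun k => ?_⟩
  have h1 := hadd (k / j) (k % j)
  rw [Nat.div_add_mod] at h1
  refine h1.trans (mul_le_mul_of_nonneg_right ?_ hB0)
  exact pow_le_pow_right₀ hL1 (Nat.mod_lt _ (by omega)).le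

lemma NB.per_mem (h : NB n F F' K e) {p : N} (hpK : p ∈ K) {j : ℕ}
    (hj : 1 ≤ j) (hp : F^[j] p = p) {v : V n}
    (hv : Tendsto (fun k : ℕ => ((dr (V n) (V n) F^[j] p : V n →ₗ[ℝ] V n) ^ k) v) atTop (𝓝 0)) :
    v ∈ Est (n := n) e F p := by
  refine h.mem_of_bdd hpK (h.bdd_per hj hp ?_)
  obtain ⟨C, hC⟩ := hv.norm.bddAbove_range
  exact ⟨C, fun k => hC ⟨k, rfl⟩⟩

/-- the periodic points are hyperbolic -/
lemma NB.hyp (h : NB n F F' K e) {p : N} (hpK : p ∈ K) {j : ℕ} (hj : 1 ≤ j) (hp : F^[j] p = p) :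
    HypLin (dr (V n) (V n) F^[j] p : V n →ₗ[ℝ] V n) := by
  have hl' : ∀ x, F'^[j] (F^[j] x) = x := (Function.LeftInverse.iterate h.hl j)
  have hp' : F'^[j] p = p := by
    conv_lhs => rw [← hp]
    exact hl' p
  have e1 : ∀ v, dr (V n) (V n) F'^[j] p (dr (V n) (V n) F^[j] p v) = v := by
    intro v
    have h1 := dr_inv (cmd_iter h.smooth' j) (cmd_iter h.smooth j) hl' p v
    rwa [hp] at h1
  intro μ hμ hμ1
  refine (Pool.Agent.Y38.CO.EIG.main n (dr (V n) (V n) F^[j] p)).2 ⟨μ, hμ1, hμ⟩ ?_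
  rintro v ⟨C, hC⟩ hv i₀
  have h1 : ∀ k : ℕ, ((dr (V n) (V n) F^[j] p : V n →ₗ[ℝ] V n) ^ k) (v i₀) = v (i₀ + k) := by
    intro k
    induction k with
    | zero => simp
    | succ k ih =>
      rw [pow_succ', Module.End.mul_apply, ih, Nat.cast_succ, ← add_assoc, hv]
      rfl
  have h2 : ∀ k : ℕ, ((dr (V n) (V n) F'^[j] p : V n →ₗ[ℝ] V n) ^ k) (v i₀) = v (i₀ - k) := by
    intro k
    induction k with
    | zero => simp
    | succ k ih =>
      rw [pow_succ', Module.End.mul_apply, ih, Nat.cast_succ]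
      have h3 : v (i₀ - k) = dr (V n) (V n) F^[j] p (v (i₀ - (k + 1))) := by
        rw [← hv]
        congr 1
        ring
      rw [h3]
      exact e1 _
  obtain ⟨C₁, hC₁⟩ := h.bdd_per hj hp (v := v i₀) ⟨C, fun k => by rw [h1]; exact hC _⟩
  obtain ⟨C₂, hC₂⟩ := h.symm.bdd_per hj hp' (v := v i₀) ⟨C, fun k => by rw [h2]; exact hC _⟩
  exact h.nb p hpK (v i₀) ⟨max C₁ C₂, fun i =>
    ⟨(hC₁ i).trans (le_max_left _ _), (hC₂ i).trans (le_max_right _ _)⟩⟩

/-- the splitting at periodic points -/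
theorem NB.split_per (h : NB n F F' K e) {p : N} (hpK : p ∈ K) {j : ℕ} (hj : 1 ≤ j)
    (hp : F^[j] p = p) (v : V n) :
    ∃ s ∈ Est (n := n) e F p, ∃ u ∈ Est (n := n) e F' p, s + u = v := by
  have hl' : ∀ x, F'^[j] (F^[j] x) = x := (Function.LeftInverse.iterate h.hl j)
  have hr' : ∀ x, F^[j] (F'^[j] x) = x := (Function.LeftInverse.iterate h.hr j)
  have hp' : F'^[j] p = p := by
    conv_lhs => rw [← hp]
    exact hl' p
  have e1 : ∀ v, dr (V n) (V n) F'^[j] p (dr (V n) (V n) F^[j] p v) = v := by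
    intro v
    have h1 := dr_inv (cmd_iter h.smooth' j) (cmd_iter h.smooth j) hl' p v
    rwa [hp] at h1
  have e2 : ∀ v, dr (V n) (V n) F^[j] p (dr (V n) (V n) F'^[j] p v) = v := by
    intro v
    have h1 := dr_inv (cmd_iter h.smooth j) (cmd_iter h.smooth' j) hr' p v
    rwa [hp'] at h1
  let A : V n ≃ₗ[ℝ] V n := LinearEquiv.ofLinearMap (dr (V n) (V n) F^[j] p : V n →ₗ[ℝ] V n)
    (dr (V n) (V n) F'^[j] p : V n →ₗ[ℝ] V n) (LinearMap.ext e2) (LinearMap.ext e1)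
  obtain ⟨P, -, -, hs, hu⟩ := split A (h.hyp hpK hj hp)
  refine ⟨P v, h.per_mem hpK hj hp (hs v), v - P v, h.symm.per_mem hpK hj hp' (hu v), ?_⟩
  rw [add_sub_cancel]

lemma NB.contracted (h : NB n F F' K e) :
    ∃ A μ : ℝ, 0 < A ∧ 0 < μ ∧ μ < 1 ∧ ∀ A' μ' : ℝ, A ≤ A' → μ ≤ μ' →
      Contracted n F K e (Est e F) A' μ' := by
  obtain ⟨A, μ, hA, hμ0, hμ1, hdec⟩ := h.decay
  refine ⟨A, μ, hA, hμ0, hμ1, fun A' μ' hA' hμ' => ⟨h.inv,
    fun x _ v => est_shift h.smooth h.imm.smooth x v, h.isClosed_Est, fun x hx v hv k => ?_⟩⟩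
  refine (hdec x hx v (bdd_of_mem hv) k).trans ?_
  show A * μ ^ k * ‖dr (V n) (V m) e x v‖ ≤ A' * μ' ^ k * ‖dr (V n) (V m) e x v‖
  have hA0 : 0 ≤ A' := hA.le.trans hA'
  gcongr

end

/-! ### two-sided orbits -/

/-- the two-sided orbit of the point -/
def xx (F F' : N → N) (x : N) : ℤ → N
  | Int.ofNat k => F^[k] x
  | Int.negSucc k => F'^[k + 1] x

/-- the two-sided orbit of the vector -/
def vv (n : ℕ) {N : Type u} [TopologicalSpace N] [ChartedSpace (V n) N] (F F' : N → N) (x : N)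
    (t : V n) : ℤ → V n
  | Int.ofNat k => dr (V n) (V n) F^[k] x t
  | Int.negSucc k => dr (V n) (V n) F'^[k + 1] x t

lemma orbit (hF : ContMDiff (𝓡 n) (𝓡 n) 1 F) (hF' : ContMDiff (𝓡 n) (𝓡 n) 1 F')
    (hr : ∀ x, F (F' x) = x) (x : N) (t : V n) (i : ℤ) :
    F (xx F F' x i) = xx F F' x (i + 1) ∧
      dr (V n) (V n) F (xx F F' x i) (vv n F F' x t i) = vv n F F' x t (i + 1) := by
  cases i with
  | ofNat k =>
    have h1 : Int.ofNat k + 1 = Int.ofNat (k + 1) := rfl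
    rw [h1]
    refine ⟨?_, ?_⟩
    · show F (F^[k] x) = F^[k + 1] x
      rw [Function.iterate_succ_apply']
    · show dr (V n) (V n) F (F^[k] x) (dr (V n) (V n) F^[k] x t) = dr (V n) (V n) F^[k + 1] x t
      rw [dr_iter hF]
  | negSucc k =>
    have h2 : F (F'^[k + 1] x) = F'^[k] x := by
      rw [Function.iterate_succ_apply']
      exact hr _
    have h3 : dr (V n) (V n) F (F'^[k + 1] x) (dr (V n) (V n) F'^[k + 1] x t) =
        dr (V n) (V n) F'^[k] x t := by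
      rw [dr_iter hF', Function.iterate_succ_apply']
      exact dr_inv hF hF' hr _ _
    cases k with
    | zero =>
      have h1 : Int.negSucc 0 + 1 = Int.ofNat 0 := rfl
      rw [h1]
      refine ⟨h2, ?_⟩
      show dr (V n) (V n) F (F'^[0 + 1] x) (dr (V n) (V n) F'^[0 + 1] x t) = _
      rw [h3]
      rfl
    | succ k =>
      have h1 : Int.negSucc (k + 1) + 1 = Int.negSucc k := rfl
      rw [h1]
      exact ⟨h2, h3⟩

theorem main : S_HYP.{u} := by
  intro n N _ _ _ _ _ r hr F m e he hinj K hK hKF hKF' hKP hNB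
  have hFs : ContMDiff (𝓡 n) (𝓡 n) 1 F := F.contMDiff_toFun.of_le (by exact_mod_cast hr)
  have hF' : ContMDiff (𝓡 n) (𝓡 n) 1 F.symm := F.symm.contMDiff_toFun.of_le (by exact_mod_cast hr)
  have hl : ∀ x, F.symm (F x) = x := F.symm_apply_apply
  have hrr : ∀ x, F (F.symm x) = x := F.apply_symm_apply
  have hImm : Imm n e := ⟨he, hinj⟩
  have h : NB n F F.symm K e := by
    refine ⟨hFs, hF', hl, hrr, hImm, hK, hKF, hKF', ?_⟩
    rintro x hx t ⟨C, hC⟩
    have h1 := hNB (xx F F.symm x) (vv n F F.symm x t) ?_ (fun i => (orbit hFs hF' hrr x t i).1)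
      (fun i => (orbit hFs hF' hrr x t i).2) ⟨C, ?_⟩ 0
    · have h2 : vv n F F.symm x t 0 = t := dr_id x t
      rwa [h2] at h1
    · rintro (k | k)
      · exact iter_mem hKF hx k
      · exact iter_mem hKF' hx (k + 1)
    · rintro (k | k)
      · have h2 := (hC k).1
        rw [dr_iter_e hFs he] at h2
        exact h2
      · have h2 := (hC (k + 1)).2
        rw [dr_iter_e hF' he] at h2
        exact h2
  obtain ⟨A, μ, hA, hμ0, hμ1, hdec⟩ := h.contracted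
  obtain ⟨A', μ', hA', hμ0', hμ1', hdec'⟩ := h.symm.contracted
  have hspl : ∀ x ∈ K, ∀ v : V n, ∃ s ∈ Est (n := n) e F x, ∃ u ∈ Est (n := n) e F.symm x,
      s + u = v := by
    intro x hx v
    refine h.split_closure (P := {p | p ∈ K ∧ p ∈ Per F}) (fun p hp => hp.1) ?_ (hKP hx) v
    rintro p ⟨hpK, j, hj, hpj⟩ v
    exact h.split_per hpK hj hpj v
  refine ⟨m, e, Est e F, Est e F.symm, max A A', max μ μ', he, hinj,
    lt_of_lt_of_le hμ0 (le_max_left _ _), max_lt hμ1 hμ1', fun x hx => ⟨?_, ?_⟩,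
    hdec _ _ (le_max_left _ _) (le_max_left _ _), hdec' _ _ (le_max_right _ _) (le_max_right _ _)⟩
  · rw [Submodule.disjoint_def]
    intro v hv hv'
    obtain ⟨C₁, hC₁⟩ := bdd_of_mem hv
    obtain ⟨C₂, hC₂⟩ := bdd_of_mem hv'
    exact h.nb x hx v ⟨max C₁ C₂, fun i =>
      ⟨(hC₁ i).trans (le_max_left _ _), (hC₂ i).trans (le_max_right _ _)⟩⟩
  · rw [codisjoint_iff, Submodule.eq_top_iff']
    intro v
    obtain ⟨s, hs, u, hu, hsu⟩ := hspl x hx v
    exact Submodule.mem_sup.2 ⟨s, hs, u, hu, hsu⟩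

end Pool.Agent.H74.PA.Hyp
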