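import Pool.Agent.H74.PA.Stm

/-!
# PA-TOR: hyperbolic automorphisms of tori are expansive
-/
set_option autoImplicit false

open Filter Set Metric Topology

namespace Pool.Agent.H74.PA.Tor

open Pool.Agent.H74.PA
open Pool.Agent.H922R3.CL (IsHypLin)

variable {W : Type} [NormedAddCommGroup W] [NormedSpace ℝ W]

theorem comm_iter {L : W ≃L[ℝ] W} {P : W →L[ℝ] W} (h : ∀ v, L (P v) = P (L v)) (n : ℕ) (v : W) :
    L^[n] (P v) = P (L^[n] v) := by
  induction n generalizing v with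
  | zero => rfl
  | succ n ih => rw [Function.iterate_succ_apply, h, ih, Function.iterate_succ_apply]

theorem iter_sub (L : W ≃L[ℝ] W) (n : ℕ) (v w : W) :
    L^[n] (v - w) = L^[n] v - L^[n] w := by
  induction n generalizing v w with
  | zero => rfl
  | succ n ih =>
    rw [Function.iterate_succ_apply, map_sub, ih, ← Function.iterate_succ_apply,
      ← Function.iterate_succ_apply]

theorem comm_symm {L : W ≃L[ℝ] W} {P : W →L[ℝ] W} (h : ∀ v, L (P v) = P (L v)) (v : W) :
    L.symm (P v) = P (L.symm v) := by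
  apply L.injective
  rw [L.apply_symm_apply, h, L.apply_symm_apply]

theorem hyp_bdd {L : W ≃L[ℝ] W} (hL : IsHypLin L) {z : W} {c : ℝ}
    (h1 : ∀ i : ℕ, ‖L^[i] z‖ ≤ c) (h2 : ∀ i : ℕ, ‖L.symm^[i] z‖ ≤ c) : z = 0 := by
  obtain ⟨P, C, μ, hC, hμ, hμ1, hPP, hLP, hb⟩ := hL
  have hinv : ∀ (n : ℕ) (v : W), L^[n] (L.symm^[n] v) = v := fun n v =>
    (Function.LeftInverse.iterate (f := L.symm) (g := L) L.apply_symm_apply n) v
  have hinv' : ∀ (n : ℕ) (v : W), L.symm^[n] (L^[n] v) = v := fun n v =>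
    (Function.LeftInverse.iterate (f := L) (g := L.symm) L.symm_apply_apply n) v
  have hLs : ∀ (n : ℕ) (v : W), L.symm^[n] (P v) = P (L.symm^[n] v) :=
    fun n v => comm_iter (L := L.symm) (comm_symm hLP) n v
  have hc : 0 ≤ c := (norm_nonneg _).trans (h1 0)
  have hlim : Tendsto (fun n : ℕ => C * μ ^ n * c) atTop (𝓝 0) := by
    have := ((tendsto_pow_atTop_nhds_zero_of_lt_one hμ.le hμ1).const_mul C).mul_const c
    simpa using this
  have e1 : P z = 0 := by
    have h : ∀ n : ℕ, ‖P z‖ ≤ C * μ ^ n * c := fun n => by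
      have h3 := (hb n (L.symm^[n] z)).1
      rw [comm_iter hLP, hinv] at h3
      exact h3.trans (mul_le_mul_of_nonneg_left (h2 n) (by positivity))
    have := ge_of_tendsto' hlim h
    exact norm_le_zero_iff.1 this
  have e2 : z - P z = 0 := by
    have h : ∀ n : ℕ, ‖z - P z‖ ≤ C * μ ^ n * c := fun n => by
      have h3 := (hb n (L^[n] z)).2
      have h4 : L.symm^[n] (L^[n] z - P (L^[n] z)) = z - P z := by
        have h5 : L^[n] z - P (L^[n] z) = L^[n] (z - P z) := by
          rw [← comm_iter hLP, iter_sub]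
        rw [h5, hinv']
      rw [h4] at h3
      exact h3.trans (mul_le_mul_of_nonneg_left (h1 n) (by positivity))
    have := ge_of_tendsto' hlim h
    exact norm_le_zero_iff.1 this
  rw [e1, sub_zero] at e2
  exact e2

theorem main : S_TOR := by
  intro W _ _ _ Λ _ _ _ L hL hΛ h hh
  -- short vectors of the lattice are zero
  obtain ⟨ρ, hρ, hsmall⟩ : ∃ ρ : ℝ, 0 < ρ ∧ ∀ u ∈ Λ, ‖u‖ < ρ → u = 0 := by
    have h1 : ({0} : Set Λ) ∈ 𝓝 (0 : Λ) := by
      rw [nhds_discrete]
      exact mem_pure.2 rfl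
    obtain ⟨ρ, hρ, hs⟩ := Metric.mem_nhds_iff.1 h1
    refine ⟨ρ, hρ, fun u hu hn => ?_⟩
    have h2 : (⟨u, hu⟩ : Λ) ∈ ball (0 : Λ) ρ := by
      rw [mem_ball, dist_zero_right]
      exact hn
    exact congrArg Subtype.val (hs h2)
  set A : ℝ := ‖(L : W →L[ℝ] W)‖ with hA
  have hA0 : 0 ≤ A := norm_nonneg _
  obtain ⟨c, hc, hcA⟩ : ∃ c : ℝ, 0 < c ∧ (A + 2) * (2 * c) < ρ := by
    refine ⟨ρ / (4 * (A + 2)), by positivity, ?_⟩
    have : (A + 2) * (2 * (ρ / (4 * (A + 2)))) = ρ / 2 := by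
      field_simp
      ring
    rw [this]
    linarith
  refine ⟨c, hc, fun x y hxy => ?_⟩
  -- differences
  have hadd : ∀ p q : W ⧸ Λ, h (p - q) = h p - h q := by
    intro p q
    obtain ⟨a, rfl⟩ := QuotientAddGroup.mk_surjective p
    obtain ⟨b, rfl⟩ := QuotientAddGroup.mk_surjective q
    rw [← QuotientAddGroup.mk_sub, hh, hh, hh, map_sub, QuotientAddGroup.mk_sub]
  have hadds : ∀ p q : W ⧸ Λ, h.symm (p - q) = h.symm p - h.symm q := by
    intro p q
    apply h.injective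
    rw [h.apply_symm_apply, hadd, h.apply_symm_apply, h.apply_symm_apply]
  have hlift : ∀ p q : W ⧸ Λ, dist p q ≤ c → ∃ z : W, (QuotientAddGroup.mk z : W ⧸ Λ) = p - q ∧
      ‖z‖ < 2 * c := by
    intro p q hpq
    rw [dist_eq_norm] at hpq
    exact QuotientAddGroup.norm_lt_iff.1 (hpq.trans_lt (by linarith))
  choose z hz hzn using fun i : ℕ => hlift _ _ (hxy i).1
  choose w hw hwn using fun i : ℕ => hlift _ _ (hxy i).2
  have huniq : ∀ a b : W, (QuotientAddGroup.mk (L a) : W ⧸ Λ) = QuotientAddGroup.mk b →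
      ‖a‖ < 2 * c → ‖b‖ < 2 * c → L a = b := by
    intro a b hab ha hb
    have h1 : L a - b ∈ Λ := by
      have := (QuotientAddGroup.eq (s := Λ)).1 hab.symm
      rwa [neg_add_eq_sub] at this
    have h2 : ‖L a - b‖ < ρ := by
      have h3 : ‖L a‖ ≤ A * ‖a‖ := (L : W →L[ℝ] W).le_opNorm a
      have h4 : A * ‖a‖ ≤ A * (2 * c) := mul_le_mul_of_nonneg_left ha.le hA0
      calc ‖L a - b‖ ≤ ‖L a‖ + ‖b‖ := norm_sub_le _ _
        _ < A * (2 * c) + 2 * c := by linarith
        _ ≤ (A + 2) * (2 * c) := by linarith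
        _ < ρ := hcA
    exact sub_eq_zero.1 (hsmall _ h1 h2)
  have hzs : ∀ i, L (z i) = z (i + 1) := by
    intro i
    refine huniq _ _ ?_ (hzn i) (hzn (i + 1))
    rw [← hh, hz i, hz (i + 1), hadd, Function.iterate_succ_apply', Function.iterate_succ_apply']
  have hws : ∀ i, L (w (i + 1)) = w i := by
    intro i
    refine huniq _ _ ?_ (hwn (i + 1)) (hwn i)
    rw [← hh, hw i, hw (i + 1), hadd, Function.iterate_succ_apply', Function.iterate_succ_apply',
      h.apply_symm_apply, h.apply_symm_apply]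
  have hzw : z 0 = w 0 := by
    have h1 : z 0 - w 0 ∈ Λ := by
      have : (QuotientAddGroup.mk (w 0) : W ⧸ Λ) = QuotientAddGroup.mk (z 0) := by
        rw [hz 0, hw 0]; rfl
      have := (QuotientAddGroup.eq (s := Λ)).1 this
      rwa [neg_add_eq_sub] at this
    have h2 : ‖z 0 - w 0‖ < ρ := by
      have h3 : 0 ≤ A * (2 * c) := by positivity
      calc ‖z 0 - w 0‖ ≤ ‖z 0‖ + ‖w 0‖ := norm_sub_le _ _
        _ ≤ 2 * c + 2 * c := add_le_add (hzn 0).le (hwn 0).le
        _ ≤ (A + 2) * (2 * c) := by linarith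
        _ < ρ := hcA
    exact sub_eq_zero.1 (hsmall _ h1 h2)
  have hz1 : ∀ i, L^[i] (z 0) = z i := by
    intro i
    induction i with
    | zero => rfl
    | succ i ih => rw [Function.iterate_succ_apply', ih, hzs]
  have hw1 : ∀ i, L.symm^[i] (z 0) = w i := by
    intro i
    induction i with
    | zero => exact hzw
    | succ i ih =>
      rw [Function.iterate_succ_apply', ih, ← hws i, L.symm_apply_apply]
  have h0 : z 0 = 0 := hyp_bdd hL (c := 2 * c) (fun i => by rw [hz1]; exact (hzn i).le)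
    (fun i => by rw [hw1]; exact (hwn i).le)
  have h1 := hz 0
  rw [h0] at h1
  exact (sub_eq_zero.1 (h1.symm.trans (QuotientAddGroup.mk_zero _))).trans rfl

end Pool.Agent.H74.PA.Tor
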