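import Pool.Agent.H74.PA.Stm2
import Pool.Agent.H74.PA.Hyp
import Pool.Agent.H74.PA.Tor
import Pool.Agent.H74.G.R_seed8.W564.SC.LibA
import Pool.Agent.H74.G.R_seed8.R773.FC.Tor

/-!
# PA-ANO: hyperbolic automorphisms of tori satisfy Axiom A
-/
set_option autoImplicit false

open scoped Manifold ContDiff Topology
open Filter Set Metric

universe u

namespace Pool.Agent.H74.PA.Ano

open Pool.Agent.H718R2.G Pool.Agent.TH80.OMS Pool.Agent.W564.SC Pool.Agent.Y271.CP
  Pool.Agent.R775.HL Pool.Agent.H74.PA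
open Pool.Agent.W5h63.AX (der dv df C1 IsHyperbolic AxiomA)
open Pool.Agent.R773.FC (bar bar_iter)
open Pool.Agent.H922R3.CL (IsHypLin)

variable {l : ℕ} {L : Type u} [TopologicalSpace L] [T2Space L] [CompactSpace L]
  [ChartedSpace (V l) L] [IsManifold (𝓡 l) ∞ L]

theorem bdd_orbit {A : V l ≃L[ℝ] V l} (hA : IsHypLin A) {w : ℤ → V l}
    (hw : ∀ i, A (w i) = w (i + 1)) {c : ℝ} (hc : ∀ i, ‖w i‖ ≤ c) (i : ℤ) : w i = 0 := by
  have h1 : ∀ k : ℕ, A^[k] (w i) = w (i + k) := by
    intro k
    induction k with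
    | zero => simp
    | succ k ih =>
      rw [Function.iterate_succ_apply', ih, hw]
      congr 1
      push_cast
      ring
  have h2 : ∀ k : ℕ, A.symm^[k] (w i) = w (i - k) := by
    intro k
    induction k with
    | zero => simp
    | succ k ih =>
      rw [Function.iterate_succ_apply', ih]
      apply A.injective
      rw [A.apply_symm_apply, hw]
      congr 1
      push_cast
      ring
  exact Pool.Agent.H74.PA.Tor.hyp_bdd hA (c := c) (fun k => by rw [h1]; exact hc _)
    (fun k => by rw [h2]; exact hc _)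

theorem dense_per {r : ℕ∞} (g : DiffM l L r) (Λ : AddSubgroup (V l))
    [DiscreteTopology Λ] [IsClosed (Λ : Set (V l))] (A : V l ≃L[ℝ] V l)
    (hC : ∃ C : ℝ, ∀ z : V l, ∃ u ∈ Λ, ‖z - u‖ ≤ C) (hA : IsHypLin A)
    (hΛ : ∀ u, u ∈ Λ ↔ A u ∈ Λ) (π : V l → L) (hπc : Continuous π)
    (hπs : Function.Surjective π) (hπ : ∀ u u', π u = π u' ↔ u - u' ∈ Λ)
    (hg : ∀ u, g (π u) = π (A u)) (x : L) : x ∈ closure (Per g) := by
  obtain ⟨z, rfl⟩ := hπs x
  rw [_root_.mem_closure_iff]
  intro O hO hz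
  obtain ⟨hps, hcm⟩ := t_EX2 (V l) Λ hC A hA hΛ (bar A hΛ) (fun z => rfl)
  have hopen : IsOpen ((QuotientAddGroup.mk : V l → V l ⧸ Λ) '' (π ⁻¹' O)) :=
    QuotientAddGroup.isOpenMap_coe _ (hO.preimage hπc)
  obtain ⟨η, hη, hball⟩ := Metric.isOpen_iff.1 hopen _ ⟨z, hz, rfl⟩
  obtain ⟨δ, hδ, hsh⟩ := hps η hη
  obtain ⟨L₀, hL₀⟩ := hcm δ hδ
  obtain ⟨w, hw0, hwm, hw⟩ := hL₀ (L₀ + 1) (by omega) (QuotientAddGroup.mk z)
    (QuotientAddGroup.mk z)
  obtain ⟨p, hp, hpd⟩ := hsh (L₀ + 1) w (by omega) (by rw [hw0, hwm]) hw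
  have h0 := hpd 0 (by omega)
  rw [Function.iterate_zero, id_eq, hw0] at h0
  obtain ⟨v, hv, hvp⟩ := hball (mem_ball.2 h0)
  refine ⟨π v, hv, L₀ + 1, by omega, ?_⟩
  have hit : ∀ (k : ℕ) (u : V l), g^[k] (π u) = π (A^[k] u) := by
    intro k
    induction k with
    | zero => intro u; rfl
    | succ k ih =>
      intro u
      rw [Function.iterate_succ_apply, hg, ih, Function.iterate_succ_apply]
  rw [hit, hπ]
  rw [← hvp, bar_iter] at hp
  apply (QuotientAddGroup.eq_zero_iff _).1
  rw [QuotientAddGroup.mk_sub, hp, sub_self]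

theorem der_comp_left {a b c : ℕ} {M₁ : Type*} {M₂ : Type*} {M₃ : Type*} [TopologicalSpace M₁]
    [ChartedSpace (V a) M₁] [TopologicalSpace M₂] [ChartedSpace (V b) M₂] [TopologicalSpace M₃]
    [ChartedSpace (V c) M₃] {f : M₁ → M₂} {g : M₂ → M₃} {x : M₁}
    (hg : MDifferentiableAt (𝓡 b) (𝓡 c) g (f x)) (hf : MDifferentiableAt (𝓡 a) (𝓡 b) f x) :
    der a c (fun y => g (f y)) x = (der b c g (f x)).comp (der a b f x) :=
  mfderiv_comp x hg hf

theorem der_periodic {Λ : AddSubgroup (V l)} {π : V l → L}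
    (hπd : ∀ u, MDifferentiableAt (𝓡 l) (𝓡 l) π u)
    (hπ : ∀ u u', π u = π u' ↔ u - u' ∈ Λ) {u v : V l} (h : u - v ∈ Λ) :
    der l l π u = der l l π v := by
  have h1 : (fun y => π (y + (u - v))) = π := by
    funext y
    rw [hπ]
    simpa using h
  have hτ : HasFDerivAt (fun y : V l => y + (u - v)) (ContinuousLinearMap.id ℝ (V l)) v :=
    (hasFDerivAt_id v).add_const _
  have h2 : der l l (fun y : V l => y + (u - v)) v = ContinuousLinearMap.id ℝ (V l) := by
    show mfderiv (𝓡 l) (𝓡 l) (fun y : V l => y + (u - v)) v = _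
    rw [mfderiv_eq_fderiv]
    exact hτ.fderiv
  have h3 := der_comp_left (f := fun y : V l => y + (u - v)) (g := π) (x := v) (hπd _)
    (hτ.hasMFDerivAt.mdifferentiableAt)
  rw [h1, h2, ContinuousLinearMap.comp_id] at h3
  rw [h3]
  congr 1
  abel

theorem main : S_ANO.{u} := by
  intro l L _ _ _ _ _ r hr g Λ _ _ A hC hA hΛ π hπl hπs hπ hg
  have hπsm : ContMDiff (𝓡 l) (𝓡 l) ∞ π := hπl.contMDiff
  have hπd : ∀ u, MDifferentiableAt (𝓡 l) (𝓡 l) π u := fun u =>
    (hπsm u).mdifferentiableAt (by simp)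
  have hgs : ContMDiff (𝓡 l) (𝓡 l) 1 g := g.contMDiff_toFun.of_le (by exact_mod_cast hr)
  have hgd : ∀ x, MDifferentiableAt (𝓡 l) (𝓡 l) g x := fun x =>
    (hgs x).mdifferentiableAt (by simp)
  have hdense : ∀ x, x ∈ closure (Per g) := fun x =>
    dense_per g Λ A hC hA hΛ π hπsm.continuous hπs hπ hg x
  have hPer : ∀ x ∈ Per g, x ∈ Omega g := by
    rintro x ⟨m, hm, hx⟩ W _ hxW
    exact ⟨m, hm, x, hxW, by rw [hx]; exact hxW⟩
  have hOm : ∀ x, x ∈ Omega g := by
    intro x W hW hx
    obtain ⟨y, hyW, m, hm, hy⟩ := _root_.mem_closure_iff.1 (hdense x) W hW hx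
    exact ⟨m, hm, y, hyW, by rw [hy]; exact hyW⟩
  have hOu : Omega g = univ := eq_univ_of_forall hOm
  obtain ⟨m, e, he, -, hinj⟩ := exists_embedding_euclidean_of_compact (I := 𝓡 l) (M := L)
  have he1 : C1 l e := he.of_le (by simp)
  have hed : ∀ x, MDifferentiableAt (𝓡 l) (𝓡 m) e x := fun x =>
    (he x).mdifferentiableAt (by simp)
  have hinj' : ∀ x v, dv l e x v = 0 → v = 0 := by
    intro x v hv
    have h0 : der l m e x 0 = 0 := map_zero _
    exact hinj x (hv.trans h0.symm)
  -- the derivative of `π` is bijective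
  have hbij : ∀ u, Function.Bijective (der l l π u) := by
    intro u
    exact ((hπl u).mfderivToContinuousLinearEquiv (n := ∞) (by simp)).bijective
  refine ⟨?_, fun x _ => hdense x⟩
  refine Pool.Agent.H74.PA.Hyp.main l L r hr g m e he1 hinj' (Omega g) (by rw [hOu]; exact isClosed_univ)
    (fun x _ => hOm _) (fun x _ => hOm _) ?_ ?_
  · intro x _
    refine closure_mono ?_ (hdense x)
    exact fun y hy => ⟨hOm y, hy⟩
  · intro x v _ hx hv ⟨C, hCv⟩
    obtain ⟨C₀, hC₀⟩ := hC
    -- lifts in a ball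
    have hlift : ∀ y : L, ∃ u : V l, π u = y ∧ ‖u‖ ≤ C₀ := by
      intro y
      obtain ⟨z, rfl⟩ := hπs y
      obtain ⟨u, hu, hzu⟩ := hC₀ z
      refine ⟨z - u, ?_, hzu⟩
      rw [hπ]
      have : z - u - z = -u := by abel
      rw [this]
      exact Λ.neg_mem hu
    choose u hu huC using fun i => hlift (x i)
    choose w hw using fun i => (hbij (u i)).2 (v i)
    have hlam : ∀ i, A (u i) - u (i + 1) ∈ Λ := by
      intro i
      rw [← hπ, ← hg, hu, hu, hx]
    have hstep : ∀ i, A (w i) = w (i + 1) := by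
      intro i
      apply (hbij (u (i + 1))).1
      rw [hw (i + 1), ← hv i, ← hw i]
      have h1 : der l l π (u (i + 1)) = der l l π (A (u i)) :=
        (der_periodic hπd hπ (hlam i)).symm
      rw [h1]
      have hAd : HasFDerivAt (fun y : V l => A y) (A : V l →L[ℝ] V l) (u i) := A.hasFDerivAt
      have h2 := der_comp_left (f := fun y : V l => A y) (g := π) (x := u i) (hπd _)
        (hAd.hasMFDerivAt.mdifferentiableAt)
      have h3 : der l l (fun y : V l => A y) (u i) = (A : V l →L[ℝ] V l) := by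
        show mfderiv (𝓡 l) (𝓡 l) (fun y : V l => A y) (u i) = _
        rw [mfderiv_eq_fderiv]
        exact hAd.fderiv
      have h4 := der_comp_left (f := π) (g := g) (x := u i) (hgd _) (hπd _)
      have h5 : (fun y => π (A y)) = fun y => g (π y) := by
        funext y
        rw [hg]
      rw [h5, h4, h3] at h2
      have h6 := congrArg (fun T : V l →L[ℝ] V l => T (w i)) h2
      show der l l π (A (u i)) (A (w i)) = der l l g (x i) (der l l π (u i) (w i))
      rw [← hu i]
      exact h6.symm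
    -- uniform lower bound
    obtain ⟨c, hc, hlow⟩ : ∃ c : ℝ, 0 < c ∧ ∀ z : V l, ‖z‖ ≤ C₀ → ∀ t : V l,
        c * ‖t‖ ≤ ‖dv l e (π z) (der l l π z t)‖ := by
      have hcomp : ContDiff ℝ 1 (fun z : V l => e (π z)) := by
        have := (he.comp hπsm).of_le (n := ∞) (m := 1) (by simp)
        exact this.contDiff
      have hfd : ∀ z, fderiv ℝ (fun z : V l => e (π z)) z =
          (der l m e (π z)).comp (der l l π z) := by
        intro z
        rw [← mfderiv_eq_fderiv]
        exact der_comp_left (f := π) (g := e) (x := z) (hed _) (hπd _)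
      have hcont : Continuous fun q : V l × V l => ‖fderiv ℝ (fun z : V l => e (π z)) q.1 q.2‖ :=
        (((hcomp.continuous_fderiv (by simp)).comp continuous_fst).clm_apply
          continuous_snd).norm
      have hK : IsCompact (closedBall (0 : V l) C₀ ×ˢ sphere (0 : V l) 1) :=
        (isCompact_closedBall _ _).prod (isCompact_sphere _ _)
      rcases (closedBall (0 : V l) C₀ ×ˢ sphere (0 : V l) 1).eq_empty_or_nonempty with hE | hE
      · refine ⟨1, one_pos, fun z hz t => ?_⟩
        by_cases ht : t = 0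
        · subst ht
          simp
        · exfalso
          have : ((z, ‖t‖⁻¹ • t) : V l × V l) ∈ closedBall (0 : V l) C₀ ×ˢ sphere (0 : V l) 1 := by
            refine ⟨by simpa using hz, ?_⟩
            simp [norm_smul, norm_ne_zero_iff.2 ht]
          rw [hE] at this
          exact this
      · obtain ⟨q₀, hq₀, hmin⟩ := hK.exists_isMinOn hE hcont.continuousOn
        have hpos : 0 < ‖fderiv ℝ (fun z : V l => e (π z)) q₀.1 q₀.2‖ := by
          rw [norm_pos_iff]
          intro h0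
          rw [hfd] at h0
          have h1 : der l l π q₀.1 q₀.2 = 0 := hinj' (π q₀.1) _ h0
          have h2 : q₀.2 = 0 := (hbij q₀.1).1 (by rw [h1, map_zero])
          have h3 := hq₀.2
          rw [h2] at h3
          simp at h3
        refine ⟨_, hpos, fun z hz t => ?_⟩
        by_cases ht : t = 0
        · subst ht
          simp
        · have hmem : ((z, ‖t‖⁻¹ • t) : V l × V l) ∈
              closedBall (0 : V l) C₀ ×ˢ sphere (0 : V l) 1 := by
            refine ⟨by simpa using hz, ?_⟩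
            simp [norm_smul, norm_ne_zero_iff.2 ht]
          have h1 := hmin hmem
          simp only [Set.mem_ofPred_eq] at h1
          rw [map_smul, norm_smul, norm_inv, norm_norm, hfd z] at h1
          have h2 : 0 < ‖t‖ := norm_pos_iff.2 ht
          rw [inv_mul_eq_div, le_div_iff₀ h2] at h1
          exact h1
    have hwb : ∀ i, ‖w i‖ ≤ C / c := by
      intro i
      have h1 := hlow (u i) (huC i) (w i)
      rw [hw, hu] at h1
      rw [le_div_iff₀ hc, mul_comm]
      exact h1.trans (hCv i)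
    intro i
    have h0 := bdd_orbit hA hstep hwb i
    rw [← hw i, h0, map_zero]

end Pool.Agent.H74.PA.Ano
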