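import Mathlib
import Pool.Agent.H74.PA.Stm

/-!
# COD: coded periodic orbits for expansive chain mixing homeomorphisms with periodic shadowing
-/

set_option autoImplicit false

open Filter Set Metric
open scoped Topology

universe w

namespace Pool.Agent.H74.PA.COD

open Pool.Agent.W564.SC

variable {Y : Type w} [MetricSpace Y]

/-- the orbit of `x`, indexed by the integers -/
def o (h : Y ≃ₜ Y) (x : Y) (i : ℤ) : Y := (h ^ i) x

lemma o_zero (h : Y ≃ₜ Y) (x : Y) : o h x 0 = x := by simp [o]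

lemma o_add (h : Y ≃ₜ Y) (x : Y) (i j : ℤ) : o h (o h x j) i = o h x (i + j) := by
  simp [o, zpow_add]

lemma o_succ (h : Y ≃ₜ Y) (x : Y) (i : ℤ) : h (o h x i) = o h x (i + 1) := by
  rw [add_comm, o, o, zpow_add, Homeomorph.mul_apply, zpow_one]

lemma o_nat (h : Y ≃ₜ Y) (x : Y) (n : ℕ) : o h x n = h^[n] x := by
  induction n with
  | zero => simp [o]
  | succ n ih => rw [Function.iterate_succ_apply', ← ih, o_succ]; push_cast; rfl

lemma o_neg (h : Y ≃ₜ Y) (x : Y) (n : ℕ) : o h x (-(n : ℤ)) = h.symm^[n] x := by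
  induction n with
  | zero => simp [o]
  | succ n ih =>
    rw [Function.iterate_succ_apply', ← ih]
    apply h.injective
    rw [h.apply_symm_apply, o_succ]
    congr 1
    push_cast
    ring

lemma o_cont (h : Y ≃ₜ Y) (i : ℤ) : Continuous (fun x => o h x i) := (h ^ i).continuous

lemma o_inj (h : Y ≃ₜ Y) (i : ℤ) {x y : Y} (e : o h x i = o h y i) : x = y :=
  (h ^ i).injective e

lemma fix_zpow (g : Y ≃ₜ Y) (x : Y) (e : g x = x) (j : ℤ) : (g ^ j) x = x := by
  induction j using Int.induction_on with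
  | zero => simp
  | succ i ih => rw [zpow_add_one, Homeomorph.mul_apply, e, ih]
  | pred i ih =>
    have h1 : g⁻¹ x = x := by rw [Homeomorph.inv_apply, Homeomorph.symm_apply_eq, e]
    rw [zpow_sub_one, Homeomorph.mul_apply, h1, ih]

lemma per_mul (h : Y ≃ₜ Y) (x : Y) (T : ℤ) (e : o h x T = x) (j : ℤ) : o h x (T * j) = x := by
  rw [o, zpow_mul]
  exact fix_zpow _ _ e j

/-! ### uniform expansivity -/

lemma unif [CompactSpace Y] {h : Y ≃ₜ Y} {c : ℝ}
    (hc : ∀ x y : Y, (∀ i : ℤ, dist (o h x i) (o h y i) ≤ c) → x = y) {ε : ℝ} (hε : 0 < ε) :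
    ∃ n : ℕ, ∀ x y : Y, (∀ i : ℤ, |i| ≤ n → dist (o h x i) (o h y i) ≤ c) → dist x y < ε := by
  by_contra hcon
  push Not at hcon
  let K : ℕ → Set (Y × Y) := fun n =>
    {q | (∀ i : ℤ, |i| ≤ n → dist (o h q.1 i) (o h q.2 i) ≤ c) ∧ ε ≤ dist q.1 q.2}
  have hclosed : ∀ n, IsClosed (K n) := by
    intro n
    apply IsClosed.and
    · simp only [Set.ofPred_forall]
      refine isClosed_iInter fun i => isClosed_iInter fun _ => ?_
      exact isClosed_le (((o_cont h i).comp continuous_fst).dist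
        ((o_cont h i).comp continuous_snd)) continuous_const
    · exact isClosed_le continuous_const (continuous_fst.dist continuous_snd)
  have hne : (⋂ n, K n).Nonempty := by
    apply IsCompact.nonempty_iInter_of_sequence_nonempty_isCompact_isClosed K
    · intro n q hq
      exact ⟨fun i hi => hq.1 i (hi.trans (by exact_mod_cast Nat.le_succ n)), hq.2⟩
    · intro n
      obtain ⟨x, y, h1, h2⟩ := hcon n
      exact ⟨(x, y), h1, h2⟩
    · exact (hclosed 0).isCompact
    · exact hclosed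
  obtain ⟨q, hq⟩ := hne
  rw [mem_iInter] at hq
  have h1 : q.1 = q.2 := by
    apply hc
    intro i
    exact (hq i.natAbs).1 i (by rw [Int.abs_eq_natAbs])
  have h2 := (hq 0).2
  rw [h1, dist_self] at h2
  linarith

/-! ### chains -/

/-- `f 0, ..., f m` is a `δ`-chain -/
def Ch (h : Y ≃ₜ Y) (δ : ℝ) (f : ℕ → Y) (m : ℕ) : Prop := ∀ i < m, dist (h (f i)) (f (i + 1)) < δ

/-- concatenation -/
def cat (f : ℕ → Y) (m : ℕ) (g : ℕ → Y) (t : ℕ) : Y := if t ≤ m then f t else g (t - m)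

omit [MetricSpace Y] in
lemma cat_l {f g : ℕ → Y} {m t : ℕ} (ht : t ≤ m) : cat f m g t = f t := if_pos ht

omit [MetricSpace Y] in
lemma cat_r {f g : ℕ → Y} {m : ℕ} (e : f m = g 0) (t : ℕ) : cat f m g (m + t) = g t := by
  unfold cat
  rcases Nat.eq_zero_or_pos t with rfl | ht
  · simp [e]
  · rw [if_neg (by omega), Nat.add_sub_cancel_left]

lemma cat_ch {h : Y ≃ₜ Y} {δ : ℝ} {f g : ℕ → Y} {m m' : ℕ} (hf : Ch h δ f m) (hg : Ch h δ g m')
    (e : f m = g 0) : Ch h δ (cat f m g) (m + m') := by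
  intro i hi
  rcases lt_or_ge i m with h1 | h1
  · rw [cat_l h1.le, cat_l (by omega : i + 1 ≤ m)]
    exact hf i h1
  · obtain ⟨t, rfl⟩ := Nat.exists_eq_add_of_le h1
    rw [add_assoc, cat_r e, cat_r e]
    exact hg t (by omega)

/-! ### two-sided shadowing -/

lemma pre {h : Y ≃ₜ Y} (hS : PerShadow h) (hM : ChainMix h) {η : ℝ} (hη : 0 < η) (a b x : Y) :
    ∃ L : ℕ, ∀ n : ℕ, ∃ y, dist y x < η ∧ ∀ i : ℕ, i ≤ n →
      dist (o h y (L + i)) (o h b (L + i)) < η ∧ dist (o h y (-(L + i))) (o h a (-(L + i))) < η := by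
  obtain ⟨δ, hδ, hsh⟩ := hS η hη
  obtain ⟨L₀, hL₀⟩ := hM δ hδ
  set L := L₀ + 1 with hL
  have hmix := hL₀ L (by omega)
  refine ⟨L, fun n => ?_⟩
  set g1 : ℕ → Y := fun i => o h a ((i : ℤ) - (n + L)) with hg1
  set g2 : ℕ → Y := fun i => o h b (L + i) with hg2
  obtain ⟨w1, hw10, hw1L, hw1⟩ := hmix (g1 n) x
  obtain ⟨w2, hw20, hw2L, hw2⟩ := hmix x (g2 0)
  obtain ⟨w3, hw30, hw3L, hw3⟩ := hmix (g2 n) (g1 0)
  have c1 : Ch h δ g1 n := by
    intro i _
    have : h (g1 i) = g1 (i + 1) := by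
      simp only [hg1]
      rw [o_succ]
      have e : (i : ℤ) - (n + L) + 1 = ((i + 1 : ℕ) : ℤ) - (n + L) := by
        push_cast
        ring
      rw [e]
    rw [this, dist_self]
    exact hδ
  have c2 : Ch h δ g2 n := by
    intro i _
    have : h (g2 i) = g2 (i + 1) := by
      simp only [hg2]
      rw [o_succ]
      have e : (L : ℤ) + i + 1 = L + ((i + 1 : ℕ) : ℤ) := by
        push_cast
        ring
      rw [e]
    rw [this, dist_self]
    exact hδ
  have e3 : g2 n = w3 0 := hw30.symm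
  have d3 : Ch h δ (cat g2 n w3) (n + L) := cat_ch c2 hw3 e3
  have e2 : w2 L = cat g2 n w3 0 := by rw [cat_l (Nat.zero_le _), hw2L]
  have d2 : Ch h δ (cat w2 L (cat g2 n w3)) (L + (n + L)) := cat_ch hw2 d3 e2
  have e1 : w1 L = cat w2 L (cat g2 n w3) 0 := by rw [cat_l (Nat.zero_le _), hw20, hw1L]
  have d1 : Ch h δ (cat w1 L (cat w2 L (cat g2 n w3))) (L + (L + (n + L))) := cat_ch hw1 d2 e1
  have e0 : g1 n = cat w1 L (cat w2 L (cat g2 n w3)) 0 := by rw [cat_l (Nat.zero_le _), hw10]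
  have d0 := cat_ch c1 d1 e0
  set F := cat g1 n (cat w1 L (cat w2 L (cat g2 n w3))) with hF
  have hF0 : F 0 = g1 0 := by rw [hF, cat_l (Nat.zero_le _)]
  have hFm : F (n + (L + (L + (n + L)))) = g1 0 := by
    rw [hF, cat_r e0, cat_r e1, cat_r e2, cat_r e3, hw3L]
  obtain ⟨p, _, hp⟩ := hsh (n + (L + (L + (n + L)))) F (by omega) (by rw [hFm, hF0]) d0
  refine ⟨o h p (n + L), ?_, fun i hi => ⟨?_, ?_⟩⟩
  · have h1 := hp (n + L) (by omega)
    have h2 : F (n + L) = x := by
      rw [hF, cat_r e0, cat_l le_rfl, hw1L]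
    rw [h2, ← o_nat] at h1
    exact_mod_cast h1
  · have h1 := hp (n + (L + (L + i))) (by omega)
    have h2 : F (n + (L + (L + i))) = g2 i := by
      rw [hF, cat_r e0, cat_r e1, cat_r e2, cat_l hi]
    rw [h2, ← o_nat] at h1
    rw [o_add]
    have h3 : (L : ℤ) + i + (n + L) = ((n + (L + (L + i)) : ℕ) : ℤ) := by
      push_cast
      ring
    rw [h3]
    exact h1
  · have h1 := hp (n - i) (by omega)
    have h2 : F (n - i) = g1 (n - i) := by
      rw [hF, cat_l (by omega)]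
    rw [h2, ← o_nat] at h1
    rw [o_add]
    simp only [hg1] at h1
    have h3 : -((L : ℤ) + i) + (n + L) = ((n - i : ℕ) : ℤ) := by
      push_cast [Nat.cast_sub hi]
      ring
    have h4 : -((L : ℤ) + i) = ((n - i : ℕ) : ℤ) - (n + L) := by
      push_cast [Nat.cast_sub hi]
      ring
    rw [h3, h4]
    exact h1

/-- forward asymptotic -/
def Fwd (h : Y ≃ₜ Y) (z b : Y) : Prop :=
  ∀ ε : ℝ, 0 < ε → ∀ᶠ i : ℕ in atTop, dist (o h z i) (o h b i) < ε

/-- backward asymptotic -/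
def Bwd (h : Y ≃ₜ Y) (z a : Y) : Prop :=
  ∀ ε : ℝ, 0 < ε → ∀ᶠ i : ℕ in atTop, dist (o h z (-(i : ℤ))) (o h a (-(i : ℤ))) < ε

lemma hom [CompactSpace Y] {h : Y ≃ₜ Y} (hS : PerShadow h) (hM : ChainMix h) {c : ℝ} (hc0 : 0 < c)
    (hc : ∀ x y : Y, (∀ i : ℤ, dist (o h x i) (o h y i) ≤ c) → x = y) (a b x : Y) {ε : ℝ}
    (hε : 0 < ε) : ∃ z, dist z x < ε ∧ Fwd h z b ∧ Bwd h z a := by
  set η := min c (ε / 2) with hη
  have hη0 : 0 < η := lt_min hc0 (by linarith)
  obtain ⟨L, hL⟩ := pre hS hM hη0 a b x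
  let K : ℕ → Set Y := fun n => {y | dist y x ≤ η ∧ ∀ i : ℕ, i ≤ n →
      dist (o h y (L + i)) (o h b (L + i)) ≤ η ∧ dist (o h y (-(L + i))) (o h a (-(L + i))) ≤ η}
  have hclosed : ∀ n, IsClosed (K n) := by
    intro n
    apply IsClosed.and
    · exact isClosed_le (continuous_id.dist continuous_const) continuous_const
    · simp only [Set.ofPred_forall]
      refine isClosed_iInter fun i => isClosed_iInter fun _ => ?_
      apply IsClosed.and
      · exact isClosed_le ((o_cont h _).dist continuous_const) continuous_const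
      · exact isClosed_le ((o_cont h _).dist continuous_const) continuous_const
  have hne : (⋂ n, K n).Nonempty := by
    apply IsCompact.nonempty_iInter_of_sequence_nonempty_isCompact_isClosed K
    · intro n q hq
      exact ⟨hq.1, fun i hi => hq.2 i (hi.trans (Nat.le_succ n))⟩
    · intro n
      obtain ⟨y, h1, h2⟩ := hL n
      exact ⟨y, h1.le, fun i hi => ⟨(h2 i hi).1.le, (h2 i hi).2.le⟩⟩
    · exact (hclosed 0).isCompact
    · exact hclosed
  obtain ⟨z, hz⟩ := hne
  rw [mem_iInter] at hz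
  have hηc : η ≤ c := min_le_left _ _
  refine ⟨z, ?_, ?_, ?_⟩
  · have h1 := (hz 0).1
    have h2 : η ≤ ε / 2 := min_le_right _ _
    linarith
  · intro ε' hε'
    obtain ⟨n, hn⟩ := unif hc hε'
    filter_upwards [eventually_ge_atTop (L + n)] with i hi
    apply hn
    intro j hj
    rw [o_add, o_add]
    have h1 : (L : ℤ) ≤ j + i := by
      have := neg_abs_le j
      omega
    obtain ⟨t, ht⟩ := Int.eq_ofNat_of_zero_le (sub_nonneg.mpr h1)
    have h2 := ((hz t).2 t le_rfl).1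
    have h3 : j + i = (L : ℤ) + t := by omega
    rw [h3]
    exact h2.trans hηc
  · intro ε' hε'
    obtain ⟨n, hn⟩ := unif hc hε'
    filter_upwards [eventually_ge_atTop (L + n)] with i hi
    apply hn
    intro j hj
    rw [o_add, o_add]
    have h1 : (L : ℤ) ≤ -(j + -i) := by
      have := le_abs_self j
      omega
    obtain ⟨t, ht⟩ := Int.eq_ofNat_of_zero_le (sub_nonneg.mpr h1)
    have h2 := ((hz t).2 t le_rfl).2
    have h3 : j + -(i : ℤ) = -((L : ℤ) + t) := by omega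
    rw [h3]
    exact h2.trans hηc

/-! ### periodic points -/

lemma per_near {h : Y ≃ₜ Y} (hS : PerShadow h) (hM : ChainMix h) (x : Y) {ε : ℝ} (hε : 0 < ε) :
    ∃ (p : Y) (T : ℕ), 1 ≤ T ∧ o h p T = p ∧ dist p x < ε := by
  obtain ⟨δ, hδ, hsh⟩ := hS ε hε
  obtain ⟨L, hL⟩ := hM δ hδ
  obtain ⟨f, hf0, hfL, hf⟩ := hL (L + 1) (by omega) x x
  obtain ⟨p, hp1, hp2⟩ := hsh (L + 1) f (by omega) (by rw [hf0, hfL]) hf
  refine ⟨p, L + 1, by omega, by rw [o_nat]; exact hp1, ?_⟩
  have := hp2 0 (by omega)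
  rw [hf0] at this
  exact this

lemma orb_finite (h : Y ≃ₜ Y) (p : Y) (T : ℕ) (hT : 1 ≤ T) (e : o h p T = p) :
    (range (o h p)).Finite := by
  have h1 : range (o h p) ⊆ (fun i : ℕ => o h p i) '' (Set.Iio T) := by
    rintro _ ⟨i, rfl⟩
    have hT' : (0 : ℤ) < T := by exact_mod_cast hT
    refine ⟨(i % T).toNat, ?_, ?_⟩
    · have := Int.emod_lt_of_pos i hT'
      have := Int.emod_nonneg i hT'.ne'
      simp only [mem_Iio]
      omega
    · have h2 := Int.emod_nonneg i hT'.ne'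
      simp only
      rw [Int.toNat_of_nonneg h2]
      have h3 : i = i % T + T * (i / T) := (Int.emod_add_mul_ediv i T).symm
      conv_rhs => rw [h3, ← o_add, per_mul h p T e]
  exact ((Set.finite_Iio T).image _).subset h1

lemma per_off [Nontrivial Y] {h : Y ≃ₜ Y} (hS : PerShadow h) (hM : ChainMix h) (p : Y) (T : ℕ)
    (hT : 1 ≤ T) (e : o h p T = p) : ∃ (p' : Y) (T' : ℕ), 1 ≤ T' ∧ o h p' T' = p' ∧
      p' ∉ range (o h p) := by
  by_contra hcon
  push Not at hcon
  have hfin := orb_finite h p T hT e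
  have huniv : range (o h p) = univ := by
    rw [← hfin.isClosed.closure_eq, eq_univ_iff_forall]
    intro y
    rw [Metric.mem_closure_iff]
    intro ε hε
    obtain ⟨p', T', h1, h2, h3⟩ := per_near hS hM y hε
    exact ⟨p', hcon p' T' h1 h2, by rw [dist_comm]; exact h3⟩
  have hY : Finite Y := by
    rw [huniv] at hfin
    exact Set.finite_univ_iff.mp hfin
  have hδ : ∀ᶠ ρ in 𝓝[>] (0 : ℝ), ∀ x y : Y, x ≠ y → ρ ≤ dist x y := by
    rw [eventually_all]
    intro x
    rw [eventually_all]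
    intro y
    by_cases hxy : x = y
    · exact Eventually.of_forall fun ρ hn => absurd hxy hn
    · have h1 : 0 < dist x y := dist_pos.mpr hxy
      filter_upwards [Ioc_mem_nhdsGT h1] with ρ hρ _
      exact hρ.2
  obtain ⟨δ, hδ1, hδ2⟩ := (hδ.and self_mem_nhdsWithin).exists
  obtain ⟨L, hL⟩ := hM δ hδ2
  have key : ∀ q : Y, q = h^[L] p := by
    intro q
    obtain ⟨f, hf0, hfL, hf⟩ := hL L le_rfl p q
    have h1 : ∀ i ≤ L, f i = h^[i] p := by
      intro i
      induction i with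
      | zero => intro _; simpa using hf0
      | succ i ih =>
        intro hi
        rw [Function.iterate_succ_apply', ← ih (by omega)]
        by_contra hne
        have h2 := hδ1 _ _ (Ne.symm hne)
        have h3 := hf i (by omega)
        linarith
    rw [← hfL, h1 L le_rfl]
  obtain ⟨x, y, hxy⟩ := exists_pair_ne Y
  exact hxy ((key x).trans (key y).symm)

/-! ### separation -/

lemma sep {K : Set Y} (hK : IsClosed K) {x : Y} (hx : x ∉ K) (f : ℤ → Y)
    (h1 : ∀ ε : ℝ, 0 < ε → ∀ᶠ i : ℕ in atTop, ∃ y ∈ K, dist (f i) y < ε)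
    (h2 : ∀ ε : ℝ, 0 < ε → ∀ᶠ i : ℕ in atTop, ∃ y ∈ K, dist (f (-(i : ℤ))) y < ε) :
    ∀ᶠ ρ in 𝓝[>] (0 : ℝ), ∀ i : ℤ, f i ≠ x → ρ ≤ dist (f i) x := by
  obtain ⟨r, hr, hrK⟩ := Metric.isOpen_iff.mp hK.isOpen_compl x hx
  have hKr : ∀ y ∈ K, r ≤ dist y x := by
    intro y hy
    by_contra hlt
    exact hrK (mem_ball.mpr (not_le.mp hlt)) hy
  obtain ⟨N, hN⟩ := ((h1 (r / 2) (by linarith)).and (h2 (r / 2) (by linarith))).exists_forall_of_atTop
  have hfar : ∀ i : ℤ, (N : ℤ) ≤ |i| → r / 2 ≤ dist (f i) x := by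
    intro i hi
    have hcase : ∃ y ∈ K, dist (f i) y < r / 2 := by
      rcases le_total 0 i with h0 | h0
      · obtain ⟨t, rfl⟩ := Int.eq_ofNat_of_zero_le h0
        refine (hN t ?_).1
        rw [abs_of_nonneg h0] at hi
        exact_mod_cast hi
      · obtain ⟨t, ht⟩ := Int.eq_ofNat_of_zero_le (neg_nonneg.mpr h0)
        have hit : i = -(t : ℤ) := by omega
        rw [abs_of_nonpos h0, ht] at hi
        rw [hit]
        exact (hN t (by exact_mod_cast hi)).2
    obtain ⟨y, hy, hd⟩ := hcase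
    have h3 := hKr y hy
    have h4 := dist_triangle y (f i) x
    rw [dist_comm y (f i)] at h4
    linarith
  have hnear : ∀ᶠ ρ in 𝓝[>] (0 : ℝ), ∀ i ∈ Finset.Ioo (-(N : ℤ)) N, f i ≠ x → ρ ≤ dist (f i) x := by
    rw [Filter.eventually_all_finset]
    intro i _
    by_cases hix : f i = x
    · exact Eventually.of_forall fun ρ hn => absurd hix hn
    · filter_upwards [Ioc_mem_nhdsGT (dist_pos.mpr hix)] with ρ hρ _
      exact hρ.2
  filter_upwards [hnear, Ioc_mem_nhdsGT (show (0 : ℝ) < r / 2 by linarith)] with ρ h3 h4 i hi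
  rcases lt_or_ge |i| (N : ℤ) with h5 | h5
  · rw [abs_lt] at h5
    exact h3 i (Finset.mem_Ioo.mpr h5) hi
  · exact h4.2.trans (hfar i h5)

lemma sep_orb {h : Y ≃ₜ Y} {K : Set Y} (hK : IsClosed K) {x : Y} (hx : x ∉ K) {z a b : Y}
    (ha : ∀ i, o h a i ∈ K) (hb : ∀ i, o h b i ∈ K) (h1 : Fwd h z b) (h2 : Bwd h z a) :
    ∀ᶠ ρ in 𝓝[>] (0 : ℝ), ∀ i : ℤ, o h z i ≠ x → ρ ≤ dist (o h z i) x := by
  apply sep hK hx
  · intro ε hε
    filter_upwards [h1 ε hε] with i hi
    exact ⟨_, hb i, hi⟩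
  · intro ε hε
    filter_upwards [h2 ε hε] with i hi
    exact ⟨_, ha _, hi⟩

/-- periodic points which are forward asymptotic to a closed set belong to it -/
lemma per_mem {h : Y ≃ₜ Y} {K : Set Y} (hK : IsClosed K) {z b : Y} (hb : ∀ i, o h b i ∈ K)
    (h1 : Fwd h z b) {T : ℤ} (hT : T ≠ 0) (e : o h z T = z) : z ∈ K := by
  rw [← hK.closure_eq, Metric.mem_closure_iff]
  intro ε hε
  obtain ⟨N, hN⟩ := (h1 ε hε).exists_forall_of_atTop
  have h2 : o h z ((T.natAbs * N : ℕ) : ℤ) = z := by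
    rcases Int.natAbs_eq T with h3 | h3
    · have h4 : ((T.natAbs * N : ℕ) : ℤ) = T * N := by push_cast; rw [← Int.natCast_natAbs, ← h3]
      rw [h4]
      exact per_mul h z T e N
    · have h4 : ((T.natAbs * N : ℕ) : ℤ) = T * (-N) := by
        push_cast
        rw [← Int.natCast_natAbs]
        conv_rhs => rw [h3]
        ring
      rw [h4]
      exact per_mul h z T e _
  have h5 := hN (T.natAbs * N) (Nat.le_mul_of_pos_left _ (Int.natAbs_pos.mpr hT))
  rw [h2] at h5
  exact ⟨_, hb _, h5⟩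

/-! ### connections through good points -/

/-- a chain of length `m` from `a` to `b`, with intermediate points in `G` -/
def Conn (h : Y ≃ₜ Y) (δ : ℝ) (G : Y → Prop) (a b : Y) (m : ℕ) : Prop :=
  ∃ f : ℕ → Y, f 0 = a ∧ f m = b ∧ Ch h δ f m ∧ ∀ i, 0 < i → i < m → G (f i)

lemma conn_trans {h : Y ≃ₜ Y} {δ : ℝ} {G : Y → Prop} {a b c : Y} {m m' : ℕ}
    (h1 : Conn h δ G a b m) (h2 : Conn h δ G b c m') (hG : G b) : Conn h δ G a c (m + m') := by
  obtain ⟨f, hf0, hfm, hfc, hfG⟩ := h1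
  obtain ⟨g, hg0, hgm, hgc, hgG⟩ := h2
  have e : f m = g 0 := hfm.trans hg0.symm
  refine ⟨cat f m g, by rw [cat_l (Nat.zero_le _), hf0], by rw [cat_r e, hgm], cat_ch hfc hgc e, ?_⟩
  intro i hi0 him
  rcases lt_trichotomy i m with h3 | h3 | h3
  · rw [cat_l h3.le]
    exact hfG i hi0 h3
  · rw [h3, cat_l le_rfl, hfm]
    exact hG
  · obtain ⟨t, rfl⟩ := Nat.exists_eq_add_of_le h3.le
    rw [cat_r e]
    exact hgG t (by omega) (by omega)

lemma conn_orb {h : Y ≃ₜ Y} {δ : ℝ} {G : Y → Prop} {a b : Y} {m : ℕ} (hδ : 0 < δ) (hm : 1 ≤ m)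
    (hd : dist (o h a m) b < δ) (hG : ∀ i : ℤ, 0 < i → i < m → G (o h a i)) :
    Conn h δ G a b m := by
  refine ⟨fun i => if i < m then o h a i else b, ?_, ?_, ?_, ?_⟩
  · simp only
    rw [if_pos (by omega)]
    exact o_zero h a
  · simp
  · intro i hi
    simp only
    rw [if_pos hi, o_succ]
    split_ifs with h1
    · push_cast
      rw [dist_self]
      exact hδ
    · have : i + 1 = m := by omega
      rw [← this] at hd
      exact_mod_cast hd
  · intro i h0 hi
    simp only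
    rw [if_pos hi]
    exact hG i (by exact_mod_cast h0) (by exact_mod_cast hi)

lemma tim_succ (l : ℕ → ℕ) (j : ℕ) : tim l (j + 1) = tim l j + l j := Finset.sum_range_succ _ _

lemma tim_mono (l : ℕ → ℕ) : Monotone (tim l) :=
  monotone_nat_of_le_succ fun j => by rw [tim_succ]; exact Nat.le_add_right _ _

lemma conn_many {h : Y ≃ₜ Y} {δ : ℝ} {G : Y → Prop} (a : ℕ → Y) (l : ℕ → ℕ) (q : ℕ)
    (hc : ∀ j < q, Conn h δ G (a j) (a (j + 1)) (l j)) :
    ∃ F : ℕ → Y, (∀ j ≤ q, F (tim l j) = a j) ∧ Ch h δ F (tim l q) ∧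
      ∀ j < q, ∀ i, 0 < i → i < l j → G (F (tim l j + i)) := by
  induction q with
  | zero =>
    refine ⟨fun _ => a 0, ?_, ?_, ?_⟩
    · intro j hj
      rw [Nat.le_zero.mp hj]
    · intro i hi
      simp [tim] at hi
    · intro j hj
      omega
  | succ q ih =>
    obtain ⟨F, hF1, hF2, hF3⟩ := ih fun j hj => hc j (by omega)
    obtain ⟨f, hf0, hfm, hfc, hfG⟩ := hc q (by omega)
    have e : F (tim l q) = f 0 := (hF1 q le_rfl).trans hf0.symm
    refine ⟨cat F (tim l q) f, ?_, ?_, ?_⟩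
    · intro j hj
      rcases Nat.lt_or_ge j (q + 1) with h1 | h1
      · rw [cat_l (tim_mono l (by omega)), hF1 j (by omega)]
      · have : j = q + 1 := by omega
        rw [this, tim_succ, cat_r e, hfm]
    · rw [tim_succ]
      exact cat_ch hF2 hfc e
    · intro j hj i h0 hi
      rcases Nat.lt_or_ge j q with h1 | h1
      · have h2 : tim l (j + 1) ≤ tim l q := tim_mono l (by omega)
        rw [tim_succ] at h2
        rw [cat_l (by omega)]
        exact hF3 j h1 i h0 hi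
      · have : j = q := by omega
        subst this
        rw [cat_r e]
        exact hfG i h0 hi

/-! ### the theorem -/

theorem main : S_COD.{w} := by
  intro Y _ _ _ h hS hM hE k
  obtain ⟨c, hc0, hc'⟩ := hE
  have hc : ∀ x y : Y, (∀ i : ℤ, dist (o h x i) (o h y i) ≤ c) → x = y := by
    intro x y hxy
    apply hc'
    intro i
    rw [← o_nat, ← o_nat, ← o_neg, ← o_neg]
    exact ⟨hxy _, hxy _⟩
  obtain ⟨x0, _⟩ := exists_pair_ne Y
  obtain ⟨p, T, hT, hpT, _⟩ := per_near hS hM x0 one_pos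
  obtain ⟨p', T', hT', hpT', hp'⟩ := per_off hS hM p T hT hpT
  set K := range (o h p) with hKdef
  have hK : IsClosed K := (orb_finite h p T hT hpT).isClosed
  have hKo : ∀ j i, o h (o h p j) i ∈ K := fun j i => ⟨i + j, (o_add h p i j).symm⟩
  have hKo0 : ∀ i, o h p i ∈ K := fun i => ⟨i, rfl⟩
  -- the transition points
  have hu : ∀ r : ℕ, ∃ u, Fwd h u (o h p r) ∧ Bwd h u p := by
    intro r
    obtain ⟨z, _, h1, h2⟩ := hom hS hM hc0 hc p (o h p r) p one_pos
    exact ⟨z, h1, h2⟩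
  choose u huF huB using hu
  -- `p'` is not on orbits asymptotic to `K`
  have hne : ∀ z b, (∀ i, o h b i ∈ K) → Fwd h z b → ∀ i, o h z i ≠ p' := by
    intro z b hb hz i hi
    apply hp'
    have h1 : o h z T' = z := by
      apply o_inj h i
      rw [o_add, add_comm, ← o_add, hi, hpT']
    have h2 : z ∈ K := per_mem hK hb hz (by exact_mod_cast (show T' ≠ 0 by omega)) h1
    obtain ⟨j, hj⟩ := h2
    rw [← hi, ← hj]
    exact hKo j i
  -- the marked points
  have hP : ∃ z : ℕ → Y, (∀ s, Fwd h (z s) p ∧ Bwd h (z s) p ∧ z s ∉ K ∧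
      ∀ r < T, ∀ i, o h (u r) i ≠ z s) ∧ ∀ s s', s < s' → ∀ i, o h (z s) i ≠ z s' := by
    apply exists_seq_of_forall_finset_exists
      (fun z => Fwd h z p ∧ Bwd h z p ∧ z ∉ K ∧ ∀ r < T, ∀ i, o h (u r) i ≠ z)
      (fun z z' => ∀ i, o h z i ≠ z')
    intro S hSP
    have e1 : ∀ᶠ ρ in 𝓝[>] (0 : ℝ), ∀ i : ℤ, o h p i ≠ p' → ρ ≤ dist (o h p i) p' := by
      apply sep hK hp'
      · intro ε hε
        exact Eventually.of_forall fun i => ⟨_, hKo0 i, by rw [dist_self]; exact hε⟩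
      · intro ε hε
        exact Eventually.of_forall fun i => ⟨_, hKo0 _, by rw [dist_self]; exact hε⟩
    have e2 : ∀ᶠ ρ in 𝓝[>] (0 : ℝ), ∀ r ∈ Finset.range T, ∀ i : ℤ, o h (u r) i ≠ p' →
        ρ ≤ dist (o h (u r) i) p' := by
      rw [Filter.eventually_all_finset]
      intro r _
      exact sep_orb hK hp' hKo0 (hKo r) (huF r) (huB r)
    have e3 : ∀ᶠ ρ in 𝓝[>] (0 : ℝ), ∀ z ∈ S, ∀ i : ℤ, o h z i ≠ p' → ρ ≤ dist (o h z i) p' := by
      rw [Filter.eventually_all_finset]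
      intro z hz
      exact sep_orb hK hp' hKo0 hKo0 (hSP z hz).1 (hSP z hz).2.1
    obtain ⟨ρ, ⟨⟨⟨h1, h2⟩, h3⟩, h4⟩⟩ := (((e1.and e2).and e3).and self_mem_nhdsWithin).exists
    obtain ⟨z, hz1, hz2, hz3⟩ := hom hS hM hc0 hc p p p' h4
    refine ⟨z, ⟨hz2, hz3, ?_, ?_⟩, ?_⟩
    · rintro ⟨i, hi⟩
      have h5 := h1 i fun h6 => hp' ⟨i, h6⟩
      rw [hi] at h5
      linarith
    · intro r hr i hi
      have h5 := h2 r (Finset.mem_range.mpr hr) i (hne _ _ (hKo r) (huF r) i)
      rw [hi] at h5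
      linarith
    · intro z' hz' i hi
      have h5 := h3 z' hz' i (hne _ _ hKo0 (hSP z' hz').1 i)
      rw [hi] at h5
      linarith
  obtain ⟨z, hz, hzz⟩ := hP
  have hzz' : ∀ s s', s ≠ s' → ∀ i, o h (z s) i ≠ z s' := by
    intro s s' hss i hi
    rcases lt_or_gt_of_ne hss with h1 | h1
    · exact hzz s s' h1 i hi
    · apply hzz s' s h1 (-i)
      rw [← hi, o_add, neg_add_cancel, o_zero]
  have hzself : ∀ s, ∀ i, i ≠ 0 → o h (z s) i ≠ z s := fun s i hi e =>
    (hz s).2.2.1 (per_mem hK hKo0 (hz s).1 hi e)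
  -- the distance
  have e1 : ∀ᶠ ρ in 𝓝[>] (0 : ℝ), ∀ s : Fin k, ∀ i : ℤ, o h p i ≠ z s → ρ ≤ dist (o h p i) (z s) := by
    rw [eventually_all]
    intro s
    apply sep hK (hz s).2.2.1
    · intro ε hε
      exact Eventually.of_forall fun i => ⟨_, hKo0 i, by rw [dist_self]; exact hε⟩
    · intro ε hε
      exact Eventually.of_forall fun i => ⟨_, hKo0 _, by rw [dist_self]; exact hε⟩
  have e2 : ∀ᶠ ρ in 𝓝[>] (0 : ℝ), ∀ r ∈ Finset.range T, ∀ s : Fin k, ∀ i : ℤ,
      o h (u r) i ≠ z s → ρ ≤ dist (o h (u r) i) (z s) := by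
    rw [Filter.eventually_all_finset]
    intro r _
    rw [eventually_all]
    intro s
    exact sep_orb hK (hz s).2.2.1 hKo0 (hKo r) (huF r) (huB r)
  have e3 : ∀ᶠ ρ in 𝓝[>] (0 : ℝ), ∀ s' s : Fin k, ∀ i : ℤ,
      o h (z s') i ≠ z s → ρ ≤ dist (o h (z s') i) (z s) := by
    rw [eventually_all]
    intro s'
    rw [eventually_all]
    intro s
    exact sep_orb hK (hz s).2.2.1 hKo0 hKo0 (hz s').1 (hz s').2.1
  obtain ⟨ρ4, ⟨⟨⟨h1, h2⟩, h3⟩, h4⟩⟩ := (((e1.and e2).and e3).and self_mem_nhdsWithin).exists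
  set ρ := ρ4 / 4 with hρ
  have h4' : (0 : ℝ) < ρ4 := h4
  have hρ0 : 0 < ρ := by positivity
  have hρ4 : ρ4 = 4 * ρ := by rw [hρ]; ring
  -- good points
  set G : Y → Prop := fun x => ∀ s : Fin k, 4 * ρ ≤ dist x (z s) with hG
  have Gp : ∀ i, G (o h p i) := by
    intro i s
    rw [← hρ4]
    exact h1 s i fun e => (hz s).2.2.1 ⟨i, e⟩
  have Gu : ∀ r < T, ∀ i, G (o h (u r) i) := by
    intro r hr i s
    rw [← hρ4]
    exact h2 r (Finset.mem_range.mpr hr) s i ((hz s).2.2.2 r hr i)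
  have Gz : ∀ s' : Fin k, ∀ i, i ≠ 0 → G (o h (z s') i) := by
    intro s' i hi s
    rw [← hρ4]
    apply h3 s' s i
    by_cases hss : s' = s
    · rw [hss]
      exact hzself s i hi
    · exact hzz' s' s (fun e => hss (Fin.ext e)) i
  obtain ⟨δ, hδ, hsh⟩ := hS ρ hρ0
  -- the time scale
  have hn : ∃ n : ℕ, 1 ≤ n ∧ (T : ℤ) ∣ n ∧ (∀ s : Fin k, dist (o h (z s) n) p < δ / 2 ∧
      dist (o h (z s) (-(n : ℤ))) p < δ / 2) ∧ ∀ r < T, dist (o h (u r) (-(n : ℤ))) p < δ / 2 ∧
      dist (o h (u r) n) (o h (o h p r) n) < δ := by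
    have f1 : ∀ᶠ n : ℕ in atTop, ∀ s : Fin k, dist (o h (z s) n) (o h p n) < δ / 2 ∧
        dist (o h (z s) (-(n : ℤ))) (o h p (-(n : ℤ))) < δ / 2 := by
      rw [eventually_all]
      intro s
      exact ((hz s).1 _ (half_pos hδ)).and ((hz s).2.1 _ (half_pos hδ))
    have f2 : ∀ᶠ n : ℕ in atTop, ∀ r ∈ Finset.range T,
        dist (o h (u r) (-(n : ℤ))) (o h p (-(n : ℤ))) < δ / 2 ∧
        dist (o h (u r) n) (o h (o h p r) n) < δ := by
      rw [Filter.eventually_all_finset]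
      intro r _
      exact ((huB r) _ (half_pos hδ)).and ((huF r) _ hδ)
    obtain ⟨N, hN⟩ := (f1.and f2).exists_forall_of_atTop
    have hle : N ≤ T * (N + 1) := by nlinarith
    obtain ⟨g1, g2⟩ := hN (T * (N + 1)) hle
    have hp1 : o h p ((T * (N + 1) : ℕ) : ℤ) = p := by
      push_cast
      exact per_mul h p T hpT _
    have hp2 : o h p (-((T * (N + 1) : ℕ) : ℤ)) = p := by
      have : (-((T * (N + 1) : ℕ) : ℤ)) = T * (-(N + 1)) := by
        push_cast
        ring
      rw [this]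
      exact per_mul h p T hpT _
    refine ⟨T * (N + 1), by nlinarith, ⟨N + 1, by push_cast; ring⟩, ?_, ?_⟩
    · intro s
      have := g1 s
      rw [hp1, hp2] at this
      exact this
    · intro r hr
      have := g2 r (Finset.mem_range.mpr hr)
      rw [hp2] at this
      exact this
  obtain ⟨n, hn1, hTn, hnz, hnu⟩ := hn
  -- the cells
  have cell : ∀ (s s' : Fin k) (l : ℕ), 4 * n + 1 ≤ l → Conn h δ G (z s) (z s') l := by
    intro s s' l hl
    have hr : ∃ r < T, (T : ℤ) ∣ r + l := by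
      refine ⟨((T - 1) * l) % T, Nat.mod_lt _ hT, ?_⟩
      have h5 : ((T - 1) * l) % T + l ≡ (T - 1) * l + l [MOD T] :=
        (Nat.mod_modEq _ _).add_right l
      have h6 : (T - 1) * l + l = T * l := by
        obtain ⟨t, rfl⟩ := Nat.exists_eq_add_of_le hT
        simp
        ring
      rw [h6] at h5
      have h7 : T ∣ ((T - 1) * l) % T + l :=
        (Nat.modEq_zero_iff_dvd.mp (h5.trans ((Nat.modEq_zero_iff_dvd).mpr ⟨l, rfl⟩)))
      exact_mod_cast h7
    obtain ⟨r, hrT, hrl⟩ := hr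
    have c1 : Conn h δ G (z s) (o h (u r) (-(n : ℤ))) n := by
      apply conn_orb hδ hn1
      · have := dist_triangle_right (o h (z s) n) (o h (u r) (-(n : ℤ))) p
        have := (hnz s).1
        have := (hnu r hrT).1
        linarith
      · intro i hi _
        exact Gz s i (by omega)
    have c2 : Conn h δ G (o h (u r) (-(n : ℤ))) (o h (o h p r) n) (2 * n) := by
      apply conn_orb hδ (by omega)
      · rw [o_add]
        have : ((2 * n : ℕ) : ℤ) + -(n : ℤ) = n := by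
          push_cast
          ring
        rw [this]
        exact (hnu r hrT).2
      · intro i _ _
        rw [o_add]
        exact Gu r hrT _
    have c3 : Conn h δ G (o h (o h p r) n) (o h (z s') (-(n : ℤ))) (l - 4 * n) := by
      apply conn_orb hδ (by omega)
      · rw [o_add, o_add]
        have h8 : (T : ℤ) ∣ ((l - 4 * n : ℕ) : ℤ) + (n + r) := by
          have h9 : ((l - 4 * n : ℕ) : ℤ) + (n + r) = (r + l) - 3 * n := by
            push_cast [Nat.cast_sub (show 4 * n ≤ l by omega)]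
            ring
          rw [h9]
          exact dvd_sub hrl (Dvd.dvd.mul_left hTn 3)
        obtain ⟨j, hj⟩ := h8
        have h10 : ((l - 4 * n : ℕ) : ℤ) + n + r = ((l - 4 * n : ℕ) : ℤ) + (n + r) := by ring
        first
          | rw [hj, per_mul h p T hpT]
          | rw [h10, hj, per_mul h p T hpT]
        rw [dist_comm]
        linarith [(hnz s').2]
      · intro i _ _
        rw [o_add, o_add]
        exact Gp _
    have c4 : Conn h δ G (o h (z s') (-(n : ℤ))) (z s') n := by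
      apply conn_orb hδ hn1
      · rw [o_add, add_neg_cancel, o_zero, dist_self]
        exact hδ
      · intro i _ hi
        rw [o_add]
        exact Gz s' _ (by omega)
    have c5 := conn_trans (conn_trans (conn_trans c1 c2 (Gu r hrT _)) c3
      (by rw [o_add]; exact Gp _)) c4 (Gz s' _ (by omega))
    have h11 : n + 2 * n + (l - 4 * n) + n = l := by omega
    rw [h11] at c5
    exact c5
  refine ⟨fun s => closedBall (z s) ρ, fun s => ball (z s) (2 * ρ), 4 * n + 1, by omega,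
    fun s => isClosed_closedBall, fun s => isOpen_ball,
    fun s => closedBall_subset_ball (by linarith), ?_, ?_⟩
  · intro s s' hss
    apply ball_disjoint_ball
    have h5 : z s ≠ z s' := by
      have := hzz' s s' (fun e => hss (Fin.ext e)) 0
      rwa [o_zero] at this
    have h6 := h3 s s' 0 (by rw [o_zero]; exact h5)
    rw [o_zero, hρ4] at h6
    linarith
  · intro q w l hq hl
    let a : ℕ → Y := fun j => z (w (if j = q then 0 else j))
    obtain ⟨F, hF1, hF2, hF3⟩ := conn_many a l q fun j hj => cell _ _ _ (hl j hj)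
    have hF0 : F 0 = z (w 0) := by
      have := hF1 0 (Nat.zero_le _)
      simp only [tim, Finset.range_zero, Finset.sum_empty, a] at this
      rwa [if_neg (by omega)] at this
    have hFq : F (tim l q) = F 0 := by
      rw [hF0, hF1 q le_rfl]
      simp [a]
    have hpos : ∀ j < q, tim l j + l j ≤ tim l q := by
      intro j hj
      rw [← tim_succ]
      exact tim_mono l (by omega)
    have hlj : ∀ j < q, 1 ≤ l j := fun j hj => le_trans (by omega) (hl j hj)
    obtain ⟨y, hy1, hy2⟩ := hsh (tim l q) F (by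
      have := hpos 0 (by omega)
      have := hlj 0 (by omega)
      omega) hFq hF2
    refine ⟨y, hy1, ?_, ?_⟩
    · intro j hj
      have h5 := hpos j hj
      have h6 := hlj j hj
      have h7 := hy2 (tim l j) (by omega)
      have h8 : F (tim l j) = z (w j) := by
        rw [hF1 j hj.le]
        simp only [a]
        rw [if_neg (by omega)]
      rw [h8] at h7
      exact mem_closedBall.mpr h7.le
    · intro j hj i hi0 hi s hmem
      have h5 := hpos j hj
      have h7 := hy2 (tim l j + i) (by omega)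
      have h8 := hF3 j hj i hi0 hi s
      rw [mem_ball] at hmem
      have h9 := dist_triangle_left (F (tim l j + i)) (z (w j)) (z s)
      have h10 := dist_triangle (F (tim l j + i)) (h^[tim l j + i] y) (z s)
      rw [dist_comm (F (tim l j + i)) (h^[tim l j + i] y)] at h10
      linarith

end Pool.Agent.H74.PA.COD
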