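import Pool.Agent.H74.PA.Stm

/-!
# `Ω`-stable products: statements of further parts (project PROD, helper74)
-/

set_option autoImplicit false

open scoped Manifold ContDiff Topology
open Filter Set Metric

universe u v w

namespace Pool.Agent.H74.PA

open Pool.Agent.H718R2.G Pool.Agent.TH80.OMS Pool.Agent.W564.SC Pool.Agent.Y271.CP
  Pool.Agent.R775.HL

/-- chain transitivity -/
def ChainTrans {Y : Type*} [MetricSpace Y] (h : Y → Y) : Prop :=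
  ∀ δ : ℝ, 0 < δ → ∀ p q : Y, ∃ (m : ℕ) (w : ℕ → Y), 1 ≤ m ∧ w 0 = p ∧ w m = q ∧
    ∀ i < m, dist (h (w i)) (w (i + 1)) < δ

/-- COD2: coded periodic orbits in the chain transitive case (e.g. any infinite basic set, mixing or
not): the same as COD, if the total length is a multiple of `τ`. -/
def S_COD2 : Prop :=
  ∀ (Y : Type w) [MetricSpace Y] [CompactSpace Y] [Infinite Y] (h : Y ≃ₜ Y), PerShadow h →
    ChainTrans h → Expans h → ∀ k : ℕ, ∃ (C B : Fin k → Set Y) (N₀ τ : ℕ), 1 ≤ N₀ ∧ 1 ≤ τ ∧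
    (∀ s, IsClosed (C s)) ∧ (∀ s, IsOpen (B s)) ∧ (∀ s, C s ⊆ B s) ∧
    (∀ s s', s ≠ s' → Disjoint (B s) (B s')) ∧
    ∀ (q : ℕ) (w : ℕ → Fin k) (l : ℕ → ℕ), 1 ≤ q → (∀ j < q, N₀ ≤ l j) → τ ∣ tim l q →
      ∃ y : Y, h^[tim l q] y = y ∧ (∀ j < q, h^[tim l j] y ∈ C (w j)) ∧
        ∀ j < q, ∀ i, 0 < i → i < l j → ∀ s, h^[tim l j + i] y ∉ B s

/-- ANO: hyperbolic automorphisms of tori `V l / Λ` satisfy Axiom A (`π : V l → L` is the projection). -/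
def S_ANO : Prop :=
  ∀ (l : ℕ) (L : Type u) [TopologicalSpace L] [T2Space L] [CompactSpace L] [ChartedSpace (V l) L]
    [IsManifold (𝓡 l) ∞ L] (r : ℕ∞), 1 ≤ r → ∀ (g : DiffM l L r) (Λ : AddSubgroup (V l))
    [DiscreteTopology Λ] [IsClosed (Λ : Set (V l))] (A : V l ≃L[ℝ] V l),
    (∃ C : ℝ, ∀ z : V l, ∃ u ∈ Λ, ‖z - u‖ ≤ C) → Pool.Agent.H922R3.CL.IsHypLin A →
    (∀ u, u ∈ Λ ↔ A u ∈ Λ) →
    ∀ π : V l → L, IsLocalDiffeomorph (𝓡 l) (𝓡 l) ∞ π → Function.Surjective π →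
    (∀ u u', π u = π u' ↔ u - u' ∈ Λ) → (∀ u, g (π u) = π (A u)) →
    Pool.Agent.W5h63.AX.AxiomA l g g.symm

end Pool.Agent.H74.PA
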