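import Mathlib
import Pool.Agent.H74.PA.Stm2
import Pool.Agent.H74.PA.COD

/-!
# COD2: coded periodic orbits for expansive chain transitive homeomorphisms with periodic shadowing
-/

set_option autoImplicit false

open Filter Set Metric
open scoped Topology

universe w

namespace Pool.Agent.H74.PA.COD2

open Pool.Agent.W564.SC Pool.Agent.H74.PA.COD

variable {Y : Type w} [MetricSpace Y]

/-! ### periodic points -/

lemma per_near {h : Y ≃ₜ Y} (hS : PerShadow h) (hM : ChainTrans h) (x : Y) {ε : ℝ} (hε : 0 < ε) :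
    ∃ (p : Y) (T : ℕ), 1 ≤ T ∧ o h p T = p ∧ dist p x < ε := by
  obtain ⟨δ, hδ, hsh⟩ := hS ε hε
  obtain ⟨m, f, hm, hf0, hfL, hf⟩ := hM δ hδ x x
  obtain ⟨p, hp1, hp2⟩ := hsh m f hm (by rw [hf0, hfL]) hf
  refine ⟨p, m, hm, by rw [o_nat]; exact hp1, ?_⟩
  have := hp2 0 (by omega)
  rw [hf0] at this
  exact this

lemma per_off [Infinite Y] {h : Y ≃ₜ Y} (hS : PerShadow h) (hM : ChainTrans h) (p : Y) (T : ℕ)
    (hT : 1 ≤ T) (e : o h p T = p) : ∃ (p' : Y) (T' : ℕ), 1 ≤ T' ∧ o h p' T' = p' ∧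
      p' ∉ range (o h p) := by
  by_contra hcon
  push Not at hcon
  have hfin := orb_finite h p T hT e
  have huniv : range (o h p) = univ := by
    rw [← hfin.isClosed.closure_eq, eq_univ_iff_forall]
    intro y
    rw [Metric.mem_closure_iff]
    intro ε hε
    obtain ⟨p', T', h1, h2, h3⟩ := per_near hS hM y hε
    exact ⟨p', hcon p' T' h1 h2, by rw [dist_comm]; exact h3⟩
  rw [huniv] at hfin
  exact Set.infinite_univ hfin

/-- repeating a loop -/
lemma loop {h : Y ≃ₜ Y} {δ : ℝ} {f : ℕ → Y} {m : ℕ} (hf : Ch h δ f m)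
    (e : f m = f 0) (t : ℕ) : ∃ g : ℕ → Y, g 0 = f 0 ∧ g (t * m) = f 0 ∧ Ch h δ g (t * m) ∧
      (1 ≤ t → ∀ i ≤ m, g i = f i) := by
  induction t with
  | zero =>
    refine ⟨fun _ => f 0, rfl, rfl, ?_, ?_⟩
    · intro i hi
      simp at hi
    · intro h1
      omega
  | succ t ih =>
    obtain ⟨g, h1, h2, h3, h4⟩ := ih
    have e' : f m = g 0 := by rw [e, h1]
    refine ⟨cat f m g, by rw [cat_l (Nat.zero_le _)], ?_, ?_, ?_⟩
    · have : (t + 1) * m = m + t * m := by ring
      rw [this, cat_r e', h2]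
    · have : (t + 1) * m = m + t * m := by ring
      rw [this]
      exact cat_ch hf h3 e'
    · intro _ i hi
      rw [cat_l hi]

/-! ### two-sided shadowing -/

lemma pre {h : Y ≃ₜ Y} (hS : PerShadow h) (hM : ChainTrans h) {η : ℝ} (hη : 0 < η) (p : Y) (T : ℕ)
    (hT : 1 ≤ T) (hp : o h p T = p) (x : Y) :
    ∃ r L : ℕ, ∀ n : ℕ, ∃ y, dist y x < η ∧ ∀ i : ℕ, i ≤ n →
      dist (o h y (L + i)) (o h (o h p r) (L + i)) < η ∧
      dist (o h y (-(L + i))) (o h (o h p r) (-(L + i))) < η := by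
  obtain ⟨δ, hδ, hsh⟩ := hS η hη
  obtain ⟨m1, w1, hm1, hw10, hw1m, hw1⟩ := hM δ hδ p x
  obtain ⟨m2, w2, hm2, hw20, hw2m, hw2⟩ := hM δ hδ x p
  have e12 : w1 m1 = w2 0 := by rw [hw1m, hw20]
  have c12 : Ch h δ (cat w1 m1 w2) (m1 + m2) := cat_ch hw1 hw2 e12
  have f0 : cat w1 m1 w2 0 = p := by rw [cat_l (Nat.zero_le _), hw10]
  have fm : cat w1 m1 w2 (m1 + m2) = cat w1 m1 w2 0 := by rw [cat_r e12, f0, hw2m]
  obtain ⟨g, hg0, hgm, hgc, hgi⟩ := loop c12 fm T
  rw [f0] at hg0 hgm
  have hgx : g m1 = x := by rw [hgi hT m1 (by omega), cat_l le_rfl, hw1m]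
  set M := T * (m1 + m2) with hM'
  have hMm : m1 + m2 ≤ M := Nat.le_mul_of_pos_left _ hT
  refine ⟨m1, M, fun n => ?_⟩
  -- the pseudo-orbit
  set N := n + M + 1 with hN
  set g0 : ℕ → Y := fun i => o h p ((i : ℤ) - N * T) with hg0'
  set g2 : ℕ → Y := fun i => o h p i with hg2'
  have ch0 : Ch h δ g0 (N * T) := by
    intro i _
    have : h (g0 i) = g0 (i + 1) := by
      simp only [hg0']
      rw [o_succ]
      congr 1
      push_cast
      ring
    rw [this, dist_self]
    exact hδ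
  have ch2 : Ch h δ g2 (N * T) := by
    intro i _
    have : h (g2 i) = g2 (i + 1) := by
      simp only [hg2']
      rw [o_succ]
      congr 1
    rw [this, dist_self]
    exact hδ
  have e1 : g M = g2 0 := by
    rw [hgm]
    simp only [hg2']
    exact (o_zero h p).symm
  have d1 : Ch h δ (cat g M g2) (M + N * T) := cat_ch hgc ch2 e1
  have e0 : g0 (N * T) = cat g M g2 0 := by
    rw [cat_l (Nat.zero_le _), hg0]
    simp only [hg0']
    push_cast
    rw [sub_self, o_zero]
  have d0 := cat_ch ch0 d1 e0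
  set F := cat g0 (N * T) (cat g M g2) with hF
  have hperj : ∀ j : ℤ, o h p (T * j) = p := per_mul h p T hp
  have hF0 : F 0 = p := by
    rw [hF, cat_l (Nat.zero_le _)]
    simp only [hg0']
    have : ((0 : ℕ) : ℤ) - N * T = T * (-N) := by push_cast; ring
    rw [this, hperj]
  have hFm : F (N * T + (M + N * T)) = p := by
    rw [hF, cat_r e0, cat_r e1]
    simp only [hg2']
    have : ((N * T : ℕ) : ℤ) = T * N := by push_cast; ring
    rw [this, hperj]
  have hnT : N ≤ N * T := Nat.le_mul_of_pos_right _ hT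
  obtain ⟨q, _, hq⟩ := hsh (N * T + (M + N * T)) F (by omega) (by rw [hFm, hF0]) d0
  refine ⟨o h q (N * T + m1), ?_, fun i hi => ⟨?_, ?_⟩⟩
  · have h1 := hq (N * T + m1) (by omega)
    have h2 : F (N * T + m1) = x := by
      rw [hF, cat_r e0, cat_l (by omega), hgx]
    rw [h2, ← o_nat] at h1
    push_cast at h1
    exact h1
  · have h1 := hq (N * T + (M + (m1 + i))) (by omega)
    have h2 : F (N * T + (M + (m1 + i))) = g2 (m1 + i) := by
      rw [hF, cat_r e0, cat_r e1]
    rw [h2, ← o_nat] at h1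
    rw [o_add, o_add]
    have h3 : (M : ℤ) + i + (N * T + m1) = ((N * T + (M + (m1 + i)) : ℕ) : ℤ) := by
      push_cast
      ring
    have h4 : (M : ℤ) + i + m1 = ((m1 + i : ℕ) : ℤ) + T * ((m1 + m2 : ℕ) : ℤ) := by
      rw [hM']
      push_cast
      ring
    have h5 : o h p ((M : ℤ) + i + m1) = g2 (m1 + i) := by
      rw [h4, ← o_add, hperj]
    rw [h3, h5]
    exact h1
  · have hle : M + i ≤ N * T + m1 := by omega
    have h1 := hq (N * T + m1 - (M + i)) (by omega)
    have h2 : F (N * T + m1 - (M + i)) = g0 (N * T + m1 - (M + i)) := by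
      rw [hF, cat_l (by omega)]
    rw [h2, ← o_nat] at h1
    rw [o_add, o_add]
    have h3 : -((M : ℤ) + i) + (N * T + m1) = ((N * T + m1 - (M + i) : ℕ) : ℤ) := by
      push_cast [Nat.cast_sub hle]
      ring
    have h5 : g0 (N * T + m1 - (M + i)) = o h p (-((M : ℤ) + i) + m1) := by
      simp only [hg0']
      congr 1
      push_cast [Nat.cast_sub hle]
      ring
    rw [h3, ← h5]
    exact h1

/-- homoclinic points of the orbit of `p`, near a given point, with the same phase on both sides -/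
lemma hom [CompactSpace Y] {h : Y ≃ₜ Y} (hS : PerShadow h) (hM : ChainTrans h) {c : ℝ} (hc0 : 0 < c)
    (hc : ∀ x y : Y, (∀ i : ℤ, dist (o h x i) (o h y i) ≤ c) → x = y) (p : Y) (T : ℕ)
    (hT : 1 ≤ T) (hp : o h p T = p) (x : Y) {ε : ℝ} (hε : 0 < ε) :
    ∃ (z : Y) (r : ℕ), dist z x < ε ∧ Fwd h z (o h p r) ∧ Bwd h z (o h p r) := by
  set η := min c (ε / 2) with hη
  have hη0 : 0 < η := lt_min hc0 (by linarith)
  obtain ⟨r, L, hL⟩ := pre hS hM hη0 p T hT hp x
  set b := o h p r with hb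
  let K : ℕ → Set Y := fun n => {y | dist y x ≤ η ∧ ∀ i : ℕ, i ≤ n →
      dist (o h y (L + i)) (o h b (L + i)) ≤ η ∧ dist (o h y (-(L + i))) (o h b (-(L + i))) ≤ η}
  have hclosed : ∀ n, IsClosed (K n) := by
    intro n
    apply IsClosed.and
    · exact isClosed_le (continuous_id.dist continuous_const) continuous_const
    · simp only [Set.ofPred_forall]
      refine isClosed_iInter fun i => isClosed_iInter fun _ => ?_
      apply IsClosed.and
      · exact isClosed_le ((o_cont h _).dist continuous_const) continuous_const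
      · exact isClosed_le ((o_cont h _).dist continuous_const) continuous_const
  have hne : (⋂ n, K n).Nonempty := by
    apply IsCompact.nonempty_iInter_of_sequence_nonempty_isCompact_isClosed K
    · intro n q hq
      exact ⟨hq.1, fun i hi => hq.2 i (hi.trans (Nat.le_succ n))⟩
    · intro n
      obtain ⟨y, h1, h2⟩ := hL n
      exact ⟨y, h1.le, fun i hi => ⟨(h2 i hi).1.le, (h2 i hi).2.le⟩⟩
    · exact (hclosed 0).isCompact
    · exact hclosed
  obtain ⟨z, hz⟩ := hne
  rw [mem_iInter] at hz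
  have hηc : η ≤ c := min_le_left _ _
  refine ⟨z, r, ?_, ?_, ?_⟩
  · have h1 := (hz 0).1
    have h2 : η ≤ ε / 2 := min_le_right _ _
    linarith
  · intro ε' hε'
    obtain ⟨n, hn⟩ := unif hc hε'
    filter_upwards [eventually_ge_atTop (L + n)] with i hi
    apply hn
    intro j hj
    rw [o_add h z, o_add h b]
    have h1 : (L : ℤ) ≤ j + i := by
      have := neg_abs_le j
      omega
    obtain ⟨t, ht⟩ := Int.eq_ofNat_of_zero_le (sub_nonneg.mpr h1)
    have h2 := ((hz t).2 t le_rfl).1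
    have h3 : j + i = (L : ℤ) + t := by omega
    rw [h3]
    exact h2.trans hηc
  · intro ε' hε'
    obtain ⟨n, hn⟩ := unif hc hε'
    filter_upwards [eventually_ge_atTop (L + n)] with i hi
    apply hn
    intro j hj
    rw [o_add h z, o_add h b]
    have h1 : (L : ℤ) ≤ -(j + -i) := by
      have := le_abs_self j
      omega
    obtain ⟨t, ht⟩ := Int.eq_ofNat_of_zero_le (sub_nonneg.mpr h1)
    have h2 := ((hz t).2 t le_rfl).2
    have h3 : j + -(i : ℤ) = -((L : ℤ) + t) := by omega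
    rw [h3]
    exact h2.trans hηc

/-! ### shifting asymptotic points -/

lemma fwd_shift {h : Y ≃ₜ Y} {z b : Y} (H : Fwd h z b) (j : ℤ) : Fwd h (o h z j) (o h b j) := by
  intro ε hε
  obtain ⟨N, hN⟩ := (H ε hε).exists_forall_of_atTop
  filter_upwards [eventually_ge_atTop (N + j.natAbs)] with i hi
  rw [o_add, o_add]
  have h1 : (0 : ℤ) ≤ i + j := by omega
  obtain ⟨t, ht⟩ := Int.eq_ofNat_of_zero_le h1
  rw [ht]
  exact hN t (by omega)

lemma bwd_shift {h : Y ≃ₜ Y} {z b : Y} (H : Bwd h z b) (j : ℤ) : Bwd h (o h z j) (o h b j) := by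
  intro ε hε
  obtain ⟨N, hN⟩ := (H ε hε).exists_forall_of_atTop
  filter_upwards [eventually_ge_atTop (N + j.natAbs)] with i hi
  rw [o_add, o_add]
  have h1 : (0 : ℤ) ≤ i - j := by omega
  obtain ⟨t, ht⟩ := Int.eq_ofNat_of_zero_le h1
  have h2 : -(i : ℤ) + j = -(t : ℤ) := by omega
  rw [h2]
  exact hN t (by omega)

/-! ### the theorem -/

theorem main : S_COD2.{w} := by
  intro Y _ _ _ h hS hM hE k
  obtain ⟨c, hc0, hc'⟩ := hE
  have hc : ∀ x y : Y, (∀ i : ℤ, dist (o h x i) (o h y i) ≤ c) → x = y := by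
    intro x y hxy
    apply hc'
    intro i
    rw [← o_nat, ← o_nat, ← o_neg, ← o_neg]
    exact ⟨hxy _, hxy _⟩
  obtain ⟨x0, _⟩ := exists_pair_ne Y
  obtain ⟨p, T, hT, hpT, _⟩ := per_near hS hM x0 one_pos
  obtain ⟨p', T', hT', hpT', hp'⟩ := per_off hS hM p T hT hpT
  have hperj : ∀ j : ℤ, o h p (T * j) = p := per_mul h p T hpT
  have hpdvd : ∀ i j : ℤ, (T : ℤ) ∣ i - j → o h p i = o h p j := by
    rintro i j ⟨t, ht⟩
    have : i = j + T * t := by linarith
    rw [this, ← o_add, hperj]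
  set K := range (o h p) with hKdef
  have hK : IsClosed K := (orb_finite h p T hT hpT).isClosed
  have hKo : ∀ j i, o h (o h p j) i ∈ K := fun j i => ⟨i + j, (o_add h p i j).symm⟩
  have hKo0 : ∀ i, o h p i ∈ K := fun i => ⟨i, rfl⟩
  -- `p'` is not on orbits asymptotic to `K`
  have hne : ∀ z b, (∀ i, o h b i ∈ K) → Fwd h z b → ∀ i, o h z i ≠ p' := by
    intro z b hb hz i hi
    apply hp'
    have h1 : o h z T' = z := by
      apply o_inj h i
      rw [o_add, add_comm, ← o_add, hi, hpT']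
    have h2 : z ∈ K := per_mem hK hb hz (by exact_mod_cast (show T' ≠ 0 by omega)) h1
    obtain ⟨j, hj⟩ := h2
    rw [← hi, ← hj]
    exact hKo j i
  -- the homoclinic points
  have hP : ∃ z : ℕ → Y, (∀ s, (∃ r : ℕ, Fwd h (z s) (o h p r) ∧ Bwd h (z s) (o h p r)) ∧
      z s ∉ K) ∧ ∀ s s', s < s' → ∀ i, o h (z s) i ≠ z s' := by
    apply exists_seq_of_forall_finset_exists
      (fun z => (∃ r : ℕ, Fwd h z (o h p r) ∧ Bwd h z (o h p r)) ∧ z ∉ K)
      (fun z z' => ∀ i, o h z i ≠ z')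
    intro S hSP
    have e1 : ∀ᶠ ρ in 𝓝[>] (0 : ℝ), ∀ i : ℤ, o h p i ≠ p' → ρ ≤ dist (o h p i) p' := by
      apply sep hK hp'
      · intro ε hε
        exact Eventually.of_forall fun i => ⟨_, hKo0 i, by rw [dist_self]; exact hε⟩
      · intro ε hε
        exact Eventually.of_forall fun i => ⟨_, hKo0 _, by rw [dist_self]; exact hε⟩
    have e3 : ∀ᶠ ρ in 𝓝[>] (0 : ℝ), ∀ z ∈ S, ∀ i : ℤ, o h z i ≠ p' → ρ ≤ dist (o h z i) p' := by
      rw [Filter.eventually_all_finset]
      intro z hz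
      obtain ⟨⟨r, hr1, hr2⟩, _⟩ := hSP z hz
      exact sep_orb hK hp' (hKo r) (hKo r) hr1 hr2
    obtain ⟨ρ, ⟨⟨h1, h3⟩, h4⟩⟩ := ((e1.and e3).and self_mem_nhdsWithin).exists
    obtain ⟨z, r, hz1, hz2, hz3⟩ := hom hS hM hc0 hc p T hT hpT p' h4
    refine ⟨z, ⟨⟨r, hz2, hz3⟩, ?_⟩, ?_⟩
    · rintro ⟨i, hi⟩
      have h5 := h1 i fun h6 => hp' ⟨i, h6⟩
      rw [hi] at h5
      linarith
    · intro z' hz' i hi
      obtain ⟨⟨r', hr1, _⟩, _⟩ := hSP z' hz'
      have h5 := h3 z' hz' i (hne _ _ (hKo r') hr1 i)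
      rw [hi] at h5
      linarith
  obtain ⟨z0, hz0, hzz0⟩ := hP
  choose r0 hr0 using fun s => (hz0 s).1
  -- the markers: phase `s` of `z s`
  set z : ℕ → Y := fun s => o h (z0 s) (s - r0 s) with hzdef
  have hz : ∀ s, Fwd h (z s) (o h p s) ∧ Bwd h (z s) (o h p s) ∧ z s ∉ K := by
    intro s
    have h1 : o h (o h p (r0 s)) (s - r0 s) = o h p s := by
      rw [o_add]
      congr 1
      ring
    refine ⟨?_, ?_, ?_⟩
    · have := fwd_shift (hr0 s).1 (s - r0 s)
      rwa [h1] at this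
    · have := bwd_shift (hr0 s).2 (s - r0 s)
      rwa [h1] at this
    · rintro ⟨i, hi⟩
      apply (hz0 s).2
      refine ⟨-(s - r0 s) + i, ?_⟩
      rw [← o_add, hi, hzdef]
      simp only
      rw [o_add, neg_add_cancel, o_zero]
  have hzz' : ∀ s s', s ≠ s' → ∀ i, o h (z s) i ≠ z s' := by
    have key : ∀ s s', s < s' → ∀ i, o h (z s) i ≠ z s' := by
      intro s s' hss i hi
      apply hzz0 s s' hss (-(s' - r0 s') + (i + (s - r0 s)))
      rw [← o_add, ← o_add h (z0 s) i]
      change o h (o h (z s) i) _ = _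
      rw [hi, hzdef]
      simp only
      rw [o_add, neg_add_cancel, o_zero]
    intro s s' hss i hi
    rcases lt_or_gt_of_ne hss with h1 | h1
    · exact key s s' h1 i hi
    · apply key s' s h1 (-i)
      rw [← hi, o_add, neg_add_cancel, o_zero]
  have hzself : ∀ s, ∀ i, i ≠ 0 → o h (z s) i ≠ z s := fun s i hi e =>
    (hz s).2.2 (per_mem hK (hKo s) (hz s).1 hi e)
  -- the distance
  have e1 : ∀ᶠ ρ in 𝓝[>] (0 : ℝ), ∀ s : Fin (k * T), ∀ i : ℤ,
      o h p i ≠ z s → ρ ≤ dist (o h p i) (z s) := by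
    rw [eventually_all]
    intro s
    apply sep hK (hz s).2.2
    · intro ε hε
      exact Eventually.of_forall fun i => ⟨_, hKo0 i, by rw [dist_self]; exact hε⟩
    · intro ε hε
      exact Eventually.of_forall fun i => ⟨_, hKo0 _, by rw [dist_self]; exact hε⟩
  have e3 : ∀ᶠ ρ in 𝓝[>] (0 : ℝ), ∀ s' s : Fin (k * T), ∀ i : ℤ,
      o h (z s') i ≠ z s → ρ ≤ dist (o h (z s') i) (z s) := by
    rw [eventually_all]
    intro s'
    rw [eventually_all]
    intro s
    exact sep_orb hK (hz s).2.2 (hKo s') (hKo s') (hz s').1 (hz s').2.1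
  obtain ⟨ρ4, ⟨⟨h1, h3⟩, h4⟩⟩ := ((e1.and e3).and self_mem_nhdsWithin).exists
  set ρ := ρ4 / 4 with hρ
  have h4' : (0 : ℝ) < ρ4 := h4
  have hρ0 : 0 < ρ := by positivity
  have hρ4 : ρ4 = 4 * ρ := by rw [hρ]; ring
  -- good points
  set G : Y → Prop := fun x => ∀ s : Fin (k * T), 4 * ρ ≤ dist x (z s) with hG
  have Gp : ∀ i, G (o h p i) := by
    intro i s
    rw [← hρ4]
    exact h1 s i fun e => (hz s).2.2 ⟨i, e⟩
  have Gz : ∀ s' : Fin (k * T), ∀ i, i ≠ 0 → G (o h (z s') i) := by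
    intro s' i hi s
    rw [← hρ4]
    apply h3 s' s i
    by_cases hss : s' = s
    · rw [hss]
      exact hzself s i hi
    · exact hzz' s' s (fun e => hss (Fin.ext e)) i
  obtain ⟨δ, hδ, hsh⟩ := hS ρ hρ0
  -- the time scale
  have hn : ∃ n : ℕ, 1 ≤ n ∧ ∀ s : Fin (k * T),
      dist (o h (z s) n) (o h p (n + s)) < δ / 2 ∧
      dist (o h (z s) (-(n : ℤ))) (o h p (-(n : ℤ) + s)) < δ / 2 := by
    have f1 : ∀ᶠ n : ℕ in atTop, ∀ s : Fin (k * T),
        dist (o h (z s) n) (o h p (n + s)) < δ / 2 ∧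
        dist (o h (z s) (-(n : ℤ))) (o h p (-(n : ℤ) + s)) < δ / 2 := by
      rw [eventually_all]
      intro s
      have g1 := (hz s).1 _ (half_pos hδ)
      have g2 := (hz s).2.1 _ (half_pos hδ)
      simp only [o_add] at g1 g2
      exact g1.and g2
    obtain ⟨N, hN⟩ := f1.exists_forall_of_atTop
    exact ⟨N + 1, by omega, fun s => hN (N + 1) (by omega) s⟩
  obtain ⟨n, hn1, hnz⟩ := hn
  -- the cells
  have cell : ∀ (s s' : Fin (k * T)) (l : ℕ), 2 * n + 1 ≤ l → (T : ℤ) ∣ (s : ℤ) + l - s' →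
      Conn h δ G (z s) (z s') l := by
    intro s s' l hl hdvd
    have c1 : Conn h δ G (z s) (o h p (n + s)) n := by
      apply conn_orb hδ hn1
      · have := (hnz s).1
        linarith
      · intro i hi _
        exact Gz s i (by omega)
    have c3 : Conn h δ G (o h p (n + s)) (o h (z s') (-(n : ℤ))) (l - 2 * n) := by
      apply conn_orb hδ (by omega)
      · rw [o_add]
        have h8 : o h p (((l - 2 * n : ℕ) : ℤ) + (n + s)) = o h p (-(n : ℤ) + s') := by
          apply hpdvd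
          have h9 : ((l - 2 * n : ℕ) : ℤ) + (n + s) - (-(n : ℤ) + s') = s + l - s' := by
            push_cast [Nat.cast_sub (show 2 * n ≤ l by omega)]
            ring
          rw [h9]
          exact hdvd
        rw [h8, dist_comm]
        linarith [(hnz s').2]
      · intro i _ _
        rw [o_add]
        exact Gp _
    have c4 : Conn h δ G (o h (z s') (-(n : ℤ))) (z s') n := by
      apply conn_orb hδ hn1
      · rw [o_add, add_neg_cancel, o_zero, dist_self]
        exact hδ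
      · intro i _ hi
        rw [o_add]
        exact Gz s' _ (by omega)
    have c5 := conn_trans (conn_trans c1 c3 (Gp _)) c4 (Gz s' _ (by omega))
    have h11 : n + (l - 2 * n) + n = l := by omega
    rw [h11] at c5
    exact c5
  -- the markers
  have idx : ∀ (s : Fin k) (i : Fin T), (s : ℕ) * T + i < k * T := by
    intro s i
    have h5 : (s : ℕ) + 1 ≤ k := s.2
    calc (s : ℕ) * T + i < s * T + T := by omega
      _ = (s + 1) * T := by ring
      _ ≤ k * T := Nat.mul_le_mul_right _ h5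
  set mk : Fin k → Fin T → Fin (k * T) := fun s i => ⟨(s : ℕ) * T + i, idx s i⟩ with hmk
  have mk_inj : ∀ s s' i i', mk s i = mk s' i' → s = s' := by
    intro s s' i i' he
    have h5 : (s : ℕ) * T + i = s' * T + i' := by
      have := congrArg Fin.val he
      exact this
    have h6 : ((s : ℕ) * T + i) / T = ((s' : ℕ) * T + i') / T := by rw [h5]
    rw [Nat.mul_comm, Nat.mul_add_div (by omega), Nat.mul_comm, Nat.mul_add_div (by omega),
      Nat.div_eq_of_lt i.2, Nat.div_eq_of_lt i'.2] at h6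
    exact Fin.ext (by omega)
  refine ⟨fun s => ⋃ i : Fin T, closedBall (z (mk s i)) ρ, fun s => ⋃ i : Fin T, ball (z (mk s i)) (2 * ρ),
    2 * n + 1, T, by omega, hT, fun s => isClosed_iUnion_of_finite fun i => isClosed_closedBall,
    fun s => isOpen_iUnion fun i => isOpen_ball,
    fun s => iUnion_mono fun i => closedBall_subset_ball (by linarith), ?_, ?_⟩
  · intro s s' hss
    rw [disjoint_iUnion_left]
    intro i
    rw [disjoint_iUnion_right]
    intro i'
    apply ball_disjoint_ball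
    have h5 : z (mk s i) ≠ z (mk s' i') := by
      have := hzz' (mk s i) (mk s' i') (fun e => hss (mk_inj _ _ _ _ (Fin.ext e))) 0
      rwa [o_zero] at this
    have h6 := h3 (mk s i) (mk s' i') 0 (by rw [o_zero]; exact h5)
    rw [o_zero, hρ4] at h6
    linarith
  · intro q w l hq hl hdiv
    let m : ℕ → Fin (k * T) := fun j =>
      if j = q then mk (w 0) ⟨0, by omega⟩ else mk (w j) ⟨tim l j % T, Nat.mod_lt _ hT⟩
    have hmq : m q = mk (w 0) ⟨0, by omega⟩ := by simp [m]
    have hmj : ∀ j, j ≠ q → m j = mk (w j) ⟨tim l j % T, Nat.mod_lt _ hT⟩ := by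
      intro j hj
      simp only [m]
      rw [if_neg hj]
    have hmT : ∀ j ≤ q, (T : ℤ) ∣ (m j : ℤ) - tim l j := by
      intro j hj
      by_cases hjq : j = q
      · subst hjq
        rw [hmq, hmk]
        simp only
        push_cast
        have h5 : (T : ℤ) ∣ (tim l j : ℤ) := by exact_mod_cast hdiv
        apply dvd_sub _ h5
        rw [add_zero]
        exact Dvd.intro_left _ rfl
      · rw [hmj j hjq, hmk]
        simp only
        push_cast
        have h5 : ((w j : ℕ) : ℤ) * T + (tim l j : ℤ) % T - tim l j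
            = ((w j : ℕ) : ℤ) * T - (tim l j - (tim l j : ℤ) % T) := by ring
        rw [h5]
        exact dvd_sub (Dvd.intro_left _ rfl) (Int.dvd_self_sub_emod)
    let a : ℕ → Y := fun j => z (m j)
    obtain ⟨F, hF1, hF2, hF3⟩ := conn_many a l q (fun j hj => by
      apply cell _ _ _ (hl j hj)
      have h5 := hmT j hj.le
      have h6 := hmT (j + 1) hj
      rw [tim_succ] at h6
      push_cast at h6
      have h7 : ((m j : ℕ) : ℤ) + l j - (m (j + 1) : ℕ)
          = ((m j : ℕ) - tim l j) - ((m (j + 1) : ℕ) - (tim l j + l j)) := by ring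
      rw [h7]
      exact dvd_sub h5 h6)
    have hm0 : m 0 = mk (w 0) ⟨0, by omega⟩ := by
      rw [hmj 0 (by omega)]
      congr 1
    have hF0 : F 0 = z (mk (w 0) ⟨0, by omega⟩) := by
      have := hF1 0 (Nat.zero_le _)
      simp only [tim, Finset.range_zero, Finset.sum_empty, a] at this
      rwa [hm0] at this
    have hFq : F (tim l q) = F 0 := by
      rw [hF0, hF1 q le_rfl]
      simp only [a]
      rw [hmq]
    have hpos : ∀ j < q, tim l j + l j ≤ tim l q := by
      intro j hj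
      rw [← tim_succ]
      exact tim_mono l (by omega)
    have hlj : ∀ j < q, 1 ≤ l j := fun j hj => le_trans (by omega) (hl j hj)
    obtain ⟨y, hy1, hy2⟩ := hsh (tim l q) F (by
      have := hpos 0 (by omega)
      have := hlj 0 (by omega)
      omega) hFq hF2
    refine ⟨y, hy1, ?_, ?_⟩
    · intro j hj
      have h5 := hpos j hj
      have h6 := hlj j hj
      have h7 := hy2 (tim l j) (by omega)
      have h8 : F (tim l j) = z (mk (w j) ⟨tim l j % T, Nat.mod_lt _ hT⟩) := by
        rw [hF1 j hj.le]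
        simp only [a]
        rw [hmj j (by omega)]
      rw [h8] at h7
      exact mem_iUnion.mpr ⟨_, mem_closedBall.mpr h7.le⟩
    · intro j hj i hi0 hi s hmem
      obtain ⟨t, ht⟩ := mem_iUnion.mp hmem
      have h5 := hpos j hj
      have h7 := hy2 (tim l j + i) (by omega)
      have h8 := hF3 j hj i hi0 hi (mk s t)
      rw [mem_ball] at ht
      have h10 := dist_triangle (F (tim l j + i)) (h^[tim l j + i] y) (z (mk s t))
      rw [dist_comm (F (tim l j + i)) (h^[tim l j + i] y)] at h10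
      linarith

end Pool.Agent.H74.PA.COD2
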