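import Mathlib
import Pool.Agent.H74.PA.Stm
import Pool.Agent.H74.G.R_pool_sql_team_seeded_9f66d723.W5h63.AX.Split
import Pool.Agent.H74.G.R_seed8.Y38.CO.GEN

/-!
# CLO: a vector which leaves `P` along an unstable eigenvector and enters `Q` along a stable one gives an
eigenvalue one (project PROD)
-/

set_option autoImplicit false
set_option linter.unusedSectionVars false

open Filter Topology Set Metric

noncomputable section

namespace Pool.Agent.H74.PA.Clo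

open Pool.Agent.H718R2.G Pool.Agent.R775.HL

variable {m : ℕ}

lemma pow_coe (X : V m →L[ℝ] V m) (k : ℕ) (v : V m) :
    (X ^ k) v = ((X : V m →ₗ[ℝ] V m) ^ k) v := by
  induction k with
  | zero => rfl
  | succ k ih =>
    rw [pow_succ', pow_succ', Module.End.mul_apply, ← ih]
    rfl

lemma symm_pow (P : V m ≃L[ℝ] V m) (k : ℕ) (v : V m) :
    ((P.symm : V m →L[ℝ] V m) ^ k) (((P : V m →L[ℝ] V m) ^ k) v) = v := by
  induction k with
  | zero => rfl
  | succ k ih =>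
    rw [pow_succ, pow_succ']
    show ((P.symm : V m →L[ℝ] V m) ^ k) (P.symm (P (((P : V m →L[ℝ] V m) ^ k) v))) = v
    rw [P.symm_apply_apply]
    exact ih

lemma comm_pow {P π : V m →L[ℝ] V m} (h : ∀ v, π (P v) = P (π v)) (k : ℕ) (v : V m) :
    π ((P ^ k) v) = (P ^ k) (π v) := by
  induction k with
  | zero => rfl
  | succ k ih =>
    rw [pow_succ']
    show π (P ((P ^ k) v)) = P ((P ^ k) (π v))
    rw [h, ih]

lemma mem_Es {X : V m →L[ℝ] V m} {v : V m} : v ∈ Es X ↔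
    Tendsto (fun k : ℕ => (X ^ k) v) atTop (𝓝 0) := Iff.rfl

/-- a pointwise bounded family is bounded -/
lemma bs (A : ℕ → V m →L[ℝ] V m) (h : ∀ v, Tendsto (fun k => A k v) atTop (𝓝 0)) :
    ∃ C : ℝ, 0 ≤ C ∧ ∀ k v, ‖A k v‖ ≤ C * ‖v‖ := by
  obtain ⟨C, hC⟩ := banach_steinhaus (g := A) (fun v => by
    obtain ⟨C, hC⟩ := (h v).norm.bddAbove_range
    exact ⟨C, fun k => hC ⟨k, rfl⟩⟩)
  refine ⟨max C 0, le_max_right _ _, fun k v => ((A k).le_opNorm v).trans ?_⟩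
  exact mul_le_mul_of_nonneg_right ((hC k).trans (le_max_left _ _)) (norm_nonneg _)

/-- the splitting of a hyperbolic linear map -/
lemma hyp_split (P : V m ≃L[ℝ] V m) (hP : Hyp (P : V m →L[ℝ] V m)) :
    ∃ (π : V m →L[ℝ] V m) (C : ℝ), 0 ≤ C ∧ (∀ v, π v ∈ Es (P : V m →L[ℝ] V m)) ∧
      (∀ v, v - π v ∈ Es (P.symm : V m →L[ℝ] V m)) ∧
      (∀ v ∈ Es (P : V m →L[ℝ] V m), π v = v) ∧ (∀ v ∈ Es (P.symm : V m →L[ℝ] V m), π v = 0) ∧
      (∀ v ∈ Es (P : V m →L[ℝ] V m), ∀ k : ℕ, ‖((P : V m →L[ℝ] V m) ^ k) v‖ ≤ C * ‖v‖) ∧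
      (∀ v ∈ Es (P.symm : V m →L[ℝ] V m), ∀ k : ℕ,
        ‖((P.symm : V m →L[ℝ] V m) ^ k) v‖ ≤ C * ‖v‖) := by
  obtain ⟨π₀, h1, h2, h3, h4⟩ := Pool.Agent.W5h63.AX.split P.toLinearEquiv hP
  let π : V m →L[ℝ] V m := LinearMap.toContinuousLinearMap π₀
  have hπ : ∀ v, π v = π₀ v := fun v => rfl
  have hcom : ∀ v, π ((P : V m →L[ℝ] V m) v) = (P : V m →L[ℝ] V m) (π v) := h1
  have hcom' : ∀ v, π ((P.symm : V m →L[ℝ] V m) v) = (P.symm : V m →L[ℝ] V m) (π v) := by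
    intro v
    show π (P.symm v) = P.symm (π v)
    apply P.injective
    rw [P.apply_symm_apply]
    have := hcom (P.symm v)
    have h5 : (P : V m →L[ℝ] V m) (P.symm v) = v := P.apply_symm_apply v
    rw [h5] at this
    exact this.symm
  have hs : ∀ v, Tendsto (fun k : ℕ => ((P : V m →L[ℝ] V m) ^ k) (π v)) atTop (𝓝 0) := by
    intro v
    refine (h3 v).congr fun k => ?_
    rw [pow_coe]
    rfl
  have hu : ∀ v, Tendsto (fun k : ℕ => ((P.symm : V m →L[ℝ] V m) ^ k) (v - π v)) atTop (𝓝 0) := by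
    intro v
    refine (h4 v).congr fun k => ?_
    rw [pow_coe]
    rfl
  obtain ⟨C₁, hC₁0, hC₁⟩ := bs (fun k => ((P : V m →L[ℝ] V m) ^ k).comp π) hs
  obtain ⟨C₂, hC₂0, hC₂⟩ := bs (fun k => ((P.symm : V m →L[ℝ] V m) ^ k).comp
    (ContinuousLinearMap.id ℝ (V m) - π)) hu
  have hC₁' : ∀ (k : ℕ) v, ‖((P : V m →L[ℝ] V m) ^ k) (π v)‖ ≤ C₁ * ‖v‖ := hC₁
  have hC₂' : ∀ (k : ℕ) v, ‖((P.symm : V m →L[ℝ] V m) ^ k) (v - π v)‖ ≤ C₂ * ‖v‖ := hC₂
  -- vectors in `Es P`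
  have k1 : ∀ v ∈ Es (P : V m →L[ℝ] V m), π v = v := by
    intro v hv
    have h5 : ∀ k : ℕ, ‖v - π v‖ ≤ C₂ * ‖((P : V m →L[ℝ] V m) ^ k) v‖ := by
      intro k
      have h6 := hC₂' k (((P : V m →L[ℝ] V m) ^ k) v)
      rw [comm_pow hcom, ← map_sub, symm_pow] at h6
      exact h6
    have h6 : Tendsto (fun k : ℕ => C₂ * ‖((P : V m →L[ℝ] V m) ^ k) v‖) atTop (𝓝 0) := by
      have := (mem_Es.1 hv).norm.const_mul C₂
      rwa [norm_zero, mul_zero] at this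
    have h7 : ‖v - π v‖ ≤ 0 := ge_of_tendsto h6 (Eventually.of_forall h5)
    exact (sub_eq_zero.1 (norm_le_zero_iff.1 h7)).symm
  have k2 : ∀ v ∈ Es (P : V m →L[ℝ] V m), v ∈ Es (P.symm : V m →L[ℝ] V m) → v = 0 := by
    intro v hv hv'
    have h5 : ∀ k : ℕ, ‖v‖ ≤ C₁ * ‖((P.symm : V m →L[ℝ] V m) ^ k) v‖ := by
      intro k
      have h6 := hC₁' k (((P.symm : V m →L[ℝ] V m) ^ k) v)
      rw [comm_pow hcom', k1 v hv] at h6
      have h7 := symm_pow P.symm k v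
      rw [P.symm_symm] at h7
      rw [h7] at h6
      exact h6
    have h6 : Tendsto (fun k : ℕ => C₁ * ‖((P.symm : V m →L[ℝ] V m) ^ k) v‖) atTop (𝓝 0) := by
      have := (mem_Es.1 hv').norm.const_mul C₁
      rwa [norm_zero, mul_zero] at this
    have h7 : ‖v‖ ≤ 0 := ge_of_tendsto h6 (Eventually.of_forall h5)
    exact norm_le_zero_iff.1 h7
  have k3 : ∀ v ∈ Es (P.symm : V m →L[ℝ] V m), π v = 0 := by
    intro v hv
    refine k2 _ (hs v) ?_
    have h5 := (Es (P.symm : V m →L[ℝ] V m)).sub_mem hv (show v - π v ∈ _ from hu v)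
    rwa [sub_sub_cancel] at h5
  refine ⟨π, max C₁ C₂, hC₁0.trans (le_max_left _ _), hs, hu, k1, k3, ?_, ?_⟩
  · intro v hv k
    have h5 := hC₁' k v
    rw [k1 v hv] at h5
    exact h5.trans (mul_le_mul_of_nonneg_right (le_max_left _ _) (norm_nonneg _))
  · intro v hv k
    have h5 := hC₂' k v
    rw [k3 v hv, sub_zero] at h5
    exact h5.trans (mul_le_mul_of_nonneg_right (le_max_right _ _) (norm_nonneg _))

lemma compl (P : V m ≃L[ℝ] V m) (hP : Hyp (P : V m →L[ℝ] V m)) :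
    Module.finrank ℝ (Es (P : V m →L[ℝ] V m)) + Module.finrank ℝ (Es (P.symm : V m →L[ℝ] V m)) =
      m := by
  obtain ⟨π, C, -, h1, h2, h3, h4, -⟩ := hyp_split P hP
  have hc : IsCompl (Es (P : V m →L[ℝ] V m)) (Es (P.symm : V m →L[ℝ] V m)) := by
    constructor
    · rw [Submodule.disjoint_def]
      intro v hv hv'
      rw [← h3 v hv, h4 v hv']
    · rw [codisjoint_iff, Submodule.eq_top_iff']
      intro v
      exact Submodule.mem_sup.2 ⟨π v, h1 v, v - π v, h2 v, add_sub_cancel _ _⟩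
  rw [Submodule.finrank_add_eq_of_isCompl hc]
  simp

/-- a fixed vector gives the eigenvalue one -/
lemma not_hyp {X : V m →L[ℝ] V m} {x : V m} (hx : x ≠ 0) (h : X x = x) : ¬ Hyp X := by
  intro hX
  have h1 : Module.End.HasEigenvalue (X : V m →ₗ[ℝ] V m) 1 := by
    refine Module.End.hasEigenvalue_of_hasEigenvector (x := x) ⟨?_, hx⟩
    rw [Module.End.mem_eigenspace_iff, one_smul]
    exact h
  have h2 : (X : V m →ₗ[ℝ] V m).charpoly.IsRoot 1 :=
    (Module.End.hasEigenvalue_iff_isRoot_charpoly _ _).1 h1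
  have h3 := h2.map (f := algebraMap ℝ ℂ)
  refine hX _ h3 ?_
  rw [map_one, norm_one]

theorem main : S_CLO := by
  intro m P Q W Z a g g' η hη ha hg hg0 hg1 hPa hQa hP hQ hdim
  obtain ⟨πP, CP, hCP, -, -, -, -, hPs, -⟩ := hyp_split P hP
  obtain ⟨πQ, CQ, hCQ, -, -, -, -, -, hQu⟩ := hyp_split Q hQ
  have hdQ := compl Q hQ
  -- general position
  have hfr : Module.finrank ℝ ((Es (P : V m →L[ℝ] V m)).map (Z.symm.toLinearEquiv : V m →ₗ[ℝ] V m)) =
      Module.finrank ℝ (Es (P : V m →L[ℝ] V m)) :=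
    LinearEquiv.finrank_map_eq Z.symm.toLinearEquiv _
  obtain ⟨T, hT, hTinj, hTgen⟩ := Pool.Agent.Y38.CO.GEN.main m (Es (Q.symm : V m →L[ℝ] V m))
    ((Es (P : V m →L[ℝ] V m)).map (Z.symm.toLinearEquiv : V m →ₗ[ℝ] V m)) (by
      rw [hfr, hdim]
      omega) η hη
  set R : V m →L[ℝ] V m := 1 + T with hR
  have hRa : ∀ v, R v = v + T v := fun v => rfl
  let Φ : (Es (Q.symm : V m →L[ℝ] V m) × Es (P : V m →L[ℝ] V m)) →ₗ[ℝ] V m :=
    LinearMap.coprod (((Z : V m →L[ℝ] V m).comp R : V m →ₗ[ℝ] V m).comp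
      (Es (Q.symm : V m →L[ℝ] V m)).subtype) (-(Es (P : V m →L[ℝ] V m)).subtype)
  have hΦ : ∀ y, Φ y = Z (R y.1) - y.2 := by
    intro y
    show Z (R y.1) + -(y.2 : V m) = _
    rw [sub_eq_add_neg]
  have hinj : Function.Injective Φ := by
    rw [injective_iff_map_eq_zero]
    rintro ⟨⟨q, hq⟩, ⟨w, hw⟩⟩ h
    rw [hΦ] at h
    have h1 : Z (R q) = w := sub_eq_zero.1 h
    have h2 : q = 0 := by
      refine hTgen q hq ?_
      refine Submodule.mem_map.2 ⟨w, hw, ?_⟩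
      show Z.symm w = q + T q
      rw [← h1, Z.symm_apply_apply, hRa]
    have h3 : w = 0 := by
      rw [← h1, h2, map_zero, map_zero]
    subst h2 h3
    rfl
  have hfin : Module.finrank ℝ (Es (Q.symm : V m →L[ℝ] V m) × Es (P : V m →L[ℝ] V m)) =
      Module.finrank ℝ (V m) := by
    rw [Module.finrank_prod, hdim]
    have : Module.finrank ℝ (V m) = m := by simp
    omega
  let Ψ := (LinearMap.linearEquivOfInjective Φ hinj hfin).symm.toContinuousLinearEquiv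
  have hΨ : ∀ r, Z (R (Ψ r).1) - (Ψ r).2 = r := by
    intro r
    rw [← hΦ]
    exact (LinearMap.linearEquivOfInjective Φ hinj hfin).apply_symm_apply r
  -- the sequences
  let r : ℕ → V m := fun k => (g⁻¹) ^ k • a - Z (R (g' ^ k • W a))
  have hgk : Tendsto (fun k : ℕ => (g⁻¹) ^ k) atTop (𝓝 0) :=
    tendsto_pow_atTop_nhds_zero_of_lt_one (inv_nonneg.2 (by linarith)) (inv_lt_one_of_one_lt₀ hg)
  have hg'k : Tendsto (fun k : ℕ => g' ^ k) atTop (𝓝 0) :=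
    tendsto_pow_atTop_nhds_zero_of_lt_one hg0.le hg1
  have hr : Tendsto r atTop (𝓝 0) := by
    have h1 : Tendsto (fun k : ℕ => (g⁻¹) ^ k • a) atTop (𝓝 ((0 : ℝ) • a)) := hgk.smul_const a
    have h2 : Tendsto (fun k : ℕ => g' ^ k • W a) atTop (𝓝 ((0 : ℝ) • W a)) :=
      hg'k.smul_const (W a)
    rw [zero_smul] at h1 h2
    have h3 : Tendsto (fun k : ℕ => Z (R (g' ^ k • W a))) atTop (𝓝 (Z (R 0))) :=
      ((Z.continuous.comp R.continuous).tendsto 0).comp h2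
    rw [map_zero, map_zero] at h3
    have h4 := h1.sub h3
    rwa [sub_zero] at h4
  have hq0 : Tendsto (fun k => ((Ψ (r k)).1 : V m)) atTop (𝓝 0) := by
    have h1 : Continuous fun y => ((Ψ y).1 : V m) :=
      continuous_subtype_val.comp (continuous_fst.comp Ψ.continuous)
    have h2 := (h1.tendsto 0).comp hr
    rw [map_zero] at h2
    exact h2
  have hw0 : Tendsto (fun k => ((Ψ (r k)).2 : V m)) atTop (𝓝 0) := by
    have h1 : Continuous fun y => ((Ψ y).2 : V m) :=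
      continuous_subtype_val.comp (continuous_snd.comp Ψ.continuous)
    have h2 := (h1.tendsto 0).comp hr
    rw [map_zero] at h2
    exact h2
  let p : ℕ → V m := fun k => ((P : V m →L[ℝ] V m) ^ k) (Ψ (r k)).2 + a
  let c : ℕ → V m := fun k => W a + ((Q.symm : V m →L[ℝ] V m) ^ k) (Ψ (r k)).1
  have hp : Tendsto p atTop (𝓝 a) := by
    have h1 : Tendsto (fun k => ((P : V m →L[ℝ] V m) ^ k) ((Ψ (r k)).2 : V m)) atTop (𝓝 0) := by
      refine squeeze_zero_norm (fun k => hPs _ (Ψ (r k)).2.2 k) ?_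
      have := hw0.norm.const_mul CP
      rwa [norm_zero, mul_zero] at this
    have h2 := h1.add_const a
    rwa [zero_add] at h2
  have hc : Tendsto c atTop (𝓝 (W a)) := by
    have h1 : Tendsto (fun k => ((Q.symm : V m →L[ℝ] V m) ^ k) ((Ψ (r k)).1 : V m)) atTop
        (𝓝 0) := by
      refine squeeze_zero_norm (fun k => hQu _ (Ψ (r k)).1.2 k) ?_
      have := hq0.norm.const_mul CQ
      rwa [norm_zero, mul_zero] at this
    have h2 := h1.const_add (W a)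
    rwa [add_zero] at h2
  have hcp : Tendsto (fun k => ‖W.symm (c k) - p k‖ / ‖p k‖) atTop (𝓝 0) := by
    have h1 : Tendsto (fun k => W.symm (c k)) atTop (𝓝 (W.symm (W a))) :=
      (W.symm.continuous.tendsto _).comp hc
    rw [W.symm_apply_apply] at h1
    have h2 := (h1.sub hp).norm.div hp.norm (norm_ne_zero_iff.2 ha)
    rwa [sub_self, norm_zero, zero_div] at h2
  obtain ⟨k, hk1, hk2, hk3⟩ : ∃ k : ℕ, 1 ≤ k ∧ ‖W.symm (c k) - p k‖ / ‖p k‖ < η ∧ p k ≠ 0 :=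
    ((eventually_ge_atTop 1).and ((hcp.eventually (gt_mem_nhds hη)).and
      (hp.eventually_ne ha))).exists
  have hpn : 0 < ‖p k‖ := norm_pos_iff.2 hk3
  let R' : V m →L[ℝ] V m := 1 + ContinuousLinearMap.smulRight (innerSL ℝ (p k))
    ((‖p k‖ ^ 2)⁻¹ • (W.symm (c k) - p k))
  have hR'p : R' (p k) = W.symm (c k) := by
    show p k + (inner ℝ (p k) (p k)) • ((‖p k‖ ^ 2)⁻¹ • (W.symm (c k) - p k)) = W.symm (c k)
    rw [real_inner_self_eq_norm_sq, smul_smul, mul_inv_cancel₀ (by positivity), one_smul,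
      add_sub_cancel]
  have hR'n : ‖R' - 1‖ ≤ η := by
    have h1 : R' - 1 = ContinuousLinearMap.smulRight (innerSL ℝ (p k))
      ((‖p k‖ ^ 2)⁻¹ • (W.symm (c k) - p k)) := add_sub_cancel_left _ _
    rw [h1, ContinuousLinearMap.norm_smulRight_apply, innerSL_apply_norm, norm_smul, norm_inv,
      norm_pow, norm_norm]
    have h2 : ‖p k‖ * ((‖p k‖ ^ 2)⁻¹ * ‖W.symm (c k) - p k‖) = ‖W.symm (c k) - p k‖ / ‖p k‖ := by
      field_simp
    rw [h2]
    exact hk2.le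
  refine ⟨k, k, R, R', hk1, ?_, hR'n, ?_⟩
  · rw [hR, add_sub_cancel_left]
    exact hT.le
  -- the fixed vector
  have hPk : ∀ j : ℕ, ((P : V m →L[ℝ] V m) ^ j) ((g⁻¹) ^ j • a) = a := by
    intro j
    induction j with
    | zero => simp
    | succ j ih =>
      rw [pow_succ]
      show ((P : V m →L[ℝ] V m) ^ j) (P ((g⁻¹) ^ (j + 1) • a)) = a
      rw [map_smul, hPa, smul_smul, pow_succ, mul_assoc, inv_mul_cancel₀ (by linarith), mul_one]
      exact ih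
  have hQk : ∀ j : ℕ, ((Q : V m →L[ℝ] V m) ^ j) (W a) = g' ^ j • W a := by
    intro j
    induction j with
    | zero => simp
    | succ j ih =>
      rw [pow_succ']
      show Q (((Q : V m →L[ℝ] V m) ^ j) (W a)) = g' ^ (j + 1) • W a
      rw [ih, map_smul, hQa, smul_smul, pow_succ]
  set x : V m := (Ψ (r k)).2 + (g⁻¹) ^ k • a with hx
  have hPx : ((P : V m →L[ℝ] V m) ^ k) x = p k := by
    rw [hx, map_add, hPk]
  have hx0 : x ≠ 0 := by
    intro h
    rw [h, map_zero] at hPx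
    exact hk3 hPx.symm
  refine not_hyp hx0 ?_
  show Z (R (((Q : V m →L[ℝ] V m) ^ k) (W (R' (((P : V m →L[ℝ] V m) ^ k) x))))) = x
  rw [hPx, hR'p, W.apply_symm_apply]
  have hQq := symm_pow Q.symm k ((Ψ (r k)).1 : V m)
  rw [Q.symm_symm] at hQq
  have h1 : ((Q : V m →L[ℝ] V m) ^ k) (c k) = g' ^ k • W a + (Ψ (r k)).1 := by
    show ((Q : V m →L[ℝ] V m) ^ k) (W a + ((Q.symm : V m →L[ℝ] V m) ^ k) (Ψ (r k)).1) = _
    rw [map_add, hQk, hQq]
  rw [h1, map_add, map_add]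
  have h2 := hΨ (r k)
  have h3 : Z (R (Ψ (r k)).1) = r k + (Ψ (r k)).2 := by
    rw [← sub_eq_iff_eq_add]
    exact h2
  rw [h3, hx]
  show Z (R (g' ^ k • W a)) + ((g⁻¹) ^ k • a - Z (R (g' ^ k • W a)) + (Ψ (r k)).2) =
    (Ψ (r k)).2 + (g⁻¹) ^ k • a
  abel

end Pool.Agent.H74.PA.Clo
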