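import Pool.Agent.H74.PA.Fin1

/-!
# Products of Axiom A diffeomorphisms
-/

set_option autoImplicit false
set_option linter.unusedSectionVars false

open scoped Manifold ContDiff Topology
open Filter Set Metric

universe u v w x

namespace Pool.Agent.H74.PA.Fin

open Pool.Agent.H718R2.G Pool.Agent.TH80.OMS Pool.Agent.W564.SC Pool.Agent.W5h63.AX
  Pool.Agent.Y271.CP Pool.Agent.H74.PA.Dyn

section two

variable {m l n : ℕ} {M : Type u} [TopologicalSpace M] [T2Space M] [CompactSpace M]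
  [ChartedSpace (V m) M] [IsManifold (𝓡 m) ∞ M]
  {L : Type v} [TopologicalSpace L] [T2Space L] [CompactSpace L] [ChartedSpace (V l) L]
  [IsManifold (𝓡 l) ∞ L]
  {N : Type w} [TopologicalSpace N] [T2Space N] [CompactSpace N]
  [ChartedSpace (V n) N] [IsManifold (𝓡 n) ∞ N] {r : ℕ∞}

/-- the first coordinate -/
noncomputable def c1 (Θ : ProdDiffeo m l n M L N) (z : N) : M := (Θ.symm z).1

/-- the second coordinate -/
noncomputable def c2 (Θ : ProdDiffeo m l n M L N) (z : N) : L := (Θ.symm z).2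

lemma c1_at (Θ : ProdDiffeo m l n M L N) (x : M) (y : L) : c1 Θ (atP Θ x y) = x := by
  unfold c1 atP
  rw [Θ.symm_apply_apply]

lemma c2_at (Θ : ProdDiffeo m l n M L N) (x : M) (y : L) : c2 Θ (atP Θ x y) = y := by
  unfold c2 atP
  rw [Θ.symm_apply_apply]

lemma at_c (Θ : ProdDiffeo m l n M L N) (z : N) : atP Θ (c1 Θ z) (c2 Θ z) = z := by
  show Θ (Θ.symm z) = z
  exact Θ.apply_symm_apply z

lemma c1_smooth (Θ : ProdDiffeo m l n M L N) : ContMDiff (𝓡 n) (𝓡 m) ∞ (c1 Θ) :=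
  contMDiff_fst.comp Θ.symm.contMDiff_toFun

lemma c2_smooth (Θ : ProdDiffeo m l n M L N) : ContMDiff (𝓡 n) (𝓡 l) ∞ (c2 Θ) :=
  contMDiff_snd.comp Θ.symm.contMDiff_toFun

lemma at_cont (Θ : ProdDiffeo m l n M L N) : Continuous (fun p : M × L => atP Θ p.1 p.2) :=
  Θ.contMDiff_toFun.continuous

/-- tangent vectors are determined by their components -/
lemma comp_inj (Θ : ProdDiffeo m l n M L N) (z : N) (v : V n) (h1 : der n m (c1 Θ) z v = 0)
    (h2 : der n l (c2 Θ) z v = 0) : v = 0 := by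
  have hd1 : MDifferentiableAt (𝓡 n) (𝓡 m) (c1 Θ) z :=
    (c1_smooth Θ).mdifferentiableAt (by simp)
  have hd2 : MDifferentiableAt (𝓡 n) (𝓡 l) (c2 Θ) z :=
    (c2_smooth Θ).mdifferentiableAt (by simp)
  have h3 : mfderiv (𝓡 n) ((𝓡 m).prod (𝓡 l)) (fun z => (c1 Θ z, c2 Θ z)) z =
      (mfderiv (𝓡 n) (𝓡 m) (c1 Θ) z).prod (mfderiv (𝓡 n) (𝓡 l) (c2 Θ) z) :=
    mfderiv_prodMk hd1 hd2
  have h4 : mfderiv (𝓡 n) ((𝓡 m).prod (𝓡 l)) (fun z => (c1 Θ z, c2 Θ z)) z v = 0 := by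
    rw [h3]
    exact Prod.ext h1 h2
  have hΘ : MDifferentiableAt ((𝓡 m).prod (𝓡 l)) (𝓡 n) Θ (c1 Θ z, c2 Θ z) :=
    (Θ.contMDiff_toFun).mdifferentiableAt (by simp)
  have h5 : mfderiv (𝓡 n) (𝓡 n) (fun z => Θ (c1 Θ z, c2 Θ z)) z =
      (mfderiv ((𝓡 m).prod (𝓡 l)) (𝓡 n) Θ (c1 Θ z, c2 Θ z)).comp
        (mfderiv (𝓡 n) ((𝓡 m).prod (𝓡 l)) (fun z => (c1 Θ z, c2 Θ z)) z) :=
    mfderiv_comp z hΘ (hd1.prodMk hd2)
  have h6 : der n n (fun z => Θ (c1 Θ z, c2 Θ z)) z = ContinuousLinearMap.id ℝ (V n) := by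
    rw [← der_id z]
    exact der_congr (Filter.Eventually.of_forall fun z => at_c Θ z)
  have h7 : v = mfderiv ((𝓡 m).prod (𝓡 l)) (𝓡 n) Θ (c1 Θ z, c2 Θ z)
      (mfderiv (𝓡 n) ((𝓡 m).prod (𝓡 l)) (fun z => (c1 Θ z, c2 Θ z)) z v) :=
    congrArg (fun T => T v) (h6.symm.trans h5)
  rw [h4, map_zero] at h7
  exact h7

variable {F : DiffM n N r} {Θ : ProdDiffeo m l n M L N} {f : DiffM m M r} {g : DiffM l L r}

lemma c1_F (hp : ∀ x y, F (atP Θ x y) = atP Θ (f x) (g y)) (z : N) :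
    c1 Θ (F z) = f (c1 Θ z) := by
  conv_lhs => rw [← at_c Θ z, hp, c1_at]

lemma c2_F (hp : ∀ x y, F (atP Θ x y) = atP Θ (f x) (g y)) (z : N) :
    c2 Θ (F z) = g (c2 Θ z) := by
  conv_lhs => rw [← at_c Θ z, hp, c2_at]

/-- semiconjugate orbits of tangent vectors -/
lemma torb_map {a b : ℕ} {A : Type*} [TopologicalSpace A] [ChartedSpace (V a) A] {B : Type*}
    [TopologicalSpace B] [ChartedSpace (V b) B] {F : A → A} {f : B → B} {c : A → B}
    (hF : ContMDiff (𝓡 a) (𝓡 a) 1 F) (hf : ContMDiff (𝓡 b) (𝓡 b) 1 f)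
    (hc : ContMDiff (𝓡 a) (𝓡 b) ∞ c) (hcF : ∀ z, c (F z) = f (c z)) {x : ℤ → A} {v : ℤ → V a}
    (hx : ∀ i, F (x i) = x (i + 1)) (hv : ∀ i, df a F (x i) (v i) = v (i + 1)) :
    (∀ i, f (c (x i)) = c (x (i + 1))) ∧
      ∀ i, df b f (c (x i)) (der a b c (x i) (v i)) = der a b c (x (i + 1)) (v (i + 1)) := by
  refine ⟨fun i => by rw [← hcF, hx], fun i => ?_⟩
  have h1 : der a b (fun z => f (c z)) (x i) = der b b f (c (x i)) ∘L der a b c (x i) :=
    der_comp (g := f) (hf.mdifferentiableAt (by norm_num)) (hc.mdifferentiableAt (by simp))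
  have h2 : der a b (fun z => c (F z)) (x i) = der a b c (F (x i)) ∘L der a a F (x i) :=
    der_comp (g := c) (hc.mdifferentiableAt (by simp)) (hF.mdifferentiableAt (by norm_num))
  have h3 : der a b (fun z => c (F z)) (x i) = der a b (fun z => f (c z)) (x i) :=
    der_congr (Filter.Eventually.of_forall hcF)
  have h4 := congrArg (fun T => T (v i)) (h1.symm.trans (h3.symm.trans h2))
  have h5 : der b b f (c (x i)) (der a b c (x i) (v i)) =
      der a b c (F (x i)) (der a a F (x i) (v i)) := h4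
  show der b b f (c (x i)) (der a b c (x i) (v i)) = _
  rw [h5, ← hv, ← hx]
  rfl

/-- The product of maps without bounded orbits of tangent vectors. -/
theorem noBddT_prod (hr : 1 ≤ r) (hp : ∀ x y, F (atP Θ x y) = atP Θ (f x) (g y))
    {p q p' : ℕ} {e₁ : M → V p} (he₁ : C1 m e₁) {e₂ : L → V q} (he₂ : C1 l e₂) {e : N → V p'}
    (he : C1 n e) (hinj : ∀ x v, dv n e x v = 0 → v = 0) {K₁ : Set M} {K₂ : Set L}
    (h1 : NoBddT m f e₁ K₁) (h2 : NoBddT l g e₂ K₂) {K : Set N}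
    (hK1 : ∀ z ∈ K, c1 Θ z ∈ K₁) (hK2 : ∀ z ∈ K, c2 Θ z ∈ K₂) : NoBddT n F e K := by
  intro x v hxK hx hv hbd i
  obtain ⟨B, hB⟩ := hbd
  have hF := Nl.contMDiff_one hr F
  have hf := Nl.contMDiff_one hr f
  have hg := Nl.contMDiff_one hr g
  obtain ⟨a1, a2⟩ := torb_map hF hf (c1_smooth Θ) (c1_F hp) hx hv
  obtain ⟨b1, b2⟩ := torb_map hF hg (c2_smooth Θ) (c2_F hp) hx hv
  have hc1 : ContMDiff (𝓡 n) (𝓡 m) 1 (c1 Θ) := (c1_smooth Θ).of_le (by exact_mod_cast le_top)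
  have hc2 : ContMDiff (𝓡 n) (𝓡 l) 1 (c2 Θ) := (c2_smooth Θ).of_le (by exact_mod_cast le_top)
  have hE1 : C1 n (fun z => e₁ (c1 Θ z)) := ContMDiff.comp (g := e₁) (f := c1 Θ) he₁ hc1
  have hE2 : C1 n (fun z => e₂ (c2 Θ z)) := ContMDiff.comp (g := e₂) (f := c2 Θ) he₂ hc2
  obtain ⟨C₁, hC₁, hle1⟩ := norm_le he hinj hE1
  obtain ⟨C₂, hC₂, hle2⟩ := norm_le he hinj hE2
  have hd1 : ∀ z w, dv n (fun z => e₁ (c1 Θ z)) z w = dv m e₁ (c1 Θ z) (der n m (c1 Θ) z w) := by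
    intro z w
    have h3 : der n p (fun z => e₁ (c1 Θ z)) z = der m p e₁ (c1 Θ z) ∘L der n m (c1 Θ) z :=
      der_comp (g := e₁) ((ContMDiff.contMDiffAt he₁).mdifferentiableAt (by norm_num))
        (hc1.mdifferentiableAt (by norm_num))
    exact congrArg (fun T => T w) h3
  have hd2 : ∀ z w, dv n (fun z => e₂ (c2 Θ z)) z w = dv l e₂ (c2 Θ z) (der n l (c2 Θ) z w) := by
    intro z w
    have h3 : der n q (fun z => e₂ (c2 Θ z)) z = der l q e₂ (c2 Θ z) ∘L der n l (c2 Θ) z :=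
      der_comp (g := e₂) ((ContMDiff.contMDiffAt he₂).mdifferentiableAt (by norm_num))
        (hc2.mdifferentiableAt (by norm_num))
    exact congrArg (fun T => T w) h3
  have k1 := h1 (fun i => c1 Θ (x i)) (fun i => der n m (c1 Θ) (x i) (v i))
    (fun i => hK1 _ (hxK i)) a1 a2 ⟨C₁ * B, fun i => by
      show ‖dv m e₁ (c1 Θ (x i)) (der n m (c1 Θ) (x i) (v i))‖ ≤ C₁ * B
      rw [← hd1]
      exact (hle1 _ _).trans (mul_le_mul_of_nonneg_left (hB i) hC₁)⟩
  have k2 := h2 (fun i => c2 Θ (x i)) (fun i => der n l (c2 Θ) (x i) (v i))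
    (fun i => hK2 _ (hxK i)) b1 b2 ⟨C₂ * B, fun i => by
      show ‖dv l e₂ (c2 Θ (x i)) (der n l (c2 Θ) (x i) (v i))‖ ≤ C₂ * B
      rw [← hd2]
      exact (hle2 _ _).trans (mul_le_mul_of_nonneg_left (hB i) hC₂)⟩
  exact comp_inj Θ (x i) (v i) (k1 i) (k2 i)

/-! ### nonwandering and periodic points -/

lemma omega_map {A B : Type*} [TopologicalSpace A] [TopologicalSpace B] {F : A → A} {f : B → B}
    {c : A → B} (hc : Continuous c) (hcF : ∀ z, c (F z) = f (c z)) {z : A} (hz : z ∈ Omega F) :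
    c z ∈ Omega f := by
  intro W hW hzW
  obtain ⟨k, hk, y, hy, hy'⟩ := hz (c ⁻¹' W) (hW.preimage hc) hzW
  refine ⟨k, hk, c y, hy, ?_⟩
  have h1 : ∀ j, c (F^[j] y) = f^[j] (c y) := by
    intro j
    induction j with
    | zero => rfl
    | succ j ih => rw [Function.iterate_succ_apply', hcF, ih, Function.iterate_succ_apply']
  rw [← h1]
  exact hy'

lemma per_map {A B : Type*} {F : A → A} {f : B → B}
    {c : A → B} (hcF : ∀ z, c (F z) = f (c z)) {z : A} (hz : z ∈ Per F) : c z ∈ Per f := by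
  obtain ⟨k, hk, hkz⟩ := hz
  refine ⟨k, hk, ?_⟩
  have h1 : ∀ j, c (F^[j] z) = f^[j] (c z) := by
    intro j
    induction j with
    | zero => rfl
    | succ j ih => rw [Function.iterate_succ_apply', hcF, ih, Function.iterate_succ_apply']
  rw [← h1, hkz]

/-- the closure of the periodic points is invariant -/
lemma per_inv {A : Type*} [TopologicalSpace A] {F : A → A} (hF : Continuous F) {z : A}
    (hz : z ∈ closure (Per F)) : F z ∈ closure (Per F) := by
  have h1 : MapsTo F (Per F) (Per F) := by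
    rintro y ⟨k, hk, hy⟩
    refine ⟨k, hk, ?_⟩
    rw [← Function.iterate_succ_apply, Function.iterate_succ_apply', hy]
  exact h1.closure hF hz

lemma per_inv_symm {F : DiffM n N r} {z : N} (hz : z ∈ closure (Per F)) :
    F.symm z ∈ closure (Per F) := by
  have h1 : MapsTo F.symm (Per F) (Per F) := by
    rintro y ⟨k, hk, hy⟩
    refine ⟨k, hk, ?_⟩
    apply F.toEquiv.injective
    have h2 : F (F.symm y) = y := F.toEquiv.apply_symm_apply y
    have h3 : F (F^[k] (F.symm y)) = F^[k] (F (F.symm y)) :=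
      (Function.iterate_succ_apply' F k _).symm.trans (Function.iterate_succ_apply F k _)
    show F (F^[k] (F.symm y)) = F (F.symm y)
    rw [h3, h2, hy]
  exact h1.closure F.symm.contMDiff_toFun.continuous hz

/-- Axiom A from the absence of bounded orbits of tangent vectors -/
theorem axiomA_of_noBddT (hHYP : S_HYP.{w}) (hr : 1 ≤ r) {F : DiffM n N r} {p : ℕ} {e : N → V p}
    (he : C1 n e) (hinj : ∀ x v, dv n e x v = 0 → v = 0)
    (hdens : Omega F ⊆ closure (Per F)) (hno : NoBddT n F e (closure (Per F))) :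
    AxiomA n F F.symm := by
  have hO : Omega F = closure (Per F) := by
    refine Set.Subset.antisymm hdens (closure_minimal ?_ (Pool.Agent.Y504.CO.Cnt.omega_closed _))
    rintro p ⟨k, hk, hp⟩
    exact per_mem_omega hk hp
  refine ⟨?_, hdens⟩
  rw [hO]
  refine hHYP n N r hr F p e he hinj _ isClosed_closure (fun x hx => per_inv F.contMDiff_toFun.continuous hx)
    (fun x hx => per_inv_symm hx) ?_ hno
  refine closure_mono fun z hz => ⟨subset_closure hz, hz⟩

/-- Products of Axiom A diffeomorphisms satisfy Axiom A. -/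
theorem prod_axiomA (hHYP : S_HYP.{w}) (hr : 1 ≤ r)
    (hp : ∀ x y, F (atP Θ x y) = atP Θ (f x) (g y))
    (h1 : AxiomA m f f.symm) (h2 : AxiomA l g g.symm) : AxiomA n F F.symm := by
  obtain ⟨p, e, he, hinj⟩ := exists_imm n N
  obtain ⟨p₁, e₁, he₁, hinj₁⟩ := exists_imm m M
  obtain ⟨p₂, e₂, he₂, hinj₂⟩ := exists_imm l L
  have n1 := noBddT_hyp hr h1.1 he₁ hinj₁
  have n2 := noBddT_hyp hr h2.1 he₂ hinj₂
  have hcl1 : closure (Per f) ⊆ Omega f := by
    refine closure_minimal ?_ (Pool.Agent.Y504.CO.Cnt.omega_closed _)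
    rintro p ⟨k, hk, hp⟩
    exact per_mem_omega hk hp
  have hcl2 : closure (Per g) ⊆ Omega g := by
    refine closure_minimal ?_ (Pool.Agent.Y504.CO.Cnt.omega_closed _)
    rintro p ⟨k, hk, hp⟩
    exact per_mem_omega hk hp
  have hm1 : ∀ z ∈ closure (Per F), c1 Θ z ∈ Omega f := by
    intro z hz
    have h3 : MapsTo (c1 Θ) (Per F) (Per f) := fun z hz => per_map (c1_F hp) hz
    exact hcl1 (h3.closure (c1_smooth Θ).continuous hz)
  have hm2 : ∀ z ∈ closure (Per F), c2 Θ z ∈ Omega g := by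
    intro z hz
    have h3 : MapsTo (c2 Θ) (Per F) (Per g) := fun z hz => per_map (c2_F hp) hz
    exact hcl2 (h3.closure (c2_smooth Θ).continuous hz)
  refine axiomA_of_noBddT hHYP hr he hinj ?_ (noBddT_prod hr hp he₁ he₂ he hinj n1 n2 hm1 hm2)
  intro z hz
  have h3 : c1 Θ z ∈ closure (Per f) := h1.2 (omega_map (c1_smooth Θ).continuous (c1_F hp) hz)
  have h4 : c2 Θ z ∈ closure (Per g) := h2.2 (omega_map (c2_smooth Θ).continuous (c2_F hp) hz)
  have h5 : (c1 Θ z, c2 Θ z) ∈ closure (Per f ×ˢ Per g) := by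
    rw [closure_prod_eq]
    exact ⟨h3, h4⟩
  have h6 : MapsTo (fun q : M × L => atP Θ q.1 q.2) (Per f ×ˢ Per g) (Per F) := by
    rintro ⟨x, y⟩ ⟨⟨a, ha, hax⟩, ⟨b, hb, hby⟩⟩
    refine ⟨a * b, Nat.mul_pos ha hb, ?_⟩
    have h7 : ∀ j x y, F^[j] (atP Θ x y) = atP Θ (f^[j] x) (g^[j] y) := by
      intro j
      induction j with
      | zero => exact fun x y => rfl
      | succ j ih =>
        intro x y
        rw [Function.iterate_succ_apply, hp, ih, ← Function.iterate_succ_apply,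
          ← Function.iterate_succ_apply]
    show F^[a * b] (atP Θ x y) = atP Θ x y
    have h8 : f^[a * b] x = x := Function.IsPeriodicPt.mul_const (show Function.IsPeriodicPt f a x from hax) b
    have h9 : g^[a * b] y = y := Function.IsPeriodicPt.const_mul (show Function.IsPeriodicPt g b y from hby) a
    rw [h7, h8, h9]
  have h7 : atP Θ (c1 Θ z) (c2 Θ z) ∈ closure (Per F) := h6.closure (at_cont Θ) h5
  rw [at_c] at h7
  exact h7

end two

end Pool.Agent.H74.PA.Fin
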