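import Pool.Agent.H74.PA.Nl2
import Pool.Agent.H74.PA.Fin2
import Pool.Agent.H74.G.R_pool_sql_team_seeded_2aa45f1a.Q154.OS.Loc
import Pool.Agent.H74.G.R_seed8.W216.SC.A

/-!
# Density of periodic points, transitive case
-/

set_option autoImplicit false
set_option linter.unusedSectionVars false

open scoped Manifold ContDiff Topology
open Filter Set Metric

universe u v w x

namespace Pool.Agent.H74.PA.Den

open Pool.Agent.H718R2.G Pool.Agent.TH80.OMS Pool.Agent.W564.SC Pool.Agent.W5h63.AX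
  Pool.Agent.Y271.CP Pool.Agent.H74.PA.Dyn Pool.Agent.H74.PA.Prt Pool.Agent.H74.PA.Fin
  Pool.Agent.H74.PA.Nl

/-- small good charts -/
theorem small_chart (n : ℕ) (N : Type u) [TopologicalSpace N] [ChartedSpace (V n) N]
    [IsManifold (𝓡 n) ∞ N] (z : N) {W : Set N} (hW : IsOpen W) (hz : z ∈ W) :
    ∃ χ : OpenPartialHomeomorph N (V n), GoodChart n N χ z ∧ χ.source ⊆ W := by
  set φ₀ : OpenPartialHomeomorph N (V n) := chartAt (V n) z with hφ₀
  set φ : OpenPartialHomeomorph N (V n) := φ₀.restrOpen W hW with hφ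
  have hm₀ : φ₀ ∈ IsManifold.maximalAtlas (𝓡 n) ∞ N := IsManifold.chart_mem_maximalAtlas z
  have hsrc : φ.source = φ₀.source ∩ W := φ₀.restrOpen_source W hW
  have hs : z ∈ φ.source := by
    rw [hsrc]
    exact ⟨mem_chart_source _ z, hz⟩
  have ht : φ z ∈ φ.target := φ.map_source hs
  have htar : φ.target ⊆ φ₀.target := by
    intro v hv
    have h1 := φ.map_target hv
    rw [hsrc] at h1
    have h2 := φ₀.map_source h1.1
    have h3 : φ₀ (φ.symm v) = v := φ.right_inv hv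
    rwa [h3] at h2
  have c1 : ContMDiffOn (𝓡 n) (𝓡 n) ∞ φ φ.source :=
    (contMDiffOn_of_mem_maximalAtlas hm₀).mono (by rw [hsrc]; exact inter_subset_left)
  have c2 : ContMDiffOn (𝓡 n) (𝓡 n) ∞ φ.symm φ.target :=
    (contMDiffOn_symm_of_mem_maximalAtlas hm₀).mono htar
  obtain ⟨ε, hε, hball⟩ := Metric.nhds_basis_closedBall.mem_iff.mp (φ.open_target.mem_nhds ht)
  have h1 : ContDiff ℝ ∞ (fun v : V n => ε⁻¹ • (v - φ z)) := by fun_prop
  have h2 : ContDiff ℝ ∞ (fun w : V n => ε • w + φ z) := by fun_prop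
  refine ⟨φ.transHomeomorph (Pool.Agent.W699.SC.hom (φ z) ε hε.ne'), ⟨?_, ?_, ?_, ?_⟩, ?_⟩
  · apply OpenPartialHomeomorph.mem_maximalAtlas_of_contMDiffOn
    · have : ContMDiffOn (𝓡 n) (𝓡 n) ∞ ((fun v : V n => ε⁻¹ • (v - φ z)) ∘ φ) φ.source :=
        h1.contMDiff.comp_contMDiffOn c1
      exact this
    · have : ContMDiffOn (𝓡 n) (𝓡 n) ∞ (φ.symm ∘ (fun w : V n => ε • w + φ z))
          ((fun w : V n => ε • w + φ z) ⁻¹' φ.target) :=
        c2.comp h2.contMDiff.contMDiffOn (fun w hw => hw)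
      exact this
  · exact hs
  · change ε⁻¹ • (φ z - φ z) = 0
    rw [sub_self, smul_zero]
  · intro w hw
    change ε • w + φ z ∈ φ.target
    apply hball
    rw [mem_closedBall, dist_eq_norm, add_sub_cancel_right, norm_smul, Real.norm_eq_abs,
      abs_of_pos hε]
    rw [mem_closedBall, dist_zero_right] at hw
    nlinarith
  · change φ.source ⊆ W
    rw [hsrc]
    exact inter_subset_right

/-- affine families with supports in the domain of the chart -/
theorem aff_supp (n : ℕ) (N : Type u) [TopologicalSpace N] [T2Space N]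
    [ChartedSpace (V n) N] [IsManifold (𝓡 n) ∞ N] (r : ℕ∞)
    (χ : OpenPartialHomeomorph N (V n)) (z : N) (hg : GoodChart n N χ z) :
    ∃ (Ψ : PP n → DiffM n N r) (κ : ℝ), 0 < κ ∧ Fam n N r Ψ ∧
      (∀ x : PP n, ‖x‖ < κ → ∀ y ∈ χ.source, ‖χ y‖ < 1 / 4 →
        Ψ x y ∈ χ.source ∧ χ (Ψ x y) = χ y + (x.1 + x.2 (χ y))) ∧
      ∀ x, ∀ y ∉ χ.source, Ψ x y = y := by
  obtain ⟨W, hW, hW0, hW1⟩ := Aff.field n (ContinuousLinearMap.id ℝ (V n →L[ℝ] V n))
  obtain ⟨F, F', κ, hκ0, hF, hF', hi, hi', ho, ho', h0, hm⟩ := Aff.local_family n W hW hW0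
  have hA : Metric.closedBall (0 : V n) (1 / 2) ⊆ χ.target :=
    (Metric.closedBall_subset_closedBall (by norm_num)).trans hg.ball
  have hcl : IsClosed (χ.symm '' Metric.closedBall (0 : V n) (1 / 2)) :=
    ((isCompact_closedBall _ _).image_of_continuousOn
      (χ.continuousOn_symm.mono hA)).isClosed
  have hs := Aff.tr_smooth hg.mem hA hcl hi hF ho
  have hs' := Aff.tr_smooth hg.mem hA hcl hi' hF' ho'
  have hr : ((r : ℕ∞) : WithTop ℕ∞) ≤ ∞ := by exact_mod_cast le_top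
  have hs1 : ∀ x : PP n, ContMDiff (𝓡 n) (𝓡 n) ∞ (Aff.tr χ F x) := by
    intro x
    exact hs.comp (contMDiff_const.prodMk contMDiff_id)
  have hs1' : ∀ x : PP n, ContMDiff (𝓡 n) (𝓡 n) ∞ (Aff.tr χ F' x) := by
    intro x
    exact hs'.comp (contMDiff_const.prodMk contMDiff_id)
  refine ⟨fun x => ⟨⟨Aff.tr χ F x, Aff.tr χ F' x, Aff.tr_inv hA hi ho x, Aff.tr_inv hA hi' ho' x⟩,
    (hs1 x).of_le hr, (hs1' x).of_le hr⟩, κ, hκ0, ⟨?_, hs.of_le hr, hs'.of_le hr⟩, ?_, ?_⟩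
  · intro y
    change Aff.tr χ F (0 : PP n) y = y
    by_cases hy : y ∈ χ.source
    · rw [Aff.tr_source hy, h0, χ.left_inv hy]
    · exact Aff.tr_not_source hy
  · intro x hx y hy hy4
    have h1 : Aff.tr χ F x y = χ.symm (χ y + (x.1 + x.2 (χ y))) := by
      rw [Aff.tr_source hy, hm x _ hx, hW1 _ hy4]
      rfl
    have h2 : χ y + (x.1 + x.2 (χ y)) ∈ χ.target := by
      have h3 : χ y + (x.1 + x.2 (χ y)) = F (x, χ y) := by
        rw [hm x _ hx, hW1 _ hy4]
        rfl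
      rw [h3]
      exact Aff.maps_target hA hi ho (χ.map_source hy)
    change Aff.tr χ F x y ∈ χ.source ∧ χ (Aff.tr χ F x y) = χ y + (x.1 + x.2 (χ y))
    rw [h1]
    exact ⟨χ.map_target h2, χ.right_inv h2⟩
  · intro x y hy
    exact Aff.tr_not_source hy

/-- Perturbations of an `Ω`-stable map which do not change the periodic points have no new ones. -/
theorem no_new_per {n : ℕ} {N : Type u} [TopologicalSpace N] [T2Space N] [CompactSpace N]
    [ChartedSpace (V n) N] [IsManifold (𝓡 n) ∞ N] {r : ℕ∞} (hr : 1 ≤ r) {F : DiffM n N r}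
    (hF : OmegaStable n N r F) : ∃ U : Set (DiffM n N r), IsOpen[strongTop n N r] U ∧ F ∈ U ∧
      ∀ G ∈ U, (∀ p ∈ Per F, G p = F p) → Per G ⊆ Per F := by
  obtain ⟨U₁, hU₁, hFU₁, hfin⟩ := finite_per hr hF
  obtain ⟨U₀, hU₀, hFU₀, hconj⟩ := hF
  refine ⟨U₀ ∩ U₁, @IsOpen.inter _ (strongTop n N r) _ _ hU₀ hU₁, ⟨hFU₀, hFU₁⟩, ?_⟩
  rintro G ⟨hG₀, hG₁⟩ hGF z' ⟨m, hm, hmz⟩
  by_contra hz'
  have hPer : ∀ p, F^[m] p = p → ∀ i, F^[i] p ∈ Per F := by
    intro p hp i
    refine ⟨m, hm, ?_⟩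
    rw [← Function.iterate_add_apply, add_comm, Function.iterate_add_apply, hp]
  have hsub : {x | F^[m] x = x} ⊆ {x | G^[m] x = x} := by
    intro p hp
    have h1 : ∀ i, G^[i] p = F^[i] p := by
      intro i
      induction i with
      | zero => rfl
      | succ i ih =>
        rw [Function.iterate_succ_apply', ih, Function.iterate_succ_apply' F]
        exact hGF _ (hPer p hp i)
    show G^[m] p = p
    rw [h1]
    exact hp
  have hne : z' ∉ {x | F^[m] x = x} := fun h => hz' ⟨m, hm, h⟩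
  have hlt : {x | F^[m] x = x}.ncard < {x | G^[m] x = x}.ncard :=
    Set.ncard_lt_ncard ⟨hsub, fun h => hne (h hmz)⟩ (hfin G hG₁ m hm)
  have heq := Pool.Agent.Y504.CO.ncard_conj F.continuous G.continuous (hconj G hG₀) hm
  omega

variable {m l n : ℕ} {M : Type u} [TopologicalSpace M] [T2Space M] [CompactSpace M]
  [ChartedSpace (V m) M] [IsManifold (𝓡 m) ∞ M]
  {L : Type v} [TopologicalSpace L] [T2Space L] [CompactSpace L] [ChartedSpace (V l) L]
  [IsManifold (𝓡 l) ∞ L]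
  {N : Type w} [TopologicalSpace N] [T2Space N] [CompactSpace N] [ChartedSpace (V n) N]
  [IsManifold (𝓡 n) ∞ N] {r : ℕ∞}

theorem nonwand_of_omega' {X : Type*} [TopologicalSpace X] {f : X → X} {x : X}
    (hx : x ∈ Omega f) : NonWand f x := by
  intro W hW
  obtain ⟨W', hW'W, hW'o, hxW'⟩ := mem_nhds_iff.1 hW
  obtain ⟨k, hk, y, hy, hy'⟩ := hx W' hW'o hxW'
  exact ⟨k, hk, y, hW'W hy, hW'W hy'⟩

/-- Periodic points are dense in the nonwandering set of the first factor. -/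
theorem dens2 (hCOD : S_COD2.{x}) (hr : 1 ≤ r) (F : DiffM n N r)
    (hF : OmegaStable n N r F) (Θ : ProdDiffeo m l n M L N) (f : DiffM m M r) (g : DiffM l L r)
    (hp : ∀ x y, F (atP Θ x y) = atP Θ (f x) (g y)) {Y : Type x} [MetricSpace Y] [CompactSpace Y]
    [Infinite Y] (h : Y ≃ₜ Y) (hps : PerShadow h) (hct : ChainTrans h) (hex : Expans h)
    (ι : Y → L) (hι : Topology.IsEmbedding ι) (hιh : ∀ y, g (ι y) = ι (h y)) :
    Omega f ⊆ closure (Per f) := by
  have hmet : TopologicalSpace.MetrizableSpace M := Pool.Agent.Y504.CO.exists_metric m M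
  let _ : MetricSpace M := TopologicalSpace.metrizableSpaceMetric M
  intro x hx
  by_contra hcon
  obtain ⟨U, hU, hFU, hnew⟩ := no_new_per hr hF
  obtain ⟨χ, hχ, hχW⟩ := small_chart m M x isClosed_closure.isOpen_compl hcon
  obtain ⟨Ψ, κ₀, hκ₀, hfam, hΨ3, hΨ4⟩ := aff_supp m M r χ x hχ
  obtain ⟨C, B, N₀, τ, hN₀, hτ, hC, hB, hCB, hdis, hcod⟩ := hCOD Y h hps hct hex 1
  choose β hβ1 hβ2 hβ3 using fun s => exists_cut (l := l) hι (hC s) (hB s) (hCB s)
  obtain ⟨y₀⟩ : Nonempty Y := inferInstance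
  obtain ⟨κ, hκ, hpert⟩ := exists_pert hr F Θ f g hp (fun _ : Fin 1 => Ψ) (fun _ => hfam) β hβ1 U
    hU hFU (atP Θ x (ι y₀))
  obtain ⟨η, hη, hη1, hη2, hη3⟩ : ∃ η : ℝ, 0 < η ∧ η ≤ 1 / 8 ∧ 2 * η < κ ∧ 2 * η < κ₀ := by
    refine ⟨min (1 / 8) (min (κ / 4) (κ₀ / 4)), by positivity, min_le_left _ _, ?_, ?_⟩
    · have : min (1 / 8) (min (κ / 4) (κ₀ / 4)) ≤ κ / 4 :=
        (min_le_right _ _).trans (min_le_left _ _)
      linarith
    · have : min (1 / 8) (min (κ / 4) (κ₀ / 4)) ≤ κ₀ / 4 :=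
        (min_le_right _ _).trans (min_le_right _ _)
      linarith
  -- the recurrence
  have hev : ∀ᶠ x' in 𝓝 x, x' ∈ χ.source ∧ ‖χ x'‖ < η := by
    have h1 : ∀ᶠ x' in 𝓝 x, ‖χ x'‖ < η := by
      have h2 := (χ.continuousAt hχ.src).norm
      have h3 : ‖χ x‖ < η := by rw [hχ.zero, norm_zero]; exact hη
      exact h2.eventually (gt_mem_nhds h3)
    have h0 : ∀ᶠ x' in 𝓝 x, x' ∈ χ.source := χ.open_source.mem_nhds hχ.src
    exact h0.and h1
  obtain ⟨ε, hε, hε'⟩ := Metric.eventually_nhds_iff.1 hev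
  have hper : ∀ b : ℕ, 1 ≤ b → f^[b] x ≠ x := fun b hb hbx =>
    hcon (subset_closure ⟨b, hb, hbx⟩)
  obtain ⟨a, j, hjN, hj1, ha, hb⟩ := Pool.Agent.W216.SC.nonwand_long f.toHomeomorph
    (nonwand_of_omega' hx) hper ε hε N₀
  obtain ⟨has, han⟩ := hε' ha
  obtain ⟨hbs, hbn⟩ := hε' hb
  have hbs' : f^[j] a ∈ χ.source := hbs
  have hbn' : ‖χ (f^[j] a)‖ < η := hbn
  obtain ⟨p₀, hp₀⟩ : ∃ p₀ : PP m, p₀ = (χ a - χ (f^[j] a), 0) := ⟨_, rfl⟩
  have hp₀n : ‖p₀‖ ≤ 2 * η := by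
    rw [hp₀]
    refine max_le ?_ (by rw [norm_zero]; linarith)
    refine (norm_sub_le _ _).trans ?_
    linarith
  obtain ⟨G, hGU, hG⟩ := hpert (fun _ => p₀) (by
    refine lt_of_le_of_lt ?_ hη2
    exact (pi_norm_le_iff_of_nonneg (by positivity)).2 fun _ => hp₀n)
  have hΨb : Ψ p₀ (f^[j] a) = a := by
    obtain ⟨h1, h2⟩ := hΨ3 p₀ (hp₀n.trans_lt hη3) (f^[j] a) hbs' (by linarith)
    refine χ.injOn h1 has ?_
    rw [h2, hp₀]
    show χ (f^[j] a) + ((χ a - χ (f^[j] a)) + (0 : V m →L[ℝ] V m) (χ (f^[j] a))) = χ a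
    rw [zero_apply]
    abel
  -- the code
  have htim : ∀ i, tim (fun _ => j) i = i * j := by
    intro i
    simp [tim]
  obtain ⟨y, hy1, hy2, hy3⟩ := hcod τ (fun _ => 0) (fun _ => j) hτ (fun _ _ => hjN) (by
    rw [htim]
    exact Nat.dvd_mul_right _ _)
  have hS0 : ∀ y, (∀ s, y ∉ B s) → ∀ x, cmps (fun _ : Fin 1 => Ψ) (fun _ => p₀)
      (fun s => β s (ι y)) 1 x = x := by
    intro y hy x
    exact cmp_zero (fun _ => hfam) _ _ 1 (fun s _ => hβ3 s y (hy s)) x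
  have hS1 : ∀ s, ∀ y ∈ C s, ∀ x, cmps (fun _ : Fin 1 => Ψ) (fun _ => p₀)
      (fun s => β s (ι y)) 1 x = Ψ p₀ x := by
    intro s y hy x
    exact cmp_one (fun _ => hfam) _ _ s (hβ2 s y hy) (fun s' hs' =>
      absurd (Subsingleton.elim s' s) hs') x
  have hG' : ∀ x y, G (atP Θ x (ι y)) =
      atP Θ (cmps (fun _ : Fin 1 => Ψ) (fun _ => p₀) (fun s => β s (ι (h y))) 1 (f x))
        (ι (h y)) := by
    intro x y
    rw [hG, hιh]
  have hyC : ∀ i ≤ τ, h^[tim (fun _ => j) i] y ∈ C 0 := by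
    intro i hi
    rcases hi.lt_or_eq with hi | rfl
    · exact hy2 i hi
    · rw [hy1]
      exact hy2 0 (by omega)
  have hit : ∀ i ≤ τ, G^[tim (fun _ => j) i] (atP Θ a (ι y)) =
      atP Θ a (ι (h^[tim (fun _ => j) i] y)) := by
    intro i
    induction i with
    | zero => intro _; rfl
    | succ i ih =>
      intro hi
      have h1 := edge (S := fun z x => cmps (fun _ : Fin 1 => Ψ) (fun _ => p₀)
        (fun s => β s z) 1 x) (T := fun _ x => Ψ p₀ x)
        hG' hS0 hS1 (h^[tim (fun _ => j) i] y) j hj1 (by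
          intro i' hi0 hi' s
          have h2 := hy3 i (by omega) i' hi0 hi' s
          rw [Nat.add_comm, Function.iterate_add_apply] at h2
          exact h2) 0 (by
          rw [← Function.iterate_add_apply, Nat.add_comm j, ← tim_succ]
          exact hyC (i + 1) hi) a
      have h3 : tim (fun _ => j) (i + 1) = j + tim (fun _ => j) i := by
        rw [tim_succ, Nat.add_comm]
      rw [h3, Function.iterate_add_apply, ih (by omega), h1, Function.iterate_add_apply]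
      show atP Θ (Ψ p₀ (f^[j] a)) _ = _
      rw [hΨb]
  have hGper : atP Θ a (ι y) ∈ Per G := by
    refine ⟨tim (fun _ => j) τ, ?_, ?_⟩
    · rw [htim]
      exact Nat.mul_pos hτ hj1
    · rw [hit τ le_rfl, hy1]
  have hGF : ∀ z ∈ Per F, G z = F z := by
    intro z hz
    have h1 : c1 Θ z ∈ Per f := per_map (c1_F hp) hz
    have h2 : f (c1 Θ z) ∈ Per f := by
      obtain ⟨b, hb, hbz⟩ := h1
      refine ⟨b, hb, ?_⟩
      rw [← Function.iterate_succ_apply, Function.iterate_succ_apply', hbz]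
    have h3 : f (c1 Θ z) ∉ χ.source := fun h4 => hχW h4 (subset_closure h2)
    conv_lhs => rw [← at_c Θ z]
    conv_rhs => rw [← at_c Θ z]
    rw [hG, hp]
    congr 1
    have h4 : ∀ i, cmps (fun _ : Fin 1 => Ψ) (fun _ => p₀) (fun s => β s (g (c2 Θ z))) i
        (f (c1 Θ z)) = f (c1 Θ z) := by
      intro i
      induction i with
      | zero => rfl
      | succ i ih =>
        by_cases hi : i < 1
        · simp only [cmps, dif_pos hi]
          rw [ih, hΨ4 _ _ h3]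
        · simp only [cmps, dif_neg hi]
          exact ih
    exact h4 1
  have hfin := per_map (c1_F hp) (hnew G hGU hGF hGper)
  rw [c1_at] at hfin
  exact hχW has (subset_closure hfin)

end Pool.Agent.H74.PA.Den
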