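import Pool.Agent.H74.PA.Nl

/-!
# Derivatives in charts
-/

set_option autoImplicit false
set_option linter.unusedSectionVars false

open scoped Manifold ContDiff Topology
open Filter Set Metric

universe u v w x

namespace Pool.Agent.H74.PA

open Pool.Agent.H718R2.G Pool.Agent.TH80.OMS Pool.Agent.W564.SC Pool.Agent.W5h63.AX
open Pool.Agent.Y504.CO (NoBdd)

/-- The conclusion of the theorem on networks. -/
def Net (m : ℕ) (M : Type u) [TopologicalSpace M] [ChartedSpace (V m) M] (f : M → M) : Prop :=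
  ∀ (k : ℕ) (c : Fin k → M) (χ : Fin k → OpenPartialHomeomorph M (V m)),
    (∀ s, GoodChart m M (χ s) (c s)) →
    ∃ (η : ℝ) (N₀ : ℕ), 0 < η ∧ 1 ≤ N₀ ∧ ∀ (a b : Fin k → M) (E : Fin k → V m →L[ℝ] V m),
      (∀ s, a s ∈ (χ s).source ∧ b s ∈ (χ s).source ∧ ‖χ s (a s)‖ ≤ η ∧ ‖χ s (b s)‖ ≤ η ∧
        ‖E s - 1‖ ≤ η) →
      ∀ (d : ℕ → ℕ) (A : ℕ → V m →L[ℝ] V m) (w : ℕ → Fin k) (q : ℕ), 1 ≤ q → w q = w 0 →
        (∀ j < q, N₀ ≤ d j ∧ f^[d j] (a (w j)) = b (w (j + 1)) ∧
          HasFDerivAt (fun v => χ (w (j + 1)) (f^[d j] ((χ (w j)).symm v))) (A j)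
            (χ (w j) (a (w j)))) →
        NoBdd (fun _ => prodL (fun j => E (w (j + 1)) * A j) q)

namespace Dyn

variable {m : ℕ} {M : Type u} [TopologicalSpace M] [ChartedSpace (V m) M]
  [IsManifold (𝓡 m) ∞ M]

lemma der_comp {a b c : ℕ} {M₁ : Type*} {M₂ : Type*} {M₃ : Type*} [TopologicalSpace M₁]
    [ChartedSpace (V a) M₁] [TopologicalSpace M₂] [ChartedSpace (V b) M₂] [TopologicalSpace M₃]
    [ChartedSpace (V c) M₃] {g : M₂ → M₃} {f : M₁ → M₂} {x : M₁}
    (hg : MDifferentiableAt (𝓡 b) (𝓡 c) g (f x)) (hf : MDifferentiableAt (𝓡 a) (𝓡 b) f x) :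
    der a c (fun y => g (f y)) x = (der b c g (f x)) ∘L (der a b f x) :=
  mfderiv_comp x hg hf

lemma der_congr {a b : ℕ} {M₁ : Type*} {M₂ : Type*} [TopologicalSpace M₁]
    [ChartedSpace (V a) M₁] [TopologicalSpace M₂] [ChartedSpace (V b) M₂] {f g : M₁ → M₂} {x : M₁}
    (h : f =ᶠ[𝓝 x] g) : der a b f x = der a b g x := h.mfderiv_eq

lemma der_eq_fderiv {a b : ℕ} (f : V a → V b) (x : V a) : der a b f x = fderiv ℝ f x :=
  mfderiv_eq_fderiv

lemma der_id {a : ℕ} {M₁ : Type*} [TopologicalSpace M₁] [ChartedSpace (V a) M₁] (x : M₁) :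
    der a a (fun y : M₁ => y) x = ContinuousLinearMap.id ℝ (V a) := mfderiv_id

lemma md_chart {χ : OpenPartialHomeomorph M (V m)} (hχ : χ ∈ IsManifold.maximalAtlas (𝓡 m) ∞ M)
    {y : M} (hy : y ∈ χ.source) : MDifferentiableAt (𝓡 m) (𝓡 m) χ y :=
  ((contMDiffOn_of_mem_maximalAtlas hχ _ hy).contMDiffAt
    (χ.open_source.mem_nhds hy)).mdifferentiableAt (by simp)

lemma md_symm {χ : OpenPartialHomeomorph M (V m)} (hχ : χ ∈ IsManifold.maximalAtlas (𝓡 m) ∞ M)
    {u : V m} (hu : u ∈ χ.target) : MDifferentiableAt (𝓡 m) (𝓡 m) χ.symm u :=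
  ((contMDiffOn_symm_of_mem_maximalAtlas hχ _ hu).contMDiffAt
    (χ.open_target.mem_nhds hu)).mdifferentiableAt (by simp)

/-- the derivative of an iterate in charts, and its action on tangent vectors -/
lemma chart_der {χ χ' : OpenPartialHomeomorph M (V m)}
    (hχ : χ ∈ IsManifold.maximalAtlas (𝓡 m) ∞ M) (hχ' : χ' ∈ IsManifold.maximalAtlas (𝓡 m) ∞ M)
    {g : M → M} {y : M} (hg : MDifferentiableAt (𝓡 m) (𝓡 m) g y) (hy : y ∈ χ.source)
    (hy' : g y ∈ χ'.source) : HasFDerivAt (fun v => χ' (g (χ.symm v)))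
      (fderiv ℝ (fun v => χ' (g (χ.symm v))) (χ y)) (χ y) ∧
      ∀ v, fderiv ℝ (fun v => χ' (g (χ.symm v))) (χ y) (der m m χ y v) =
        der m m χ' (g y) (der m m g y v) := by
  have hs : χ.symm (χ y) = y := χ.left_inv hy
  have h1 : MDifferentiableAt (𝓡 m) (𝓡 m) (fun v => g (χ.symm v)) (χ y) := by
    refine MDifferentiableAt.comp (I' := 𝓡 m) (M' := M) (χ y) (g := g) (f := χ.symm) ?_
      (md_symm hχ (χ.map_source hy))
    rw [hs]
    exact hg
  have h2 : MDifferentiableAt (𝓡 m) (𝓡 m) (fun v => χ' (g (χ.symm v))) (χ y) := by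
    refine MDifferentiableAt.comp (I' := 𝓡 m) (M' := M) (χ y) (g := χ')
      (f := fun v => g (χ.symm v)) ?_ h1
    rw [hs]
    exact md_chart hχ' hy'
  have h3 : DifferentiableAt ℝ (fun v => χ' (g (χ.symm v))) (χ y) :=
    mdifferentiableAt_iff_differentiableAt.1 h2
  refine ⟨h3.hasFDerivAt, fun v => ?_⟩
  have h4 : der m m (fun z => χ' (g (χ.symm (χ z)))) y =
      der m m (fun v => χ' (g (χ.symm v))) (χ y) ∘L der m m χ y :=
    der_comp (g := fun v => χ' (g (χ.symm v))) h2 (md_chart hχ hy)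
  have h5 : der m m (fun z => χ' (g (χ.symm (χ z)))) y = der m m (fun z => χ' (g z)) y := by
    refine der_congr ?_
    filter_upwards [χ.open_source.mem_nhds hy] with z hz
    rw [χ.left_inv hz]
  have h6 : der m m (fun z => χ' (g z)) y = der m m χ' (g y) ∘L der m m g y :=
    der_comp (g := χ') (md_chart hχ' hy') hg
  rw [← der_eq_fderiv]
  have h7 := congrArg (fun T => T v) (h4.symm.trans (h5.trans h6))
  exact h7

/-- the derivative of a diffeomorphism in charts is invertible -/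
lemma chart_equiv {χ χ' : OpenPartialHomeomorph M (V m)}
    (hχ : χ ∈ IsManifold.maximalAtlas (𝓡 m) ∞ M) (hχ' : χ' ∈ IsManifold.maximalAtlas (𝓡 m) ∞ M)
    {g g' : M → M} {y : M} (hg : MDifferentiableAt (𝓡 m) (𝓡 m) g y)
    (hg' : MDifferentiableAt (𝓡 m) (𝓡 m) g' (g y)) (hgg : ∀ z, g' (g z) = z)
    (hgg' : ∀ z, g (g' z) = z) (hy : y ∈ χ.source)
    (hy' : g y ∈ χ'.source) : ∃ D : V m ≃L[ℝ] V m,
      HasFDerivAt (fun v => χ' (g (χ.symm v))) (D : V m →L[ℝ] V m) (χ y) ∧
      ∀ v, D (der m m χ y v) = der m m χ' (g y) (der m m g y v) := by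
  obtain ⟨h1, h2⟩ := chart_der hχ hχ' hg hy hy'
  obtain ⟨h3, h4⟩ := chart_der hχ' hχ hg' hy' (by rw [hgg]; exact hy)
  set A := fderiv ℝ (fun v => χ' (g (χ.symm v))) (χ y) with hA
  set B := fderiv ℝ (fun v => χ (g' (χ'.symm v))) (χ' (g y)) with hB
  have hcont : ContinuousAt (fun v => g (χ.symm v)) (χ y) := by
    refine ContinuousAt.comp (g := g) ?_ (χ.continuousAt_symm (χ.map_source hy))
    rw [χ.left_inv hy]
    exact hg.continuousAt
  have hBA : B ∘L A = ContinuousLinearMap.id ℝ (V m) := by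
    have h5 : HasFDerivAt (fun v => χ (g' (χ'.symm (χ' (g (χ.symm v)))))) (B ∘L A) (χ y) := by
      have h6 : HasFDerivAt (fun v => χ (g' (χ'.symm v))) B
          ((fun v => χ' (g (χ.symm v))) (χ y)) := by
        show HasFDerivAt _ B (χ' (g (χ.symm (χ y))))
        rw [χ.left_inv hy]
        exact h3
      exact h6.comp (χ y) h1
    have h7 : (fun v => χ (g' (χ'.symm (χ' (g (χ.symm v)))))) =ᶠ[𝓝 (χ y)] fun v => v := by
      have h8 : ∀ᶠ v in 𝓝 (χ y), g (χ.symm v) ∈ χ'.source :=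
        hcont.preimage_mem_nhds (by
          show χ'.source ∈ 𝓝 (g (χ.symm (χ y)))
          rw [χ.left_inv hy]
          exact χ'.open_source.mem_nhds hy')
      filter_upwards [h8, χ.open_target.mem_nhds (χ.map_source hy)] with v hv hv'
      rw [χ'.left_inv hv, hgg, χ.right_inv hv']
    exact (h5.congr_of_eventuallyEq h7.symm).unique (hasFDerivAt_id (χ y))
  have hcont' : ContinuousAt (fun v => g' (χ'.symm v)) (χ' (g y)) := by
    refine ContinuousAt.comp (g := g') ?_ (χ'.continuousAt_symm (χ'.map_source hy'))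
    rw [χ'.left_inv hy']
    exact hg'.continuousAt
  have hAB : A ∘L B = ContinuousLinearMap.id ℝ (V m) := by
    have h5 : HasFDerivAt (fun v => χ' (g (χ.symm (χ (g' (χ'.symm v)))))) (A ∘L B)
        (χ' (g y)) := by
      have h6 : HasFDerivAt (fun v => χ' (g (χ.symm v))) A
          ((fun v => χ (g' (χ'.symm v))) (χ' (g y))) := by
        show HasFDerivAt _ A (χ (g' (χ'.symm (χ' (g y)))))
        rw [χ'.left_inv hy', hgg]
        exact h1
      exact h6.comp (χ' (g y)) h3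
    have h7 : (fun v => χ' (g (χ.symm (χ (g' (χ'.symm v)))))) =ᶠ[𝓝 (χ' (g y))] fun v => v := by
      have h8 : ∀ᶠ v in 𝓝 (χ' (g y)), g' (χ'.symm v) ∈ χ.source :=
        hcont'.preimage_mem_nhds (by
          show χ.source ∈ 𝓝 (g' (χ'.symm (χ' (g y))))
          rw [χ'.left_inv hy', hgg]
          exact χ.open_source.mem_nhds hy)
      filter_upwards [h8, χ'.open_target.mem_nhds (χ'.map_source hy')] with v hv hv'
      rw [χ.left_inv hv, hgg', χ'.right_inv hv']
    exact (h5.congr_of_eventuallyEq h7.symm).unique (hasFDerivAt_id (χ' (g y)))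
  refine ⟨ContinuousLinearEquiv.equivOfInverse A B (fun v => ?_) (fun v => ?_), h1, h2⟩
  · exact congrArg (fun T => T v) hBA
  · exact congrArg (fun T => T v) hAB

/-- local comparison of the norms of tangent vectors -/
lemma norm_compare {p : ℕ} {e : M → V p} (he : C1 m e) (hinj : ∀ x v, dv m e x v = 0 → v = 0)
    {χ : OpenPartialHomeomorph M (V m)} (hχ : χ ∈ IsManifold.maximalAtlas (𝓡 m) ∞ M) {c : M}
    (hc : c ∈ χ.source) : ∃ C₁ C₂ : ℝ, 0 < C₁ ∧ 0 < C₂ ∧ ∀ᶠ y in 𝓝 c, ∀ v : V m,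
      ‖dv m e y v‖ ≤ C₁ * ‖der m m χ y v‖ ∧ ‖der m m χ y v‖ ≤ C₂ * ‖dv m e y v‖ := by
  have hee : ∀ y ∈ χ.source, ContDiffAt ℝ 1 (fun u => e (χ.symm u)) (χ y) := by
    intro y hy
    have h1 : ContMDiffAt (𝓡 m) (𝓡 p) 1 (fun u => e (χ.symm u)) (χ y) := by
      refine ContMDiffAt.comp (I' := 𝓡 m) (M' := M) (χ y) (g := e) (f := χ.symm) ?_ ?_
      · exact ContMDiff.contMDiffAt he
      · exact ((contMDiffOn_symm_of_mem_maximalAtlas hχ _ (χ.map_source hy)).contMDiffAt
          (χ.open_target.mem_nhds (χ.map_source hy))).of_le (by exact_mod_cast le_top)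
    exact contMDiffAt_iff_contDiffAt.1 h1
  have hdv : ∀ y ∈ χ.source, ∀ v, dv m e y v =
      fderiv ℝ (fun u => e (χ.symm u)) (χ y) (der m m χ y v) := by
    intro y hy v
    have h1 : der m p (fun z => e (χ.symm (χ z))) y =
        der m p (fun u => e (χ.symm u)) (χ y) ∘L der m m χ y := by
      refine der_comp (g := fun u => e (χ.symm u)) ?_ (md_chart hχ hy)
      exact mdifferentiableAt_iff_differentiableAt.2 ((hee y hy).differentiableAt (by norm_num))
    have h2 : der m p (fun z => e (χ.symm (χ z))) y = der m p e y := by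
      refine der_congr ?_
      filter_upwards [χ.open_source.mem_nhds hy] with z hz
      rw [χ.left_inv hz]
    rw [der_eq_fderiv] at h1
    exact congrArg (fun T => T v) (h2.symm.trans h1)
  set T := fderiv ℝ (fun u => e (χ.symm u)) (χ c) with hT
  have hTinj : ∀ u, T u = 0 → u = 0 := by
    intro u hu
    -- `der χ c` is onto
    have h1 : der m m (fun z => χ.symm (χ z)) c = der m m χ.symm (χ c) ∘L der m m χ c :=
      der_comp (g := χ.symm) (md_symm hχ (χ.map_source hc)) (md_chart hχ hc)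
    have h3 : der m m (fun z => χ (χ.symm z)) (χ c) = der m m χ (χ.symm (χ c)) ∘L
        der m m χ.symm (χ c) := by
      refine der_comp (g := χ) (f := χ.symm) ?_ (md_symm hχ (χ.map_source hc))
      rw [χ.left_inv hc]
      exact md_chart hχ hc
    have h4 : der m m (fun z => χ (χ.symm z)) (χ c) = ContinuousLinearMap.id ℝ (V m) := by
      rw [← der_id (χ c)]
      refine der_congr ?_
      filter_upwards [χ.open_target.mem_nhds (χ.map_source hc)] with z hz
      exact χ.right_inv hz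
    have h5 : der m m χ c (der m m χ.symm (χ c) u) = u := by
      have h6 := congrArg (fun T => T u) (h3.symm.trans h4)
      rw [χ.left_inv hc] at h6
      exact h6
    have h7 := hdv c hc (der m m χ.symm (χ c) u)
    rw [h5, ← hT, hu] at h7
    have h8 := hinj c _ h7
    rw [← h5, h8, map_zero]
  -- lower bound for `T`
  obtain ⟨k, hk, hkT⟩ : ∃ k : ℝ, 0 < k ∧ ∀ u, ‖u‖ ≤ k * ‖T u‖ := by
    have hker : LinearMap.ker (T : V m →ₗ[ℝ] V p) = ⊥ := by
      rw [LinearMap.ker_eq_bot']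
      exact hTinj
    obtain ⟨K, hK, hKT⟩ := (T : V m →ₗ[ℝ] V p).exists_antilipschitzWith hker
    refine ⟨K, by exact_mod_cast hK, fun u => ?_⟩
    have h1 := hKT.le_mul_dist u 0
    simpa [dist_eq_norm] using h1
  have hcont : ContinuousAt (fun y => fderiv ℝ (fun u => e (χ.symm u)) (χ y)) c := by
    have h1 : ContinuousAt (fderiv ℝ (fun u => e (χ.symm u))) (χ c) :=
      (hee c hc).continuousAt_fderiv (by norm_num)
    exact ContinuousAt.comp (g := fderiv ℝ (fun u => e (χ.symm u))) h1 (χ.continuousAt hc)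
  have hnear : ∀ᶠ y in 𝓝 c, ‖fderiv ℝ (fun u => e (χ.symm u)) (χ y) - T‖ < 1 / (2 * k) := by
    have h1 := hcont.tendsto
    rw [Metric.tendsto_nhds] at h1
    have h2 := h1 (1 / (2 * k)) (by positivity)
    filter_upwards [h2] with y hy
    rw [dist_eq_norm] at hy
    exact hy
  refine ⟨‖T‖ + 1 / (2 * k), 2 * k, by positivity, by positivity, ?_⟩
  filter_upwards [hnear, χ.open_source.mem_nhds hc] with y hy hys v
  rw [hdv y hys v]
  set S := fderiv ℝ (fun u => e (χ.symm u)) (χ y) with hS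
  set u := der m m χ y v with hu
  have h1 : ‖S u - T u‖ ≤ 1 / (2 * k) * ‖u‖ := by
    have h2 := (S - T).le_opNorm u
    have h3 : (S - T) u = S u - T u := rfl
    rw [h3] at h2
    exact h2.trans (mul_le_mul_of_nonneg_right hy.le (norm_nonneg _))
  constructor
  · have h2 : ‖S u‖ ≤ ‖S u - T u‖ + ‖T u‖ := by
      have := norm_add_le (S u - T u) (T u)
      simpa using this
    have h3 := T.le_opNorm u
    nlinarith [norm_nonneg u]
  · have h2 : ‖T u‖ ≤ ‖S u - T u‖ + ‖S u‖ := by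
      have := norm_sub_le (S u) (S u - T u)
      have h4 : S u - (S u - T u) = T u := by abel
      rw [h4] at this
      linarith
    have h3 := hkT u
    have h5 : k * (1 / (2 * k) * ‖u‖) = ‖u‖ / 2 := by field_simp
    have h6 : k * ‖T u‖ ≤ k * (‖S u - T u‖ + ‖S u‖) := mul_le_mul_of_nonneg_left h2 hk.le
    have h7 : k * ‖S u - T u‖ ≤ k * (1 / (2 * k) * ‖u‖) := mul_le_mul_of_nonneg_left h1 hk.le
    nlinarith

end Dyn

end Pool.Agent.H74.PA
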