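import Pool.Agent.H74.PA.Dyn1

/-!
# Bounded orbits of tangent vectors tend to zero
-/

set_option autoImplicit false
set_option linter.unusedSectionVars false

open scoped Manifold ContDiff Topology
open Filter Set Metric

universe u v w x

namespace Pool.Agent.H74.PA.Dyn

open Pool.Agent.H718R2.G Pool.Agent.TH80.OMS Pool.Agent.W564.SC Pool.Agent.W5h63.AX
open Pool.Agent.Y504.CO (NoBdd)

/-- a linear map near the identity which maps `w` to `u` -/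
lemma exists_rot {m : ℕ} (u w : V m) (hw : w ≠ 0) :
    ∃ E : V m →L[ℝ] V m, E w = u ∧ ‖E - 1‖ ≤ ‖u - w‖ / ‖w‖ := by
  have hw' : 0 < ‖w‖ := norm_pos_iff.2 hw
  refine ⟨1 + (innerSL ℝ w).smulRight ((‖w‖ ^ 2)⁻¹ • (u - w)), ?_, ?_⟩
  · show w + (inner ℝ w w) • ((‖w‖ ^ 2)⁻¹ • (u - w)) = u
    rw [real_inner_self_eq_norm_sq, smul_smul, mul_inv_cancel₀ (by positivity), one_smul]
    abel
  · have h1 : (1 : V m →L[ℝ] V m) + (innerSL ℝ w).smulRight ((‖w‖ ^ 2)⁻¹ • (u - w)) - 1 =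
        (innerSL ℝ w).smulRight ((‖w‖ ^ 2)⁻¹ • (u - w)) := by abel
    rw [h1, ContinuousLinearMap.norm_smulRight_apply, innerSL_apply_norm, norm_smul, norm_inv,
      norm_pow, norm_norm]
    have h2 : ‖w‖ * ((‖w‖ ^ 2)⁻¹ * ‖u - w‖) = ‖u - w‖ / ‖w‖ := by field_simp
    rw [h2]

section

variable {m : ℕ} {M : Type u} [TopologicalSpace M] [T2Space M] [CompactSpace M]
  [ChartedSpace (V m) M] [IsManifold (𝓡 m) ∞ M] {r : ℕ∞}

/-- an orbit of tangent vectors -/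
structure TOrb (f : M → M) (x : ℤ → M) (v : ℤ → V m) : Prop where
  pt : ∀ i, f (x i) = x (i + 1)
  vec : ∀ i, df m f (x i) (v i) = v (i + 1)

lemma TOrb.iter {f : M → M} (hf : ContMDiff (𝓡 m) (𝓡 m) 1 f) {x : ℤ → M} {v : ℤ → V m}
    (h : TOrb f x v) (i : ℤ) (d : ℕ) : f^[d] (x i) = x (i + d) ∧
      der m m f^[d] (x i) (v i) = v (i + d) := by
  induction d with
  | zero =>
    refine ⟨by simp, ?_⟩
    have h1 : der m m (f^[0]) (x i) = ContinuousLinearMap.id ℝ (V m) := der_id (x i)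
    rw [h1]
    simp
  | succ d ih =>
    have h2 : i + ((d + 1 : ℕ) : ℤ) = i + d + 1 := by push_cast; ring
    refine ⟨?_, ?_⟩
    · rw [Function.iterate_succ_apply', ih.1, h.pt, h2]
    · have h1 : der m m (f^[d + 1]) (x i) = der m m f (f^[d] (x i)) ∘L der m m f^[d] (x i) := by
        have h3 : f^[d + 1] = fun y => f (f^[d] y) := by
          rw [Function.iterate_succ']
          rfl
        rw [h3]
        exact der_comp (g := f) (hf.mdifferentiableAt (by norm_num))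
          ((Nl.contMDiff_iterate hf d).mdifferentiableAt (by norm_num))
      rw [h1, h2, ← h.vec, ← ih.2, ← ih.1]
      rfl

/-- an edge of an orbit of tangent vectors -/
lemma TOrb.edge (hr : 1 ≤ r) {f : DiffM m M r} {x : ℤ → M} {v : ℤ → V m}
    (h : TOrb f x v) (i : ℤ) (d : ℕ) {χ χ' : OpenPartialHomeomorph M (V m)}
    (hχ : χ ∈ IsManifold.maximalAtlas (𝓡 m) ∞ M) (hχ' : χ' ∈ IsManifold.maximalAtlas (𝓡 m) ∞ M)
    (hi : x i ∈ χ.source) (hd : x (i + d) ∈ χ'.source) : ∃ D : V m ≃L[ℝ] V m,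
      HasFDerivAt (fun v => χ' (f^[d] (χ.symm v))) (D : V m →L[ℝ] V m) (χ (x i)) ∧
      D (der m m χ (x i) (v i)) = der m m χ' (x (i + d)) (v (i + d)) := by
  have hf := Nl.contMDiff_one hr f
  have hf' := Nl.contMDiff_one hr f.symm
  obtain ⟨h1, h2⟩ := h.iter hf i d
  have h3 : ∀ z, f.symm^[d] (f^[d] z) = z := f.toEquiv.left_inv.iterate d
  have h4 : ∀ z, f^[d] (f.symm^[d] z) = z := f.toEquiv.right_inv.iterate d
  obtain ⟨D, h5, h6⟩ := chart_equiv hχ hχ' (g := f^[d]) (g' := f.symm^[d]) (y := x i)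
    ((Nl.contMDiff_iterate hf d).mdifferentiableAt (by norm_num))
    ((Nl.contMDiff_iterate hf' d).mdifferentiableAt (by norm_num)) h3 h4 hi (by rw [h1]; exact hd)
  refine ⟨D, h5, ?_⟩
  rw [h6, h2, h1]

/-- an almost closed orbit segment of a tangent vector gives a contradiction -/
lemma closing (hr : 1 ≤ r) {f : DiffM m M r} {x : ℤ → M} {v : ℤ → V m} (h : TOrb f x v)
    {χ : OpenPartialHomeomorph M (V m)} (hχ : χ ∈ IsManifold.maximalAtlas (𝓡 m) ∞ M) {η : ℝ}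
    {N₀ : ℕ}
    (hnet : ∀ (a b : Fin 1 → M) (E : Fin 1 → V m →L[ℝ] V m),
      (∀ s, a s ∈ χ.source ∧ b s ∈ χ.source ∧ ‖χ (a s)‖ ≤ η ∧ ‖χ (b s)‖ ≤ η ∧
        ‖E s - 1‖ ≤ η) →
      ∀ (d : ℕ → ℕ) (A : ℕ → V m →L[ℝ] V m) (w : ℕ → Fin 1) (q : ℕ), 1 ≤ q → w q = w 0 →
        (∀ j < q, N₀ ≤ d j ∧ f^[d j] (a (w j)) = b (w (j + 1)) ∧
          HasFDerivAt (fun v => χ (f^[d j] (χ.symm v))) (A j) (χ (a (w j)))) →
        NoBdd (fun _ => prodL (fun j => E (w (j + 1)) * A j) q))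
    (i : ℤ) (d : ℕ) (hd : N₀ ≤ d) (hi : x i ∈ χ.source) (hi' : x (i + d) ∈ χ.source)
    (hni : ‖χ (x i)‖ ≤ η) (hni' : ‖χ (x (i + d))‖ ≤ η)
    (hu : der m m χ (x i) (v i) ≠ 0)
    (hclose : ‖der m m χ (x i) (v i) - der m m χ (x (i + d)) (v (i + d))‖ ≤
      η * ‖der m m χ (x (i + d)) (v (i + d))‖) : False := by
  obtain ⟨D, hD1, hD2⟩ := h.edge hr i d hχ hχ hi hi'
  set u := der m m χ (x i) (v i) with hudef
  set u' := der m m χ (x (i + d)) (v (i + d)) with hu'def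
  have hu' : u' ≠ 0 := by
    intro h0
    rw [h0] at hD2
    exact hu (D.map_eq_zero_iff.1 hD2)
  obtain ⟨E, hE1, hE2⟩ := exists_rot u u' hu'
  have hE3 : ‖E - 1‖ ≤ η := by
    refine hE2.trans ?_
    rw [div_le_iff₀ (norm_pos_iff.2 hu')]
    exact hclose
  have h1 := hnet (fun _ => x i) (fun _ => x (i + d)) (fun _ => E)
    (fun _ => ⟨hi, hi', hni, hni', hE3⟩) (fun _ => d) (fun _ => D) (fun _ => 0) 1 le_rfl rfl
    (fun _ _ => ⟨hd, (h.iter (Nl.contMDiff_one hr f) i d).1, hD1⟩)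
  have h2 := h1 (fun _ => u) ⟨‖u‖, fun _ => le_rfl⟩ (fun _ => by
    show u = (E * (D : V m →L[ℝ] V m) * 1) u
    have h3 : (E * (D : V m →L[ℝ] V m) * 1) u = E (D u) := rfl
    rw [h3, hD2, hE1]) 0
  exact hu h2

/-- Along every sequence of times which tends to `±∞` a bounded orbit of tangent vectors tends to
zero. -/
theorem decay (hr : 1 ≤ r) {f : DiffM m M r} (hnet : Net m M f) {p : ℕ} {e : M → V p}
    (he : C1 m e) (hinj : ∀ x v, dv m e x v = 0 → v = 0) {x : ℤ → M} {v : ℤ → V m}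
    (h : TOrb f x v) {C : ℝ} (hC : ∀ i, ‖dv m e (x i) (v i)‖ ≤ C) (t : ℕ → ℤ)
    (ht : ∀ k n : ℕ, (n : ℤ) ≤ |t (k + n) - t k|) :
    Tendsto (fun k => ‖dv m e (x (t k)) (v (t k))‖) atTop (𝓝 0) := by
  by_contra hcon
  have hmet : TopologicalSpace.MetrizableSpace M := Pool.Agent.Y504.CO.exists_metric m M
  -- a subsequence which stays away from zero
  obtain ⟨ε, hε, hfreq⟩ : ∃ ε : ℝ, 0 < ε ∧ ∃ᶠ k in atTop, ε ≤ ‖dv m e (x (t k)) (v (t k))‖ := by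
    by_contra h1
    push Not at h1
    apply hcon
    rw [Metric.tendsto_nhds]
    intro ε hε
    have h2 := h1 ε hε
    filter_upwards [h2] with k hk
    rw [dist_zero_right, norm_norm]
    exact hk
  obtain ⟨φ₁, hφ₁, hφ₁'⟩ := extraction_of_frequently_atTop hfreq
  obtain ⟨c, -, φ₂, hφ₂, hφ₂'⟩ := isCompact_univ.tendsto_subseq (fun k => mem_univ (x (t (φ₁ k))))
  obtain ⟨χ, hχ⟩ := Pool.Agent.W699.SC.gc m M c
  obtain ⟨C₁, C₂, hC₁, hC₂, hcmp⟩ := norm_compare he hinj hχ.mem hχ.src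
  -- convergence of the vectors
  set s : ℕ → ℕ := fun k => φ₁ (φ₂ k) with hs
  have hs' : StrictMono s := hφ₁.comp hφ₂
  set u : ℕ → V m := fun k => der m m χ (x (t (s k))) (v (t (s k))) with hu
  have hev : ∀ᶠ k in atTop, ∀ w : V m, ‖dv m e (x (t (s k))) w‖ ≤
      C₁ * ‖der m m χ (x (t (s k))) w‖ ∧ ‖der m m χ (x (t (s k))) w‖ ≤
      C₂ * ‖dv m e (x (t (s k))) w‖ := hφ₂'.eventually hcmp
  have hbd : ∀ᶠ k in atTop, u k ∈ closedBall (0 : V m) (C₂ * C) := by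
    filter_upwards [hev] with k hk
    rw [mem_closedBall, dist_zero_right]
    exact (hk _).2.trans (mul_le_mul_of_nonneg_left (hC _) hC₂.le)
  obtain ⟨u₀, -, φ₃, hφ₃, hφ₃'⟩ :=
    (isCompact_closedBall (0 : V m) (C₂ * C)).tendsto_subseq' hbd.frequently
  have hlow : ∀ᶠ k in atTop, ε / C₁ ≤ ‖u k‖ := by
    filter_upwards [hev] with k hk
    rw [div_le_iff₀' hC₁]
    exact (hφ₁' (φ₂ k)).trans (hk _).1
  have hlow3 : ∀ᶠ k in atTop, ε / C₁ ≤ ‖u (φ₃ k)‖ := hφ₃.tendsto_atTop.eventually hlow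
  have hu₀ : ε / C₁ ≤ ‖u₀‖ := ge_of_tendsto hφ₃'.norm hlow3
  have hε1 : 0 < ε / C₁ := by positivity
  obtain ⟨η, N₀, hη, hN₀, hnet1⟩ := hnet 1 (fun _ => c) (fun _ => χ) (fun _ => hχ)
  -- close vectors
  have hx3 : Tendsto (fun k => x (t (s (φ₃ k)))) atTop (𝓝 c) := hφ₂'.comp hφ₃.tendsto_atTop
  have e1 : ∀ᶠ k in atTop, x (t (s (φ₃ k))) ∈ χ.source :=
    hx3.eventually (χ.open_source.mem_nhds hχ.src)
  have e2 : ∀ᶠ k in atTop, ‖χ (x (t (s (φ₃ k))))‖ ≤ η := by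
    have h1 : Tendsto (fun k => χ (x (t (s (φ₃ k))))) atTop (𝓝 (χ c)) :=
      (χ.continuousAt hχ.src).tendsto.comp hx3
    rw [hχ.zero] at h1
    have h2 := h1.norm
    rw [norm_zero] at h2
    exact (h2.eventually (gt_mem_nhds hη)).mono fun k hk => le_of_lt hk
  have e3 : ∀ᶠ k in atTop, ‖u (φ₃ k) - u₀‖ ≤ η * (ε / C₁) / 2 := by
    have h1 := (tendsto_iff_norm_sub_tendsto_zero.1 hφ₃')
    exact (h1.eventually (gt_mem_nhds (by positivity))).mono fun k hk => le_of_lt hk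
  obtain ⟨K, hK⟩ := eventually_atTop.1 (e1.and (e2.and (e3.and hlow3)))
  have hs3 : StrictMono fun k => s (φ₃ k) := hs'.comp hφ₃
  obtain ⟨n₀, hn₀⟩ := Nat.exists_eq_add_of_le (hs3.monotone (Nat.le_add_right K N₀))
  have hn₀' : N₀ ≤ n₀ := by
    have h1 : ∀ j : ℕ, s (φ₃ K) + j ≤ s (φ₃ (K + j)) := by
      intro j
      induction j with
      | zero => simp
      | succ j ih =>
        have h2 : s (φ₃ (K + j)) < s (φ₃ (K + (j + 1))) := hs3 (by omega)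
        omega
    have h3 := h1 N₀
    have h4 : s (φ₃ (K + N₀)) = s (φ₃ K) + n₀ := hn₀
    omega
  obtain ⟨a1, a2, a3, a4⟩ := hK K le_rfl
  obtain ⟨b1, b2, b3, b4⟩ := hK (K + N₀) (by omega)
  have hne : ∀ k, ε / C₁ ≤ ‖u (φ₃ k)‖ → u (φ₃ k) ≠ 0 := by
    intro k hk h0
    rw [h0, norm_zero] at hk
    linarith
  have hcl : ‖u (φ₃ K) - u (φ₃ (K + N₀))‖ ≤ η * (ε / C₁) := by
    have h1 : u (φ₃ K) - u (φ₃ (K + N₀)) = (u (φ₃ K) - u₀) - (u (φ₃ (K + N₀)) - u₀) := by abel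
    rw [h1]
    refine (norm_sub_le _ _).trans ?_
    linarith
  set i := t (s (φ₃ K)) with hi
  set j := t (s (φ₃ (K + N₀))) with hj
  have hij : (N₀ : ℤ) ≤ |j - i| := by
    have h1 := ht (s (φ₃ K)) n₀
    have h2 : s (φ₃ (K + N₀)) = s (φ₃ K) + n₀ := hn₀
    rw [hj, h2]
    have h3 : (N₀ : ℤ) ≤ n₀ := by exact_mod_cast hn₀'
    exact h3.trans h1
  rcases le_total i j with hle | hle
  · obtain ⟨d, hd⟩ := Int.le.dest hle
    have hd' : N₀ ≤ d := by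
      rw [abs_of_nonneg (by omega)] at hij
      omega
    refine closing hr h hχ.mem hnet1 i d hd' a1 (by rw [hd]; exact b1) a2 (by rw [hd]; exact b2)
      (hne K a4) ?_
    rw [hd]
    exact hcl.trans (mul_le_mul_of_nonneg_left b4 hη.le)
  · obtain ⟨d, hd⟩ := Int.le.dest hle
    have hd' : N₀ ≤ d := by
      rw [abs_of_nonpos (by omega)] at hij
      omega
    refine closing hr h hχ.mem hnet1 j d hd' b1 (by rw [hd]; exact a1) b2 (by rw [hd]; exact a2)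
      (hne (K + N₀) b4) ?_
    rw [hd, ← norm_neg, neg_sub]
    exact hcl.trans (mul_le_mul_of_nonneg_left a4 hη.le)

end

end Pool.Agent.H74.PA.Dyn
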