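import Pool.Agent.H74.PA.Dyn2
import Pool.Agent.H74.PA.Alg

/-!
# There are no bounded orbits of tangent vectors
-/

set_option autoImplicit false
set_option linter.unusedSectionVars false

open scoped Manifold ContDiff Topology
open Filter Set Metric

universe u v w x

namespace Pool.Agent.H74.PA.Dyn

open Pool.Agent.H718R2.G Pool.Agent.TH80.OMS Pool.Agent.W564.SC Pool.Agent.W5h63.AX
open Pool.Agent.Y504.CO (NoBdd)

variable {m : ℕ} {M : Type u} [TopologicalSpace M] [T2Space M] [CompactSpace M]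
  [ChartedSpace (V m) M] [IsManifold (𝓡 m) ∞ M] {r : ℕ∞}

lemma der_inj {g g' : M → M} {y : M} (hg : MDifferentiableAt (𝓡 m) (𝓡 m) g y)
    (hg' : MDifferentiableAt (𝓡 m) (𝓡 m) g' (g y)) (hgg : ∀ z, g' (g z) = z) {v : V m}
    (hv : der m m g y v = 0) : v = 0 := by
  have h1 : der m m (fun z => g' (g z)) y = der m m g' (g y) ∘L der m m g y :=
    der_comp (g := g') hg' hg
  have h2 : der m m (fun z => g' (g z)) y = ContinuousLinearMap.id ℝ (V m) := by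
    rw [← der_id y]
    exact der_congr (Filter.Eventually.of_forall hgg)
  have h4 : v = der m m g' (g y) (der m m g y v) := congrArg (fun T => T v) (h2.symm.trans h1)
  rw [hv, map_zero] at h4
  exact h4

lemma TOrb.ne_zero (hr : 1 ≤ r) {f : DiffM m M r} {x : ℤ → M} {v : ℤ → V m} (h : TOrb f x v)
    {i₀ : ℤ} (h0 : v i₀ ≠ 0) (i : ℤ) : v i ≠ 0 := by
  intro hi
  have hf := Nl.contMDiff_one hr f
  have hf' := Nl.contMDiff_one hr f.symm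
  rcases le_total i₀ i with hle | hle
  · obtain ⟨d, rfl⟩ := Int.le.dest hle
    have h1 := (h.iter hf i₀ d).2
    rw [hi] at h1
    refine h0 (der_inj ((Nl.contMDiff_iterate hf d).mdifferentiableAt (by norm_num))
      ((Nl.contMDiff_iterate hf' d).mdifferentiableAt (by norm_num))
      (f.toEquiv.left_inv.iterate d) h1)
  · obtain ⟨d, rfl⟩ := Int.le.dest hle
    have h1 := (h.iter hf i d).2
    rw [hi, map_zero] at h1
    exact h0 h1.symm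

/-- the limits on one side -/
lemma side (hr : 1 ≤ r) {f : DiffM m M r} (hnet : Net m M f) {p : ℕ} {e : M → V p}
    (he : C1 m e) (hinj : ∀ x v, dv m e x v = 0 → v = 0) {x : ℤ → M} {v : ℤ → V m}
    (h : TOrb f x v) {C : ℝ} (hC : ∀ i, ‖dv m e (x i) (v i)‖ ≤ C) (hv : ∀ i, v i ≠ 0) (t : ℕ → ℤ)
    (ht : ∀ k n : ℕ, (n : ℤ) ≤ |t (k + n) - t k|) :
    ∃ (c : M) (χ : OpenPartialHomeomorph M (V m)) (s : ℕ → ℕ) (w : V m), GoodChart m M χ c ∧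
      StrictMono s ∧
      (∀ k, x (t (s k)) ∈ χ.source ∧ der m m χ (x (t (s k))) (v (t (s k))) ≠ 0) ∧
      Tendsto (fun k => x (t (s k))) atTop (𝓝 c) ∧
      Tendsto (fun k => ‖der m m χ (x (t (s k))) (v (t (s k)))‖⁻¹ •
        der m m χ (x (t (s k))) (v (t (s k)))) atTop (𝓝 w) ∧
      Tendsto (fun k => ‖der m m χ (x (t (s k))) (v (t (s k)))‖) atTop (𝓝 0) := by
  have hmet : TopologicalSpace.MetrizableSpace M := Pool.Agent.Y504.CO.exists_metric m M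
  have hdec := decay hr hnet he hinj h hC t ht
  obtain ⟨c, -, φ, hφ, hφ'⟩ := isCompact_univ.tendsto_subseq (fun k => mem_univ (x (t k)))
  obtain ⟨χ, hχ⟩ := Pool.Agent.W699.SC.gc m M c
  obtain ⟨C₁, C₂, hC₁, hC₂, hcmp⟩ := norm_compare he hinj hχ.mem hχ.src
  have hev : ∀ᶠ k in atTop, x (t (φ k)) ∈ χ.source ∧ ∀ w : V m, ‖dv m e (x (t (φ k))) w‖ ≤
      C₁ * ‖der m m χ (x (t (φ k))) w‖ ∧ ‖der m m χ (x (t (φ k))) w‖ ≤
      C₂ * ‖dv m e (x (t (φ k))) w‖ :=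
    (hφ'.eventually (χ.open_source.mem_nhds hχ.src)).and (hφ'.eventually hcmp)
  obtain ⟨K, hK⟩ := eventually_atTop.1 hev
  obtain ⟨w, -, ψ, hψ, hψ'⟩ := (isCompact_closedBall (0 : V m) 1).tendsto_subseq
    (x := fun k => ‖der m m χ (x (t (φ (K + k)))) (v (t (φ (K + k))))‖⁻¹ •
      der m m χ (x (t (φ (K + k)))) (v (t (φ (K + k))))) (fun k => by
    rw [mem_closedBall, dist_zero_right, norm_smul, norm_inv, norm_norm]
    exact inv_mul_le_one)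
  have hs : StrictMono fun k => φ (K + ψ k) := fun a b hab =>
    hφ (Nat.add_lt_add_left (hψ hab) K)
  have hs' : Tendsto (fun k => K + ψ k) atTop atTop :=
    tendsto_atTop_mono (fun k => Nat.le_add_left _ _) hψ.tendsto_atTop
  refine ⟨c, χ, fun k => φ (K + ψ k), w, hχ, hs, fun k => ?_, hφ'.comp hs', hψ', ?_⟩
  · obtain ⟨h1, h2⟩ := hK (K + ψ k) (Nat.le_add_right _ _)
    refine ⟨h1, fun h3 => hv (t (φ (K + ψ k))) (hinj (x (t (φ (K + ψ k)))) _ ?_)⟩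
    have h4 := (h2 (v (t (φ (K + ψ k))))).1
    rw [h3, norm_zero, mul_zero] at h4
    exact norm_le_zero_iff.1 h4
  · have h5 : Tendsto (fun k => C₂ * ‖dv m e (x (t (φ (K + ψ k)))) (v (t (φ (K + ψ k))))‖)
        atTop (𝓝 0) := by
      have h6 := (hdec.comp hs.tendsto_atTop).const_mul C₂
      rw [mul_zero] at h6
      exact h6
    exact squeeze_zero (fun k => norm_nonneg _)
      (fun k => ((hK (K + ψ k) (Nat.le_add_right _ _)).2 _).2) h5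

/-- the choice of two times on one side -/
lemma pick {χ : OpenPartialHomeomorph M (V m)} {c : M} (hχ : GoodChart m M χ c) {s : ℕ → ℕ}
    (hs : StrictMono s) {y : ℕ → M} {u : ℕ → V m} {w : V m}
    (hy : ∀ k, y (s k) ∈ χ.source ∧ u (s k) ≠ 0)
    (hc : Tendsto (fun k => y (s k)) atTop (𝓝 c))
    (hw : Tendsto (fun k => ‖u (s k)‖⁻¹ • u (s k)) atTop (𝓝 w))
    (hn : Tendsto (fun k => ‖u (s k)‖) atTop (𝓝 0)) {η δ : ℝ} (hη : 0 < η) (hδ : 0 < δ)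
    (N₀ : ℕ) : ∃ k d : ℕ, N₀ ≤ d ∧ (y k ∈ χ.source ∧ ‖χ (y k)‖ < η ∧ u k ≠ 0) ∧
      (y (k + d) ∈ χ.source ∧ ‖χ (y (k + d))‖ < η ∧ u (k + d) ≠ 0) ∧ ‖u (k + d)‖ < ‖u k‖ ∧
      ‖‖u k‖⁻¹ • u k - ‖u (k + d)‖⁻¹ • u (k + d)‖ ≤ δ := by
  have e2 : ∀ᶠ k in atTop, ‖χ (y (s k))‖ < η := by
    have h1 : Tendsto (fun k => χ (y (s k))) atTop (𝓝 (χ c)) :=
      (χ.continuousAt hχ.src).tendsto.comp hc
    rw [hχ.zero] at h1
    have h2 := h1.norm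
    rw [norm_zero] at h2
    exact h2.eventually (gt_mem_nhds hη)
  have e3 : ∀ᶠ k in atTop, ‖‖u (s k)‖⁻¹ • u (s k) - w‖ < δ / 2 :=
    (tendsto_iff_norm_sub_tendsto_zero.1 hw).eventually (gt_mem_nhds (by positivity))
  obtain ⟨K, hK⟩ := eventually_atTop.1 (e2.and e3)
  have e4 : ∀ᶠ k in atTop, ‖u (s k)‖ < ‖u (s K)‖ :=
    hn.eventually (gt_mem_nhds (norm_pos_iff.2 (hy K).2))
  obtain ⟨K', hK'⟩ := eventually_atTop.1 e4
  have hmono : ∀ j : ℕ, s K + j ≤ s (K + j) := by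
    intro j
    induction j with
    | zero => simp
    | succ j ih =>
      have h2 : s (K + j) < s (K + (j + 1)) := hs (by omega)
      omega
  obtain ⟨d, hd⟩ := Nat.exists_eq_add_of_le ((Nat.le_add_right _ _).trans (hmono (K' + N₀)))
  have hd' : N₀ ≤ d := by
    have h1 := hmono (K' + N₀)
    omega
  refine ⟨s K, d, hd', ⟨(hy K).1, (hK K le_rfl).1, (hy K).2⟩, ?_⟩
  rw [← hd]
  refine ⟨⟨(hy _).1, (hK (K + (K' + N₀)) (by omega)).1, (hy _).2⟩, hK' _ (by omega), ?_⟩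
  have h1 := (hK K le_rfl).2
  have h2 := (hK (K + (K' + N₀)) (by omega)).2
  have h3 : ‖u (s K)‖⁻¹ • u (s K) - ‖u (s (K + (K' + N₀)))‖⁻¹ • u (s (K + (K' + N₀))) =
      (‖u (s K)‖⁻¹ • u (s K) - w) -
        (‖u (s (K + (K' + N₀)))‖⁻¹ • u (s (K + (K' + N₀))) - w) := by abel
  rw [h3]
  refine (norm_sub_le _ _).trans ?_
  linarith

lemma norm_unit {u : V m} (hu : u ≠ 0) : ‖‖u‖⁻¹ • u‖ = 1 := by
  rw [norm_smul, norm_inv, norm_norm, inv_mul_cancel₀ (norm_ne_zero_iff.2 hu)]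

lemma unit_map {u u' : V m} (hu' : u' ≠ 0) (D : V m ≃L[ℝ] V m) (h : D u = u') :
    D (‖u‖⁻¹ • u) = (‖u'‖ / ‖u‖) • (‖u'‖⁻¹ • u') := by
  rw [map_smul, h, smul_smul]
  congr 1
  have : ‖u'‖ ≠ 0 := norm_ne_zero_iff.2 hu'
  field_simp

/-- Diffeomorphisms with the network property have no bounded orbits of tangent vectors over the
closure of the periodic points. -/
theorem noBddT (hIDX : S_IDX) (hCLO : S_CLO) (hr : 1 ≤ r) {f : DiffM m M r} (hnet : Net m M f)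
    {p : ℕ} {e : M → V p} (he : C1 m e) (hinj : ∀ x v, dv m e x v = 0 → v = 0) {K : Set M}
    (hK : K ⊆ closure (Per f)) : NoBddT m f e K := by
  intro x v hxK hx hv hbd
  obtain ⟨C, hC⟩ := hbd
  by_contra hcon
  push Not at hcon
  obtain ⟨i₀, hi₀⟩ := hcon
  have h : TOrb f x v := ⟨hx, hv⟩
  have hne := h.ne_zero hr hi₀
  obtain ⟨cm, χm, sm, wm, hχm, hsm, hpm, hcm, hwm, hnm⟩ := side hr hnet he hinj h hC hne
    (fun k => -(k : ℤ)) (by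
    intro k n
    have h1 : -((k + n : ℕ) : ℤ) - -(k : ℤ) = -(n : ℤ) := by push_cast; ring
    show (n : ℤ) ≤ |-((k + n : ℕ) : ℤ) - -(k : ℤ)|
    rw [h1, abs_neg]
    exact le_abs_self _)
  obtain ⟨cp, χp, sp, wp, hχp, hsp, hpp, hcp, hwp, hnp⟩ := side hr hnet he hinj h hC hne
    (fun k => (k : ℤ)) (by
    intro k n
    have h1 : ((k + n : ℕ) : ℤ) - (k : ℤ) = (n : ℤ) := by push_cast; ring
    show (n : ℤ) ≤ |((k + n : ℕ) : ℤ) - (k : ℤ)|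
    rw [h1]
    exact le_abs_self _)
  obtain ⟨η, N₀, hη, hN₀, hnet6⟩ := hnet 6 ![cm, cm, cp, cp, cp, cm] ![χm, χm, χp, χp, χp, χm]
    (by
      intro s
      fin_cases s
      · exact hχm
      · exact hχm
      · exact hχp
      · exact hχp
      · exact hχp
      · exact hχm)
  obtain ⟨δ, hδ0, hδ8, hδη⟩ : ∃ δ : ℝ, 0 < δ ∧ δ ≤ 1 / 8 ∧ 4 * δ ≤ η :=
    ⟨min (1 / 8) (η / 4), by positivity, min_le_left _ _, by
      linarith [min_le_right (1 / 8) (η / 4)]⟩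
  obtain ⟨i, n1, hn1, ⟨hi1, hi2, hi3⟩, ⟨hi'1, hi'2, hi'3⟩, hilt, hicl⟩ :=
    pick hχm hsm (y := fun k : ℕ => x (-(k : ℤ)))
      (u := fun k : ℕ => der m m χm (x (-(k : ℤ))) (v (-(k : ℤ)))) hpm hcm hwm hnm hη hδ0 N₀
  obtain ⟨j, n3, hn3, ⟨hj1, hj2, hj3⟩, ⟨hj'1, hj'2, hj'3⟩, hjlt, hjcl⟩ :=
    pick hχp hsp (y := fun k : ℕ => x (k : ℤ))
      (u := fun k : ℕ => der m m χp (x (k : ℤ)) (v (k : ℤ))) hpp hcp hwp hnp hη hδ0 N₀
  -- the edges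
  have hf := Nl.contMDiff_one hr f
  have hf' := Nl.contMDiff_one hr f.symm
  have q1 : -((i + n1 : ℕ) : ℤ) + (n1 : ℕ) = -(i : ℤ) := by push_cast; ring
  have qW : -((i + n1 : ℕ) : ℤ) + ((i + n1 + (j + n3) : ℕ) : ℤ) = ((j + n3 : ℕ) : ℤ) := by
    push_cast
    ring
  have q3 : (j : ℤ) + (n3 : ℕ) = ((j + n3 : ℕ) : ℤ) := by push_cast; ring
  have qz : -((i + n1 : ℕ) : ℤ) + ((i + n1 + j : ℕ) : ℤ) = (j : ℤ) := by push_cast; ring
  obtain ⟨D1, hD1, hD1'⟩ := h.edge hr (-((i + n1 : ℕ) : ℤ)) n1 hχm.mem hχm.mem hi'1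
    (by rw [q1]; exact hi1)
  obtain ⟨DW, hDW, hDW'⟩ := h.edge hr (-((i + n1 : ℕ) : ℤ)) (i + n1 + (j + n3)) hχm.mem hχp.mem
    hi'1 (by rw [qW]; exact hj'1)
  obtain ⟨D3, hD3, hD3'⟩ := h.edge hr (j : ℤ) n3 hχp.mem hχp.mem hj1 (by rw [q3]; exact hj'1)
  have o1 := (h.iter hf (-((i + n1 : ℕ) : ℤ)) n1).1
  have oW := (h.iter hf (-((i + n1 : ℕ) : ℤ)) (i + n1 + (j + n3))).1
  have o3 := (h.iter hf (j : ℤ) n3).1
  have oz := (h.iter hf (-((i + n1 : ℕ) : ℤ)) (i + n1 + j)).1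
  rw [q1] at hD1' o1
  rw [qW] at hDW' oW
  rw [q3] at hD3' o3
  rw [qz] at oz
  -- the periodic point
  obtain ⟨z, hzper, hz1, hz2, hz3, hz4⟩ : ∃ z ∈ Per f, z ∈ χm.source ∧ ‖χm z‖ < η ∧
      f^[i + n1 + j] z ∈ χp.source ∧ ‖χp (f^[i + n1 + j] z)‖ < η := by
    have hcontg : Continuous f^[i + n1 + j] := hf.continuous.iterate _
    have h1 : ∀ᶠ z in 𝓝 (x (-((i + n1 : ℕ) : ℤ))), z ∈ χm.source ∧ ‖χm z‖ < η ∧
        f^[i + n1 + j] z ∈ χp.source ∧ ‖χp (f^[i + n1 + j] z)‖ < η := by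
      have h2 : ∀ᶠ z in 𝓝 (x (-((i + n1 : ℕ) : ℤ))), ‖χm z‖ < η :=
        ((χm.continuousAt hi'1).norm).eventually (gt_mem_nhds hi'2)
      have h3 : ∀ᶠ z in 𝓝 (x (-((i + n1 : ℕ) : ℤ))), f^[i + n1 + j] z ∈ χp.source := by
        refine hcontg.continuousAt.eventually (χp.open_source.mem_nhds ?_)
        rw [oz]
        exact hj1
      have h4 : ∀ᶠ z in 𝓝 (x (-((i + n1 : ℕ) : ℤ))), ‖χp (f^[i + n1 + j] z)‖ < η := by
        have h5 : ContinuousAt (fun z => χp (f^[i + n1 + j] z)) (x (-((i + n1 : ℕ) : ℤ))) := by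
          refine ContinuousAt.comp (g := χp) ?_ hcontg.continuousAt
          rw [oz]
          exact χp.continuousAt hj1
        refine h5.norm.eventually (gt_mem_nhds ?_)
        show ‖χp (f^[i + n1 + j] (x (-((i + n1 : ℕ) : ℤ))))‖ < η
        rw [oz]
        exact hj2
      have h0 : ∀ᶠ z in 𝓝 (x (-((i + n1 : ℕ) : ℤ))), z ∈ χm.source :=
        χm.open_source.mem_nhds hi'1
      exact h0.and (h2.and (h3.and h4))
    obtain ⟨z, hz, hzp⟩ := mem_closure_iff_nhds.1 (hK (hxK _)) _ h1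
    exact ⟨z, hzp, hz⟩
  obtain ⟨b, hb1, hb⟩ := hzper
  obtain ⟨z1, hz1d⟩ : ∃ z1, z1 = f^[i + n1 + j] z := ⟨_, rfl⟩
  rw [← hz1d] at hz3 hz4
  obtain ⟨n4, hn4⟩ := Nat.exists_eq_add_of_le
    (show (i + n1 + j) ≤ b * (i + n1 + j + N₀) from by nlinarith)
  have hn4' : N₀ ≤ n4 := by nlinarith
  have o4 : f^[n4] z1 = z := by
    rw [hz1d, ← Function.iterate_add_apply, Nat.add_comm, ← hn4, Function.iterate_mul]
    exact Function.IsFixedPt.iterate hb _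
  obtain ⟨D4, hD4, -⟩ := chart_equiv hχp.mem hχm.mem (g := f^[n4]) (g' := f.symm^[n4]) (y := z1)
    ((Nl.contMDiff_iterate hf n4).mdifferentiableAt (by norm_num))
    ((Nl.contMDiff_iterate hf' n4).mdifferentiableAt (by norm_num))
    (f.toEquiv.left_inv.iterate n4) (f.toEquiv.right_inv.iterate n4) hz3 (by rw [o4]; exact hz1)
  -- names for the vectors
  obtain ⟨P, hP⟩ : ∃ P, P = x (-((i + n1 : ℕ) : ℤ)) := ⟨_, rfl⟩
  obtain ⟨Q, hQ⟩ : ∃ Q, Q = x (-(i : ℤ)) := ⟨_, rfl⟩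
  obtain ⟨P', hP'⟩ : ∃ P', P' = x (j : ℤ) := ⟨_, rfl⟩
  obtain ⟨Q', hQ'⟩ : ∃ Q', Q' = x ((j + n3 : ℕ) : ℤ) := ⟨_, rfl⟩
  obtain ⟨uP, huP⟩ : ∃ uP, uP = der m m χm (x (-((i + n1 : ℕ) : ℤ))) (v (-((i + n1 : ℕ) : ℤ))) :=
    ⟨_, rfl⟩
  obtain ⟨uQ, huQ⟩ : ∃ uQ, uQ = der m m χm (x (-(i : ℤ))) (v (-(i : ℤ))) := ⟨_, rfl⟩
  obtain ⟨uP', huP'⟩ : ∃ uP', uP' = der m m χp (x (j : ℤ)) (v (j : ℤ)) := ⟨_, rfl⟩
  obtain ⟨uQ', huQ'⟩ : ∃ uQ', uQ' = der m m χp (x ((j + n3 : ℕ) : ℤ)) (v ((j + n3 : ℕ) : ℤ)) :=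
    ⟨_, rfl⟩
  rw [← huP, ← huQ] at hicl hilt
  rw [← huP] at hi'3 hD1' hDW'
  rw [← huQ] at hi3 hD1'
  rw [← huP', ← huQ'] at hjcl hjlt
  rw [← huP'] at hj3 hD3'
  rw [← huQ'] at hj'3 hD3' hDW'
  rw [← hP] at hi'1 hi'2 hD1 hDW o1 oW
  rw [← hQ] at hi1 hi2 o1
  rw [← hP'] at hj1 hj2 hD3 o3
  rw [← hQ'] at hj'1 hj'2 oW o3
  clear hP hQ hP' hQ' huP huQ huP' huQ'
  have w1 : N₀ ≤ n1 ∧ f^[n1] P = Q ∧
      HasFDerivAt (fun v => χm (f^[n1] (χm.symm v))) (D1 : V m →L[ℝ] V m) (χm P) := ⟨hn1, o1, hD1⟩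
  have wW : N₀ ≤ i + n1 + (j + n3) ∧ f^[i + n1 + (j + n3)] P = Q' ∧
      HasFDerivAt (fun v => χp (f^[i + n1 + (j + n3)] (χm.symm v))) (DW : V m →L[ℝ] V m)
        (χm P) := ⟨by omega, oW, hDW⟩
  have w3 : N₀ ≤ n3 ∧ f^[n3] P' = Q' ∧
      HasFDerivAt (fun v => χp (f^[n3] (χp.symm v))) (D3 : V m →L[ℝ] V m) (χp P') :=
    ⟨hn3, o3, hD3⟩
  have w4 : N₀ ≤ n4 ∧ f^[n4] z1 = z ∧
      HasFDerivAt (fun v => χm (f^[n4] (χp.symm v))) (D4 : V m →L[ℝ] V m) (χp z1) :=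
    ⟨hn4', o4, hD4⟩
  obtain ⟨dd, hdd⟩ : ∃ dd : Fin 6 → Fin 6 → ℕ, dd =
      ![![n1, n1, i + n1 + (j + n3), i + n1 + (j + n3), i + n1 + (j + n3), 0],
        ![n1, n1, i + n1 + (j + n3), i + n1 + (j + n3), i + n1 + (j + n3), 0],
        ![0, 0, n3, n3, n3, 0], ![0, 0, n3, n3, n3, 0], ![0, 0, 0, 0, 0, n4],
        ![n1, n1, i + n1 + (j + n3), i + n1 + (j + n3), i + n1 + (j + n3), 0]] := ⟨_, rfl⟩
  have hedge : ∀ s s' : Fin 6, Alg.ok s s' = true → N₀ ≤ dd s s' ∧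
      f^[dd s s'] ((![P, P, P', P', z1, P] : Fin 6 → M) s) =
        (![Q, Q, Q', Q', Q', z] : Fin 6 → M) s' ∧
      HasFDerivAt (fun v => (![χm, χm, χp, χp, χp, χm] : Fin 6 → OpenPartialHomeomorph M (V m)) s'
        (f^[dd s s'] (((![χm, χm, χp, χp, χp, χm] :
          Fin 6 → OpenPartialHomeomorph M (V m)) s).symm v)))
        (Alg.AA (D1 : V m →L[ℝ] V m) (DW : V m →L[ℝ] V m) (D3 : V m →L[ℝ] V m)
          (D4 : V m →L[ℝ] V m) s s')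
        ((![χm, χm, χp, χp, χp, χm] : Fin 6 → OpenPartialHomeomorph M (V m)) s
          ((![P, P, P', P', z1, P] : Fin 6 → M) s)) := by
    intro s s' hok
    rw [hdd]
    fin_cases s <;> fin_cases s' <;>
      first
        | exact absurd hok (by decide)
        | exact w1
        | exact wW
        | exact w3
        | exact w4
  have hpts : ∀ s : Fin 6, (![P, P, P', P', z1, P] : Fin 6 → M) s ∈
      ((![χm, χm, χp, χp, χp, χm] : Fin 6 → OpenPartialHomeomorph M (V m)) s).source ∧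
      (![Q, Q, Q', Q', Q', z] : Fin 6 → M) s ∈
      ((![χm, χm, χp, χp, χp, χm] : Fin 6 → OpenPartialHomeomorph M (V m)) s).source ∧
      ‖(![χm, χm, χp, χp, χp, χm] : Fin 6 → OpenPartialHomeomorph M (V m)) s
        ((![P, P, P', P', z1, P] : Fin 6 → M) s)‖ ≤ η ∧
      ‖(![χm, χm, χp, χp, χp, χm] : Fin 6 → OpenPartialHomeomorph M (V m)) s
        ((![Q, Q, Q', Q', Q', z] : Fin 6 → M) s)‖ ≤ η := by
    intro s
    fin_cases s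
    · exact ⟨hi'1, hi1, hi'2.le, hi2.le⟩
    · exact ⟨hi'1, hi1, hi'2.le, hi2.le⟩
    · exact ⟨hj1, hj'1, hj2.le, hj'2.le⟩
    · exact ⟨hj1, hj'1, hj2.le, hj'2.le⟩
    · exact ⟨hz3, hj'1, hz4.le, hj'2.le⟩
    · exact ⟨hi'1, hz1, hi'2.le, hz2.le⟩
  have hNetH : Alg.NetH η (D1 : V m →L[ℝ] V m) (DW : V m →L[ℝ] V m) (D3 : V m →L[ℝ] V m)
      (D4 : V m →L[ℝ] V m) := by
    intro E hE w q hq hwq hok
    exact hnet6 ![P, P, P', P', z1, P] ![Q, Q, Q', Q', Q', z] E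
      (fun s => ⟨(hpts s).1, (hpts s).2.1, (hpts s).2.2.1, (hpts s).2.2.2, hE s⟩)
      (fun j => dd (w j) (w (j + 1)))
      (fun j => Alg.AA (D1 : V m →L[ℝ] V m) (DW : V m →L[ℝ] V m) (D3 : V m →L[ℝ] V m)
          (D4 : V m →L[ℝ] V m) (w j) (w (j + 1))) w q hq hwq
      (fun j hj => hedge _ _ (hok j hj))
  -- the rotations
  obtain ⟨E₁, hE₁, hE₁'⟩ := exists_rot (‖uP‖⁻¹ • uP) (‖uQ‖⁻¹ • uQ)
    (norm_ne_zero_iff.1 (by rw [norm_unit hi3]; norm_num))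
  obtain ⟨E₂, hE₂, hE₂'⟩ := exists_rot (‖uP'‖⁻¹ • uP') (‖uQ'‖⁻¹ • uQ')
    (norm_ne_zero_iff.1 (by rw [norm_unit hj'3]; norm_num))
  rw [norm_unit hi3, div_one] at hE₁'
  rw [norm_unit hj'3, div_one] at hE₂'
  have hPpos : 0 < ‖uP‖ := norm_pos_iff.2 hi'3
  have hP'pos : 0 < ‖uP'‖ := norm_pos_iff.2 hj3
  have hQ'pos : 0 < ‖uQ'‖ := norm_pos_iff.2 hj'3
  refine Alg.alg hIDX hCLO hδ0 hδ8 hδη hNetH (E₁ := E₁) (E₂ := E₂) ?_ ?_
    (a := ‖uP‖⁻¹ • uP) (b := ‖uQ'‖⁻¹ • uQ') (norm_ne_zero_iff.1 (by rw [norm_unit hi'3]; norm_num))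
    (g := ‖uQ‖ / ‖uP‖) (g' := ‖uQ'‖ / ‖uP'‖) (c := ‖uQ'‖ / ‖uP‖) ?_ ?_ ?_ ?_ ?_ ?_
  · refine hE₁'.trans ?_
    rw [← norm_neg, neg_sub]
    exact hicl
  · exact hE₂'.trans hjcl
  · rw [lt_div_iff₀ hPpos, one_mul]
    exact hilt
  · positivity
  · rw [div_lt_one hP'pos]
    exact hjlt
  · rw [unit_map hi3 D1 hD1', map_smul, hE₁]
  · exact unit_map hj'3 DW hDW'
  · rw [hE₂]
    exact unit_map hj'3 D3 hD3'

end Pool.Agent.H74.PA.Dyn
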