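import Pool.Agent.H74.PA.Dyn3

/-!
# Hyperbolic sets, bounded orbits of tangent vectors, products
-/

set_option autoImplicit false
set_option linter.unusedSectionVars false

open scoped Manifold ContDiff Topology
open Filter Set Metric

universe u v w x

namespace Pool.Agent.H74.PA.Fin

open Pool.Agent.H718R2.G Pool.Agent.TH80.OMS Pool.Agent.W564.SC Pool.Agent.W5h63.AX
  Pool.Agent.Y271.CP Pool.Agent.H74.PA.Dyn

section one

variable {n : ℕ} {N : Type u} [TopologicalSpace N] [T2Space N] [CompactSpace N]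
  [ChartedSpace (V n) N] [IsManifold (𝓡 n) ∞ N] {r : ℕ∞}

/-- immersions exist -/
lemma exists_imm (n : ℕ) (N : Type u) [TopologicalSpace N] [T2Space N] [CompactSpace N]
    [ChartedSpace (V n) N] [IsManifold (𝓡 n) ∞ N] :
    ∃ (p : ℕ) (e : N → V p), C1 n e ∧ ∀ x v, dv n e x v = 0 → v = 0 := by
  obtain ⟨p, e, he, -, hinj⟩ := exists_embedding_euclidean_of_compact (I := 𝓡 n) (M := N)
  refine ⟨p, e, he.of_le (by exact_mod_cast le_top), fun x v hv => ?_⟩
  refine hinj x (?_ : (mfderiv (𝓡 n) (𝓡 p) e x) v = (mfderiv (𝓡 n) (𝓡 p) e x) 0)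
  rw [map_zero]
  exact hv

/-- `C¹` maps in charts -/
lemma c1_chart {p : ℕ} {e : N → V p} (he : C1 n e) {χ : OpenPartialHomeomorph N (V n)}
    (hχ : χ ∈ IsManifold.maximalAtlas (𝓡 n) ∞ N) {c : N} (hc : c ∈ χ.source) :
    ∃ C : ℝ, 0 < C ∧ ∀ᶠ y in 𝓝 c, ∀ v : V n, ‖dv n e y v‖ ≤ C * ‖der n n χ y v‖ := by
  have hee : ∀ y ∈ χ.source, ContDiffAt ℝ 1 (fun u => e (χ.symm u)) (χ y) := by
    intro y hy
    have h1 : ContMDiffAt (𝓡 n) (𝓡 p) 1 (fun u => e (χ.symm u)) (χ y) := by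
      refine ContMDiffAt.comp (I' := 𝓡 n) (M' := N) (χ y) (g := e) (f := χ.symm) ?_ ?_
      · exact ContMDiff.contMDiffAt he
      · exact ((contMDiffOn_symm_of_mem_maximalAtlas hχ _ (χ.map_source hy)).contMDiffAt
          (χ.open_target.mem_nhds (χ.map_source hy))).of_le (by exact_mod_cast le_top)
    exact contMDiffAt_iff_contDiffAt.1 h1
  have hdv : ∀ y ∈ χ.source, ∀ v, dv n e y v =
      fderiv ℝ (fun u => e (χ.symm u)) (χ y) (der n n χ y v) := by
    intro y hy v
    have h1 : der n p (fun z => e (χ.symm (χ z))) y =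
        der n p (fun u => e (χ.symm u)) (χ y) ∘L der n n χ y := by
      refine der_comp (g := fun u => e (χ.symm u)) ?_ (md_chart hχ hy)
      exact mdifferentiableAt_iff_differentiableAt.2 ((hee y hy).differentiableAt (by norm_num))
    have h2 : der n p (fun z => e (χ.symm (χ z))) y = der n p e y := by
      refine der_congr ?_
      filter_upwards [χ.open_source.mem_nhds hy] with z hz
      rw [χ.left_inv hz]
    rw [der_eq_fderiv] at h1
    exact congrArg (fun T => T v) (h2.symm.trans h1)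
  have hcont : ContinuousAt (fun y => fderiv ℝ (fun u => e (χ.symm u)) (χ y)) c := by
    have h1 : ContinuousAt (fderiv ℝ (fun u => e (χ.symm u))) (χ c) :=
      (hee c hc).continuousAt_fderiv (by norm_num)
    exact ContinuousAt.comp (g := fderiv ℝ (fun u => e (χ.symm u))) h1 (χ.continuousAt hc)
  refine ⟨‖fderiv ℝ (fun u => e (χ.symm u)) (χ c)‖ + 1, by positivity, ?_⟩
  have h2 := hcont.norm.eventually (gt_mem_nhds (lt_add_one _))
  filter_upwards [h2, χ.open_source.mem_nhds hc] with y hy hys v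
  rw [hdv y hys v]
  exact ((fderiv ℝ (fun u => e (χ.symm u)) (χ y)).le_opNorm _).trans
    (mul_le_mul_of_nonneg_right hy.le (norm_nonneg _))

/-- The norm given by an immersion bounds the derivatives of `C¹` maps. -/
lemma norm_le {p p' : ℕ} {e : N → V p} (he : C1 n e) (hinj : ∀ x v, dv n e x v = 0 → v = 0)
    {e' : N → V p'} (he' : C1 n e') :
    ∃ C : ℝ, 0 ≤ C ∧ ∀ y v, ‖dv n e' y v‖ ≤ C * ‖dv n e y v‖ := by
  have h1 : ∀ c : N, ∃ C : ℝ, 0 ≤ C ∧ ∀ᶠ y in 𝓝 c, ∀ v, ‖dv n e' y v‖ ≤ C * ‖dv n e y v‖ := by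
    intro c
    obtain ⟨χ, hχ⟩ := Pool.Agent.W699.SC.gc n N c
    obtain ⟨C₁, C₂, hC₁, hC₂, hcmp⟩ := norm_compare he hinj hχ.mem hχ.src
    obtain ⟨C₃, hC₃, hcmp'⟩ := c1_chart he' hχ.mem hχ.src
    refine ⟨C₃ * C₂, by positivity, ?_⟩
    filter_upwards [hcmp, hcmp'] with y hy hy' v
    calc ‖dv n e' y v‖ ≤ C₃ * ‖der n n χ y v‖ := hy' v
      _ ≤ C₃ * (C₂ * ‖dv n e y v‖) := mul_le_mul_of_nonneg_left (hy v).2 hC₃.le
      _ = C₃ * C₂ * ‖dv n e y v‖ := by ring
  choose C hC0 hC using h1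
  obtain ⟨t, ht⟩ := isCompact_univ.elim_nhds_subcover (fun c => {y | ∀ v, ‖dv n e' y v‖ ≤
    C c * ‖dv n e y v‖}) (fun c _ => hC c)
  refine ⟨∑ c ∈ t, C c, Finset.sum_nonneg fun c _ => hC0 c, fun y v => ?_⟩
  have h2 := ht.2 (mem_univ y)
  rw [mem_iUnion₂] at h2
  obtain ⟨c, hct, hcy⟩ := h2
  refine (hcy v).trans (mul_le_mul_of_nonneg_right ?_ (norm_nonneg _))
  exact Finset.single_le_sum (fun c _ => hC0 c) hct

lemma dv_iter {p : ℕ} {e : N → V p} (he : C1 n e) {F : N → N} (hF : ContMDiff (𝓡 n) (𝓡 n) 1 F)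
    {x : ℤ → N} {v : ℤ → V n} (h : TOrb F x v) (i : ℤ) (k : ℕ) :
    dv n (fun y => e (F^[k] y)) (x i) (v i) = dv n e (x (i + k)) (v (i + k)) := by
  obtain ⟨h1, h2⟩ := h.iter hF i k
  have h3 : der n p (fun y => e (F^[k] y)) (x i) = der n p e (F^[k] (x i)) ∘L
      der n n F^[k] (x i) :=
    der_comp (g := e) ((ContMDiff.contMDiffAt he).mdifferentiableAt (by norm_num))
      ((Nl.contMDiff_iterate hF k).mdifferentiableAt (by norm_num))
  show der n p (fun y => e (F^[k] y)) (x i) (v i) = _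
  rw [h3, ← h1, ← h2]
  rfl

lemma contr_step {p : ℕ} {e : N → V p} (he : C1 n e) {F : N → N}
    (hF : ContMDiff (𝓡 n) (𝓡 n) 1 F) {K : Set N} {E : N → Submodule ℝ (V n)} {C μ : ℝ}
    (hc : Contracted n F K e E C μ) {x : ℤ → N} {v : ℤ → V n} (h : TOrb F x v) (i : ℤ)
    (hx : x i ∈ K) (hv : v i ∈ E (x i)) (k : ℕ) :
    ‖dv n e (x (i + k)) (v (i + k))‖ ≤ C * μ ^ k * ‖dv n e (x i) (v i)‖ := by
  rw [← dv_iter he hF h]
  exact hc.contr _ hx _ hv k

lemma torb_symm (hr : 1 ≤ r) {F : DiffM n N r} {x : ℤ → N} {v : ℤ → V n} (h : TOrb F x v) :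
    TOrb F.symm (fun i => x (-i)) (fun i => v (-i)) := by
  have hinv : ∀ i, F.symm (x (i + 1)) = x i := fun i => by
    rw [← h.pt]
    exact F.toEquiv.symm_apply_apply (x i)
  refine ⟨fun i => ?_, fun i => ?_⟩
  · have h1 := hinv (-(i + 1))
    rw [show -(i + 1) + 1 = -i by ring] at h1
    exact h1
  · have h1 := h.vec (-(i + 1))
    rw [show -(i + 1) + 1 = -i by ring] at h1
    have h2 := h.pt (-(i + 1))
    rw [show -(i + 1) + 1 = -i by ring] at h2
    have h3 : der n n (fun z => F.symm (F z)) (x (-(i + 1))) =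
        der n n F.symm (F (x (-(i + 1)))) ∘L der n n F (x (-(i + 1))) :=
      der_comp (g := F.symm) ((Nl.contMDiff_one hr F.symm).mdifferentiableAt (by norm_num))
        ((Nl.contMDiff_one hr F).mdifferentiableAt (by norm_num))
    have h4 : der n n (fun z => F.symm (F z)) (x (-(i + 1))) = ContinuousLinearMap.id ℝ (V n) := by
      rw [← der_id (x (-(i + 1)))]
      exact der_congr (Filter.Eventually.of_forall fun z => F.toEquiv.symm_apply_apply z)
    have h5 : v (-(i + 1)) = der n n F.symm (F (x (-(i + 1)))) (der n n F (x (-(i + 1)))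
        (v (-(i + 1)))) := congrArg (fun T => T (v (-(i + 1)))) (h4.symm.trans h3)
    rw [h2] at h5
    show df n F.symm (x (-i)) (v (-i)) = v (-(i + 1))
    rw [h5, ← h1]
    rfl

/-- Hyperbolic sets have no bounded orbits of tangent vectors. -/
theorem noBddT_hyp (hr : 1 ≤ r) {F : DiffM n N r} {K : Set N}
    (h : IsHyperbolic n F F.symm K) {p : ℕ} {e : N → V p} (he : C1 n e)
    (hinj : ∀ x v, dv n e x v = 0 → v = 0) : NoBddT n F e K := by
  obtain ⟨p', e', Es, Eu, C, μ, he', hinj', hμ0, hμ1, hcompl, hs, hu⟩ := h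
  intro x v hxK hx hv hbd
  obtain ⟨B, hB⟩ := hbd
  obtain ⟨C', hC'0, hC'⟩ := norm_le he hinj he'
  have hF := Nl.contMDiff_one hr F
  have hF' := Nl.contMDiff_one hr F.symm
  have hB' : ∀ i, ‖dv n e' (x i) (v i)‖ ≤ C' * B := fun i =>
    (hC' _ _).trans (mul_le_mul_of_nonneg_left (hB i) hC'0)
  have hsplit : ∀ i, ∃ s u, s ∈ Es (x i) ∧ u ∈ Eu (x i) ∧ s + u = v i := by
    intro i
    exact Submodule.codisjoint_iff_exists_add_eq.1 (hcompl _ (hxK i)).codisjoint (v i)
  choose s u hsE huE hsu using hsplit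
  have hTs0 : ∀ i, df n F (x i) (s i) ∈ Es (x (i + 1)) := fun i => by
    have h1 := (hs.inv _ (hxK i) (s i)).1 (hsE i)
    rwa [hx] at h1
  have hinv : ∀ i, F.symm (x (i + 1)) = x i := fun i => by
    rw [← hx]
    exact F.toEquiv.symm_apply_apply (x i)
  have hdd : ∀ i w, df n F.symm (x (i + 1)) (df n F (x i) w) = w := by
    intro i w
    have h3 : der n n (fun z => F.symm (F z)) (x i) =
        der n n F.symm (F (x i)) ∘L der n n F (x i) :=
      der_comp (g := F.symm) (hF'.mdifferentiableAt (by norm_num))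
        (hF.mdifferentiableAt (by norm_num))
    have h4 : der n n (fun z => F.symm (F z)) (x i) = ContinuousLinearMap.id ℝ (V n) := by
      rw [← der_id (x i)]
      exact der_congr (Filter.Eventually.of_forall fun z => F.toEquiv.symm_apply_apply z)
    have h5 : w = der n n F.symm (F (x i)) (der n n F (x i) w) :=
      congrArg (fun T => T w) (h4.symm.trans h3)
    rw [hx] at h5
    exact h5.symm
  have hTu0 : ∀ i, df n F (x i) (u i) ∈ Eu (x (i + 1)) := fun i => by
    refine (hu.inv _ (hxK (i + 1)) _).2 ?_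
    rw [hdd, hinv]
    exact huE i
  have hstep : ∀ i, df n F (x i) (s i) = s (i + 1) ∧ df n F (x i) (u i) = u (i + 1) := by
    intro i
    have h1 : df n F (x i) (s i) + df n F (x i) (u i) = s (i + 1) + u (i + 1) := by
      rw [hsu, ← hv, ← hsu]
      exact (map_add (der n n F (x i)) _ _).symm
    have h2 : df n F (x i) (s i) - s (i + 1) = u (i + 1) - df n F (x i) (u i) := by
      rw [sub_eq_sub_iff_add_eq_add, h1, add_comm]
    have h3 : df n F (x i) (s i) - s (i + 1) ∈ Es (x (i + 1)) ⊓ Eu (x (i + 1)) := by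
      refine ⟨Submodule.sub_mem _ (hTs0 i) (hsE _), ?_⟩
      rw [h2]
      exact Submodule.sub_mem _ (huE _) (hTu0 i)
    rw [(hcompl _ (hxK (i + 1))).disjoint.eq_bot] at h3
    have h4 : df n F (x i) (s i) - s (i + 1) = 0 := (Submodule.mem_bot ℝ).1 h3
    refine ⟨sub_eq_zero.1 h4, ?_⟩
    rw [h2] at h4
    exact (sub_eq_zero.1 h4).symm
  have hTs : TOrb F x s := ⟨hx, fun i => (hstep i).1⟩
  have hTu : TOrb F x u := ⟨hx, fun i => (hstep i).2⟩
  have hTv : TOrb F x v := ⟨hx, hv⟩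
  have hpow : Tendsto (fun k : ℕ => μ ^ k) atTop (𝓝 0) :=
    tendsto_pow_atTop_nhds_zero_of_lt_one hμ0.le hμ1
  -- a general statement: contracted by `F.symm` and bounded at positive times
  have key : ∀ (G : DiffM n N r) (E : N → Submodule ℝ (V n)), Contracted n G K e' E C μ →
      ∀ (y : ℤ → N) (b : ℤ → V n), TOrb G y b → (∀ i, y i ∈ K) → (∀ i, b i ∈ E (y i)) →
      (∀ i, ∃ D : ℝ, ∀ k : ℕ, ‖dv n e' (y (i - k)) (b (i - k))‖ ≤ D) → ∀ i, b i = 0 := by
    intro G E hcG y b hT hyK hbE hbb i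
    obtain ⟨D, hD⟩ := hbb i
    have hG := Nl.contMDiff_one hr G
    have h1 : ∀ k : ℕ, ‖dv n e' (y i) (b i)‖ ≤ |C| * μ ^ k * |D| := by
      intro k
      have h2 := contr_step he' hG hcG hT (i - k) (hyK _) (hbE _) k
      rw [sub_add_cancel] at h2
      refine h2.trans ?_
      have h3 : C * μ ^ k ≤ |C| * μ ^ k :=
        mul_le_mul_of_nonneg_right (le_abs_self C) (pow_nonneg hμ0.le k)
      exact mul_le_mul h3 ((hD k).trans (le_abs_self D)) (norm_nonneg _) (by positivity)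
    have h4 : Tendsto (fun k : ℕ => |C| * μ ^ k * |D|) atTop (𝓝 0) := by
      have h5 := (hpow.const_mul |C|).mul_const |D|
      rw [mul_zero, zero_mul] at h5
      exact h5
    have h6 : ‖dv n e' (y i) (b i)‖ ≤ 0 := ge_of_tendsto' h4 h1
    exact hinj' (y i) (b i) (norm_le_zero_iff.1 h6)
  -- the unstable part vanishes
  have hu0 : ∀ i, u i = 0 := by
    intro i
    have h1 := key F.symm Eu hu (fun i => x (-i)) (fun i => u (-i)) (torb_symm hr hTu)
      (fun i => hxK _) (fun i => huE _) (fun i => ?_) (-i)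
    · rw [neg_neg] at h1
      exact h1
    · refine ⟨C' * B + |C| * ‖dv n e' (x (-i)) (s (-i))‖, fun k => ?_⟩
      have h2 : -(i - (k : ℤ)) = -i + k := by ring
      show ‖dv n e' (x (-(i - (k : ℤ)))) (u (-(i - (k : ℤ))))‖ ≤ _
      rw [h2]
      have h3 : u (-i + k) = v (-i + k) - s (-i + k) := by rw [← hsu, add_sub_cancel_left]
      have h4 : dv n e' (x (-i + k)) (u (-i + k)) =
          dv n e' (x (-i + k)) (v (-i + k)) - dv n e' (x (-i + k)) (s (-i + k)) := by
        rw [h3]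
        exact map_sub (der n p' e' (x (-i + k))) _ _
      rw [h4]
      refine (norm_sub_le _ _).trans (add_le_add (hB' _) ?_)
      refine (contr_step he' hF hs hTs (-i) (hxK _) (hsE _) k).trans ?_
      refine mul_le_mul_of_nonneg_right ?_ (norm_nonneg _)
      calc C * μ ^ k ≤ |C| * μ ^ k :=
            mul_le_mul_of_nonneg_right (le_abs_self C) (pow_nonneg hμ0.le k)
        _ ≤ |C| * 1 := mul_le_mul_of_nonneg_left (pow_le_one₀ hμ0.le hμ1.le) (abs_nonneg C)
        _ = |C| := mul_one _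
  have hvs : ∀ i, v i = s i := fun i => by rw [← hsu, hu0, add_zero]
  intro i
  rw [hvs]
  refine key F Es hs x s hTs hxK hsE (fun i => ⟨C' * B, fun k => ?_⟩) i
  rw [← hvs]
  exact hB' _

end one

end Pool.Agent.H74.PA.Fin
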