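import Mathlib
import Pool.Agent.H74.PA.Stm
import Pool.Agent.H74.G.R_pool_sql_team_seeded_9f66d723.W5h63.AX.Split

set_option autoImplicit false

/-! Project PROD (helper74), IDX: robustly connected hyperbolic matrices have the same index
(helper67). -/

namespace Pool.Agent.H74.PA.Idx

open Polynomial Filter Topology Metric
open Pool.Agent.H718R2.G Pool.Agent.R775.HL

noncomputable section

/-! ### extrapolation of polynomials -/

lemma extrap (d : ℕ) {δ : ℝ} (hδ : 0 < δ) : ∃ K : ℝ, 1 ≤ K ∧ ∀ q : ℝ[X], q.natDegree ≤ d →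
    ∀ s : ℝ, (∀ t : ℝ, |t| ≤ δ → |q.eval t| ≤ s) → |q.eval 1| ≤ K * s := by
  classical
  set S := Finset.range (d + 1) with hS
  set v : ℕ → ℝ := fun i => δ * i / (d + 1) with hv
  have hd : (0 : ℝ) < d + 1 := by positivity
  have hinj : Set.InjOn v S := by
    intro i _ j _ h
    simp only [hv] at h
    rw [div_left_inj' hd.ne'] at h
    exact_mod_cast mul_left_cancel₀ hδ.ne' h
  have hvδ : ∀ i ∈ S, |v i| ≤ δ := by
    intro i hi
    rw [hS, Finset.mem_range] at hi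
    have h1 : (i : ℝ) ≤ d + 1 := by exact_mod_cast hi.le
    simp only [hv]
    rw [abs_of_nonneg (by positivity), div_le_iff₀ hd]
    exact mul_le_mul_of_nonneg_left h1 hδ.le
  have hsum : 0 ≤ ∑ i ∈ S, |(Lagrange.basis S v i).eval 1| :=
    Finset.sum_nonneg fun i _ => abs_nonneg _
  refine ⟨1 + ∑ i ∈ S, |(Lagrange.basis S v i).eval 1|, by linarith, ?_⟩
  intro q hq s hs
  have hs0 : 0 ≤ s := (abs_nonneg _).trans (hs 0 (by rw [abs_zero]; exact hδ.le))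
  have h1 : q = Lagrange.interpolate S v fun i => q.eval (v i) := by
    refine Lagrange.eq_interpolate hinj ?_
    rw [hS, Finset.card_range]
    refine (degree_le_natDegree).trans_lt ?_
    exact_mod_cast Nat.lt_succ_of_le hq
  have h2 : q.eval 1 = ∑ i ∈ S, q.eval (v i) * (Lagrange.basis S v i).eval 1 := by
    conv_lhs => rw [h1, Lagrange.interpolate_apply, eval_finsetSum]
    refine Finset.sum_congr rfl fun i _ => ?_
    rw [eval_mul, eval_C]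
  rw [h2]
  calc |∑ i ∈ S, q.eval (v i) * (Lagrange.basis S v i).eval 1|
      ≤ ∑ i ∈ S, |q.eval (v i) * (Lagrange.basis S v i).eval 1| := Finset.abs_sum_le_sum_abs _ _
    _ ≤ ∑ i ∈ S, s * |(Lagrange.basis S v i).eval 1| := by
        refine Finset.sum_le_sum fun i hi => ?_
        rw [abs_mul]
        exact mul_le_mul_of_nonneg_right (hs _ (hvδ i hi)) (abs_nonneg _)
    _ = (∑ i ∈ S, |(Lagrange.basis S v i).eval 1|) * s := by rw [← Finset.mul_sum, mul_comm]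
    _ ≤ _ := by nlinarith

/-! ### the determinants -/

/-- `det (ρ - X)` -/
def D {m : ℕ} (X : V m →L[ℝ] V m) (ρ : ℝ) : ℝ := (X : V m →ₗ[ℝ] V m).charpoly.eval ρ

lemma D_eq {m : ℕ} (X : V m →L[ℝ] V m) (ρ : ℝ) :
    D X ρ = LinearMap.det ((ρ • (1 : V m →L[ℝ] V m) - X : V m →L[ℝ] V m) : V m →ₗ[ℝ] V m) := by
  unfold D
  exact LinearMap.eval_charpoly _ _

lemma mul_app {m : ℕ} (A B : V m →L[ℝ] V m) (v : V m) : (A * B) v = A (B v) := rfl
lemma smul_app {m : ℕ} (t : ℝ) (B : V m →L[ℝ] V m) (v : V m) : (t • B) v = t • B v := rfl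
lemma add_app {m : ℕ} (A B : V m →L[ℝ] V m) (v : V m) : (A + B) v = A v + B v := rfl
lemma sub_app {m : ℕ} (A B : V m →L[ℝ] V m) (v : V m) : (A - B) v = A v - B v := rfl
lemma neg_app {m : ℕ} (A : V m →L[ℝ] V m) (v : V m) : (-A) v = - A v := rfl
lemma one_app {m : ℕ} (v : V m) : (1 : V m →L[ℝ] V m) v = v := rfl

lemma D_cont {m : ℕ} (ρ : ℝ) : Continuous fun X : V m →L[ℝ] V m => D X ρ := by
  have h : Continuous fun X : V m →L[ℝ] V m => (ρ • (1 : V m →L[ℝ] V m) - X).det :=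
    ContinuousLinearMap.continuous_det.comp (continuous_const.sub continuous_id)
  refine h.congr fun X => ?_
  rw [D_eq]

/-- a determinant of a line of maps is a polynomial -/
lemma det_line {m : ℕ} (M N : V m →L[ℝ] V m) : ∃ q : ℝ[X], q.natDegree ≤ m ∧ ∀ t : ℝ,
    q.eval t = LinearMap.det ((N + t • M : V m →L[ℝ] V m) : V m →ₗ[ℝ] V m) := by
  classical
  set b := Module.finBasis ℝ (V m) with hb
  set A := LinearMap.toMatrix b b (M : V m →ₗ[ℝ] V m) with hA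
  set B := LinearMap.toMatrix b b (N : V m →ₗ[ℝ] V m) with hB
  refine ⟨Matrix.det ((X : ℝ[X]) • A.map C + B.map C), ?_, fun t => ?_⟩
  · refine (natDegree_det_X_add_C_le A B).trans ?_
    rw [Fintype.card_fin, finrank_euclideanSpace, Fintype.card_fin]
  · have h1 : ((N + t • M : V m →L[ℝ] V m) : V m →ₗ[ℝ] V m) =
        (N : V m →ₗ[ℝ] V m) + t • (M : V m →ₗ[ℝ] V m) := rfl
    rw [h1, ← LinearMap.det_toMatrix b, map_add, map_smul, ← hA, ← hB]
    have h2 := RingHom.map_det (evalRingHom t) ((X : ℝ[X]) • A.map C + B.map C)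
    rw [coe_evalRingHom] at h2
    rw [h2]
    congr 1
    ext i j
    simp only [RingHom.mapMatrix_apply, Matrix.map_apply, Matrix.add_apply, Matrix.smul_apply,
      smul_eq_mul, coe_evalRingHom, eval_add, eval_mul, eval_X, eval_C]
    ring

/-- from a small ball to a big one -/
lemma poly_ext (m : ℕ) {C η : ℝ} (hC : 0 ≤ C) (hη : 0 < η) : ∃ K : ℝ, 1 ≤ K ∧
    ∀ (A B : V m →L[ℝ] V m) (ρ s : ℝ), (∀ R : V m →L[ℝ] V m, ‖R - 1‖ ≤ η → |D (A * R * B) ρ| ≤ s) →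
      ∀ R : V m →L[ℝ] V m, ‖R - 1‖ ≤ C → |D (A * R * B) ρ| ≤ K * s := by
  obtain ⟨K, hK1, hK⟩ := extrap m (δ := η / (C + 1)) (by positivity)
  refine ⟨K, hK1, ?_⟩
  intro A B ρ s hs R hR
  obtain ⟨q, hq1, hq2⟩ := det_line (-(A * (R - 1) * B)) (ρ • (1 : V m →L[ℝ] V m) - A * B)
  have h1 : ∀ t : ℝ, q.eval t = D (A * (1 + t • (R - 1)) * B) ρ := by
    intro t
    have e : ρ • (1 : V m →L[ℝ] V m) - A * B + t • -(A * (R - 1) * B) =
        ρ • (1 : V m →L[ℝ] V m) - A * (1 + t • (R - 1)) * B := by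
      ext1 v
      simp only [add_app, sub_app, smul_app, neg_app, mul_app, one_app, map_add, map_sub, map_smul]
      module
    rw [hq2, D_eq, e]
  have h2 := hK q hq1 s (by
    intro t ht
    rw [h1]
    refine hs _ ?_
    rw [add_sub_cancel_left, norm_smul, Real.norm_eq_abs]
    calc |t| * ‖R - 1‖ ≤ η / (C + 1) * C := mul_le_mul ht hR (norm_nonneg _) (by positivity)
      _ ≤ η := by
        rw [div_mul_eq_mul_div, div_le_iff₀ (by positivity)]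
        nlinarith)
  rw [h1, one_smul, add_sub_cancel] at h2
  exact h2

/-! ### counting the roots -/

/-- the complex roots -/
def rts {m : ℕ} (X : V m →L[ℝ] V m) : Multiset ℂ :=
  (((X : V m →ₗ[ℝ] V m).charpoly).map (algebraMap ℝ ℂ)).roots

open Classical in
/-- the number of roots of modulus `< 1` -/
def kk {m : ℕ} (X : V m →L[ℝ] V m) : ℕ := (rts X).countP fun μ => ‖μ‖ < 1

lemma rts_card {m : ℕ} (X : V m →L[ℝ] V m) : (rts X).card = m := by
  unfold rts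
  rw [IsAlgClosed.card_roots_eq_natDegree, natDegree_map, LinearMap.charpoly_natDegree,
    finrank_euclideanSpace, Fintype.card_fin]

lemma D_prod {m : ℕ} (X : V m →L[ℝ] V m) (ρ : ℝ) :
    |D X ρ| = ‖((rts X).map fun μ => (ρ : ℂ) - μ).prod‖ := by
  have hm : ((X : V m →ₗ[ℝ] V m).charpoly.map (algebraMap ℝ ℂ)).Monic :=
    (LinearMap.charpoly_monic _).map _
  have h1 := (IsAlgClosed.splits
    ((X : V m →ₗ[ℝ] V m).charpoly.map (algebraMap ℝ ℂ))).eq_prod_roots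
  rw [hm.leadingCoeff, C_1, one_mul] at h1
  have h2 : ((D X ρ : ℝ) : ℂ) = ((rts X).map fun μ => (ρ : ℂ) - μ).prod := by
    have h3 : ((D X ρ : ℝ) : ℂ) = ((X : V m →ₗ[ℝ] V m).charpoly.map (algebraMap ℝ ℂ)).eval
        (ρ : ℂ) := by
      unfold D
      rw [eval_map_algebraMap]
      exact (aeval_algebraMap_apply_eq_algebraMap_eval ρ _).symm
    rw [h3, h1, eval_multiset_prod, Multiset.map_map]
    unfold rts
    congr 1
    refine Multiset.map_congr rfl fun μ _ => ?_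
    simp
  rw [← h2, Complex.norm_real, Real.norm_eq_abs]

/-- no roots in an annulus -/
def Ann {m : ℕ} (X : V m →L[ℝ] V m) (b : ℝ) : Prop := ∀ μ ∈ rts X, ‖μ‖ < b⁻¹ ∨ b < ‖μ‖

lemma Ann.mono {m : ℕ} {X : V m →L[ℝ] V m} {b b' : ℝ} (h : Ann X b) (hb' : 0 < b') (hb : b' ≤ b) :
    Ann X b' := by
  intro μ hμ
  rcases h μ hμ with h1 | h1
  · exact Or.inl (h1.trans_le (inv_anti₀ hb' hb))
  · exact Or.inr (hb.trans_lt h1)

open Classical in
lemma ratio_ms {ρ b : ℝ} (hρ : 1 ≤ ρ) (hb : 2 * ρ ≤ b) (s : Multiset ℂ) :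
    (∀ μ ∈ s, ‖μ‖ < b⁻¹ ∨ b < ‖μ‖) →
    0 < ‖(s.map fun μ => (1 : ℂ) - μ).prod‖ ∧
    ‖(s.map fun μ => (ρ : ℂ) - μ).prod‖ ≤
      4 ^ s.card * ρ ^ (s.countP fun μ => ‖μ‖ < 1) * ‖(s.map fun μ => (1 : ℂ) - μ).prod‖ ∧
    ρ ^ (s.countP fun μ => ‖μ‖ < 1) * ‖(s.map fun μ => (1 : ℂ) - μ).prod‖ ≤
      4 ^ s.card * ‖(s.map fun μ => (ρ : ℂ) - μ).prod‖ := by
  induction s using Multiset.induction_on with
  | empty =>
    intro _
    simp
  | cons a s ih =>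
    intro hs
    obtain ⟨i1, i2, i3⟩ := ih fun μ hμ => hs μ (Multiset.mem_cons_of_mem hμ)
    have ha := hs a (Multiset.mem_cons_self a s)
    have hρn : ‖(ρ : ℂ)‖ = ρ := by rw [Complex.norm_real, Real.norm_eq_abs, abs_of_pos (by linarith)]
    have n1 := norm_sub_norm_le (ρ : ℂ) a
    have n2 := norm_sub_norm_le a (ρ : ℂ)
    have n3 := norm_sub_le (ρ : ℂ) a
    have n4 := norm_sub_norm_le (1 : ℂ) a
    have n5 := norm_sub_norm_le a (1 : ℂ)
    have n6 := norm_sub_le (1 : ℂ) a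
    rw [norm_sub_rev a (ρ : ℂ)] at n2
    rw [norm_sub_rev a (1 : ℂ)] at n5
    rw [hρn] at n1 n2 n3
    rw [norm_one] at n4 n5 n6
    rw [Multiset.map_cons, Multiset.map_cons, Multiset.prod_cons, Multiset.prod_cons, norm_mul,
      norm_mul, Multiset.card_cons]
    set p1 := ‖(s.map fun μ => (1 : ℂ) - μ).prod‖
    set pρ := ‖(s.map fun μ => (ρ : ℂ) - μ).prod‖
    set k := s.countP fun μ => ‖μ‖ < 1 with hk
    set x := ‖(ρ : ℂ) - a‖
    set y := ‖(1 : ℂ) - a‖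
    have hpρ : 0 ≤ pρ := norm_nonneg _
    have hρk : 0 ≤ ρ ^ k := by positivity
    rcases ha with ha | ha
    · have hb2 : b⁻¹ ≤ (2 * ρ)⁻¹ := inv_anti₀ (by linarith) hb
      have hb3 : (2 * ρ)⁻¹ ≤ 1 / 2 := by
        rw [inv_eq_one_div]
        exact one_div_le_one_div_of_le (by norm_num) (by linarith)
      have h1 : ‖a‖ < 1 := by linarith
      rw [Multiset.countP_cons_of_pos s h1, ← hk]
      have y0 : 0 < y := by linarith
      have q1 : x ≤ 4 * ρ * y := by nlinarith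
      have q2 : ρ * y ≤ 4 * x := by nlinarith
      refine ⟨by positivity, ?_, ?_⟩
      · calc x * pρ ≤ (4 * ρ * y) * (4 ^ s.card * ρ ^ k * p1) := by gcongr
          _ = _ := by ring
      · calc ρ ^ (k + 1) * (y * p1) = (ρ * y) * (ρ ^ k * p1) := by ring
          _ ≤ (4 * x) * (4 ^ s.card * pρ) := by gcongr
          _ = _ := by ring
    · have h1 : ¬ ‖a‖ < 1 := by linarith
      rw [Multiset.countP_cons_of_neg s h1, ← hk]
      have y0 : 0 < y := by linarith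
      have q1 : x ≤ 4 * y := by linarith
      have q2 : y ≤ 4 * x := by linarith
      refine ⟨by positivity, ?_, ?_⟩
      · calc x * pρ ≤ (4 * y) * (4 ^ s.card * ρ ^ k * p1) := by gcongr
          _ = _ := by ring
      · calc ρ ^ k * (y * p1) = y * (ρ ^ k * p1) := by ring
          _ ≤ (4 * x) * (4 ^ s.card * pρ) := by gcongr
          _ = _ := by ring

lemma ratio {m : ℕ} {X : V m →L[ℝ] V m} {ρ b : ℝ} (hρ : 1 ≤ ρ) (hb : 2 * ρ ≤ b) (hX : Ann X b) :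
    0 < |D X 1| ∧ |D X ρ| ≤ 4 ^ m * ρ ^ kk X * |D X 1| ∧ ρ ^ kk X * |D X 1| ≤ 4 ^ m * |D X ρ| := by
  have h := ratio_ms hρ hb (rts X) hX
  rw [rts_card] at h
  have e1 : |D X 1| = ‖((rts X).map fun μ => (1 : ℂ) - μ).prod‖ := by
    rw [D_prod]
    simp
  rw [e1, D_prod]
  unfold kk
  convert h

lemma pow_lt_of {a c ρ : ℝ} (hc : 0 < c) (hρ : 1 ≤ ρ) (h : a < ρ) {k k' : ℕ} (hk : k < k') :
    a * (ρ ^ k * c) < ρ ^ k' * c := by
  have h1 : ρ ^ (k + 1) ≤ ρ ^ k' := pow_le_pow_right₀ hρ hk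
  have h2 : 0 < ρ ^ k * c := by positivity
  calc a * (ρ ^ k * c) < ρ * (ρ ^ k * c) := mul_lt_mul_of_pos_right h h2
    _ = ρ ^ (k + 1) * c := by ring
    _ ≤ _ := mul_le_mul_of_nonneg_right h1 hc.le

/-- the number of roots of modulus `< 1` is constant on a ball -/
lemma kk_const {m : ℕ} {A B : V m →L[ℝ] V m} {η b : ℝ} (hb : 2 * (4 * 16 ^ m) ≤ b)
    (h : ∀ R : V m →L[ℝ] V m, ‖R - 1‖ ≤ η → Ann (A * R * B) b) {R R' : V m →L[ℝ] V m}
    (hR : ‖R - 1‖ ≤ η) (hR' : ‖R' - 1‖ ≤ η) : kk (A * R * B) ≤ kk (A * R' * B) := by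
  by_contra hcon
  push Not at hcon
  set ρ : ℝ := 4 * 16 ^ m with hρd
  have h16 : (1 : ℝ) ≤ 16 ^ m := one_le_pow₀ (by norm_num)
  have hρ : 1 ≤ ρ := by linarith
  have e16 : (4 : ℝ) ^ m * 4 ^ m = 16 ^ m := by
    rw [← mul_pow]
    norm_num
  set k' := kk (A * R' * B) with hk'
  set v : ℝ := 2 * 4 ^ m * ρ ^ k' with hv
  have hv0 : 0 < v := by positivity
  have hρk : 0 < ρ ^ k' := by positivity
  have h4 : (0 : ℝ) < 4 ^ m := by positivity
  set g : (V m →L[ℝ] V m) → ℝ := fun R => |D (A * R * B) ρ| - v * |D (A * R * B) 1| with hg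
  have hc : Continuous fun R : V m →L[ℝ] V m => A * R * B :=
    (continuous_const.mul continuous_id).mul continuous_const
  have hgc : Continuous g :=
    ((D_cont ρ).comp hc).abs.sub (continuous_const.mul ((D_cont 1).comp hc).abs)
  obtain ⟨a1, a2, a3⟩ := ratio hρ hb (h R hR)
  obtain ⟨b1, b2, b3⟩ := ratio hρ hb (h R' hR')
  have g1 : g R' ≤ 0 := by
    simp only [hg]
    rw [← hk'] at b2
    nlinarith
  have g2 : 0 ≤ g R := by
    simp only [hg]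
    have h1 := pow_lt_of (a := 2 * 16 ^ m) a1 hρ (by linarith) hcon
    have h2 : 4 ^ m * (v * |D (A * R * B) 1|) < 4 ^ m * |D (A * R * B) ρ| := by
      calc 4 ^ m * (v * |D (A * R * B) 1|) =
            2 * (4 ^ m * 4 ^ m) * (ρ ^ k' * |D (A * R * B) 1|) := by
            rw [hv]
            ring
        _ < 4 ^ m * |D (A * R * B) ρ| := by
            rw [e16]
            exact h1.trans_le a3
    have h3 := lt_of_mul_lt_mul_left h2 h4.le
    linarith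
  have hball : IsPreconnected (closedBall (1 : V m →L[ℝ] V m) η) :=
    (convex_closedBall _ _).isPreconnected
  obtain ⟨R₂, hR₂, hg0⟩ := hball.intermediate_value (a := R') (b := R)
    (by rw [mem_closedBall, dist_eq_norm]; exact hR')
    (by rw [mem_closedBall, dist_eq_norm]; exact hR) hgc.continuousOn ⟨g1, g2⟩
  rw [mem_closedBall, dist_eq_norm] at hR₂
  obtain ⟨c1, c2, c3⟩ := ratio hρ hb (h R₂ hR₂)
  simp only [hg] at hg0
  set j := kk (A * R₂ * B)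
  rcases le_or_gt j k' with hj | hj
  · have h1 : ρ ^ j ≤ ρ ^ k' := pow_le_pow_right₀ hρ hj
    have h2 : v * |D (A * R₂ * B) 1| ≤ 4 ^ m * ρ ^ k' * |D (A * R₂ * B) 1| := by
      calc v * |D (A * R₂ * B) 1| = |D (A * R₂ * B) ρ| := by linarith
        _ ≤ 4 ^ m * ρ ^ j * |D (A * R₂ * B) 1| := c2
        _ ≤ _ := by gcongr
    have h3 := le_of_mul_le_mul_right h2 c1
    rw [hv] at h3
    nlinarith [mul_pos h4 hρk]
  · have h1 := pow_lt_of (a := 2 * 16 ^ m) c1 hρ (by linarith) hj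
    have h2 : 4 ^ m * |D (A * R₂ * B) ρ| = 2 * 16 ^ m * (ρ ^ k' * |D (A * R₂ * B) 1|) := by
      have : |D (A * R₂ * B) ρ| = v * |D (A * R₂ * B) 1| := by linarith
      rw [this, hv, ← e16]
      ring
    linarith

/-- comparison of two families -/
lemma kk_le {m : ℕ} {η C b K : ℝ} (hη : 0 < η) (hK1 : 1 ≤ K)
    (hK : ∀ (A B : V m →L[ℝ] V m) (ρ s : ℝ), (∀ R : V m →L[ℝ] V m, ‖R - 1‖ ≤ η →
      |D (A * R * B) ρ| ≤ s) → ∀ R : V m →L[ℝ] V m, ‖R - 1‖ ≤ C → |D (A * R * B) ρ| ≤ K * s)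
    (hb1 : 2 * (4 * 16 ^ m) ≤ b) (hb2 : 2 * (16 ^ m * K ^ 2 + 1) ≤ b) {A B A' B' : V m →L[ℝ] V m}
    (h : ∀ R : V m →L[ℝ] V m, ‖R - 1‖ ≤ η → Ann (A * R * B) b)
    (h' : ∀ R : V m →L[ℝ] V m, ‖R - 1‖ ≤ η → Ann (A' * R * B') b)
    (c : ∀ R : V m →L[ℝ] V m, ‖R - 1‖ ≤ η → ∃ R₁ : V m →L[ℝ] V m, ‖R₁ - 1‖ ≤ C ∧
      ∀ ρ, D (A' * R * B') ρ = D (A * R₁ * B) ρ)
    (c' : ∀ R : V m →L[ℝ] V m, ‖R - 1‖ ≤ η → ∃ R₁ : V m →L[ℝ] V m, ‖R₁ - 1‖ ≤ C ∧
      ∀ ρ, D (A * R * B) ρ = D (A' * R₁ * B') ρ) : kk (A' * B') ≤ kk (A * B) := by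
  by_contra hcon
  push Not at hcon
  set ρ : ℝ := 16 ^ m * K ^ 2 + 1 with hρd
  have h16 : (1 : ℝ) ≤ 16 ^ m := one_le_pow₀ (by norm_num)
  have e16 : (4 : ℝ) ^ m * 4 ^ m = 16 ^ m := by
    rw [← mul_pow]
    norm_num
  have hρ : 1 ≤ ρ := by
    have : 0 ≤ (16 : ℝ) ^ m * K ^ 2 := by positivity
    linarith
  have hmax : ∀ (A B : V m →L[ℝ] V m) (ρ : ℝ), ∃ R₁ : V m →L[ℝ] V m, ‖R₁ - 1‖ ≤ η ∧
      ∀ R : V m →L[ℝ] V m, ‖R - 1‖ ≤ η → |D (A * R * B) ρ| ≤ |D (A * R₁ * B) ρ| := by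
    intro A B ρ
    have hc : Continuous fun R : V m →L[ℝ] V m => |D (A * R * B) ρ| :=
      ((D_cont ρ).comp ((continuous_const.mul continuous_id).mul continuous_const)).abs
    have : ProperSpace (V m →L[ℝ] V m) := FiniteDimensional.proper ℝ _
    obtain ⟨R₁, hR₁, hm⟩ := (isCompact_closedBall (1 : V m →L[ℝ] V m) η).exists_isMaxOn
      ⟨1, mem_closedBall_self hη.le⟩ hc.continuousOn
    refine ⟨R₁, by rwa [mem_closedBall, dist_eq_norm] at hR₁, fun R hR => ?_⟩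
    exact hm (by rw [mem_closedBall, dist_eq_norm]; exact hR)
  obtain ⟨R₁, r1, r2⟩ := hmax A' B' 1
  obtain ⟨R₂, s1, s2⟩ := hmax A B ρ
  have kA : kk (A * R₂ * B) ≤ kk (A * B) := by
    have := kk_const hb1 h s1 (R' := 1) (by rw [sub_self, norm_zero]; exact hη.le)
    rwa [mul_one] at this
  have kA' : kk (A' * B') ≤ kk (A' * R₁ * B') := by
    have := kk_const hb1 h' (R := 1) (by rw [sub_self, norm_zero]; exact hη.le) r1
    rwa [mul_one] at this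
  obtain ⟨a1, a2, a3⟩ := ratio hρ hb2 (h' R₁ r1)
  obtain ⟨b1, b2, b3⟩ := ratio hρ hb2 (h R₂ s1)
  set x := |D (A' * R₁ * B') 1|
  set y := |D (A * R₂ * B) ρ|
  -- first comparison
  have e1 : |D (A' * R₁ * B') ρ| ≤ K * y := by
    obtain ⟨R₃, t1, t2⟩ := c R₁ r1
    rw [t2]
    exact hK A B ρ y s2 R₃ t1
  have e2 : |D (A * R₂ * B) 1| ≤ K * x := by
    obtain ⟨R₃, t1, t2⟩ := c' R₂ s1
    rw [t2]
    exact hK A' B' 1 x r2 R₃ t1
  have hk : kk (A * R₂ * B) < kk (A' * R₁ * B') := by omega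
  have h1 := pow_lt_of (a := 16 ^ m * K ^ 2) a1 hρ (by linarith) hk
  have h2 : ρ ^ kk (A' * R₁ * B') * x ≤ 16 ^ m * K ^ 2 * (ρ ^ kk (A * R₂ * B) * x) := by
    calc ρ ^ kk (A' * R₁ * B') * x ≤ 4 ^ m * |D (A' * R₁ * B') ρ| := a3
      _ ≤ 4 ^ m * (K * y) := by gcongr
      _ ≤ 4 ^ m * (K * (4 ^ m * ρ ^ kk (A * R₂ * B) * |D (A * R₂ * B) 1|)) := by gcongr
      _ ≤ 4 ^ m * (K * (4 ^ m * ρ ^ kk (A * R₂ * B) * (K * x))) := by gcongr
      _ = (4 ^ m * 4 ^ m) * K ^ 2 * (ρ ^ kk (A * R₂ * B) * x) := by ring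
      _ = _ := by rw [e16]
  linarith

/-! ### annuli without roots -/

lemma mem_rts {m : ℕ} (X : V m →L[ℝ] V m) (μ : ℂ) :
    μ ∈ rts X ↔ ((X : V m →ₗ[ℝ] V m).charpoly.map (algebraMap ℝ ℂ)).IsRoot μ := by
  unfold rts
  exact mem_roots ((LinearMap.charpoly_monic _).map _).ne_zero

lemma root_scale {m : ℕ} {X : V m →L[ℝ] V m} {μ : ℂ} (c : ℝ)
    (h : ((X : V m →ₗ[ℝ] V m).charpoly.map (algebraMap ℝ ℂ)).IsRoot μ) :
    (((c • X : V m →L[ℝ] V m) : V m →ₗ[ℝ] V m).charpoly.map (algebraMap ℝ ℂ)).IsRoot (c * μ) := by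
  classical
  rw [IsRoot.def, LinearMap.charpoly_def, ← Matrix.charpoly_map, Matrix.eval_charpoly] at h ⊢
  set b := Module.Free.chooseBasis ℝ (V m) with hb
  set M := LinearMap.toMatrix b b (X : V m →ₗ[ℝ] V m) with hM
  have e1 : LinearMap.toMatrix b b ((c • X : V m →L[ℝ] V m) : V m →ₗ[ℝ] V m) = c • M := by
    have : ((c • X : V m →L[ℝ] V m) : V m →ₗ[ℝ] V m) = c • (X : V m →ₗ[ℝ] V m) := rfl
    rw [this, map_smul]
  rw [e1]
  have e2 : (Matrix.scalar (Module.Free.ChooseBasisIndex ℝ (V m))) ((c : ℂ) * μ) -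
      (c • M).map (algebraMap ℝ ℂ) =
      (c : ℂ) • ((Matrix.scalar (Module.Free.ChooseBasisIndex ℝ (V m))) μ -
        M.map (algebraMap ℝ ℂ)) := by
    ext i j
    simp only [Matrix.sub_apply, Matrix.smul_apply, Matrix.map_apply, Matrix.scalar_apply,
      Matrix.diagonal_apply, smul_eq_mul]
    split_ifs <;> simp [mul_sub]
  rw [e2, Matrix.det_smul, h, mul_zero]

lemma smul_mulL {m : ℕ} (c : ℝ) (A B : V m →L[ℝ] V m) : (c • A) * B = c • (A * B) := by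
  ext1 v
  simp only [mul_app, smul_app]

lemma mul_smulL {m : ℕ} (c : ℝ) (A B : V m →L[ℝ] V m) : A * (c • B) = c • (A * B) := by
  ext1 v
  simp only [mul_app, smul_app, map_smul]

lemma smul_powL {m : ℕ} (c : ℝ) (A : V m →L[ℝ] V m) (n : ℕ) : (c • A) ^ n = c ^ n • A ^ n := by
  induction n with
  | zero => rw [pow_zero, pow_zero, pow_zero, one_smul]
  | succ n ih => rw [pow_succ, ih, smul_mulL, mul_smulL, smul_smul, ← pow_succ, ← pow_succ]

lemma ann_of_scale {m : ℕ} {X : V m →L[ℝ] V m} {η : ℝ} (hη : 0 < η) {n : ℕ} (hn : 1 ≤ n)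
    (h : ∀ t : ℝ, |t| ≤ η → Hyp ((1 + t) ^ n • X)) : Ann X ((1 + η) ^ n) := by
  intro μ hμ
  by_contra hcon
  push Not at hcon
  obtain ⟨h1, h2⟩ := hcon
  have hp : (0 : ℝ) < (1 + η) ^ n := by positivity
  have hμ0 : 0 < ‖μ‖ := (inv_pos.2 hp).trans_le h1
  set s : ℝ := (‖μ‖⁻¹) ^ ((n : ℝ)⁻¹) with hs
  have hs0 : 0 < s := Real.rpow_pos_of_pos (inv_pos.2 hμ0) _
  have hsn : s ^ n = ‖μ‖⁻¹ := Real.rpow_inv_natCast_pow (inv_pos.2 hμ0).le (by omega)
  have hs1 : s ≤ 1 + η := by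
    refine le_of_pow_le_pow_left₀ (by omega : n ≠ 0) (by linarith) ?_
    rw [hsn]
    rw [inv_le_comm₀ hμ0 hp]
    exact h1
  have hs2 : (1 + η)⁻¹ ≤ s := by
    refine le_of_pow_le_pow_left₀ (by omega : n ≠ 0) hs0.le ?_
    rw [hsn, inv_pow]
    exact inv_anti₀ hμ0 h2
  have hs3 : 1 - η ≤ s := by
    refine le_trans ?_ hs2
    rw [inv_eq_one_div, le_div_iff₀ (by linarith)]
    nlinarith
  have ht : |s - 1| ≤ η := abs_le.2 ⟨by linarith, by linarith⟩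
  have h3 := h (s - 1) ht
  rw [add_sub_cancel, hsn] at h3
  refine h3 _ (root_scale _ ((mem_rts X μ).1 hμ)) ?_
  rw [norm_mul, Complex.norm_real, Real.norm_eq_abs, abs_of_pos (inv_pos.2 hμ0),
    inv_mul_cancel₀ hμ0.ne']

/-! ### the chain -/

lemma D_conj {m : ℕ} (Z : V m ≃L[ℝ] V m) (X : V m →L[ℝ] V m) (ρ : ℝ) :
    D ((Z : V m →L[ℝ] V m) * X) ρ = D (X * (Z : V m →L[ℝ] V m)) ρ := by
  have h := LinearEquiv.charpoly_conj Z.toLinearEquiv ((X * (Z : V m →L[ℝ] V m) : V m →L[ℝ] V m) :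
    V m →ₗ[ℝ] V m)
  have e : Z.toLinearEquiv.conj ((X * (Z : V m →L[ℝ] V m) : V m →L[ℝ] V m) : V m →ₗ[ℝ] V m) =
      (((Z : V m →L[ℝ] V m) * X : V m →L[ℝ] V m) : V m →ₗ[ℝ] V m) := by
    ext v
    simp [LinearEquiv.conj_apply]
  unfold D
  rw [← e, h]

lemma norm_bd {m : ℕ} (A B : V m →L[ℝ] V m) {R : V m →L[ℝ] V m} {η : ℝ} (hR : ‖R - 1‖ ≤ η) :
    ‖A * R * B - 1‖ ≤ ‖A‖ * (1 + η) * ‖B‖ + 1 := by
  have h1 : ‖(1 : V m →L[ℝ] V m)‖ ≤ 1 := ContinuousLinearMap.norm_id_le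
  have h2 : ‖R‖ ≤ 1 + η := by
    calc ‖R‖ = ‖(R - 1) + 1‖ := by rw [sub_add_cancel]
      _ ≤ ‖R - 1‖ + ‖(1 : V m →L[ℝ] V m)‖ := norm_add_le _ _
      _ ≤ _ := by linarith
  calc ‖A * R * B - 1‖ ≤ ‖A * R * B‖ + ‖(1 : V m →L[ℝ] V m)‖ := norm_sub_le _ _
    _ ≤ ‖A‖ * ‖R‖ * ‖B‖ + 1 := by
      refine add_le_add ((norm_mul_le _ _).trans ?_) h1
      exact mul_le_mul_of_nonneg_right (norm_mul_le _ _) (norm_nonneg _)
    _ ≤ _ := by gcongr

lemma kk_eq {m : ℕ} {η C b K : ℝ} (hη : 0 < η) (hK1 : 1 ≤ K)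
    (hK : ∀ (A B : V m →L[ℝ] V m) (ρ s : ℝ), (∀ R : V m →L[ℝ] V m, ‖R - 1‖ ≤ η →
      |D (A * R * B) ρ| ≤ s) → ∀ R : V m →L[ℝ] V m, ‖R - 1‖ ≤ C → |D (A * R * B) ρ| ≤ K * s)
    (hb1 : 2 * (4 * 16 ^ m) ≤ b) (hb2 : 2 * (16 ^ m * K ^ 2 + 1) ≤ b) {A B A' B' : V m →L[ℝ] V m}
    (h : ∀ R : V m →L[ℝ] V m, ‖R - 1‖ ≤ η → Ann (A * R * B) b)
    (h' : ∀ R : V m →L[ℝ] V m, ‖R - 1‖ ≤ η → Ann (A' * R * B') b)
    {G H G' H' : V m →L[ℝ] V m} (hC : ‖G‖ * (1 + η) * ‖H‖ + 1 ≤ C)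
    (hC' : ‖G'‖ * (1 + η) * ‖H'‖ + 1 ≤ C)
    (c : ∀ (R : V m →L[ℝ] V m) (ρ : ℝ), D (A' * R * B') ρ = D (A * (G * R * H) * B) ρ)
    (c' : ∀ (R : V m →L[ℝ] V m) (ρ : ℝ), D (A * R * B) ρ = D (A' * (G' * R * H') * B') ρ) :
    kk (A' * B') = kk (A * B) := by
  have d : ∀ R : V m →L[ℝ] V m, ‖R - 1‖ ≤ η → ∃ R₁ : V m →L[ℝ] V m, ‖R₁ - 1‖ ≤ C ∧
      ∀ ρ, D (A' * R * B') ρ = D (A * R₁ * B) ρ := fun R hR =>
    ⟨G * R * H, (norm_bd G H hR).trans hC, fun ρ => c R ρ⟩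
  have d' : ∀ R : V m →L[ℝ] V m, ‖R - 1‖ ≤ η → ∃ R₁ : V m →L[ℝ] V m, ‖R₁ - 1‖ ≤ C ∧
      ∀ ρ, D (A * R * B) ρ = D (A' * R₁ * B') ρ := fun R hR =>
    ⟨G' * R * H', (norm_bd G' H' hR).trans hC', fun ρ => c' R ρ⟩
  exact le_antisymm (kk_le hη hK1 hK hb1 hb2 h h' d d') (kk_le hη hK1 hK hb1 hb2 h' h d' d)

lemma chain {m : ℕ} (P Q W Z : V m ≃L[ℝ] V m) {η : ℝ} (hη : 0 < η)
    (h1 : ∀ R : V m →L[ℝ] V m, ‖R - 1‖ ≤ η → ∀ α : ℕ, 1 ≤ α →
      Ann (R * (P : V m →L[ℝ] V m) ^ α) ((1 + η) ^ α))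
    (h2 : ∀ R : V m →L[ℝ] V m, ‖R - 1‖ ≤ η → ∀ β : ℕ, 1 ≤ β →
      Ann ((Q : V m →L[ℝ] V m) ^ β * R) ((1 + η) ^ β))
    (h3 : ∀ R : V m →L[ℝ] V m, ‖R - 1‖ ≤ η → ∀ α β : ℕ, 1 ≤ α →
      Ann ((Z : V m →L[ℝ] V m) * (Q : V m →L[ℝ] V m) ^ β * (W : V m →L[ℝ] V m) * R *
        (P : V m →L[ℝ] V m) ^ α) ((1 + η) ^ (α + β))) :
    ∃ n₀ : ℕ, ∀ n, n₀ ≤ n →
      kk ((P : V m →L[ℝ] V m) ^ n) = kk ((Q : V m →L[ℝ] V m) ^ n) := by
  set p : V m →L[ℝ] V m := (P : V m →L[ℝ] V m) with hp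
  set p' : V m →L[ℝ] V m := (P.symm : V m →L[ℝ] V m) with hp'
  set q : V m →L[ℝ] V m := (Q : V m →L[ℝ] V m) with hq
  set q' : V m →L[ℝ] V m := (Q.symm : V m →L[ℝ] V m) with hq'
  set w : V m →L[ℝ] V m := (W : V m →L[ℝ] V m) with hw
  set w' : V m →L[ℝ] V m := (W.symm : V m →L[ℝ] V m) with hw'
  set z : V m →L[ℝ] V m := (Z : V m →L[ℝ] V m) with hz
  set z' : V m →L[ℝ] V m := (Z.symm : V m →L[ℝ] V m) with hz'
  have pp : ∀ v, p (p' v) = v := fun v => P.apply_symm_apply v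
  have pp' : ∀ v, p' (p v) = v := fun v => P.symm_apply_apply v
  have qq : ∀ v, q (q' v) = v := fun v => Q.apply_symm_apply v
  have ww : ∀ v, w (w' v) = v := fun v => W.apply_symm_apply v
  have zz : ∀ v, z (z' v) = v := fun v => Z.apply_symm_apply v
  have zz' : ∀ v, z' (z v) = v := fun v => Z.symm_apply_apply v
  set f : (V m →L[ℝ] V m) → (V m →L[ℝ] V m) → ℝ := fun G H => ‖G‖ * (1 + η) * ‖H‖ + 1 with hf
  have hf0 : ∀ G H, 0 ≤ f G H := fun G H => by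
    simp only [hf]
    positivity
  set C : ℝ := f (z * w) 1 + f (w' * z') 1 + f (w' * q * w) 1 + f (w' * q' * w) 1 + f 1 p +
    f 1 p' + f w (p * z) + f w' (z' * p') with hC
  have f1 := hf0 (z * w) 1
  have f2 := hf0 (w' * z') 1
  have f3 := hf0 (w' * q * w) 1
  have f4 := hf0 (w' * q' * w) 1
  have f5 := hf0 1 p
  have f6 := hf0 1 p'
  have f7 := hf0 w (p * z)
  have f8 := hf0 w' (z' * p')
  have hC0 : 0 ≤ C := by linarith
  obtain ⟨K, hK1, hK⟩ := poly_ext m hC0 hη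
  set bb : ℝ := max (2 * (4 * 16 ^ m)) (2 * (16 ^ m * K ^ 2 + 1)) with hbb
  have hbb0 : 0 < bb := lt_max_of_lt_left (by positivity)
  obtain ⟨n₁, hn₁⟩ := eventually_atTop.1
    ((tendsto_pow_atTop_atTop_of_one_lt (by linarith : 1 < 1 + η)).eventually_ge_atTop bb)
  have hb1 : 2 * (4 * 16 ^ m) ≤ bb := le_max_left _ _
  have hb2 : 2 * (16 ^ m * K ^ 2 + 1) ≤ bb := le_max_right _ _
  refine ⟨max n₁ 1, fun n hn => ?_⟩
  have hn1 : n₁ ≤ n := (le_max_left _ _).trans hn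
  have hn2 : 1 ≤ n := (le_max_right _ _).trans hn
  -- the annuli
  have A1 : ∀ R : V m →L[ℝ] V m, ‖R - 1‖ ≤ η → Ann (1 * R * p ^ n) bb := fun R hR => by
    rw [one_mul]
    exact (h1 R hR n hn2).mono hbb0 (hn₁ n hn1)
  have A2 : ∀ R : V m →L[ℝ] V m, ‖R - 1‖ ≤ η → Ann (q ^ n * R * 1) bb := fun R hR => by
    rw [mul_one]
    exact (h2 R hR n hn2).mono hbb0 (hn₁ n hn1)
  have A3 : ∀ α β : ℕ, 1 ≤ α → n ≤ α + β → ∀ R : V m →L[ℝ] V m, ‖R - 1‖ ≤ η →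
      Ann ((z * q ^ β * w) * R * p ^ α) bb := fun α β hα hαβ R hR =>
    (h3 R hR α β hα).mono hbb0 (hn₁ _ (hn1.trans hαβ))
  -- the steps
  have s1 : kk ((z * q ^ 0 * w) * p ^ n) = kk (1 * p ^ n) := by
    refine kk_eq hη hK1 hK hb1 hb2 A1 (A3 n 0 hn2 (by omega)) (G := z * w) (H := 1) (G' := w' * z')
      (H' := 1) (by change f _ _ ≤ C; linarith) (by change f _ _ ≤ C; linarith) ?_ ?_
    · intro R ρ
      congr 1
    · intro R ρ
      congr 1
      ext1 v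
      simp only [pow_zero, mul_one, one_mul, mul_app, ww, zz]
  have s2 : ∀ b : ℕ, kk ((z * q ^ (b + 1) * w) * p ^ n) = kk ((z * q ^ b * w) * p ^ n) := by
    intro b
    refine kk_eq hη hK1 hK hb1 hb2 (A3 n b hn2 (by omega)) (A3 n (b + 1) hn2 (by omega))
      (G := w' * q * w) (H := 1) (G' := w' * q' * w)
      (H' := 1) (by change f _ _ ≤ C; linarith) (by change f _ _ ≤ C; linarith) ?_ ?_
    · intro R ρ
      congr 1
      ext1 v
      simp only [pow_succ, mul_one, mul_app, ww]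
    · intro R ρ
      congr 1
      ext1 v
      simp only [pow_succ, mul_one, mul_app, ww, qq]
  have s3 : ∀ a : ℕ, 1 ≤ a → kk ((z * q ^ n * w) * p ^ (a + 1)) = kk ((z * q ^ n * w) * p ^ a) := by
    intro a ha
    refine kk_eq hη hK1 hK hb1 hb2 (A3 a n ha (by omega)) (A3 (a + 1) n (by omega) (by omega))
      (G := 1) (H := p) (G' := 1)
      (H' := p') (by change f _ _ ≤ C; linarith) (by change f _ _ ≤ C; linarith) ?_ ?_
    · intro R ρ
      congr 1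
      simp only [pow_succ', one_mul, mul_assoc]
    · intro R ρ
      congr 1
      ext1 v
      simp only [pow_succ', one_mul, mul_app, pp']
  have s4 : kk (q ^ n * 1) = kk ((z * q ^ n * w) * p ^ 1) := by
    refine kk_eq hη hK1 hK hb1 hb2 (A3 1 n le_rfl (by omega)) A2
      (G := w') (H := z' * p') (G' := w)
      (H' := p * z) (by change f _ _ ≤ C; linarith) (by change f _ _ ≤ C; linarith) ?_ ?_
    · intro R ρ
      have e : (z * q ^ n * w) * (w' * R * (z' * p')) * p ^ 1 = z * (q ^ n * R * z') := by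
        ext1 v
        simp only [pow_one, mul_app, pp', ww]
      rw [e, D_conj]
      congr 1
      ext1 v
      simp only [mul_one, mul_app, ← hz, zz']
    · intro R ρ
      have e : (z * q ^ n * w) * R * p ^ 1 = z * (q ^ n * w * R * p) := by
        simp only [pow_one, mul_assoc]
      rw [e, D_conj]
      congr 1
  have t1 : ∀ b : ℕ, kk ((z * q ^ b * w) * p ^ n) = kk (p ^ n) := by
    intro b
    induction b with
    | zero => rw [s1, one_mul]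
    | succ b ih => rw [s2, ih]
  have t2 : ∀ a : ℕ, kk ((z * q ^ n * w) * p ^ (a + 1)) = kk (q ^ n) := by
    intro a
    induction a with
    | zero => rw [zero_add, ← s4, mul_one]
    | succ a ih => rw [s3 (a + 1) (by omega), ih]
  have t3 := t2 (n - 1)
  rw [Nat.sub_add_cancel hn2] at t3
  rw [← t1 n, t3]

/-! ### the index -/

lemma det_tendsto {m : ℕ} {f : ℕ → (V m →ₗ[ℝ] V m)} {g : V m →ₗ[ℝ] V m}
    (h : ∀ v, Tendsto (fun n => f n v) atTop (𝓝 (g v))) :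
    Tendsto (fun n => LinearMap.det (f n)) atTop (𝓝 (LinearMap.det g)) := by
  classical
  set b := Module.finBasis ℝ (V m) with hb
  have h1 : Tendsto (fun n => LinearMap.toMatrix b b (f n)) atTop
      (𝓝 (LinearMap.toMatrix b b g)) := by
    refine tendsto_pi_nhds.2 fun i => tendsto_pi_nhds.2 fun j => ?_
    simp only [LinearMap.toMatrix_apply]
    have hc : Continuous fun v : V m => b.repr v i :=
      LinearMap.continuous_of_finiteDimensional (b.coord i)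
    exact (hc.tendsto _).comp (h (b j))
  have h2 : Continuous fun M : Matrix (Fin (Module.finrank ℝ (V m)))
      (Fin (Module.finrank ℝ (V m))) ℝ => M.det := continuous_id.matrix_det
  have h3 := (h2.tendsto _).comp h1
  rw [LinearMap.det_toMatrix] at h3
  refine h3.congr fun n => ?_
  rw [Function.comp_apply, LinearMap.det_toMatrix]

lemma det_proj {m : ℕ} (pr : V m →ₗ[ℝ] V m) (h : ∀ v, pr (pr v) = pr v) (ρ : ℝ) :
    |LinearMap.det (ρ • pr - (1 - pr))| = |ρ| ^ Module.finrank ℝ (LinearMap.range pr) := by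
  have hi : IsIdempotentElem pr := by
    ext v
    simp [h]
  have hc : IsCompl (LinearMap.range pr) (LinearMap.ker pr) := LinearMap.IsIdempotentElem.isCompl hi
  set e := Submodule.prodEquivOfIsCompl _ _ hc with he
  set g : (LinearMap.range pr × LinearMap.ker pr) →ₗ[ℝ] (LinearMap.range pr × LinearMap.ker pr) :=
    LinearMap.prodMap (ρ • (1 : Module.End ℝ (LinearMap.range pr)))
      ((-1 : ℝ) • (1 : Module.End ℝ (LinearMap.ker pr))) with hg
  have h1 : (e : _ →ₗ[ℝ] V m) ∘ₗ g ∘ₗ (e.symm : V m →ₗ[ℝ] _) = ρ • pr - (1 - pr) := by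
    have h2 : (e : _ →ₗ[ℝ] V m) ∘ₗ g = (ρ • pr - (1 - pr)) ∘ₗ (e : _ →ₗ[ℝ] V m) := by
      ext ⟨x, hx⟩
      · obtain ⟨y, rfl⟩ := hx
        simp [he, hg, h]
      · rw [LinearMap.mem_ker] at hx
        simp [he, hg, hx]
    rw [← LinearMap.comp_assoc, h2, LinearMap.comp_assoc]
    ext v
    simp
  rw [← h1, LinearMap.det_conj, hg, LinearMap.det_prodMap, LinearMap.det_smul, LinearMap.det_smul,
    map_one, map_one, mul_one, mul_one, abs_mul, abs_pow, abs_pow, abs_neg,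
    abs_one, one_pow, mul_one]

lemma Es_eq {m : ℕ} (P : V m ≃L[ℝ] V m) (pr : V m →ₗ[ℝ] V m) (h1 : ∀ v, pr (P v) = P (pr v))
    (h2 : ∀ v, pr (pr v) = pr v)
    (h3 : ∀ v, Tendsto (fun k : ℕ => ((P : V m →L[ℝ] V m) ^ k) (pr v)) atTop (𝓝 0))
    (h4 : ∀ v, Tendsto (fun k : ℕ => ((P.symm : V m →L[ℝ] V m) ^ k) (v - pr v)) atTop (𝓝 0)) :
    Es (P : V m →L[ℝ] V m) = LinearMap.range pr := by
  have hcomm : ∀ (k : ℕ) v, pr (((P : V m →L[ℝ] V m) ^ k) v) = ((P : V m →L[ℝ] V m) ^ k) (pr v) := by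
    intro k
    induction k with
    | zero => intro v; rfl
    | succ k ih =>
      intro v
      rw [pow_succ', mul_app, mul_app, ← ih]
      exact h1 _
  have hinv : ∀ (k : ℕ) v, ((P.symm : V m →L[ℝ] V m) ^ k) (((P : V m →L[ℝ] V m) ^ k) v) = v := by
    intro k
    induction k with
    | zero => intro v; rfl
    | succ k ih =>
      intro v
      rw [pow_succ (P.symm : V m →L[ℝ] V m), pow_succ' (P : V m →L[ℝ] V m), mul_app, mul_app]
      have : (P.symm : V m →L[ℝ] V m) ((P : V m →L[ℝ] V m) (((P : V m →L[ℝ] V m) ^ k) v)) =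
          ((P : V m →L[ℝ] V m) ^ k) v := P.symm_apply_apply _
      rw [this, ih]
  apply le_antisymm
  · intro v hv
    have hv' : Tendsto (fun k : ℕ => ((P : V m →L[ℝ] V m) ^ k) v) atTop (𝓝 0) := hv
    set prc : V m →L[ℝ] V m := LinearMap.toContinuousLinearMap pr with hprc
    set T : ℕ → (V m →L[ℝ] V m) := fun k => ((P.symm : V m →L[ℝ] V m) ^ k) * (1 - prc) with hT
    have hTv : ∀ k x, T k x = ((P.symm : V m →L[ℝ] V m) ^ k) (x - pr x) := fun k x => rfl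
    obtain ⟨M, hM⟩ : ∃ M, ∀ k, ‖T k‖ ≤ M := by
      apply banach_steinhaus
      intro x
      obtain ⟨c, hc⟩ := (h4 x).norm.bddAbove_range
      refine ⟨c, fun k => ?_⟩
      rw [hTv]
      exact hc ⟨k, rfl⟩
    set u : V m := v - pr v with hu
    have hu1 : Tendsto (fun k : ℕ => ((P : V m →L[ℝ] V m) ^ k) u) atTop (𝓝 0) := by
      have := hv'.sub (h3 v)
      rw [sub_zero] at this
      refine this.congr fun k => ?_
      rw [hu, map_sub]
    have hu2 : pr u = 0 := by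
      rw [hu, map_sub, h2, sub_self]
    have hu3 : ∀ k, T k (((P : V m →L[ℝ] V m) ^ k) u) = u := by
      intro k
      rw [hTv, hcomm, hu2, map_zero, sub_zero, hinv]
    have hu4 : Tendsto (fun k : ℕ => ‖T k (((P : V m →L[ℝ] V m) ^ k) u)‖) atTop (𝓝 0) := by
      have h5 : Tendsto (fun k : ℕ => M * ‖((P : V m →L[ℝ] V m) ^ k) u‖) atTop (𝓝 0) := by
        have := hu1.norm.const_mul M
        rwa [norm_zero, mul_zero] at this
      refine squeeze_zero (fun k => norm_nonneg _) (fun k => ?_) h5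
      exact (T k).le_of_opNorm_le (hM k) _
    simp only [hu3] at hu4
    have h6 := tendsto_nhds_unique hu4 tendsto_const_nhds
    have h7 : u = 0 := by
      rw [← norm_eq_zero]
      exact h6.symm
    refine ⟨v, ?_⟩
    rw [hu, sub_eq_zero] at h7
    exact h7.symm
  · rintro _ ⟨v, rfl⟩
    exact h3 v

lemma pow_le_of {ρ c : ℝ} {k d : ℕ} (hρ : 1 ≤ ρ) (hc : c < ρ)
    (h : ρ ^ k ≤ c * ρ ^ d) : k ≤ d := by
  by_contra hcon
  push Not at hcon
  have h1 : ρ ^ (d + 1) ≤ ρ ^ k := pow_le_pow_right₀ hρ hcon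
  have h2 : 0 < ρ ^ d := by positivity
  rw [pow_succ'] at h1
  nlinarith

lemma kk_pow {m : ℕ} (P : V m ≃L[ℝ] V m) (hP : Hyp (P : V m →L[ℝ] V m)) {η : ℝ} (hη : 0 < η)
    (hA : ∀ n : ℕ, 1 ≤ n → Ann ((P : V m →L[ℝ] V m) ^ n) ((1 + η) ^ n)) :
    ∀ᶠ n : ℕ in atTop, kk ((P : V m →L[ℝ] V m) ^ n) =
      Module.finrank ℝ (Es (P : V m →L[ℝ] V m)) := by
  obtain ⟨pr, p1, p2, p3, p4⟩ := Pool.Agent.W5h63.AX.split P.toLinearEquiv hP
  have e1 : ∀ (k : ℕ) v, ((P.toLinearEquiv : V m →ₗ[ℝ] V m) ^ k) v =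
      ((P : V m →L[ℝ] V m) ^ k) v := by
    intro k
    induction k with
    | zero => intro v; rfl
    | succ k ih =>
      intro v
      rw [pow_succ, pow_succ, mul_app, Module.End.mul_apply, ih]
      rfl
  have e2 : ∀ (k : ℕ) v, ((P.toLinearEquiv.symm : V m →ₗ[ℝ] V m) ^ k) v =
      ((P.symm : V m →L[ℝ] V m) ^ k) v := by
    intro k
    induction k with
    | zero => intro v; rfl
    | succ k ih =>
      intro v
      rw [pow_succ, pow_succ, mul_app, Module.End.mul_apply, ih]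
      rfl
  simp only [e1] at p3
  simp only [e2] at p4
  rw [Es_eq P pr p1 p2 p3 p4]
  set d := Module.finrank ℝ (LinearMap.range pr) with hd
  set G : ℕ → (V m →ₗ[ℝ] V m) := fun n =>
    pr + (((P.symm : V m →L[ℝ] V m) ^ n : V m →L[ℝ] V m) : V m →ₗ[ℝ] V m) ∘ₗ (1 - pr) with hG
  have hinv : ∀ (k : ℕ) v, ((P : V m →L[ℝ] V m) ^ k) (((P.symm : V m →L[ℝ] V m) ^ k) v) = v := by
    intro k
    induction k with
    | zero => intro v; rfl
    | succ k ih =>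
      intro v
      rw [pow_succ (P : V m →L[ℝ] V m), pow_succ' (P.symm : V m →L[ℝ] V m), mul_app, mul_app]
      have : (P : V m →L[ℝ] V m) ((P.symm : V m →L[ℝ] V m) (((P.symm : V m →L[ℝ] V m) ^ k) v)) =
          ((P.symm : V m →L[ℝ] V m) ^ k) v := P.apply_symm_apply _
      rw [this, ih]
  have lim : ∀ ρ : ℝ, Tendsto (fun n : ℕ => |D ((P : V m →L[ℝ] V m) ^ n) ρ| *
      |LinearMap.det (G n)|) atTop (𝓝 (|ρ| ^ d)) := by
    intro ρ
    have h1 : Tendsto (fun n : ℕ => LinearMap.det ((((ρ • (1 : V m →L[ℝ] V m) -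
        (P : V m →L[ℝ] V m) ^ n : V m →L[ℝ] V m)) : V m →ₗ[ℝ] V m) ∘ₗ G n)) atTop
        (𝓝 (LinearMap.det (ρ • pr - (1 - pr)))) := by
      apply det_tendsto
      intro v
      have h2 : ∀ n : ℕ, ((((ρ • (1 : V m →L[ℝ] V m) -
        (P : V m →L[ℝ] V m) ^ n : V m →L[ℝ] V m)) : V m →ₗ[ℝ] V m) ∘ₗ G n) v =
          (ρ • pr v - (v - pr v)) - ((P : V m →L[ℝ] V m) ^ n) (pr v) +
            ρ • ((P.symm : V m →L[ℝ] V m) ^ n) (v - pr v) := by
        intro n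
        have h3 : G n v = pr v + ((P.symm : V m →L[ℝ] V m) ^ n) (v - pr v) := rfl
        have h4 : ∀ x : V m, (((ρ • (1 : V m →L[ℝ] V m) -
          (P : V m →L[ℝ] V m) ^ n : V m →L[ℝ] V m)) : V m →ₗ[ℝ] V m) x =
            ρ • x - ((P : V m →L[ℝ] V m) ^ n) x := fun x => rfl
        rw [LinearMap.comp_apply, h3, h4, map_add, hinv]
        module
      simp only [h2]
      have h5 := ((tendsto_const_nhds (x := ρ • pr v - (v - pr v))).sub (p3 v)).add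
        ((p4 v).const_smul ρ)
      simp only [sub_zero, smul_zero, add_zero] at h5
      exact h5
    have h6 := h1.abs
    rw [det_proj pr p2] at h6
    refine h6.congr fun n => ?_
    rw [LinearMap.det_comp, abs_mul, ← D_eq]
  set ρ : ℝ := 4 * 4 ^ m + 1 with hρ
  have hρ1 : 1 ≤ ρ := by
    have : (0 : ℝ) ≤ 4 * 4 ^ m := by positivity
    linarith
  have hρd : 0 < ρ ^ d := by positivity
  have l1 := lim 1
  have l2 := lim ρ
  rw [abs_one, one_pow] at l1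
  rw [abs_of_pos (by linarith)] at l2
  have v1 := l1.eventually (Ioo_mem_nhds (by norm_num : (1 / 2 : ℝ) < 1) (by norm_num : (1 : ℝ) < 2))
  have v2 := l2.eventually (Ioo_mem_nhds (by linarith : ρ ^ d / 2 < ρ ^ d)
    (by linarith : ρ ^ d < 2 * ρ ^ d))
  have v3 := (tendsto_pow_atTop_atTop_of_one_lt (by linarith : 1 < 1 + η)).eventually_ge_atTop
    (2 * ρ)
  filter_upwards [v1, v2, v3, eventually_ge_atTop 1] with n w1 w2 w3 w4
  obtain ⟨a1, a2, a3⟩ := ratio hρ1 w3 (hA n w4)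
  set x := |D ((P : V m →L[ℝ] V m) ^ n) 1|
  set y := |D ((P : V m →L[ℝ] V m) ^ n) ρ|
  set t := |LinearMap.det (G n)|
  set k := kk ((P : V m →L[ℝ] V m) ^ n)
  have ht : 0 ≤ t := abs_nonneg _
  have hρk : 0 < ρ ^ k := by positivity
  have h4 : (0 : ℝ) < 4 ^ m := by positivity
  have b2 : y * t ≤ 4 ^ m * ρ ^ k * (x * t) := by
    calc y * t ≤ (4 ^ m * ρ ^ k * x) * t := mul_le_mul_of_nonneg_right a2 ht
      _ = _ := by ring
  have b3 : ρ ^ k * (x * t) ≤ 4 ^ m * (y * t) := by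
    calc ρ ^ k * (x * t) = (ρ ^ k * x) * t := by ring
      _ ≤ (4 ^ m * y) * t := mul_le_mul_of_nonneg_right a3 ht
      _ = _ := by ring
  apply le_antisymm
  · refine pow_le_of (c := 4 * 4 ^ m) hρ1 (by linarith) ?_
    have c1 : ρ ^ k * (1 / 2) ≤ ρ ^ k * (x * t) := mul_le_mul_of_nonneg_left w1.1.le hρk.le
    have c2 : 4 ^ m * (y * t) ≤ 4 ^ m * (2 * ρ ^ d) := mul_le_mul_of_nonneg_left w2.2.le h4.le
    linarith
  · refine pow_le_of (c := 4 * 4 ^ m) hρ1 (by linarith) ?_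
    have c1 : 4 ^ m * ρ ^ k * (x * t) ≤ 4 ^ m * ρ ^ k * 2 :=
      mul_le_mul_of_nonneg_left w1.2.le (by positivity)
    linarith [w2.1]

theorem main : S_IDX := by
  intro m P Q W Z η hη h1 h2 h3
  have H1 : ∀ R : V m →L[ℝ] V m, ‖R - 1‖ ≤ η → ∀ α : ℕ, 1 ≤ α →
      Ann (R * (P : V m →L[ℝ] V m) ^ α) ((1 + η) ^ α) := by
    intro R hR α hα
    refine ann_of_scale hη hα fun t ht => ?_
    have := h1 t ht R hR α hα
    rwa [smul_powL, mul_smulL] at this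
  have H2 : ∀ R : V m →L[ℝ] V m, ‖R - 1‖ ≤ η → ∀ β : ℕ, 1 ≤ β →
      Ann ((Q : V m →L[ℝ] V m) ^ β * R) ((1 + η) ^ β) := by
    intro R hR β hβ
    refine ann_of_scale hη hβ fun t ht => ?_
    have := h2 t ht R hR β hβ
    rwa [smul_powL, smul_mulL] at this
  have H3 : ∀ R : V m →L[ℝ] V m, ‖R - 1‖ ≤ η → ∀ α β : ℕ, 1 ≤ α →
      Ann ((Z : V m →L[ℝ] V m) * (Q : V m →L[ℝ] V m) ^ β * (W : V m →L[ℝ] V m) * R *
        (P : V m →L[ℝ] V m) ^ α) ((1 + η) ^ (α + β)) := by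
    intro R hR α β hα
    refine ann_of_scale hη (by omega) fun t ht => ?_
    have := h3 t t ht ht R hR α β hα
    rw [smul_powL, smul_powL, mul_smulL, mul_smulL, smul_mulL, smul_mulL, smul_mulL, smul_smul,
      ← pow_add] at this
    exact this
  have h0 : ‖(1 : V m →L[ℝ] V m) - 1‖ ≤ η := by
    rw [sub_self, norm_zero]
    exact hη.le
  have hP : Hyp (P : V m →L[ℝ] V m) := by
    have := h1 0 (by rw [abs_zero]; exact hη.le) 1 h0 1 le_rfl
    rwa [add_zero, one_smul, one_mul, pow_one] at this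
  have hQ : Hyp (Q : V m →L[ℝ] V m) := by
    have := h2 0 (by rw [abs_zero]; exact hη.le) 1 h0 1 le_rfl
    rwa [add_zero, one_smul, mul_one, pow_one] at this
  have k1 := kk_pow P hP hη fun n hn => by
    have := H1 1 h0 n hn
    rwa [one_mul] at this
  have k2 := kk_pow Q hQ hη fun n hn => by
    have := H2 1 h0 n hn
    rwa [mul_one] at this
  obtain ⟨n₀, hn₀⟩ := chain P Q W Z hη H1 H2 H3
  obtain ⟨n, ⟨e1, e2⟩, e3⟩ := ((k1.and k2).and (eventually_ge_atTop n₀)).exists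
  rw [← e1, ← e2]
  exact hn₀ n e3

end

end Pool.Agent.H74.PA.Idx
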