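import Pool.Agent.H74.PA.Fin2
import Pool.Agent.H74.PA.Aff
import Pool.Agent.H74.PA.COD
import Pool.Agent.H74.PA.Hyp
import Pool.Agent.H74.PA.Idx
import Pool.Agent.H74.PA.Clo
import Pool.Agent.H74.G.R_pool_sql_team_seeded_2aa45f1a.Q154.OS.Mix

/-!
# The first factor satisfies Axiom A
-/

set_option autoImplicit false
set_option linter.unusedSectionVars false

open scoped Manifold ContDiff Topology
open Filter Set Metric

universe u v w x

namespace Pool.Agent.H74.PA.Fin

open Pool.Agent.H718R2.G Pool.Agent.TH80.OMS Pool.Agent.W564.SC Pool.Agent.W5h63.AX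
  Pool.Agent.Y271.CP Pool.Agent.H74.PA.Dyn

section three

variable {m l n : ℕ} {M : Type u} [TopologicalSpace M] [T2Space M] [CompactSpace M]
  [ChartedSpace (V m) M] [IsManifold (𝓡 m) ∞ M]
  {L : Type v} [TopologicalSpace L] [T2Space L] [CompactSpace L] [ChartedSpace (V l) L]
  [IsManifold (𝓡 l) ∞ L]
  {N : Type w} [TopologicalSpace N] [T2Space N] [CompactSpace N]
  [ChartedSpace (V n) N] [IsManifold (𝓡 n) ∞ N] {r : ℕ∞}

theorem nonwand_of_omega {X : Type*} [TopologicalSpace X] {f : X → X} {x : X} (hx : x ∈ Omega f) :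
    NonWand f x := by
  intro W hW
  obtain ⟨W', hW'W, hW'o, hxW'⟩ := mem_nhds_iff.1 hW
  obtain ⟨k, hk, y, hy, hy'⟩ := hx W' hW'o hxW'
  exact ⟨k, hk, y, hW'W hy, hW'W hy'⟩

/-- Periodic points are dense in the nonwandering set of the first factor. -/
theorem dens (hr : 1 ≤ r) (F : DiffM n N r) (hF : OmegaStable n N r F)
    (Θ : ProdDiffeo m l n M L N) (f : DiffM m M r) (g : DiffM l L r)
    (hp : ∀ x y, F (atP Θ x y) = atP Θ (f x) (g y)) {Y : Type x} [MetricSpace Y] [CompactSpace Y]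
    [Nontrivial Y] (h : Y ≃ₜ Y) (hps : PerShadow h) (hcm : ChainMix h)
    (ι : Y → L) (hι : Topology.IsEmbedding ι) (hιh : ∀ y, g (ι y) = ι (h y)) :
    Omega f ⊆ closure (Per f) := by
  have hmet : TopologicalSpace.MetrizableSpace M := Pool.Agent.Y504.CO.exists_metric m M
  letI : MetricSpace M := TopologicalSpace.metrizableSpaceMetric M
  intro x hx
  obtain ⟨y₀⟩ : Nonempty Y := inferInstance
  have hΘ' : Topology.IsEmbedding (fun q : M × Y => atP Θ q.1 (ι q.2)) := by
    have h1 : Topology.IsEmbedding (Prod.map (id : M → M) ι) := Topology.IsEmbedding.id.prodMap hι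
    exact Θ.toHomeomorph.isEmbedding.comp h1
  have h1 : atP Θ x (ι y₀) ∈ closure (Per F) :=
    Pool.Agent.Q154.OS.mem_closure_per hr hF (Pool.Agent.Q154.OS.loc_mix hr F f.toHomeomorph h
      hps hcm (fun q : M × Y => atP Θ q.1 (ι q.2)) hΘ' (fun x y => by
        show F (atP Θ x (ι y)) = atP Θ (f x) (ι (h y))
        rw [hp, hιh]) x y₀ (nonwand_of_omega hx))
  have h3 : MapsTo (c1 Θ) (Per F) (Per f) := fun z hz => per_map (c1_F hp) hz
  have h4 := h3.closure (c1_smooth Θ).continuous h1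
  rw [c1_at] at h4
  exact h4

/-- The first factor satisfies Axiom A. -/
theorem factor (hr : 1 ≤ r) (F : DiffM n N r) (hF : OmegaStable n N r F)
    (Θ : ProdDiffeo m l n M L N) (f : DiffM m M r) (g : DiffM l L r)
    (hp : ∀ x y, F (atP Θ x y) = atP Θ (f x) (g y)) {Y : Type x} [MetricSpace Y] [CompactSpace Y]
    [Nontrivial Y] (h : Y ≃ₜ Y) (hps : PerShadow h) (hcm : ChainMix h) (hex : Expans h)
    (ι : Y → L) (hι : Topology.IsEmbedding ι) (hιh : ∀ y, g (ι y) = ι (h y)) :
    AxiomA m f f.symm := by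
  obtain ⟨p, e, he, hinj⟩ := exists_imm m M
  have hnet : Net m M f := fun k c χ hχ =>
    Nl.nl Aff.main COD.main hr F hF Θ f g hp h hps hcm hex ι hι hιh k c χ hχ
  exact axiomA_of_noBddT Hyp.main hr he hinj (dens hr F hF Θ f g hp h hps hcm ι hι hιh)
    (noBddT Idx.main Clo.main hr hnet he hinj Subset.rfl)

end three

end Pool.Agent.H74.PA.Fin
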