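import Pool.Agent.H74.PA.Horse
import Pool.Agent.H74.PA.Den2
import Pool.Agent.H74.PA.Fin2
import Pool.Agent.H74.PA.COD2
import Pool.Agent.H74.PA.Hyp
import Pool.Agent.H74.PA.Idx
import Pool.Agent.H74.PA.Clo
import Pool.Agent.H74.PA.Ano

/-!
# `Ω`-stable products satisfy Axiom A
-/

set_option autoImplicit false
set_option linter.unusedSectionVars false

open scoped Manifold ContDiff Topology
open Filter Set Metric

universe u v w x

namespace Pool.Agent.H74.PA.Fin

open Pool.Agent.H718R2.G Pool.Agent.TH80.OMS Pool.Agent.W564.SC Pool.Agent.W5h63.AX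
  Pool.Agent.Y271.CP Pool.Agent.H74.PA.Dyn Pool.Agent.H74.PA.Hs

variable {m l n : ℕ} {M : Type u} [TopologicalSpace M] [T2Space M] [CompactSpace M]
  [ChartedSpace (V m) M] [IsManifold (𝓡 m) ∞ M]
  {L : Type v} [TopologicalSpace L] [T2Space L] [CompactSpace L] [ChartedSpace (V l) L]
  [IsManifold (𝓡 l) ∞ L]
  {N : Type w} [TopologicalSpace N] [T2Space N] [CompactSpace N]
  [ChartedSpace (V n) N] [IsManifold (𝓡 n) ∞ N] {r : ℕ∞}

/-- The first factor satisfies Axiom A. -/
theorem factor2 (hr : 1 ≤ r) {F : DiffM n N r} (hF : OmegaStable n N r F) {f : DiffM m M r}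
    {g : DiffM l L r} (hp : IsProduct F f g) (hg : HasHorseshoe g) : AxiomA m f f.symm := by
  obtain ⟨Θ, hp⟩ := hp
  obtain ⟨Y, _, _, _, h, ι, hps, hct, hex, hι, hιh⟩ := hg
  obtain ⟨p, e, he, hinj⟩ := exists_imm m M
  have hnet : Net m M f := fun k c χ hχ =>
    Nl.nl2 Aff.main COD2.main hr F hF Θ f g hp h hps hct hex ι hι hιh k c χ hχ
  exact axiomA_of_noBddT Hyp.main hr he hinj
    (Den.dens2 COD2.main hr F hF Θ f g hp h hps hct hex ι hι hιh)
    (noBddT Idx.main Clo.main hr hnet he hinj Subset.rfl)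

/-- exchanging the factors -/
theorem swap {F : DiffM n N r} {f : DiffM m M r} {g : DiffM l L r}
    (hp : IsProduct F f g) : IsProduct F g f := by
  obtain ⟨Θ, hp⟩ := hp
  exact ⟨(Diffeomorph.prodComm (𝓡 l) (𝓡 m) L M ∞).trans Θ, fun x y => hp y x⟩

theorem both (hr : 1 ≤ r) {F : DiffM n N r} (hF : OmegaStable n N r F) {f : DiffM m M r}
    {g : DiffM l L r} (hp : IsProduct F f g) (hg : HasHorseshoe g) :
    SatAxiomA f ∧ (SatAxiomA g ∨ HasHorseshoe f → SatAxiomA F) := by
  have h1 := factor2 hr hF hp hg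
  refine ⟨h1, fun h2 => ?_⟩
  obtain h3 : AxiomA l g g.symm := by
    rcases h2 with h2 | h2
    · exact h2
    · exact factor2 hr hF (swap hp) h2
  obtain ⟨Θ, hp⟩ := hp
  exact prod_axiomA Hyp.main hr hp h1 h3

lemma chainTrans_of_chainMix {Y : Type*} [MetricSpace Y] {h : Y → Y} (hcm : ChainMix h) :
    ChainTrans h := by
  intro δ hδ p q
  obtain ⟨K, hK⟩ := hcm δ hδ
  obtain ⟨w, h0, h1, h2⟩ := hK (K + 1) (by omega) p q
  exact ⟨K + 1, w, by omega, h0, h1, h2⟩

/-- Hyperbolic automorphisms of tori of dimension at least one satisfy the hypotheses. -/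
theorem torus (hr : 1 ≤ r) (g : DiffM l L r) (Λ : AddSubgroup (V l)) [DiscreteTopology Λ]
    [IsClosed (Λ : Set (V l))] (hl : 1 ≤ l) (A : V l ≃L[ℝ] V l)
    (hC : ∃ C : ℝ, ∀ z : V l, ∃ u ∈ Λ, ‖z - u‖ ≤ C)
    (hA : Pool.Agent.H922R3.CL.IsHypLin A) (hΛ : ∀ u, u ∈ Λ ↔ A u ∈ Λ) (π : V l → L)
    (hπl : IsLocalDiffeomorph (𝓡 l) (𝓡 l) ∞ π) (hπs : Function.Surjective π)
    (hπ : ∀ u u', π u = π u' ↔ u - u' ∈ Λ) (hg : ∀ u, g (π u) = π (A u)) :
    HasHorseshoe g ∧ SatAxiomA g := by
  refine ⟨?_, Ano.main l L r hr g Λ A hC hA hΛ π hπl hπs hπ hg⟩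
  obtain ⟨hps, hcm⟩ := t_EX2 (V l) Λ hC A hA hΛ (Pool.Agent.R773.FC.bar A hΛ) (fun z => rfl)
  have hex := Tor.main (V l) Λ hC A hA hΛ (Pool.Agent.R773.FC.bar A hΛ) (fun z => rfl)
  have hcomp : CompactSpace (V l ⧸ Λ) := Pool.Agent.W806.SC.comp hC
  have hπc : Continuous π := hπl.contMDiff.continuous
  let ι : V l ⧸ Λ → L := Quotient.lift π (fun a b hab => by
    have h1 : -a + b ∈ Λ := QuotientAddGroup.leftRel_apply.1 hab
    rw [hπ]
    have h2 := Λ.neg_mem h1
    have h3 : -(-a + b) = a - b := by abel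
    rwa [h3] at h2)
  have hιmk : ∀ u : V l, ι (QuotientAddGroup.mk u) = π u := fun u => rfl
  have hιc : Continuous ι := Continuous.quotient_lift hπc _
  have hιi : Function.Injective ι := by
    intro a b hab
    obtain ⟨u, rfl⟩ := QuotientAddGroup.mk_surjective a
    obtain ⟨u', rfl⟩ := QuotientAddGroup.mk_surjective b
    rw [hιmk, hιmk, hπ] at hab
    rw [eq_comm, QuotientAddGroup.eq]
    have h3 : -u' + u = u - u' := by abel
    rw [h3]
    exact hab
  have hinf : Infinite (V l ⧸ Λ) := by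
    rw [← not_finite_iff_infinite]
    intro hfin
    -- `Λ` is then of finite index, so open: the quotient is discrete
    have h1 : Infinite L := by
      have h2 : Nontrivial (V l) := by
        have : Nonempty (Fin l) := ⟨⟨0, hl⟩⟩
        infer_instance
      obtain ⟨x⟩ : Nonempty L := ⟨π 0⟩
      have h3 : (𝓝[≠] x).NeBot := by
        have h4 : (𝓝[≠] (chartAt (V l) x x)).NeBot := inferInstance
        by_contra h5
        rw [Filter.not_neBot, ← isOpen_singleton_iff_punctured_nhds] at h5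
        have h6 : IsOpen ((chartAt (V l) x) '' ({x} ∩ (chartAt (V l) x).source)) :=
          (chartAt (V l) x).isOpen_image_of_subset_source (h5.inter (chartAt (V l) x).open_source)
            inter_subset_right
        have h7 : (chartAt (V l) x) '' ({x} ∩ (chartAt (V l) x).source) =
            {chartAt (V l) x x} := by
          rw [Set.inter_eq_left.2 (by
            rintro _ rfl
            exact mem_chart_source _ _), Set.image_singleton]
        rw [h7, isOpen_singleton_iff_punctured_nhds] at h6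
        exact h4.ne h6
      exact @infinite_of_mem_nhds _ _ _ x h3 _ Filter.univ_mem |>.to_subtype.of_injective
        (fun z : (univ : Set L) => (z : L)) Subtype.val_injective
    have h8 : Finite L := Finite.of_surjective ι (fun x => by
      obtain ⟨u, rfl⟩ := hπs x
      exact ⟨QuotientAddGroup.mk u, rfl⟩)
    exact not_finite L
  refine ⟨V l ⧸ Λ, inferInstance, hcomp, hinf, Pool.Agent.R773.FC.bar A hΛ, ι, hps,
    chainTrans_of_chainMix hcm, hex, ?_, ?_⟩
  · exact (hιc.isClosedEmbedding hιi).isEmbedding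
  · intro y
    obtain ⟨u, rfl⟩ := QuotientAddGroup.mk_surjective y
    rw [hιmk, hg]
    rfl

end Pool.Agent.H74.PA.Fin
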