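import Mathlib
import Pool.Agent.H74.G.R_pool_sql_team_seeded_9f66d723.W5h63.AX.Defs
import Pool.Agent.H74.G.R_seed8.Y271.CP.Defs

/-!
# Products and invariant sets of horseshoe type: definitions
-/

set_option autoImplicit false

open scoped Manifold ContDiff Topology

universe u v w

namespace Pool.Agent.H74.PA.Hs

open Pool.Agent.H718R2.G Pool.Agent.Y271.CP

/-- periodic shadowing: for every `η > 0` there is `δ > 0` such that every closed `δ`-chain
`w 0, ..., w k = w 0` is `η`-close to the orbit of a point `p` with `h^k p = p` -/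
def PerShadowing {Y : Type v} [MetricSpace Y] (h : Y → Y) : Prop :=
  ∀ η : ℝ, 0 < η → ∃ δ : ℝ, 0 < δ ∧ ∀ (k : ℕ) (w : ℕ → Y), 1 ≤ k → w k = w 0 →
    (∀ i < k, dist (h (w i)) (w (i + 1)) < δ) →
    ∃ p : Y, h^[k] p = p ∧ ∀ i < k, dist (h^[i] p) (w i) < η

/-- chain transitivity: for every `δ > 0` there is a `δ`-chain from every point to every point -/
def ChainTransitive {Y : Type v} [MetricSpace Y] (h : Y → Y) : Prop :=
  ∀ δ : ℝ, 0 < δ → ∀ p q : Y, ∃ (k : ℕ) (w : ℕ → Y), 1 ≤ k ∧ w 0 = p ∧ w k = q ∧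
    ∀ i < k, dist (h (w i)) (w (i + 1)) < δ

/-- expansivity -/
def Expansive {Y : Type v} [MetricSpace Y] (h : Y ≃ₜ Y) : Prop :=
  ∃ c : ℝ, 0 < c ∧ ∀ x y : Y, (∀ i : ℕ, dist (h^[i] x) (h^[i] y) ≤ c ∧
    dist (h.symm^[i] x) (h.symm^[i] y) ≤ c) → x = y

section

variable {m : ℕ} {M : Type u} [TopologicalSpace M] [ChartedSpace (V m) M] {r : ℕ∞}

/-- `f` has an infinite compact invariant set (the image of the embedding `ι` of the compact metric
space `Y`; the restriction of `f` is `h`) on which it is expansive and chain transitive and has the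
periodic shadowing property. For instance an infinite basic set (horseshoe). -/
def HasHorseshoe (f : DiffM m M r) : Prop :=
  ∃ (Y : Type) (_ : MetricSpace Y) (_ : CompactSpace Y) (_ : Infinite Y) (h : Y ≃ₜ Y) (ι : Y → M),
    PerShadowing h ∧ ChainTransitive h ∧ Expansive h ∧ Topology.IsEmbedding ι ∧
      ∀ y, f (ι y) = ι (h y)

/-- `f` satisfies Axiom A. -/
def SatAxiomA (f : DiffM m M r) : Prop := Pool.Agent.W5h63.AX.AxiomA m f f.symm

end

/-- `F = f × g`: there is a smooth diffeomorphism `Θ : M × L → N` with `F ∘ Θ = Θ ∘ (f × g)`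
(`atP Θ x y = Θ (x, y)`). -/
def IsProduct {m l n : ℕ} {M : Type u} [TopologicalSpace M] [ChartedSpace (V m) M]
    {L : Type v} [TopologicalSpace L] [ChartedSpace (V l) L]
    {N : Type w} [TopologicalSpace N] [ChartedSpace (V n) N] {r : ℕ∞} (F : DiffM n N r)
    (f : DiffM m M r) (g : DiffM l L r) : Prop :=
  ∃ Θ : ProdDiffeo m l n M L N, ∀ x y, F (atP Θ x y) = atP Θ (f x) (g y)

end Pool.Agent.H74.PA.Hs
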