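import Pool.Agent.H74.PA.Prt
import Pool.Agent.H74.G.R_seed8.Y504.CO.Gen
import Pool.Agent.H74.G.R_seed8.W216.SC.A

/-!
# Networks of orbits of the first factor
-/

set_option autoImplicit false
set_option linter.unusedSectionVars false

open scoped Manifold ContDiff Topology
open Filter Set Metric

universe u v w x

namespace Pool.Agent.H74.PA

open Pool.Agent.H718R2.G Pool.Agent.TH80.OMS Pool.Agent.W564.SC Pool.Agent.Y271.CP
  Pool.Agent.R775.HL Pool.Agent.H74.PA.Prt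
open Pool.Agent.Y504.CO (NoBdd HypAt)

/-- `B (q-1) * ... * B 0` -/
noncomputable def prodL {m : ℕ} (B : ℕ → V m →L[ℝ] V m) : ℕ → V m →L[ℝ] V m
  | 0 => 1
  | j + 1 => B j * prodL B j

namespace Nl

section stab

variable {n : ℕ} {N : Type u} [TopologicalSpace N] [T2Space N] [CompactSpace N]
  [ChartedSpace (V n) N] [IsManifold (𝓡 n) ∞ N]

/-- All periodic points of all maps near an `Ω`-stable one are hyperbolic. -/
theorem stable_hypAt {r : ℕ∞} (hr : 1 ≤ r) {F : DiffM n N r} (hF : OmegaStable n N r F) :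
    ∃ U : Set (DiffM n N r), IsOpen[strongTop n N r] U ∧ F ∈ U ∧
      ∀ G ∈ U, ∀ p ∈ Per G, HypAt n G p := by
  obtain ⟨U₁, hU₁, hFU₁, hfin⟩ := Pool.Agent.TH80.OMS.finite_per hr hF
  obtain ⟨U₀, hU₀, hFU₀, hconj⟩ := hF
  have hU : IsOpen[strongTop n N r] (U₀ ∩ U₁) := @IsOpen.inter _ (strongTop n N r) _ _ hU₀ hU₁
  have hcard : ∀ g ∈ U₀ ∩ U₁, ∀ g' ∈ U₀ ∩ U₁, ∀ k : ℕ, 1 ≤ k →
      Set.ncard {x | g^[k] x = x} = Set.ncard {x | g'^[k] x = x} := by
    intro g hg g' hg' k hk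
    rw [← Pool.Agent.Y504.CO.ncard_conj F.continuous g.continuous (hconj g hg.1) hk,
      ← Pool.Agent.Y504.CO.ncard_conj F.continuous g'.continuous (hconj g' hg'.1) hk]
  exact ⟨_, hU, ⟨hFU₀, hFU₁⟩, fun g hg p hp =>
    Pool.Agent.Y504.CO.Plug.hF2 n N r hr _ hU (fun g hg => hfin g hg.2) hcard g hg p hp⟩

end stab

section cmpsec

variable {m : ℕ} {M : Type u} [TopologicalSpace M] [ChartedSpace (V m) M] {r : ℕ∞}

lemma smul_zero' (c : ℝ) : c • (0 : PP m) = 0 :=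
  Prod.ext (smul_zero c) (ContinuousLinearMap.ext fun _ => smul_zero c)

lemma zero_smul' (p : PP m) : (0 : ℝ) • p = 0 :=
  Prod.ext (zero_smul ℝ p.1) (ContinuousLinearMap.ext fun v => zero_smul ℝ (p.2 v))

lemma one_smul' (p : PP m) : (1 : ℝ) • p = p :=
  Prod.ext (one_smul ℝ p.1) (ContinuousLinearMap.ext fun v => one_smul ℝ (p.2 v))

lemma cmp_zero {k : ℕ} {Ψ : Fin k → PP m → DiffM m M r} (hΨ : ∀ s, Fam m M r (Ψ s))
    (p : Fin k → PP m) (β : Fin k → ℝ) (j : ℕ) (hβ : ∀ s : Fin k, (s : ℕ) < j → β s = 0)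
    (x : M) : cmps Ψ p β j x = x := by
  induction j with
  | zero => rfl
  | succ j ih =>
    have h1 := ih (fun s hs => hβ s (by omega))
    by_cases h : j < k
    · simp only [cmps, dif_pos h]
      rw [h1, hβ ⟨j, h⟩ (Nat.lt_succ_self j), zero_smul', (hΨ _).zero]
    · simp only [cmps, dif_neg h]
      exact h1

lemma cmp_one {k : ℕ} {Ψ : Fin k → PP m → DiffM m M r} (hΨ : ∀ s, Fam m M r (Ψ s))
    (p : Fin k → PP m) (β : Fin k → ℝ) (s₀ : Fin k) (h1 : β s₀ = 1)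
    (h0 : ∀ s, s ≠ s₀ → β s = 0) (x : M) : cmps Ψ p β k x = Ψ s₀ (p s₀) x := by
  have key : ∀ j : ℕ, (s₀ : ℕ) < j → cmps Ψ p β j x = Ψ s₀ (p s₀) x := by
    intro j hj
    induction j with
    | zero => omega
    | succ j ih =>
      by_cases hjs : (s₀ : ℕ) < j
      · by_cases h : j < k
        · simp only [cmps, dif_pos h]
          rw [ih hjs, h0 ⟨j, h⟩ (by
            intro h2
            rw [← h2] at hjs
            exact lt_irrefl _ hjs), zero_smul', (hΨ _).zero]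
        · simp only [cmps, dif_neg h]
          exact ih hjs
      · have h2 : (s₀ : ℕ) = j := by omega
        have h : j < k := h2 ▸ s₀.2
        have h3 : (⟨j, h⟩ : Fin k) = s₀ := Fin.ext h2.symm
        simp only [cmps, dif_pos h]
        rw [cmp_zero hΨ p β j (fun s hs => h0 s (by
          intro h4
          rw [h4] at hs
          omega)), h3, h1, one_smul']
  exact key k s₀.2

end cmpsec

section main

variable {m l n : ℕ} {M : Type u} [TopologicalSpace M] [T2Space M] [CompactSpace M]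
  [ChartedSpace (V m) M] [IsManifold (𝓡 m) ∞ M]
  {L : Type v} [TopologicalSpace L] [T2Space L] [CompactSpace L] [ChartedSpace (V l) L]
  [IsManifold (𝓡 l) ∞ L]
  {N : Type w} [TopologicalSpace N] [T2Space N] [CompactSpace N] [ChartedSpace (V n) N]
  [IsManifold (𝓡 n) ∞ N] {r : ℕ∞}

lemma exists_cut {Y : Type x} [MetricSpace Y] [CompactSpace Y] {ι : Y → L}
    (hι : Topology.IsEmbedding ι) {C B : Set Y} (hC : IsClosed C) (hB : IsOpen B) (hCB : C ⊆ B) :
    ∃ β : L → ℝ, ContMDiff (𝓡 l) 𝓘(ℝ, ℝ) ∞ β ∧ (∀ y ∈ C, β (ι y) = 1) ∧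
      ∀ y, y ∉ B → β (ι y) = 0 := by
  have h1 : IsClosed (ι '' C) := (hC.isCompact.image hι.continuous).isClosed
  have h2 : IsClosed (ι '' Bᶜ) := (hB.isClosed_compl.isCompact.image hι.continuous).isClosed
  have h3 : Disjoint (ι '' Bᶜ) (ι '' C) := by
    rw [Set.disjoint_left]
    rintro _ ⟨y, hy, rfl⟩ ⟨y', hy', h⟩
    have := hι.injective h
    exact hy (hCB (this ▸ hy'))
  obtain ⟨β, h4, h5, -⟩ := exists_contMDiffMap_zero_one_of_isClosed (𝓡 l) h2 h1 h3 (n := ⊤)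
  exact ⟨β, β.contMDiff, fun y hy => h5 ⟨y, hy, rfl⟩, fun y hy => h4 ⟨y, hy, rfl⟩⟩

lemma tim_succ (l : ℕ → ℕ) (j : ℕ) : tim l (j + 1) = tim l j + l j :=
  Finset.sum_range_succ _ _

/-- the compositions of the transitions and the iterates -/
noncomputable def comps {k : ℕ} (f : M → M) (T : Fin k → M → M) (w : ℕ → Fin k) (l : ℕ → ℕ) :
    ℕ → M → M
  | 0, x => x
  | j + 1, x => T (w (j + 1)) (f^[l j] (comps f T w l j x))

/-- one edge -/
lemma edge {Y : Type x} {h : Y → Y} {ι : Y → L} {Θ : ProdDiffeo m l n M L N} {G : N → N}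
    {f : M → M} {k : ℕ} {T : Fin k → M → M} {S : L → M → M}
    (hG : ∀ x y, G (atP Θ x (ι y)) = atP Θ (S (ι (h y)) (f x)) (ι (h y))) {C B : Fin k → Set Y}
    (hS0 : ∀ y, (∀ s, y ∉ B s) → ∀ x, S (ι y) x = x) (hS1 : ∀ s, ∀ y ∈ C s, ∀ x, S (ι y) x = T s x)
    (y : Y) (d : ℕ) (hd : 1 ≤ d) (hB : ∀ i, 0 < i → i < d → ∀ s, h^[i] y ∉ B s) (s : Fin k)
    (hC : h^[d] y ∈ C s) (x : M) :
    G^[d] (atP Θ x (ι y)) = atP Θ (T s (f^[d] x)) (ι (h^[d] y)) := by
  have h1 : ∀ i, i < d → G^[i] (atP Θ x (ι y)) = atP Θ (f^[i] x) (ι (h^[i] y)) := by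
    intro i hi
    induction i with
    | zero => rfl
    | succ i ih =>
      rw [Function.iterate_succ_apply', ih (by omega), hG, ← Function.iterate_succ_apply' h,
        hS0 _ (hB (i + 1) (Nat.succ_pos i) hi), ← Function.iterate_succ_apply' f]
  obtain ⟨d', rfl⟩ := Nat.exists_eq_add_of_le' hd
  rw [Function.iterate_succ_apply', h1 d' (by omega), hG, ← Function.iterate_succ_apply' h,
    hS1 s _ hC, ← Function.iterate_succ_apply' f]

lemma contMDiff_iterate {g : N → N} (hg : ContMDiff (𝓡 n) (𝓡 n) 1 g) (k : ℕ) :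
    ContMDiff (𝓡 n) (𝓡 n) 1 g^[k] := by
  induction k with
  | zero => exact contMDiff_id
  | succ k ih =>
    rw [Function.iterate_succ']
    exact hg.comp ih

/-- The derivative of the return map of the product has the derivative of the return map of the first
factor as a restriction. -/
lemma slice (Θ : ProdDiffeo m l n M L N) {H : N → N} (hH : ContMDiff (𝓡 n) (𝓡 n) 1 H)
    {Q : M → M} {y : L} (hHQ : ∀ x, H (atP Θ x y) = atP Θ (Q x) y) {a : M} (ha : Q a = a)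
    (hQ : ContinuousAt Q a) {χ : OpenPartialHomeomorph M (V m)}
    (hχ : χ ∈ IsManifold.maximalAtlas (𝓡 m) ∞ M) (hχa : a ∈ χ.source) {X : V m →L[ℝ] V m}
    (hX : HasFDerivAt (fun v => χ (Q (χ.symm v))) X (χ a)) {ψ : OpenPartialHomeomorph N (V n)}
    (hψ : ψ ∈ IsManifold.maximalAtlas (𝓡 n) ∞ N) (hψa : atP Θ a y ∈ ψ.source)
    (hN : NoBdd (fun _ => fderiv ℝ (fun v => ψ (H (ψ.symm v))) (ψ (atP Θ a y)))) :
    NoBdd (fun _ => X) := by
  have hsymm : χ.symm (χ a) = a := χ.left_inv hχa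
  have hΘ : ContMDiff (𝓡 m) (𝓡 n) 1 (fun x : M => atP Θ x y) :=
    (Θ.contMDiff_toFun.of_le (by exact_mod_cast le_top)).comp
      (contMDiff_id.prodMk contMDiff_const)
  have hπ : ContMDiff (𝓡 n) (𝓡 m) 1 (fun z : N => (Θ.symm z).1) :=
    (contMDiff_fst : ContMDiff ((𝓡 m).prod (𝓡 l)) (𝓡 m) 1 (Prod.fst : M × L → M)).comp
      (Θ.symm.contMDiff_toFun.of_le (by exact_mod_cast le_top))
  have hχs : ContMDiffAt (𝓡 m) (𝓡 m) 1 χ.symm (χ a) :=
    ((contMDiffOn_symm_of_mem_maximalAtlas hχ _ (χ.map_source hχa)).contMDiffAt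
      (χ.open_target.mem_nhds (χ.map_source hχa))).of_le (by exact_mod_cast le_top)
  have hχ1 : ContMDiffAt (𝓡 m) (𝓡 m) 1 χ a :=
    ((contMDiffOn_of_mem_maximalAtlas hχ _ hχa).contMDiffAt
      (χ.open_source.mem_nhds hχa)).of_le (by exact_mod_cast le_top)
  have hψs : ContMDiffAt (𝓡 n) (𝓡 n) 1 ψ.symm (ψ (atP Θ a y)) :=
    ((contMDiffOn_symm_of_mem_maximalAtlas hψ _ (ψ.map_source hψa)).contMDiffAt
      (ψ.open_target.mem_nhds (ψ.map_source hψa))).of_le (by exact_mod_cast le_top)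
  have hψ1 : ContMDiffAt (𝓡 n) (𝓡 n) 1 ψ (atP Θ a y) :=
    ((contMDiffOn_of_mem_maximalAtlas hψ _ hψa).contMDiffAt
      (ψ.open_source.mem_nhds hψa)).of_le (by exact_mod_cast le_top)
  -- the slice and the projection in charts
  have hJ0 : ContMDiffAt (𝓡 m) (𝓡 n) 1 (fun v => ψ (atP Θ (χ.symm v) y)) (χ a) := by
    refine ContMDiffAt.comp (I' := 𝓡 n) (M' := N) (χ a) (g := ψ)
      (f := fun v => atP Θ (χ.symm v) y) ?_ ?_
    · rw [hsymm]; exact hψ1
    · exact (hΘ.contMDiffAt).comp (χ a) hχs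
  have hJ : DifferentiableAt ℝ (fun v => ψ (atP Θ (χ.symm v) y)) (χ a) :=
    (contMDiffAt_iff_contDiffAt.1 hJ0).differentiableAt (by norm_num)
  have hI0 : ContMDiffAt (𝓡 n) (𝓡 m) 1 (fun v => χ (Θ.symm (ψ.symm v)).1) (ψ (atP Θ a y)) := by
    refine ContMDiffAt.comp (I' := 𝓡 m) (M' := M) (ψ (atP Θ a y)) (g := χ)
      (f := fun v => (Θ.symm (ψ.symm v)).1) ?_ ?_
    · rw [ψ.left_inv hψa]
      have : (Θ.symm (atP Θ a y)).1 = a := by unfold atP; rw [Θ.symm_apply_apply]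
      rw [this]
      exact hχ1
    · exact ContMDiffAt.comp (ψ (atP Θ a y)) (g := fun z : N => (Θ.symm z).1) (f := ψ.symm)
        hπ.contMDiffAt hψs
  have hI : DifferentiableAt ℝ (fun v => χ (Θ.symm (ψ.symm v)).1) (ψ (atP Θ a y)) :=
    (contMDiffAt_iff_contDiffAt.1 hI0).differentiableAt (by norm_num)
  have hH1 : ContMDiffAt (𝓡 n) (𝓡 n) 1 (fun v => ψ (H (ψ.symm v))) (ψ (atP Θ a y)) := by
    refine ContMDiffAt.comp (I' := 𝓡 n) (M' := N) (ψ (atP Θ a y)) (g := ψ)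
      (f := fun v => H (ψ.symm v)) ?_ ?_
    · rw [ψ.left_inv hψa, hHQ, ha]
      exact hψ1
    · exact ContMDiffAt.comp (ψ (atP Θ a y)) (g := H) (f := ψ.symm) hH.contMDiffAt hψs
  have hH2 : DifferentiableAt ℝ (fun v => ψ (H (ψ.symm v))) (ψ (atP Θ a y)) :=
    (contMDiffAt_iff_contDiffAt.1 hH1).differentiableAt (by norm_num)
  obtain ⟨J, hJd⟩ : ∃ J, HasFDerivAt (fun v => ψ (atP Θ (χ.symm v) y)) J (χ a) :=
    ⟨_, hJ.hasFDerivAt⟩
  obtain ⟨I, hId⟩ : ∃ I, HasFDerivAt (fun v => χ (Θ.symm (ψ.symm v)).1) I (ψ (atP Θ a y)) :=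
    ⟨_, hI.hasFDerivAt⟩
  obtain ⟨D, hDd⟩ : ∃ D, HasFDerivAt (fun v => ψ (H (ψ.symm v))) D (ψ (atP Θ a y)) :=
    ⟨_, hH2.hasFDerivAt⟩
  have hc : ContinuousAt (fun v : V m => atP Θ (χ.symm v) y) (χ a) :=
    (hΘ.continuous.continuousAt).comp (hχs.continuousAt)
  have hc' : (fun v : V m => atP Θ (χ.symm v) y) (χ a) = atP Θ a y := by
    show atP Θ (χ.symm (χ a)) y = _
    rw [hsymm]
  -- `I ∘ J = 1`
  have hIJ : I ∘L J = ContinuousLinearMap.id ℝ (V m) := by
    have h1 : HasFDerivAt (fun v => χ (Θ.symm (ψ.symm (ψ (atP Θ (χ.symm v) y)))).1) (I ∘L J)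
        (χ a) := by
      have h2 : HasFDerivAt (fun v => χ (Θ.symm (ψ.symm v)).1) I
          ((fun v => ψ (atP Θ (χ.symm v) y)) (χ a)) := by
        show HasFDerivAt _ I (ψ (atP Θ (χ.symm (χ a)) y))
        rw [hsymm]
        exact hId
      exact h2.comp (χ a) hJd
    have h3 : (fun v => χ (Θ.symm (ψ.symm (ψ (atP Θ (χ.symm v) y)))).1) =ᶠ[𝓝 (χ a)]
        fun v => v := by
      have h4 : ∀ᶠ v in 𝓝 (χ a), atP Θ (χ.symm v) y ∈ ψ.source :=
        hc.preimage_mem_nhds (by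
          show ψ.source ∈ 𝓝 (atP Θ (χ.symm (χ a)) y)
          rw [hsymm]
          exact ψ.open_source.mem_nhds hψa)
      filter_upwards [h4, χ.open_target.mem_nhds (χ.map_source hχa)] with v hv hv'
      rw [ψ.left_inv hv]
      unfold atP
      rw [Θ.symm_apply_apply]
      exact χ.right_inv hv'
    exact (h1.congr_of_eventuallyEq h3.symm).unique (hasFDerivAt_id (χ a))
  -- `D ∘ J = J ∘ X`
  have hDJ : D ∘L J = J ∘L X := by
    have h1 : HasFDerivAt (fun v => ψ (H (ψ.symm (ψ (atP Θ (χ.symm v) y))))) (D ∘L J) (χ a) := by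
      have h2 : HasFDerivAt (fun v => ψ (H (ψ.symm v))) D
          ((fun v => ψ (atP Θ (χ.symm v) y)) (χ a)) := by
        show HasFDerivAt _ D (ψ (atP Θ (χ.symm (χ a)) y))
        rw [hsymm]
        exact hDd
      exact h2.comp (χ a) hJd
    have h5 : HasFDerivAt (fun v => ψ (atP Θ (χ.symm (χ (Q (χ.symm v)))) y)) (J ∘L X) (χ a) := by
      have h2 : HasFDerivAt (fun v => ψ (atP Θ (χ.symm v) y)) J
          ((fun v => χ (Q (χ.symm v))) (χ a)) := by
        show HasFDerivAt _ J (χ (Q (χ.symm (χ a))))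
        rw [hsymm, ha]
        exact hJd
      exact h2.comp (χ a) hX
    have h3 : (fun v => ψ (H (ψ.symm (ψ (atP Θ (χ.symm v) y))))) =ᶠ[𝓝 (χ a)]
        fun v => ψ (atP Θ (χ.symm (χ (Q (χ.symm v)))) y) := by
      have h4 : ∀ᶠ v in 𝓝 (χ a), atP Θ (χ.symm v) y ∈ ψ.source :=
        hc.preimage_mem_nhds (by
          show ψ.source ∈ 𝓝 (atP Θ (χ.symm (χ a)) y)
          rw [hsymm]
          exact ψ.open_source.mem_nhds hψa)
      have h6 : ContinuousAt (fun v => Q (χ.symm v)) (χ a) := by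
        refine ContinuousAt.comp (g := Q) (f := χ.symm) ?_ hχs.continuousAt
        rw [hsymm]
        exact hQ
      have h8 : (fun v => Q (χ.symm v)) (χ a) = a := by
        show Q (χ.symm (χ a)) = a
        rw [hsymm, ha]
      have h7 : ∀ᶠ v in 𝓝 (χ a), Q (χ.symm v) ∈ χ.source :=
        h6.preimage_mem_nhds (by
          show χ.source ∈ 𝓝 (Q (χ.symm (χ a)))
          rw [hsymm, ha]
          exact χ.open_source.mem_nhds hχa)
      filter_upwards [h4, h7] with v hv hv'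
      rw [ψ.left_inv hv, hHQ, χ.left_inv hv']
    exact (h1.congr_of_eventuallyEq h3.symm).unique h5
  have hD : fderiv ℝ (fun v => ψ (H (ψ.symm v))) (ψ (atP Θ a y)) = D := hDd.fderiv
  rw [hD] at hN
  intro v ⟨c, hc⟩ hv i
  have h1 := hN (fun i => J (v i)) ⟨‖J‖ * c, fun i => (J.le_opNorm _).trans
    (mul_le_mul_of_nonneg_left (hc i) (norm_nonneg _))⟩ (fun i => by
      show J (v (i + 1)) = D (J (v i))
      rw [hv i]
      exact (congrArg (fun T => T (v i)) hDJ).symm) i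
  have h2 := congrArg (fun T => T (v i)) hIJ
  simp only [ContinuousLinearMap.comp_apply, ContinuousLinearMap.id_apply] at h2
  rw [← h2, h1, map_zero]

lemma contMDiff_one (hr : 1 ≤ r) (g : DiffM n N r) : ContMDiff (𝓡 n) (𝓡 n) 1 g :=
  g.contMDiff_toFun.of_le (by exact_mod_cast hr)

/-- the derivative of the composition, in charts -/
lemma comps_deriv {f : M → M} (hf : Continuous f) {k : ℕ} {T : Fin k → M → M}
    (hT : ∀ s, Continuous (T s)) {w : ℕ → Fin k} {d : ℕ → ℕ} {q : ℕ} {a b : Fin k → M}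
    {χ : Fin k → OpenPartialHomeomorph M (V m)} (ha : ∀ s, a s ∈ (χ s).source)
    (hb : ∀ s, b s ∈ (χ s).source) (hTb : ∀ s, T s (b s) = a s) {E : Fin k → V m →L[ℝ] V m}
    (hTE : ∀ s, ∀ᶠ x in 𝓝 (b s), χ s (T s x) = χ s (a s) + E s (χ s x - χ s (b s)))
    {A : ℕ → V m →L[ℝ] V m}
    (he : ∀ j < q, f^[d j] (a (w j)) = b (w (j + 1)) ∧
      HasFDerivAt (fun v => χ (w (j + 1)) (f^[d j] ((χ (w j)).symm v))) (A j)
        (χ (w j) (a (w j)))) :
    ∀ j ≤ q, comps f T w d j (a (w 0)) = a (w j) ∧ Continuous (comps f T w d j) ∧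
      HasFDerivAt (fun v => χ (w j) (comps f T w d j ((χ (w 0)).symm v)))
        (prodL (fun j => E (w (j + 1)) * A j) j) (χ (w 0) (a (w 0))) := by
  intro j
  induction j with
  | zero =>
    intro _
    refine ⟨rfl, continuous_id, ?_⟩
    have h1 : (fun v => χ (w 0) (comps f T w d 0 ((χ (w 0)).symm v))) =ᶠ[𝓝 (χ (w 0) (a (w 0)))]
        fun v => v := by
      filter_upwards [(χ (w 0)).open_target.mem_nhds ((χ (w 0)).map_source (ha (w 0)))] with v hv
      exact (χ (w 0)).right_inv hv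
    exact (hasFDerivAt_id (𝕜 := ℝ) (χ (w 0) (a (w 0)))).congr_of_eventuallyEq h1
  | succ j ih =>
    intro hj
    obtain ⟨h1, h2, h3⟩ := ih (by omega)
    obtain ⟨h4, h5⟩ := he j (by omega)
    set v₀ := χ (w 0) (a (w 0)) with hv₀
    have hs0 : (χ (w 0)).symm v₀ = a (w 0) := (χ (w 0)).left_inv (ha (w 0))
    have hsc : ContinuousAt (χ (w 0)).symm v₀ :=
      (χ (w 0)).continuousAt_symm ((χ (w 0)).map_source (ha (w 0)))
    have hc1 : ContinuousAt (fun v => comps f T w d j ((χ (w 0)).symm v)) v₀ :=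
      h2.continuousAt.comp hsc
    have hc1' : comps f T w d j ((χ (w 0)).symm v₀) = a (w j) := by rw [hs0, h1]
    have hc2 : ContinuousAt (fun v => f^[d j] (comps f T w d j ((χ (w 0)).symm v))) v₀ :=
      (hf.iterate (d j)).continuousAt.comp hc1
    have hc2' : f^[d j] (comps f T w d j ((χ (w 0)).symm v₀)) = b (w (j + 1)) := by
      rw [hc1', h4]
    refine ⟨?_, ?_, ?_⟩
    · show T (w (j + 1)) (f^[d j] (comps f T w d j (a (w 0)))) = _
      rw [h1, h4, hTb]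
    · exact (hT _).comp ((hf.iterate (d j)).comp h2)
    · have h6 : ∀ᶠ v in 𝓝 v₀, comps f T w d j ((χ (w 0)).symm v) ∈ (χ (w j)).source :=
        hc1.preimage_mem_nhds (by
          rw [hc1']
          exact (χ (w j)).open_source.mem_nhds (ha (w j)))
      have h7 : ∀ᶠ v in 𝓝 v₀, χ (w (j + 1)) (T (w (j + 1))
          (f^[d j] (comps f T w d j ((χ (w 0)).symm v)))) = χ (w (j + 1)) (a (w (j + 1))) +
          E (w (j + 1)) (χ (w (j + 1)) (f^[d j] (comps f T w d j ((χ (w 0)).symm v))) -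
            χ (w (j + 1)) (b (w (j + 1)))) := by
        have h8 : Tendsto (fun v => f^[d j] (comps f T w d j ((χ (w 0)).symm v))) (𝓝 v₀)
            (𝓝 (b (w (j + 1)))) := by
          have h8' := hc2.tendsto
          rwa [hc2'] at h8'
        exact h8.eventually (hTE (w (j + 1)))
      have h9 : HasFDerivAt (fun v => χ (w (j + 1)) (f^[d j] ((χ (w j)).symm
          (χ (w j) (comps f T w d j ((χ (w 0)).symm v)))))) (A j ∘L
          prodL (fun j => E (w (j + 1)) * A j) j) v₀ := by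
        have h10 : HasFDerivAt (fun v => χ (w (j + 1)) (f^[d j] ((χ (w j)).symm v))) (A j)
            ((fun v => χ (w j) (comps f T w d j ((χ (w 0)).symm v))) v₀) := by
          show HasFDerivAt _ (A j) (χ (w j) (comps f T w d j ((χ (w 0)).symm v₀)))
          rw [hc1']
          exact h5
        exact h10.comp v₀ h3
      have h11 : HasFDerivAt (fun v => χ (w (j + 1)) (a (w (j + 1))) +
          E (w (j + 1)) (χ (w (j + 1)) (f^[d j] ((χ (w j)).symm
          (χ (w j) (comps f T w d j ((χ (w 0)).symm v))))) - χ (w (j + 1)) (b (w (j + 1)))))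
          (E (w (j + 1)) ∘L (A j ∘L prodL (fun j => E (w (j + 1)) * A j) j)) v₀ := by
        have h12 := (E (w (j + 1))).hasFDerivAt.comp v₀ (h9.sub_const (χ (w (j + 1)) (b (w (j + 1)))))
        exact h12.const_add _
      refine h11.congr_of_eventuallyEq ?_
      filter_upwards [h6, h7] with v hv hv'
      show χ (w (j + 1)) (T (w (j + 1)) (f^[d j] (comps f T w d j ((χ (w 0)).symm v)))) = _
      rw [hv', (χ (w j)).left_inv hv]

/-- **Networks.** Every closed path in a network of orbits of the first factor, with small jumps and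
almost isometric linear maps at the jumps, is hyperbolic. -/
theorem nl (hAFF : S_AFF.{u}) (hCOD : S_COD.{x}) (hr : 1 ≤ r) (F : DiffM n N r)
    (hF : OmegaStable n N r F) (Θ : ProdDiffeo m l n M L N) (f : DiffM m M r) (g : DiffM l L r)
    (hp : ∀ x y, F (atP Θ x y) = atP Θ (f x) (g y)) {Y : Type x} [MetricSpace Y] [CompactSpace Y]
    [Nontrivial Y] (h : Y ≃ₜ Y) (hps : PerShadow h) (hcm : ChainMix h) (hex : Expans h)
    (ι : Y → L) (hι : Topology.IsEmbedding ι) (hιh : ∀ y, g (ι y) = ι (h y)) (k : ℕ)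
    (c : Fin k → M) (χ : Fin k → OpenPartialHomeomorph M (V m))
    (hχ : ∀ s, GoodChart m M (χ s) (c s)) :
    ∃ (η : ℝ) (N₀ : ℕ), 0 < η ∧ 1 ≤ N₀ ∧ ∀ (a b : Fin k → M) (E : Fin k → V m →L[ℝ] V m),
      (∀ s, a s ∈ (χ s).source ∧ b s ∈ (χ s).source ∧ ‖χ s (a s)‖ ≤ η ∧ ‖χ s (b s)‖ ≤ η ∧
        ‖E s - 1‖ ≤ η) →
      ∀ (d : ℕ → ℕ) (A : ℕ → V m →L[ℝ] V m) (w : ℕ → Fin k) (q : ℕ), 1 ≤ q → w q = w 0 →
        (∀ j < q, N₀ ≤ d j ∧ f^[d j] (a (w j)) = b (w (j + 1)) ∧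
          HasFDerivAt (fun v => χ (w (j + 1)) (f^[d j] ((χ (w j)).symm v))) (A j)
            (χ (w j) (a (w j)))) →
        NoBdd (fun _ => prodL (fun j => E (w (j + 1)) * A j) q) := by
  obtain ⟨U, hU, hFU, hyp⟩ := stable_hypAt hr hF
  choose Ψ κs hκs hΨ0 hΨ1 hΨ2 hΨ3 using fun s => hAFF m M r (χ s) (c s) (hχ s)
  have hfam : ∀ s, Fam m M r (Ψ s) := fun s => ⟨hΨ0 s, hΨ1 s, hΨ2 s⟩
  obtain ⟨C, B, N₀, hN₀, hC, hB, hCB, hdis, hcod⟩ := hCOD Y h hps hcm hex k
  choose β hβ1 hβ2 hβ3 using fun s => exists_cut (l := l) hι (hC s) (hB s) (hCB s)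
  rcases isEmpty_or_nonempty N with hne | ⟨⟨z₀⟩⟩
  · refine ⟨1, 1, one_pos, le_rfl, fun a b E hab d A w q hq hw he => ?_⟩
    obtain ⟨y₁⟩ : Nonempty Y := inferInstance
    exact (hne.false (atP Θ (a (w 0)) (ι y₁))).elim
  obtain ⟨κ, hκ, hpert⟩ := exists_pert hr F Θ f g hp Ψ hfam β hβ1 U hU hFU z₀
  obtain ⟨κ', hκ', hκs'⟩ : ∃ κ' : ℝ, 0 < κ' ∧ ∀ s, κ' ≤ κs s := by
    obtain ⟨c', h1, h2⟩ := Pool.Agent.W216.SC.exists_pos_le Finset.univ κs (fun s _ => hκs s)
    exact ⟨c', h1, fun s => h2 s (Finset.mem_univ s)⟩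
  obtain ⟨η, hη, hη1, hη2, hη3⟩ : ∃ η : ℝ, 0 < η ∧ η ≤ 1 / 8 ∧ 3 * η < κ ∧ 3 * η < κ' := by
    refine ⟨min (1 / 8) (min (κ / 4) (κ' / 4)), by positivity, min_le_left _ _, ?_, ?_⟩
    · have : min (1 / 8) (min (κ / 4) (κ' / 4)) ≤ κ / 4 :=
        (min_le_right _ _).trans (min_le_left _ _)
      linarith
    · have : min (1 / 8) (min (κ / 4) (κ' / 4)) ≤ κ' / 4 :=
        (min_le_right _ _).trans (min_le_right _ _)
      linarith
  refine ⟨η, N₀, hη, hN₀, fun a b E hab d A w q hq hw he => ?_⟩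
  -- the parameters
  let p : Fin k → PP m := fun s => (χ s (a s) - E s (χ s (b s)), E s - 1)
  have hps' : ∀ s, ‖p s‖ ≤ 3 * η := by
    intro s
    obtain ⟨h1, h2, h3, h4, h5⟩ := hab s
    have h6 : χ s (a s) - E s (χ s (b s)) = χ s (a s) - χ s (b s) - (E s - 1) (χ s (b s)) := by
      simp only [ContinuousLinearMap.sub_apply, ContinuousLinearMap.one_apply]
      abel
    have h7 : ‖(E s - 1) (χ s (b s))‖ ≤ η * η :=
      ((E s - 1).le_opNorm _).trans (mul_le_mul h5 h4 (norm_nonneg _) hη.le)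
    refine max_le ?_ (by linarith)
    show ‖χ s (a s) - E s (χ s (b s))‖ ≤ 3 * η
    rw [h6]
    refine (norm_sub_le _ _).trans ?_
    have h8 := norm_sub_le (χ s (a s)) (χ s (b s))
    nlinarith
  have hpn : ‖p‖ < κ := by
    refine lt_of_le_of_lt ?_ hη2
    exact (pi_norm_le_iff_of_nonneg (by positivity)).2 hps'
  obtain ⟨G, hGU, hG⟩ := hpert p hpn
  -- the transitions
  have hTf : ∀ s, ∀ y ∈ (χ s).source, ‖χ s y‖ < 1 / 4 → Ψ s (p s) y ∈ (χ s).source ∧
      χ s (Ψ s (p s) y) = χ s (a s) + E s (χ s y - χ s (b s)) := by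
    intro s y hy hy4
    obtain ⟨h1, h2⟩ := hΨ3 s (p s) ((hps' s).trans_lt (hη3.trans_le (hκs' s))) y hy hy4
    refine ⟨h1, ?_⟩
    rw [h2]
    show χ s y + ((χ s (a s) - E s (χ s (b s))) + (E s - 1) (χ s y)) = _
    simp only [ContinuousLinearMap.sub_apply, ContinuousLinearMap.one_apply, map_sub]
    abel
  have hTb : ∀ s, Ψ s (p s) (b s) = a s := by
    intro s
    obtain ⟨h1, h2, h3, h4, h5⟩ := hab s
    obtain ⟨h6, h7⟩ := hTf s (b s) h2 (by linarith)
    refine (χ s).injOn h6 h1 ?_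
    rw [h7, sub_self, map_zero, add_zero]
  have hTE : ∀ s, ∀ᶠ x in 𝓝 (b s), χ s (Ψ s (p s) x) = χ s (a s) + E s (χ s x - χ s (b s)) := by
    intro s
    obtain ⟨h1, h2, h3, h4, h5⟩ := hab s
    have h6 : ∀ᶠ x in 𝓝 (b s), ‖χ s x‖ < 1 / 4 :=
      ((χ s).continuousAt h2).norm.eventually_lt continuousAt_const (by linarith)
    filter_upwards [(χ s).open_source.mem_nhds h2, h6] with x hx hx'
    exact (hTf s x hx hx').2
  have hder := comps_deriv (f := f) f.continuous (T := fun s => Ψ s (p s))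
    (fun s => (Ψ s (p s)).continuous) (d := d) (fun s => (hab s).1) (fun s => (hab s).2.1) hTb hTE
    (fun j hj => (he j hj).2)
  -- the coded periodic point
  obtain ⟨y, hy1, hy2, hy3⟩ := hcod q w d hq (fun j hj => (he j hj).1)
  have hS0 : ∀ y, (∀ s, y ∉ B s) → ∀ x, cmps Ψ p (fun s => β s (ι y)) k x = x := by
    intro y hy x
    exact cmp_zero hfam p _ k (fun s _ => hβ3 s y (hy s)) x
  have hS1 : ∀ s, ∀ y ∈ C s, ∀ x, cmps Ψ p (fun s => β s (ι y)) k x = Ψ s (p s) x := by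
    intro s y hy x
    refine cmp_one hfam p _ s (hβ2 s y hy) (fun s' hs' => hβ3 s' y fun h1 => ?_) x
    exact (Set.disjoint_left.1 (hdis s' s hs')) h1 (hCB s hy)
  have hG' : ∀ x y, G (atP Θ x (ι y)) =
      atP Θ (cmps Ψ p (fun s => β s (ι (h y))) k (f x)) (ι (h y)) := by
    intro x y
    rw [hG, hιh]
  have hyC : ∀ j ≤ q, h^[tim d j] y ∈ C (w j) := by
    intro j hj
    rcases hj.lt_or_eq with hj | rfl
    · exact hy2 j hj
    · rw [hy1, hw]
      exact hy2 0 (by omega)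
  have hit : ∀ j ≤ q, ∀ x, G^[tim d j] (atP Θ x (ι y)) =
      atP Θ (comps f (fun s => Ψ s (p s)) w d j x) (ι (h^[tim d j] y)) := by
    intro j
    induction j with
    | zero => intro _ x; rfl
    | succ j ih =>
      intro hj x
      have h1 := edge (S := fun z x => cmps Ψ p (fun s => β s z) k x) (T := fun s x => Ψ s (p s) x)
        hG' hS0 hS1 (h^[tim d j] y) (d j) (hN₀.trans (he j (by omega)).1) (by
          intro i hi0 hi s
          have h2 := hy3 j (by omega) i hi0 hi s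
          rw [Nat.add_comm, Function.iterate_add_apply] at h2
          exact h2) (w (j + 1)) (by
          rw [← Function.iterate_add_apply, Nat.add_comm (d j), ← tim_succ]
          exact hyC (j + 1) hj) (comps f (fun s => Ψ s (p s)) w d j x)
      have h3 : tim d (j + 1) = d j + tim d j := by rw [tim_succ, Nat.add_comm]
      rw [h3, Function.iterate_add_apply, ih (by omega), h1, Function.iterate_add_apply]
      rfl
  obtain ⟨hq1, hq2, hq3⟩ := hder q le_rfl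
  have hT1 : 1 ≤ tim d q := by
    obtain ⟨q', rfl⟩ := Nat.exists_eq_add_of_le' hq
    rw [tim_succ]
    have := hN₀.trans (he q' (by omega)).1
    omega
  have hret : ∀ x, G^[tim d q] (atP Θ x (ι y)) =
      atP Θ (comps f (fun s => Ψ s (p s)) w d q x) (ι y) := by
    intro x
    rw [hit q le_rfl, hy1]
  have hfix : G^[tim d q] (atP Θ (a (w 0)) (ι y)) = atP Θ (a (w 0)) (ι y) := by
    rw [hret, hq1, hw]
  obtain ⟨ψ, hψ⟩ := Pool.Agent.W699.SC.gc n N (atP Θ (a (w 0)) (ι y))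
  have hH := hyp G hGU (atP Θ (a (w 0)) (ι y)) ⟨tim d q, hT1, hfix⟩ (tim d q) hT1 hfix ψ hψ.mem
    hψ.src
  refine slice Θ (contMDiff_iterate (contMDiff_one hr G) (tim d q)) hret (by rw [hq1, hw])
    hq2.continuousAt (hχ (w 0)).mem (hab (w 0)).1 ?_ hψ.mem hψ.src hH
  have h20 : χ (w q) = χ (w 0) := by rw [hw]
  rw [← h20]
  rw [h20]
  have h21 := hq3
  rw [hw] at h21
  exact h21

end main

end Nl

end Pool.Agent.H74.PA
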