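import Pool.Agent.H74.PA.Nl
import Pool.Agent.H74.PA.Alg
import Pool.Agent.H74.PA.Stm2
import Pool.Agent.H74.PA.Aff

/-!
# Networks of orbits of the first factor, transitive case
-/

set_option autoImplicit false
set_option linter.unusedSectionVars false

open scoped Manifold ContDiff Topology
open Filter Set Metric

universe u v w x

namespace Pool.Agent.H74.PA

open Pool.Agent.H718R2.G Pool.Agent.TH80.OMS Pool.Agent.W564.SC Pool.Agent.Y271.CP
  Pool.Agent.R775.HL Pool.Agent.H74.PA.Prt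
open Pool.Agent.Y504.CO (NoBdd HypAt)

/-- The sets `C s ⊆ B s` code periodic orbits of `h`. -/
structure Codes {Y : Type x} [MetricSpace Y] (h : Y ≃ₜ Y) (k : ℕ) (C B : Fin k → Set Y)
    (N₀ τ : ℕ) : Prop where
  pos : 1 ≤ N₀
  pos' : 1 ≤ τ
  closed : ∀ s, IsClosed (C s)
  opn : ∀ s, IsOpen (B s)
  sub : ∀ s, C s ⊆ B s
  dis : ∀ s s', s ≠ s' → Disjoint (B s) (B s')
  code : ∀ (q : ℕ) (w : ℕ → Fin k) (l : ℕ → ℕ), 1 ≤ q → (∀ j < q, N₀ ≤ l j) → τ ∣ tim l q →
      ∃ y : Y, h^[tim l q] y = y ∧ (∀ j < q, h^[tim l j] y ∈ C (w j)) ∧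
        ∀ j < q, ∀ i, 0 < i → i < l j → ∀ s, h^[tim l j + i] y ∉ B s

namespace Nl

variable {m l n : ℕ} {M : Type u} [TopologicalSpace M] [T2Space M] [CompactSpace M]
  [ChartedSpace (V m) M] [IsManifold (𝓡 m) ∞ M]
  {L : Type v} [TopologicalSpace L] [T2Space L] [CompactSpace L] [ChartedSpace (V l) L]
  [IsManifold (𝓡 l) ∞ L]
  {N : Type w} [TopologicalSpace N] [T2Space N] [CompactSpace N] [ChartedSpace (V n) N]
  [IsManifold (𝓡 n) ∞ N] {r : ℕ∞}

/-- **Networks.** Every closed path in a network of orbits of the first factor, with small jumps and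
almost isometric linear maps at the jumps, is hyperbolic. -/
theorem nl_core (hAFF : S_AFF.{u}) (hr : 1 ≤ r) (F : DiffM n N r)
    (hF : OmegaStable n N r F) (Θ : ProdDiffeo m l n M L N) (f : DiffM m M r) (g : DiffM l L r)
    (hp : ∀ x y, F (atP Θ x y) = atP Θ (f x) (g y)) {Y : Type x} [MetricSpace Y] [CompactSpace Y]
    [Nonempty Y] (h : Y ≃ₜ Y) (ι : Y → L) (hι : Topology.IsEmbedding ι)
    (hιh : ∀ y, g (ι y) = ι (h y)) (k : ℕ) {C B : Fin k → Set Y} {N₀ τ : ℕ}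
    (hco : Codes h k C B N₀ τ)
    (c : Fin k → M) (χ : Fin k → OpenPartialHomeomorph M (V m))
    (hχ : ∀ s, GoodChart m M (χ s) (c s)) :
    ∃ η : ℝ, 0 < η ∧ ∀ (a b : Fin k → M) (E : Fin k → V m →L[ℝ] V m),
      (∀ s, a s ∈ (χ s).source ∧ b s ∈ (χ s).source ∧ ‖χ s (a s)‖ ≤ η ∧ ‖χ s (b s)‖ ≤ η ∧
        ‖E s - 1‖ ≤ η) →
      ∀ (d : ℕ → ℕ) (A : ℕ → V m →L[ℝ] V m) (w : ℕ → Fin k) (q : ℕ), 1 ≤ q → w q = w 0 →
        (∀ j < q, N₀ ≤ d j ∧ f^[d j] (a (w j)) = b (w (j + 1)) ∧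
          HasFDerivAt (fun v => χ (w (j + 1)) (f^[d j] ((χ (w j)).symm v))) (A j)
            (χ (w j) (a (w j)))) → τ ∣ tim d q →
        NoBdd (fun _ => prodL (fun j => E (w (j + 1)) * A j) q) := by
  obtain ⟨U, hU, hFU, hyp⟩ := stable_hypAt hr hF
  choose Ψ κs hκs hΨ0 hΨ1 hΨ2 hΨ3 using fun s => hAFF m M r (χ s) (c s) (hχ s)
  have hfam : ∀ s, Fam m M r (Ψ s) := fun s => ⟨hΨ0 s, hΨ1 s, hΨ2 s⟩
  obtain ⟨hN₀, -, hC, hB, hCB, hdis, hcod⟩ := hco
  choose β hβ1 hβ2 hβ3 using fun s => exists_cut (l := l) hι (hC s) (hB s) (hCB s)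
  rcases isEmpty_or_nonempty N with hne | ⟨⟨z₀⟩⟩
  · refine ⟨1, one_pos, fun a b E hab d A w q hq hw he hτ => ?_⟩
    obtain ⟨y₁⟩ : Nonempty Y := inferInstance
    exact (hne.false (atP Θ (a (w 0)) (ι y₁))).elim
  obtain ⟨κ, hκ, hpert⟩ := exists_pert hr F Θ f g hp Ψ hfam β hβ1 U hU hFU z₀
  obtain ⟨κ', hκ', hκs'⟩ : ∃ κ' : ℝ, 0 < κ' ∧ ∀ s, κ' ≤ κs s := by
    obtain ⟨c', h1, h2⟩ := Pool.Agent.W216.SC.exists_pos_le Finset.univ κs (fun s _ => hκs s)
    exact ⟨c', h1, fun s => h2 s (Finset.mem_univ s)⟩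
  obtain ⟨η, hη, hη1, hη2, hη3⟩ : ∃ η : ℝ, 0 < η ∧ η ≤ 1 / 8 ∧ 3 * η < κ ∧ 3 * η < κ' := by
    refine ⟨min (1 / 8) (min (κ / 4) (κ' / 4)), by positivity, min_le_left _ _, ?_, ?_⟩
    · have : min (1 / 8) (min (κ / 4) (κ' / 4)) ≤ κ / 4 :=
        (min_le_right _ _).trans (min_le_left _ _)
      linarith
    · have : min (1 / 8) (min (κ / 4) (κ' / 4)) ≤ κ' / 4 :=
        (min_le_right _ _).trans (min_le_right _ _)
      linarith
  refine ⟨η, hη, fun a b E hab d A w q hq hw he hτ => ?_⟩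
  -- the parameters
  let p : Fin k → PP m := fun s => (χ s (a s) - E s (χ s (b s)), E s - 1)
  have hps' : ∀ s, ‖p s‖ ≤ 3 * η := by
    intro s
    obtain ⟨h1, h2, h3, h4, h5⟩ := hab s
    have h6 : χ s (a s) - E s (χ s (b s)) = χ s (a s) - χ s (b s) - (E s - 1) (χ s (b s)) := by
      simp only [sub_apply, one_apply_eq_self]
      abel
    have h7 : ‖(E s - 1) (χ s (b s))‖ ≤ η * η :=
      ((E s - 1).le_opNorm _).trans (mul_le_mul h5 h4 (norm_nonneg _) hη.le)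
    refine max_le ?_ (by linarith)
    show ‖χ s (a s) - E s (χ s (b s))‖ ≤ 3 * η
    rw [h6]
    refine (norm_sub_le _ _).trans ?_
    have h8 := norm_sub_le (χ s (a s)) (χ s (b s))
    nlinarith
  have hpn : ‖p‖ < κ := by
    refine lt_of_le_of_lt ?_ hη2
    exact (pi_norm_le_iff_of_nonneg (by positivity)).2 hps'
  obtain ⟨G, hGU, hG⟩ := hpert p hpn
  -- the transitions
  have hTf : ∀ s, ∀ y ∈ (χ s).source, ‖χ s y‖ < 1 / 4 → Ψ s (p s) y ∈ (χ s).source ∧
      χ s (Ψ s (p s) y) = χ s (a s) + E s (χ s y - χ s (b s)) := by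
    intro s y hy hy4
    obtain ⟨h1, h2⟩ := hΨ3 s (p s) ((hps' s).trans_lt (hη3.trans_le (hκs' s))) y hy hy4
    refine ⟨h1, ?_⟩
    rw [h2]
    show χ s y + ((χ s (a s) - E s (χ s (b s))) + (E s - 1) (χ s y)) = _
    simp only [sub_apply, one_apply_eq_self, map_sub]
    abel
  have hTb : ∀ s, Ψ s (p s) (b s) = a s := by
    intro s
    obtain ⟨h1, h2, h3, h4, h5⟩ := hab s
    obtain ⟨h6, h7⟩ := hTf s (b s) h2 (by linarith)
    refine (χ s).injOn h6 h1 ?_
    rw [h7, sub_self, map_zero, add_zero]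
  have hTE : ∀ s, ∀ᶠ x in 𝓝 (b s), χ s (Ψ s (p s) x) = χ s (a s) + E s (χ s x - χ s (b s)) := by
    intro s
    obtain ⟨h1, h2, h3, h4, h5⟩ := hab s
    have h6 : ∀ᶠ x in 𝓝 (b s), ‖χ s x‖ < 1 / 4 :=
      ((χ s).continuousAt h2).norm.eventually_lt continuousAt_const (by linarith)
    filter_upwards [(χ s).open_source.mem_nhds h2, h6] with x hx hx'
    exact (hTf s x hx hx').2
  have hder := comps_deriv (f := f) f.continuous (T := fun s => Ψ s (p s))
    (fun s => (Ψ s (p s)).continuous) (d := d) (fun s => (hab s).1) (fun s => (hab s).2.1) hTb hTE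
    (fun j hj => (he j hj).2)
  -- the coded periodic point
  obtain ⟨y, hy1, hy2, hy3⟩ := hcod q w d hq (fun j hj => (he j hj).1) hτ
  have hS0 : ∀ y, (∀ s, y ∉ B s) → ∀ x, cmps Ψ p (fun s => β s (ι y)) k x = x := by
    intro y hy x
    exact cmp_zero hfam p _ k (fun s _ => hβ3 s y (hy s)) x
  have hS1 : ∀ s, ∀ y ∈ C s, ∀ x, cmps Ψ p (fun s => β s (ι y)) k x = Ψ s (p s) x := by
    intro s y hy x
    refine cmp_one hfam p _ s (hβ2 s y hy) (fun s' hs' => hβ3 s' y fun h1 => ?_) x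
    exact (Set.disjoint_left.1 (hdis s' s hs')) h1 (hCB s hy)
  have hG' : ∀ x y, G (atP Θ x (ι y)) =
      atP Θ (cmps Ψ p (fun s => β s (ι (h y))) k (f x)) (ι (h y)) := by
    intro x y
    rw [hG, hιh]
  have hyC : ∀ j ≤ q, h^[tim d j] y ∈ C (w j) := by
    intro j hj
    rcases hj.lt_or_eq with hj | rfl
    · exact hy2 j hj
    · rw [hy1, hw]
      exact hy2 0 (by omega)
  have hit : ∀ j ≤ q, ∀ x, G^[tim d j] (atP Θ x (ι y)) =
      atP Θ (comps f (fun s => Ψ s (p s)) w d j x) (ι (h^[tim d j] y)) := by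
    intro j
    induction j with
    | zero => intro _ x; rfl
    | succ j ih =>
      intro hj x
      have h1 := edge (S := fun z x => cmps Ψ p (fun s => β s z) k x) (T := fun s x => Ψ s (p s) x)
        hG' hS0 hS1 (h^[tim d j] y) (d j) (hN₀.trans (he j (by omega)).1) (by
          intro i hi0 hi s
          have h2 := hy3 j (by omega) i hi0 hi s
          rw [Nat.add_comm, Function.iterate_add_apply] at h2
          exact h2) (w (j + 1)) (by
          rw [← Function.iterate_add_apply, Nat.add_comm (d j), ← tim_succ]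
          exact hyC (j + 1) hj) (comps f (fun s => Ψ s (p s)) w d j x)
      have h3 : tim d (j + 1) = d j + tim d j := by rw [tim_succ, Nat.add_comm]
      rw [h3, Function.iterate_add_apply, ih (by omega), h1, Function.iterate_add_apply]
      rfl
  obtain ⟨hq1, hq2, hq3⟩ := hder q le_rfl
  have hT1 : 1 ≤ tim d q := by
    obtain ⟨q', rfl⟩ := Nat.exists_eq_add_of_le' hq
    rw [tim_succ]
    have := hN₀.trans (he q' (by omega)).1
    omega
  have hret : ∀ x, G^[tim d q] (atP Θ x (ι y)) =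
      atP Θ (comps f (fun s => Ψ s (p s)) w d q x) (ι y) := by
    intro x
    rw [hit q le_rfl, hy1]
  have hfix : G^[tim d q] (atP Θ (a (w 0)) (ι y)) = atP Θ (a (w 0)) (ι y) := by
    rw [hret, hq1, hw]
  obtain ⟨ψ, hψ⟩ := Pool.Agent.W699.SC.gc n N (atP Θ (a (w 0)) (ι y))
  have hH := hyp G hGU (atP Θ (a (w 0)) (ι y)) ⟨tim d q, hT1, hfix⟩ (tim d q) hT1 hfix ψ hψ.mem
    hψ.src
  refine slice Θ (contMDiff_iterate (contMDiff_one hr G) (tim d q)) hret (by rw [hq1, hw])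
    hq2.continuousAt (hχ (w 0)).mem (hab (w 0)).1 ?_ hψ.mem hψ.src hH
  have h20 : χ (w q) = χ (w 0) := by rw [hw]
  rw [← h20]
  rw [h20]
  have h21 := hq3
  rw [hw] at h21
  exact h21

lemma prodL_congr {B B' : ℕ → V m →L[ℝ] V m} (n : ℕ) (h : ∀ j < n, B j = B' j) :
    prodL B n = prodL B' n := by
  induction n with
  | zero => rfl
  | succ n ih =>
    show B n * prodL B n = B' n * prodL B' n
    rw [h n (Nat.lt_succ_self n), ih fun j hj => h j (by omega)]

lemma noBdd_pow {X : V m →L[ℝ] V m} {t : ℕ} (h : NoBdd (fun _ => X ^ t)) :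
    NoBdd (fun _ => X) := by
  intro v ⟨C, hC⟩ hv i
  have h1 : ∀ (t : ℕ) (j : ℤ), (X ^ t) (v j) = v (j + t) := by
    intro t
    induction t with
    | zero => intro j; simp
    | succ t ih =>
      intro j
      rw [pow_succ']
      show X ((X ^ t) (v j)) = _
      rw [ih, ← hv]
      push_cast
      ring_nf
  have h2 := h (fun j => v (i + t * j)) ⟨C, fun j => hC _⟩ (fun j => by
    show v (i + t * (j + 1)) = (X ^ t) (v (i + t * j))
    rw [h1]
    ring_nf) 0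
  simpa using h2

lemma tim_rep {d : ℕ → ℕ} {q : ℕ} (t : ℕ) :
    tim (fun j => d (j % q)) (q * t) = t * tim d q := by
  induction t with
  | zero => simp [tim]
  | succ t ih =>
    have h1 : tim (fun j => d (j % q)) (q * t + q) = tim (fun j => d (j % q)) (q * t) +
        ∑ i ∈ Finset.range q, d ((q * t + i) % q) := Finset.sum_range_add _ _ _
    have h2 : ∑ i ∈ Finset.range q, d ((q * t + i) % q) = tim d q := by
      refine Finset.sum_congr rfl fun i hi => ?_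
      rw [Nat.mul_add_mod, Nat.mod_eq_of_lt (Finset.mem_range.1 hi)]
    rw [Nat.mul_succ, h1, h2, ih]
    ring

lemma prodL_rep {B : ℕ → V m →L[ℝ] V m} {q : ℕ} (t : ℕ) :
    prodL (fun j => B (j % q)) (q * t) = prodL B q ^ t := by
  induction t with
  | zero => rfl
  | succ t ih =>
    rw [Nat.mul_succ, Alg.prodL_add, ih, pow_succ']
    congr 1
    refine prodL_congr q fun j hj => ?_
    rw [Nat.mul_add_mod, Nat.mod_eq_of_lt hj]

/-- **Networks, transitive case.** -/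
theorem nl2 (hAFF : S_AFF.{u}) (hCOD : S_COD2.{x}) (hr : 1 ≤ r) (F : DiffM n N r)
    (hF : OmegaStable n N r F) (Θ : ProdDiffeo m l n M L N) (f : DiffM m M r) (g : DiffM l L r)
    (hp : ∀ x y, F (atP Θ x y) = atP Θ (f x) (g y)) {Y : Type x} [MetricSpace Y] [CompactSpace Y]
    [Infinite Y] (h : Y ≃ₜ Y) (hps : PerShadow h) (hct : ChainTrans h) (hex : Expans h)
    (ι : Y → L) (hι : Topology.IsEmbedding ι) (hιh : ∀ y, g (ι y) = ι (h y)) (k : ℕ)
    (c : Fin k → M) (χ : Fin k → OpenPartialHomeomorph M (V m))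
    (hχ : ∀ s, GoodChart m M (χ s) (c s)) :
    ∃ (η : ℝ) (N₀ : ℕ), 0 < η ∧ 1 ≤ N₀ ∧ ∀ (a b : Fin k → M) (E : Fin k → V m →L[ℝ] V m),
      (∀ s, a s ∈ (χ s).source ∧ b s ∈ (χ s).source ∧ ‖χ s (a s)‖ ≤ η ∧ ‖χ s (b s)‖ ≤ η ∧
        ‖E s - 1‖ ≤ η) →
      ∀ (d : ℕ → ℕ) (A : ℕ → V m →L[ℝ] V m) (w : ℕ → Fin k) (q : ℕ), 1 ≤ q → w q = w 0 →
        (∀ j < q, N₀ ≤ d j ∧ f^[d j] (a (w j)) = b (w (j + 1)) ∧
          HasFDerivAt (fun v => χ (w (j + 1)) (f^[d j] ((χ (w j)).symm v))) (A j)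
            (χ (w j) (a (w j)))) →
        NoBdd (fun _ => prodL (fun j => E (w (j + 1)) * A j) q) := by
  obtain ⟨C, B, N₀, τ, hN₀, hτ, hC, hB, hCB, hdis, hcod⟩ := hCOD Y h hps hct hex k
  obtain ⟨η, hη, hcore⟩ := nl_core hAFF hr F hF Θ f g hp h ι hι hιh k
    ⟨hN₀, hτ, hC, hB, hCB, hdis, hcod⟩ c χ hχ
  refine ⟨η, N₀, hη, hN₀, fun a b E hab d A w q hq hw he => ?_⟩
  have hw' : ∀ j, w ((j + 1) % q) = w (j % q + 1) := by
    intro j
    have h1 : j % q < q := Nat.mod_lt _ hq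
    rcases (show j % q + 1 ≤ q from h1).lt_or_eq with h2 | h2
    · have h3 : (j + 1) % q = j % q + 1 := by
        rw [Nat.add_mod, Nat.mod_eq_of_lt (show 1 < q by omega), Nat.mod_eq_of_lt h2]
      rw [h3]
    · have h3 : (j + 1) % q = 0 := by
        obtain ⟨c', hc'⟩ : ∃ c', j = q * c' + j % q := ⟨j / q, (Nat.div_add_mod j q).symm⟩
        have h4 : j + 1 = q * (c' + 1) := by
          calc j + 1 = q * c' + (j % q + 1) := by omega
            _ = q * c' + q := by rw [h2]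
            _ = q * (c' + 1) := by ring
        rw [h4, Nat.mul_mod_right]
      rw [h3, h2, hw]
  refine noBdd_pow (t := τ) ?_
  have h1 := hcore a b E hab (fun j => d (j % q)) (fun j => A (j % q)) (fun j => w (j % q))
    (q * τ) (Nat.mul_pos hq hτ) (by
      show w (q * τ % q) = w (0 % q)
      rw [Nat.mul_mod_right, Nat.zero_mod]) (fun j hj => by
      have h2 := he (j % q) (Nat.mod_lt _ hq)
      show N₀ ≤ d (j % q) ∧ f^[d (j % q)] (a (w (j % q))) = b (w ((j + 1) % q)) ∧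
        HasFDerivAt (fun v => χ (w ((j + 1) % q)) (f^[d (j % q)] ((χ (w (j % q))).symm v)))
          (A (j % q)) (χ (w (j % q)) (a (w (j % q))))
      rw [hw']
      exact h2) (by
      rw [tim_rep]
      exact Nat.dvd_mul_right _ _)
  have h2 : (fun j => E (w ((j + 1) % q)) * A (j % q)) =
      fun j => (fun i => E (w (i + 1)) * A i) (j % q) := by
    funext j
    show E (w ((j + 1) % q)) * A (j % q) = E (w (j % q + 1)) * A (j % q)
    rw [hw']
  have h3 : prodL (fun j => E (w ((j + 1) % q)) * A (j % q)) (q * τ) =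
      prodL (fun j => E (w (j + 1)) * A j) q ^ τ := by
    rw [h2]
    exact prodL_rep (B := fun i => E (w (i + 1)) * A i) τ
  rw [← h3]
  exact h1

end Nl

end Pool.Agent.H74.PA
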