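import Pool.Agent.H74.PA.Stm
import Pool.Agent.H74.G.R_seed8.W564.SC.Lib

/-!
# Perturbations of product maps
-/

set_option autoImplicit false
set_option linter.unusedSectionVars false

open scoped Manifold ContDiff Topology
open Filter Set Metric

universe u v w

namespace Pool.Agent.H74.PA.Prt

open Pool.Agent.H718R2.G Pool.Agent.TH80.OMS Pool.Agent.W564.SC Pool.Agent.Y271.CP
  Pool.Agent.R775.HL Pool.Agent.H74.PA

/-- parameters of affine maps -/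
abbrev PP (m : ℕ) := V m × (V m →L[ℝ] V m)

/-- a smooth family of diffeomorphisms -/
structure Fam (m : ℕ) (M : Type u) [TopologicalSpace M] [ChartedSpace (V m) M] (r : ℕ∞)
    (Ψ : PP m → DiffM m M r) : Prop where
  zero : ∀ y, Ψ 0 y = y
  smooth : ContMDiff (𝓘(ℝ, PP m).prod (𝓡 m)) (𝓡 m) r (fun q : PP m × M => Ψ q.1 q.2)
  smooth' : ContMDiff (𝓘(ℝ, PP m).prod (𝓡 m)) (𝓡 m) r (fun q : PP m × M => (Ψ q.1).symm q.2)

section

variable {m l n : ℕ} {M : Type u} [TopologicalSpace M] [ChartedSpace (V m) M]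
  {L : Type v} [TopologicalSpace L] [ChartedSpace (V l) L]
  {N : Type w} [TopologicalSpace N] [ChartedSpace (V n) N] {r : ℕ∞}

/-- the fibrewise map -/
noncomputable def fw (Θ : ProdDiffeo m l n M L N) (β : L → ℝ) (Φ : PP m → M → M) (p : PP m)
    (z : N) : N :=
  Θ (Φ (β (Θ.symm z).2 • p) (Θ.symm z).1, (Θ.symm z).2)

lemma fw_at (Θ : ProdDiffeo m l n M L N) (β : L → ℝ) (Φ : PP m → M → M) (p : PP m)
    (x : M) (y : L) : fw Θ β Φ p (atP Θ x y) = atP Θ (Φ (β y • p) x) y := by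
  unfold fw atP
  rw [Θ.symm_apply_apply]

lemma fw_smooth (Θ : ProdDiffeo m l n M L N) {β : L → ℝ} (hβ : ContMDiff (𝓡 l) 𝓘(ℝ, ℝ) ∞ β)
    {Φ : PP m → M → M}
    (hΦ : ContMDiff (𝓘(ℝ, PP m).prod (𝓡 m)) (𝓡 m) r (fun q : PP m × M => Φ q.1 q.2)) :
    ContMDiff (𝓘(ℝ, PP m).prod (𝓡 n)) (𝓡 n) r (fun q : PP m × N => fw Θ β Φ q.1 q.2) := by
  have hr : ((r : ℕ∞) : WithTop ℕ∞) ≤ ∞ := by exact_mod_cast le_top
  have h1 : ContMDiff (𝓘(ℝ, PP m).prod (𝓡 n)) ((𝓡 m).prod (𝓡 l)) r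
      (fun q : PP m × N => Θ.symm q.2) := (Θ.symm.contMDiff_toFun.of_le hr).comp contMDiff_snd
  have h2 : ContMDiff (𝓘(ℝ, PP m).prod (𝓡 n)) (𝓡 m) r
      (fun q : PP m × N => (Θ.symm q.2).1) := contMDiff_fst.comp h1
  have h3 : ContMDiff (𝓘(ℝ, PP m).prod (𝓡 n)) (𝓡 l) r
      (fun q : PP m × N => (Θ.symm q.2).2) := contMDiff_snd.comp h1
  have h4 : ContMDiff (𝓘(ℝ, PP m).prod (𝓡 n)) 𝓘(ℝ, PP m) r
      (fun q : PP m × N => β (Θ.symm q.2).2 • q.1) :=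
    ((hβ.of_le hr).comp h3).smul contMDiff_fst
  exact (Θ.contMDiff_toFun.of_le hr).comp ((hΦ.comp (h4.prodMk h2)).prodMk h3)

/-- the fibrewise diffeomorphism -/
noncomputable def fwD (Θ : ProdDiffeo m l n M L N) {β : L → ℝ}
    (hβ : ContMDiff (𝓡 l) 𝓘(ℝ, ℝ) ∞ β) {Ψ : PP m → DiffM m M r} (hΨ : Fam m M r Ψ) (p : PP m) :
    DiffM n N r where
  toFun := fw Θ β (fun p x => Ψ p x) p
  invFun := fw Θ β (fun p x => (Ψ p).symm x) p
  left_inv := by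
    intro z
    obtain ⟨⟨x, y⟩, rfl⟩ := Θ.surjective z
    change fw Θ β (fun p x => (Ψ p).symm x) p (fw Θ β (fun p x => Ψ p x) p (atP Θ x y)) =
      atP Θ x y
    rw [fw_at Θ β (fun p x => Ψ p x) p x y, fw_at Θ β (fun p x => (Ψ p).symm x) p _ y]
    congr 1
    exact (Ψ (β y • p)).symm_apply_apply x
  right_inv := by
    intro z
    obtain ⟨⟨x, y⟩, rfl⟩ := Θ.surjective z
    change fw Θ β (fun p x => Ψ p x) p (fw Θ β (fun p x => (Ψ p).symm x) p (atP Θ x y)) =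
      atP Θ x y
    rw [fw_at Θ β (fun p x => (Ψ p).symm x) p x y, fw_at Θ β (fun p x => Ψ p x) p _ y]
    congr 1
    exact (Ψ (β y • p)).apply_symm_apply x
  contMDiff_toFun := (fw_smooth (Φ := fun p x => Ψ p x) Θ hβ hΨ.smooth).comp
    (contMDiff_const.prodMk contMDiff_id)
  contMDiff_invFun := (fw_smooth (Φ := fun p x => (Ψ p).symm x) Θ hβ hΨ.smooth').comp
    (contMDiff_const.prodMk contMDiff_id)

lemma fwD_apply (Θ : ProdDiffeo m l n M L N) {β : L → ℝ}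
    (hβ : ContMDiff (𝓡 l) 𝓘(ℝ, ℝ) ∞ β) {Ψ : PP m → DiffM m M r} (hΨ : Fam m M r Ψ) (p : PP m)
    (z : N) : fwD Θ hβ hΨ p z = fw Θ β (fun p x => Ψ p x) p z := rfl

lemma fwD_at (Θ : ProdDiffeo m l n M L N) {β : L → ℝ}
    (hβ : ContMDiff (𝓡 l) 𝓘(ℝ, ℝ) ∞ β) {Ψ : PP m → DiffM m M r} (hΨ : Fam m M r Ψ) (p : PP m)
    (x : M) (y : L) : fwD Θ hβ hΨ p (atP Θ x y) = atP Θ (Ψ (β y • p) x) y := by
  rw [fwD_apply, fw_at Θ β (fun p x => Ψ p x) p x y]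

/-- composition of the first `j` maps of a family -/
noncomputable def cmps {k : ℕ} (Ψ : Fin k → PP m → DiffM m M r) (p : Fin k → PP m)
    (β : Fin k → ℝ) : ℕ → M → M
  | 0, x => x
  | j + 1, x => if h : j < k then Ψ ⟨j, h⟩ (β ⟨j, h⟩ • p ⟨j, h⟩) (cmps Ψ p β j x)
      else cmps Ψ p β j x

/-- **Fibrewise perturbations are small.** -/
theorem exists_pert [T2Space N] [CompactSpace N] [IsManifold (𝓡 n) ∞ N] (hr : 1 ≤ r)
    (F : DiffM n N r) (Θ : ProdDiffeo m l n M L N) (f : M → M) (g : L → L)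
    (hF : ∀ x y, F (atP Θ x y) = atP Θ (f x) (g y)) {k : ℕ} (Ψ : Fin k → PP m → DiffM m M r)
    (hΨ : ∀ s, Fam m M r (Ψ s)) (β : Fin k → L → ℝ)
    (hβ : ∀ s, ContMDiff (𝓡 l) 𝓘(ℝ, ℝ) ∞ (β s)) (U : Set (DiffM n N r))
    (hU : IsOpen[strongTop n N r] U) (hFU : F ∈ U) (z₀ : N) :
    ∃ κ : ℝ, 0 < κ ∧ ∀ p : Fin k → PP m, ‖p‖ < κ → ∃ G ∈ U, ∀ x y,
      G (atP Θ x y) = atP Θ (cmps Ψ p (fun s => β s (g y)) k (f x)) (g y) := by
  have hr' : ((r : ℕ∞) : WithTop ℕ∞) ≤ ∞ := by exact_mod_cast le_top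
  have key : ∀ j : ℕ, ∃ H : (Fin k → PP m) → DiffM n N r, H 0 = F ∧
      ContMDiff (𝓘(ℝ, Fin k → PP m).prod (𝓡 n)) (𝓡 n) r
        (fun q : (Fin k → PP m) × N => H q.1 q.2) ∧
      ∀ p x y, H p (atP Θ x y) = atP Θ (cmps Ψ p (fun s => β s (g y)) j (f x)) (g y) := by
    intro j
    induction j with
    | zero =>
      exact ⟨fun _ => F, rfl, F.contMDiff_toFun.comp contMDiff_snd, fun p x y => hF x y⟩
    | succ j ih =>
      obtain ⟨H, hH0, hH1, hH2⟩ := ih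
      by_cases h : j < k
      · refine ⟨fun p => (H p).trans (fwD Θ (hβ ⟨j, h⟩) (hΨ ⟨j, h⟩) (p ⟨j, h⟩)), ?_, ?_, ?_⟩
        · apply DFunLike.ext
          intro z
          obtain ⟨⟨x, y⟩, rfl⟩ := Θ.surjective z
          show fwD Θ (hβ ⟨j, h⟩) (hΨ ⟨j, h⟩) ((0 : Fin k → PP m) ⟨j, h⟩) (H 0 (atP Θ x y)) =
            F (atP Θ x y)
          have h0 : β ⟨j, h⟩ (g y) • ((0 : Fin k → PP m) ⟨j, h⟩) = (0 : PP m) := by
            rw [Pi.zero_apply]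
            refine Prod.ext (smul_zero (β ⟨j, h⟩ (g y))) (ContinuousLinearMap.ext fun v => ?_)
            exact smul_zero (β ⟨j, h⟩ (g y))
          rw [hH0, hF, fwD_at, h0, (hΨ ⟨j, h⟩).zero]
        · have h1 : ContMDiff (𝓘(ℝ, Fin k → PP m).prod (𝓡 n)) (𝓘(ℝ, PP m).prod (𝓡 n)) r
              (fun q : (Fin k → PP m) × N => (q.1 ⟨j, h⟩, H q.1 q.2)) := by
            refine ContMDiff.prodMk ?_ hH1
            have h2 : ContMDiff 𝓘(ℝ, Fin k → PP m) 𝓘(ℝ, PP m) r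
                (fun p : Fin k → PP m => p ⟨j, h⟩) :=
              (contDiff_apply ℝ (PP m) (⟨j, h⟩ : Fin k)).contMDiff
            exact h2.comp contMDiff_fst
          exact (fw_smooth (Φ := fun p x => Ψ ⟨j, h⟩ p x) Θ (hβ ⟨j, h⟩) (hΨ ⟨j, h⟩).smooth).comp h1
        · intro p x y
          show fwD Θ (hβ ⟨j, h⟩) (hΨ ⟨j, h⟩) (p ⟨j, h⟩) (H p (atP Θ x y)) = _
          rw [hH2, fwD_at]
          simp only [cmps, dif_pos h]
      · refine ⟨H, hH0, hH1, fun p x y => ?_⟩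
        rw [hH2]
        simp only [cmps, dif_neg h]
  obtain ⟨H, hH0, hH1, hH2⟩ := key k
  obtain ⟨χ, hχ⟩ := Pool.Agent.W699.SC.gc n N z₀
  obtain ⟨j, hj1, hjr, κ, hκ, hN⟩ := t_NBHD n N r hr (Fin k → PP m) H
    (fun y => hH1.contMDiffAt) χ z₀ hχ U hU (by rw [hH0]; exact hFU)
  refine ⟨κ, hκ, fun p hp => ?_⟩
  obtain hrefl := Pool.Agent.W923.SC.isPush_refl (n := n) (N := N) (r := r) χ
  refine ⟨(H p).trans (Diffeomorph.refl (𝓡 n) N r), hN p 0 _ hp ?_ hrefl, fun x y => ?_⟩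
  · exact Pool.Agent.W923.SC.small_mono Pool.Agent.W923.SC.small_zero le_rfl hκ.le
  · exact hH2 p x y

end

end Pool.Agent.H74.PA.Prt
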